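import Pool.Agent.D0H95.BF.Stm4

/-!
Statements for the elliptic Lagrange solutions outside of a discrete set of eccentricities
(helper95, MP_5027f4_mp).
-/

set_option autoImplicit false

open Filter Topology Set
open Pool.Agent.W821.TB Pool.Agent.D0H95.NB

namespace Pool.Agent.D0H95.BF

/-- `M` is diagonalizable over `ℂ` (by left eigenvectors `φ i`) and has a multiplier of modulus
greater than one. -/
def HypData (M : ℂ × ℂ →L[ℝ] ℂ × ℂ) : Prop :=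
  ∃ (φ : Fin 4 → (ℂ × ℂ →L[ℝ] ℂ)) (l : Fin 4 → ℂ), (∀ i v, φ i (M v) = l i * φ i v) ∧
    (∀ v, (∀ i, φ i v = 0) → v = 0) ∧ ∃ i, 1 < ‖l i‖ ∧ φ i ≠ 0

/-- `M` has two elliptic pairs. -/
def EllData (M : ℂ × ℂ →L[ℝ] ℂ × ℂ) : Prop :=
  ∃ α β : ℝ, Real.sin α ≠ 0 ∧ Real.sin β ≠ 0 ∧ Real.cos α ≠ Real.cos β ∧
    (∃ q s : ℂ × ℂ, q ≠ 0 ∧ M q = Real.cos α • q - Real.sin α • s ∧
      M s = Real.sin α • q + Real.cos α • s) ∧
    (∃ q s : ℂ × ℂ, q ≠ 0 ∧ M q = Real.cos β • q - Real.sin β • s ∧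
      M s = Real.sin β • q + Real.cos β • s)

/-- The trace. -/
noncomputable def tr (M : ℂ × ℂ →L[ℝ] ℂ × ℂ) : ℝ :=
  LinearMap.trace ℝ (ℂ × ℂ) (M : ℂ × ℂ →ₗ[ℝ] ℂ × ℂ)

/-- The second coefficient of the characteristic polynomial. -/
noncomputable def b2 (M : ℂ × ℂ →L[ℝ] ℂ × ℂ) : ℝ := (tr M ^ 2 - tr (M.comp M)) / 2

/-- The nondegeneracy function: for symplectic `M` the characteristic polynomial is
`x⁴ - a x³ + b x² - a x + 1`, `a = tr M`, `b = b2 M`, and `nd M ≠ 0` iff it has four different roots,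
all different from `± 1` (`a² - 4 b + 8` is the discriminant of `z² - a z + b - 2`, `z = x + 1 / x`, and
`(b + 2)² - 4 a²` is the product of the values at `x = ± 1`). -/
noncomputable def nd (M : ℂ × ℂ →L[ℝ] ℂ × ℂ) : ℝ :=
  (tr M ^ 2 - 4 * b2 M + 8) * ((b2 M + 2) ^ 2 - 4 * tr M ^ 2)

/-- Module CONE: a perturbed linear sequence grows along the unstable directions.

Proof. `U = {i | 1 < ‖l i‖}`, `|v|_u = sup_{i ∈ U} ‖φ i v‖`, `|v|_s = sup_{i ∉ U} ‖φ i v‖` (`0` if empty),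
`μ > 1` the minimum of `‖l i‖`, `i ∈ U`. Joint injectivity gives `‖v‖ ≤ K max (|v|_u, |v|_s)`; let `L` bound
all `‖φ i‖`, and `μ - ε K L ≥ 1 + ε K L`, `μ - ε K L > 1`. If `|w n|_s ≤ |w n|_u` then `|w (n+1)|_u ≥ (μ - ε K L) |w n|_u` and
`|w (n+1)|_s ≤ (1 + ε K L) |w n|_u ≤ |w (n+1)|_u`. So `|w n|_u ≥ (μ - ε K L)^n |w 0|_u`. The vector `v0` in
the cone: `M^k v` for any `v` with `φ i v ≠ 0`, `i ∈ U`, and `k` large. -/
def S_CONE : Prop := ∀ M : ℂ × ℂ →L[ℝ] ℂ × ℂ, HypData M → ∃ v0 : ℂ × ℂ, v0 ≠ 0 ∧ ∃ ε : ℝ, 0 < ε ∧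
  ∀ w : ℕ → ℂ × ℂ, (∃ s : ℝ, s ≠ 0 ∧ w 0 = s • v0) →
    (∀ n, ‖w (n + 1) - M (w n)‖ ≤ ε * ‖w n‖) → ∀ C : ℝ, ∃ n, C < ‖w n‖

/-- Module DICH: a nondegenerate symplectic operator in dimension four is hyperbolic (one multiplier of
modulus `> 1`) or has two elliptic pairs.

Proof. Real coordinates of `ℂ × ℂ = ℝ⁴`: `ω` is the standard form `ω (x, y) = re (conj x.1 * y.2) -
re (conj y.1 * x.2)`; `Mᵀ J M = J`, so the matrix of `M` has determinant `1` (`Pf (Mᵀ J M) = det M`, a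
polynomial identity) and the characteristic polynomial `p = x⁴ - a x³ + b x² - a x + 1`; or directly:
`M⁻¹ = - J Mᵀ J`, `Z = M + M⁻¹` has the form `((A, c J₂), (d J₂, Aᵀ))` and satisfies a quadratic equation
`Z² - a Z + (b - 2) = 0`. By `nd M ≠ 0` the polynomial `p` has four different complex roots `l i ≠ ± 1`.
Each is an eigenvalue of the transposed complex matrix; the four left eigenvectors are linearly independent,
so they give the `φ i` (all nonzero, jointly injective). If some `‖l i‖ > 1`: `HypData M`. Otherwise, as the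
product of the roots is `1`, all have modulus `1`; they are not real, so they are `exp (± i α)`,
`exp (± i β)` with `cos α ≠ cos β`, and real and imaginary parts of eigenvectors give the pairs (if
`M (q + i s) = exp (i α) (q + i s)` then `M q = cos α q - sin α s`, `M s = sin α q + cos α s`; `q ≠ 0`
since otherwise `sin α s = 0`). -/
def S_DICH : Prop := ∀ M : ℂ × ℂ →L[ℝ] ℂ × ℂ,
  (∀ x y : ℂ × ℂ, ((starRingEnd ℂ) (M x).1 * (M y).2).re - ((starRingEnd ℂ) (M y).1 * (M x).2).re =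
    ((starRingEnd ℂ) x.1 * y.2).re - ((starRingEnd ℂ) y.1 * x.2).re) →
  nd M ≠ 0 → HypData M ∨ EllData M

/-- Module NDG: nondegeneracy of the circular problem.

Proof. `β = 9 - 4 κ² ∉ {3/4, 1, 9}`, `0 < β < 9`. Let `s² = 1 - β`, `l₁² = (1 - s)/2`, `l₂² = (1 + s)/2`
(complex). For each of the four different roots `l = ± l₁, ± l₂` of `l⁴ - l² + β/4 = 0` the functions
`X = κ e^{ilu}`, `Y = -(l² + 2 l + 3/2) e^{ilu}` solve the complexified system (`ζ = X`, `conj ζ = Y`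
independent), so `e^{2 π i l}` are the four eigenvalues of the complexification of `N0` (four independent
eigenvectors), `tr N0 = 2 c₁ + 2 c₂`, `tr N0² = 2 (2 c₁² - 1) + 2 (2 c₂² - 1)`, `c_j = cos (2 π l_j)`,
`b2 = 2 + 4 c₁ c₂`, `nd = 64 (c₁ - c₂)² (1 - c₁²) (1 - c₂²)`. `c₁ = c₂` iff `l₁ ± l₂ ∈ ℤ`:
`(l₁ ± l₂)² = 1 ± 2 l₁ l₂ = 1 ± √β`, which is the square of an integer only for `β = 0, 1, 9, 64, ...`;
`1 - c_j² = 0` iff `2 l_j ∈ ℤ`: `4 l_j² = 2 ∓ 2 s = n²`, `s = ± (n² - 2)/2`,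
`β = 1 - s² = n² (4 - n²) / 4 ∈ {0, 3/4, 0, < 0}`. -/
def S_NDG : Prop := ∀ κ : ℝ, κ ^ 2 < 9 / 4 → κ ≠ 0 → κ ^ 2 ≠ 2 → κ ^ 2 ≠ 33 / 16 →
  ∀ N0 : ℂ × ℂ →L[ℝ] ℂ × ℂ,
    (∀ ζ η : ℝ → ℂ, (∀ u, HasDerivAt ζ (η u) u) →
      (∀ u, HasDerivAt η (3 / 2 * ζ u + κ * (starRingEnd ℂ) (ζ u) - 2 * Complex.I * η u) u) →
      N0 (ζ 0, η 0) = (ζ (2 * Real.pi), η (2 * Real.pi))) → nd N0 ≠ 0

end Pool.Agent.D0H95.BF
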