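import Pool.Agent.D0H95.BF.Stm5

/-!
One more statement for the elliptic Lagrange solutions (helper95, MP_5027f4_mp).
-/

set_option autoImplicit false

namespace Pool.Agent.D0H95.BF

/-- Module FOUR: four different eigenvalues, all different from `± 1`, imply nondegeneracy.

Proof. The four eigenvectors `q j + i s j` of the complexification of `M` (dimension four) are a basis, so
`tr M = ∑ μ j`, `tr (M.comp M) = ∑ (μ j)²`. `M` is symplectic, hence conjugate to the transposed inverse, so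
the set of the eigenvalues is invariant under `μ ↦ 1 / μ` (directly: if `M v = μ v` then the functional
`ω (v, ·)` satisfies `ω (v, M y) = μ⁻¹ ω (v, y)`, a left eigenvector for `μ⁻¹`; or: `ω (v_i, v_j) ≠ 0` for
some `j` since the form is nondegenerate and the `v_j` are a basis, and `ω (M v_i, M v_j) = μ_i μ_j
ω (v_i, v_j)` gives `μ_i μ_j = 1`; `j ≠ i` as `μ_i ≠ ± 1`, and `j` is unique). So the eigenvalues are
`μ, 1/μ, ν, 1/ν`; `z₁ = μ + 1/μ ≠ z₂ = ν + 1/ν`, `tr M = z₁ + z₂`, `tr M² = z₁² + z₂² - 4`,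
`b2 M = z₁ z₂ + 2`, `nd M = (z₁ - z₂)² (z₁² - 4) (z₂² - 4)`. -/
def S_FOUR : Prop := ∀ M : ℂ × ℂ →L[ℝ] ℂ × ℂ,
  (∀ x y : ℂ × ℂ, ((starRingEnd ℂ) (M x).1 * (M y).2).re - ((starRingEnd ℂ) (M y).1 * (M x).2).re =
    ((starRingEnd ℂ) x.1 * y.2).re - ((starRingEnd ℂ) y.1 * x.2).re) →
  ∀ μ : Fin 4 → ℂ, Function.Injective μ → (∀ j, μ j ≠ 1 ∧ μ j ≠ -1) →
    (∀ j, ∃ q s : ℂ × ℂ, (q ≠ 0 ∨ s ≠ 0) ∧ M q = (μ j).re • q - (μ j).im • s ∧
      M s = (μ j).im • q + (μ j).re • s) → nd M ≠ 0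

end Pool.Agent.D0H95.BF
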