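import Pool.Agent.D0H95.BF.LS

/-!
The abstract bifurcation theorem.
-/

set_option autoImplicit false

open Filter Topology Set

namespace Pool.Agent.D0H95.BF

section Bif

variable {E : Type} [NormedAddCommGroup E] [NormedSpace ℝ E] [FiniteDimensional ℝ E]
variable {K : Type} [NormedAddCommGroup K] [NormedSpace ℝ K] [FiniteDimensional ℝ K]

/-- The difference `G Z - Z`. -/
noncomputable def dl (G : ℝ × E → E) (Z : K × ℝ → E) (q : K × ℝ) : E :=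
  G (q.2, Z q) - Z q

/-- `(1 + DG) DZ`. -/
noncomputable def ll (G : ℝ × E → E) (Z : K × ℝ → E) (q : K × ℝ) : K →L[ℝ] E :=
  (ContinuousLinearMap.id ℝ E + DZ G (q.2, Z q)).comp
    ((fderiv ℝ Z q).comp (ContinuousLinearMap.inl ℝ K ℝ))

/-- The derivative of the reduced potential. -/
noncomputable def pk (ω : E →L[ℝ] E →L[ℝ] ℝ) (G : ℝ × E → E) (Z : K × ℝ → E)
    (q : K × ℝ) : K →L[ℝ] ℝ :=
  (((1 / 2 : ℝ) • ω) (dl G Z q)).comp (ll G Z q)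

theorem pk_apply (ω : E →L[ℝ] E →L[ℝ] ℝ) (G : ℝ × E → E) (Z : K × ℝ → E)
    (q : K × ℝ) (k : K) : pk ω G Z q k = 1 / 2 * ω (dl G Z q) (ll G Z q k) := rfl

variable {ω : E →L[ℝ] E →L[ℝ] ℝ} {G : ℝ × E → E} {Z : K × ℝ → E} {z0 : E}

theorem cd_DZ {q : K × ℝ} (hG : ContDiffAt ℝ 3 G (q.2, Z q)) (hZ : ContDiffAt ℝ 3 Z q) :
    ContDiffAt ℝ 2 (fun q => DZ G (q.2, Z q)) q := by
  have h1 : ContDiffAt ℝ 2 (fderiv ℝ G) (q.2, Z q) := hG.fderiv_right (by norm_num)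
  have h2 : ContDiffAt ℝ 2 (fun q : K × ℝ => (q.2, Z q)) q :=
    contDiffAt_snd.prodMk (hZ.of_le (by norm_num))
  have h3 : ContDiffAt ℝ 2 (fun q : K × ℝ => fderiv ℝ G (q.2, Z q)) q :=
    ContDiffAt.comp q (g := fderiv ℝ G) (f := fun q : K × ℝ => (q.2, Z q)) h1 h2
  exact h3.clm_comp contDiffAt_const

theorem cd_dl {q : K × ℝ} (hG : ContDiffAt ℝ 3 G (q.2, Z q)) (hZ : ContDiffAt ℝ 3 Z q) :
    ContDiffAt ℝ 3 (dl G Z) q := by
  have h2 : ContDiffAt ℝ 3 (fun q : K × ℝ => (q.2, Z q)) q := contDiffAt_snd.prodMk hZ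
  exact (ContDiffAt.comp q (g := G) (f := fun q : K × ℝ => (q.2, Z q)) hG h2).sub hZ

theorem cd_ll {q : K × ℝ} (hG : ContDiffAt ℝ 3 G (q.2, Z q)) (hZ : ContDiffAt ℝ 3 Z q) :
    ContDiffAt ℝ 2 (ll G Z) q := by
  have h1 : ContDiffAt ℝ 2 (fderiv ℝ Z) q := hZ.fderiv_right (by norm_num)
  exact (contDiffAt_const.add (cd_DZ hG hZ)).clm_comp (h1.clm_comp contDiffAt_const)

theorem cd_pk {q : K × ℝ} (hG : ContDiffAt ℝ 3 G (q.2, Z q)) (hZ : ContDiffAt ℝ 3 Z q) :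
    ContDiffAt ℝ 2 (pk ω G Z) q := by
  have h1 : ContDiffAt ℝ 2 (dl G Z) q := (cd_dl hG hZ).of_le (by norm_num)
  have h2 : ContDiffAt ℝ 2 (fun q => ((1 / 2 : ℝ) • ω) (dl G Z q)) q :=
    ContDiffAt.comp q (g := fun x => ((1 / 2 : ℝ) • ω) x) (f := dl G Z)
      (ContinuousLinearMap.contDiff _).contDiffAt h1
  exact h2.clm_comp (cd_ll hG hZ)

/-- Derivative of the difference. -/
theorem fderiv_dl {q : K × ℝ} (hG : ContDiffAt ℝ 3 G (q.2, Z q)) (hZ : ContDiffAt ℝ 3 Z q)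
    (k : K) (s : ℝ) : fderiv ℝ (dl G Z) q (k, s) =
      fderiv ℝ G (q.2, Z q) (s, 0) + DZ G (q.2, Z q) (fderiv ℝ Z q (k, s)) - fderiv ℝ Z q (k, s) := by
  have hGd : HasFDerivAt G (fderiv ℝ G (q.2, Z q)) (q.2, Z q) :=
    (hG.differentiableAt (by norm_num)).hasFDerivAt
  have hZd : HasFDerivAt Z (fderiv ℝ Z q) q := (hZ.differentiableAt (by norm_num)).hasFDerivAt
  have h2 : HasFDerivAt (fun q : K × ℝ => (q.2, Z q))
      ((ContinuousLinearMap.snd ℝ K ℝ).prod (fderiv ℝ Z q)) q := hasFDerivAt_snd.prodMk hZd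
  have h3 := (HasFDerivAt.comp q (g := G) (f := fun q : K × ℝ => (q.2, Z q)) hGd h2).sub hZd
  have h4 : HasFDerivAt (dl G Z) ((fderiv ℝ G (q.2, Z q)).comp
      ((ContinuousLinearMap.snd ℝ K ℝ).prod (fderiv ℝ Z q)) - fderiv ℝ Z q) q := h3
  rw [h4.fderiv]
  change fderiv ℝ G (q.2, Z q) (s, fderiv ℝ Z q (k, s)) - fderiv ℝ Z q (k, s) = _
  have h5 : ((s, fderiv ℝ Z q (k, s)) : ℝ × E) = (s, 0) + (0, fderiv ℝ Z q (k, s)) := by simp
  rw [h5, map_add]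
  rfl

/-- Derivative of the reduced differential at solutions. -/
theorem fderiv_pk {q : K × ℝ} (hG : ContDiffAt ℝ 3 G (q.2, Z q)) (hZ : ContDiffAt ℝ 3 Z q)
    (h0 : dl G Z q = 0) (d : K × ℝ) (k : K) :
    fderiv ℝ (pk ω G Z) q d k = 1 / 2 * ω (fderiv ℝ (dl G Z) q d) (ll G Z q k) := by
  have h1 : HasFDerivAt (dl G Z) (fderiv ℝ (dl G Z) q) q :=
    ((cd_dl hG hZ).differentiableAt (by norm_num)).hasFDerivAt
  have h2 : HasFDerivAt (ll G Z) (fderiv ℝ (ll G Z) q) q :=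
    ((cd_ll hG hZ).differentiableAt (by norm_num)).hasFDerivAt
  have h3 : HasFDerivAt (fun q => ((1 / 2 : ℝ) • ω) (dl G Z q))
      (((1 / 2 : ℝ) • ω).comp (fderiv ℝ (dl G Z) q)) q :=
    ((1 / 2 : ℝ) • ω).hasFDerivAt.comp q h1
  have h4 := h3.clm_comp h2
  have h5 : HasFDerivAt (pk ω G Z) _ q := h4
  rw [h5.fderiv, h0]
  simp

/-- The reduced potential. -/
theorem pot {W : ℝ × E → ℝ}
    (hW : ∀ᶠ q in 𝓝 ((0:ℝ), z0), HasFDerivAt (fun z => W (q.1, z))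
      ((((1 / 2 : ℝ) • ω) (G q - q.2)).comp (ContinuousLinearMap.id ℝ E + DZ G q)) q.2)
    (hZ : ContDiffAt ℝ 3 Z 0) (hZ0 : Z 0 = z0) :
    ∀ᶠ q in 𝓝 (0 : K × ℝ), HasFDerivAt (fun k => W (q.2, Z (k, q.2))) (pk ω G Z q) q.1 := by
  have ht : Tendsto (fun q : K × ℝ => (q.2, Z q)) (𝓝 0) (𝓝 ((0:ℝ), z0)) := by
    have h1 : ContinuousAt (fun q : K × ℝ => (q.2, Z q)) 0 :=
      continuousAt_snd.prodMk hZ.continuousAt
    have h2 := h1.tendsto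
    rw [hZ0] at h2
    exact h2
  filter_upwards [ht.eventually hW, hZ.eventually (by simp)] with q h1 h2
  have h3 : HasFDerivAt (fun k : K => (k, q.2)) (ContinuousLinearMap.inl ℝ K ℝ) q.1 := by
    have := (ContinuousLinearMap.inl ℝ K ℝ).hasFDerivAt (x := q.1)
    have h4 := this.add_const (((0 : K), q.2) : K × ℝ)
    have h5 : (fun k : K => ContinuousLinearMap.inl ℝ K ℝ k + (0, q.2)) = fun k => (k, q.2) := by
      funext k
      simp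
    rw [h5] at h4
    exact h4
  have h4 : HasFDerivAt Z (fderiv ℝ Z q) (q.1, q.2) :=
    (h2.differentiableAt (by norm_num)).hasFDerivAt
  have h5 : HasFDerivAt (fun k : K => Z (k, q.2))
      ((fderiv ℝ Z q).comp (ContinuousLinearMap.inl ℝ K ℝ)) q.1 :=
    HasFDerivAt.comp q.1 (g := Z) (f := fun k : K => (k, q.2)) h4 h3
  have h6 := HasFDerivAt.comp q.1 (g := fun z => W (q.2, z)) (f := fun k : K => Z (k, q.2)) h1 h5
  exact h6

/-- The second derivative of the reduced differential along a curve of solutions. -/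
theorem second (hanti : ∀ x y, ω x y = - ω y x)
    (hG : ContDiffAt ℝ 3 G (0, z0)) (h0 : G (0, z0) = z0)
    (hAω : ∀ x y, ω (DZ G (0, z0) x) (DZ G (0, z0) y) = ω x y)
    (j : K →L[ℝ] E) (hK : ∀ v, DZ G (0, z0) v = v ↔ ∃ k, j k = v)
    (hZ : ContDiffAt ℝ 3 Z 0) (hZ0 : Z 0 = z0)
    (hZk : ∀ k : K, fderiv ℝ Z 0 (k, 0) = j k) (π : E →L[ℝ] K) (hπ : ∀ k : K, π (j k) = k)
    (hZu : ∀ᶠ z in 𝓝 z0, G (0, z) = z → Z (π (z - z0), 0) = z)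
    {γ : ℝ → E} {η : K} {A' : E →L[ℝ] E} (hγ : ContDiffAt ℝ 1 γ 0) (hγ0 : γ 0 = z0)
    (hγ' : HasDerivAt γ (j η) 0) (hγf : ∀ᶠ l in 𝓝 (0:ℝ), G (0, γ l) = γ l)
    (hA' : HasDerivAt (fun l => DZ G (0, γ l)) A' 0) :
    fderiv ℝ (fderiv ℝ (pk ω G Z)) 0 (η, 0) (η, 0) = 0 ∧
    ∀ w : K, fderiv ℝ (fderiv ℝ (pk ω G Z)) 0 (η, 0) (w, 0) w = ω (A' (j w)) (j w) := by
  have hG0 : ContDiffAt ℝ 3 G ((0 : K × ℝ).2, Z 0) := by rw [hZ0]; exact hG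
  have hP : ContDiffAt ℝ 2 (pk ω G Z) 0 := cd_pk hG0 hZ
  -- the curve
  set qf : ℝ → K × ℝ := fun l => (π (γ l - z0), 0) with hqf
  have hqf0 : qf 0 = 0 := by
    rw [hqf]; simp only; rw [hγ0, sub_self, map_zero]; rfl
  have hqfc : ContDiffAt ℝ 1 qf 0 := by
    have h1 : ContDiffAt ℝ 1 (fun l => π (γ l - z0)) 0 :=
      ContDiffAt.comp (0:ℝ) (g := π) (f := fun l => γ l - z0) π.contDiff.contDiffAt
        (hγ.sub contDiffAt_const)
    exact h1.prodMk contDiffAt_const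
  have hqfd : HasDerivAt qf (η, 0) 0 := by
    have h1 : HasDerivAt (fun l => π (γ l - z0)) (π (j η)) 0 :=
      π.hasFDerivAt.comp_hasDerivAt (0:ℝ) (hγ'.sub_const z0)
    rw [hπ] at h1
    exact h1.prodMk (hasDerivAt_const (0:ℝ) (0:ℝ))
  have hqft : Tendsto qf (𝓝 0) (𝓝 0) := by
    have := hqfc.continuousAt.tendsto
    rwa [hqf0] at this
  have hγt : Tendsto γ (𝓝 0) (𝓝 z0) := by
    have := hγ.continuousAt.tendsto
    rwa [hγ0] at this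
  have hZγ : ∀ᶠ l in 𝓝 (0:ℝ), Z (qf l) = γ l := by
    filter_upwards [hγt.eventually hZu, hγf] with l h1 h2
    exact h1 h2
  have ht : Tendsto (fun q : K × ℝ => (q.2, Z q)) (𝓝 0) (𝓝 ((0:ℝ), z0)) := by
    have h1 : ContinuousAt (fun q : K × ℝ => (q.2, Z q)) 0 :=
      continuousAt_snd.prodMk hZ.continuousAt
    have h2 := h1.tendsto
    rw [hZ0] at h2
    exact h2
  have hcd : ∀ᶠ q in 𝓝 (0 : K × ℝ), ContDiffAt ℝ 3 G (q.2, Z q) ∧ ContDiffAt ℝ 3 Z q :=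
    (ht.eventually (hG.eventually (by simp))).and (hZ.eventually (by simp))
  have hdl : ∀ᶠ l in 𝓝 (0:ℝ), dl G Z (qf l) = 0 := by
    filter_upwards [hZγ, hγf] with l h1 h2
    unfold dl
    rw [h1]
    change G (0, γ l) - γ l = 0
    rw [h2, sub_self]
  have hpk0 : ∀ᶠ l in 𝓝 (0:ℝ), pk ω G Z (qf l) = 0 := by
    filter_upwards [hdl] with l h1
    unfold pk
    rw [h1, map_zero, ContinuousLinearMap.zero_comp]
  have hdl0 : dl G Z 0 = 0 := by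
    unfold dl
    rw [hZ0]
    change G (0, z0) - z0 = 0
    rw [h0, sub_self]
  -- the derivative at `0`
  have hD0 : ∀ k : K, fderiv ℝ (pk ω G Z) 0 (k, 0) = 0 := by
    intro k
    ext k'
    rw [fderiv_pk hG0 hZ hdl0, fderiv_dl hG0 hZ, hZk]
    have h1 : DZ G ((0 : K × ℝ).2, Z 0) (j k) = j k := by
      rw [hZ0]; exact (hK _).mpr ⟨k, rfl⟩
    rw [h1]
    have h2 : ((0:ℝ), (0:E)) = 0 := rfl
    rw [h2, map_zero]
    simp
  set D2 := fderiv ℝ (fderiv ℝ (pk ω G Z)) 0 with hD2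
  have hFd : HasDerivAt (fun l => fderiv ℝ (pk ω G Z) (qf l)) (D2 (η, 0)) 0 := by
    have h1 : HasFDerivAt (fderiv ℝ (pk ω G Z)) D2 (qf 0) := by
      rw [hqf0]
      exact ((hP.fderiv_right (m := 1) (by norm_num)).differentiableAt one_ne_zero).hasFDerivAt
    exact HasFDerivAt.comp_hasDerivAt (E := K × ℝ →L[ℝ] K →L[ℝ] ℝ) (F := K × ℝ) (0:ℝ) h1 hqfd
  constructor
  · -- (P3)
    have h1 : ∀ᶠ l in 𝓝 (0:ℝ), fderiv ℝ (pk ω G Z) (qf l) (deriv qf l) = 0 := by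
      have h2 : ∀ᶠ l in 𝓝 (0:ℝ), ∀ᶠ l' in 𝓝 l, pk ω G Z (qf l') = 0 := hpk0.eventually_nhds
      filter_upwards [h2, hqfc.eventually (by simp), hqft.eventually (hP.eventually (by simp))]
        with l e1 e2 e3
      have e4 : HasDerivAt qf (deriv qf l) l := (e2.differentiableAt one_ne_zero).hasDerivAt
      have e5 : HasFDerivAt (pk ω G Z) (fderiv ℝ (pk ω G Z) (qf l)) (qf l) :=
        (e3.differentiableAt (by norm_num)).hasFDerivAt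
      have e6 := e5.comp_hasDerivAt l e4
      have e7 : (pk ω G Z ∘ qf) =ᶠ[𝓝 l] fun _ => 0 := e1
      exact e6.unique ((hasDerivAt_const l (0 : K →L[ℝ] ℝ)).congr_of_eventuallyEq e7)
    have h2 : Tendsto (deriv qf) (𝓝 0) (𝓝 (η, 0)) := by
      have h3 : ContinuousAt (deriv qf) 0 := by
        have h4 : ContinuousAt (fderiv ℝ qf) 0 :=
          (hqfc.fderiv_right (m := 0) (by norm_num)).continuousAt
        exact h4.clm_apply continuousAt_const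
      have := h3.tendsto
      rwa [hqfd.deriv] at this
    have h4 : Tendsto (fun l => (l⁻¹ • (fderiv ℝ (pk ω G Z) (qf (0 + l)) -
        fderiv ℝ (pk ω G Z) (qf 0))) (deriv qf l)) (𝓝[≠] 0) (𝓝 (D2 (η, 0) (η, 0))) := by
      have e1 := (hasDerivAt_iff_tendsto_slope_zero (𝕜 := ℝ) (F := K × ℝ →L[ℝ] K →L[ℝ] ℝ)
        (f := fun l => fderiv ℝ (pk ω G Z) (qf l)) (f' := D2 (η, 0)) (x := 0)).mp hFd
      have e2 : Continuous (fun p : (K × ℝ →L[ℝ] K →L[ℝ] ℝ) × (K × ℝ) => p.1 p.2) :=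
        isBoundedBilinearMap_apply.continuous
      exact (e2.tendsto (D2 (η, 0), (η, 0))).comp
        (Filter.Tendsto.prodMk_nhds e1 (h2.mono_left nhdsWithin_le_nhds))
    have h5 : (fun l => (l⁻¹ • (fderiv ℝ (pk ω G Z) (qf (0 + l)) -
        fderiv ℝ (pk ω G Z) (qf 0))) (deriv qf l)) =ᶠ[𝓝[≠] 0] fun _ => 0 := by
      have e0 : ∀ᶠ l in 𝓝 (0:ℝ), DifferentiableAt ℝ γ l :=
        (hγ.eventually (by simp)).mono fun l hl => hl.differentiableAt one_ne_zero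
      filter_upwards [nhdsWithin_le_nhds h1, nhdsWithin_le_nhds e0] with l e1 e2
      have e3 : HasDerivAt qf (π (deriv γ l), 0) l := by
        have h1 : HasDerivAt (fun l => π (γ l - z0)) (π (deriv γ l)) l :=
          π.hasFDerivAt.comp_hasDerivAt l (e2.hasDerivAt.sub_const z0)
        exact h1.prodMk (hasDerivAt_const l (0:ℝ))
      rw [zero_add, hqf0, smul_apply, sub_apply, e1, e3.deriv, hD0, sub_zero, smul_zero]
    exact tendsto_nhds_unique h4 (tendsto_const_nhds.congr' h5.symm)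
  · intro w
    have hζd : DifferentiableAt ℝ (fun l => fderiv ℝ Z (qf l) (w, 0)) 0 := by
      have h1 : DifferentiableAt ℝ (fderiv ℝ Z) (qf 0) := by
        rw [hqf0]
        exact (hZ.fderiv_right (m := 2) (by norm_num)).differentiableAt (by norm_num)
      have h2 : DifferentiableAt ℝ (fun l => fderiv ℝ Z (qf l)) 0 :=
        DifferentiableAt.comp (0:ℝ) (g := fderiv ℝ Z) (f := qf) h1 hqfd.differentiableAt
      exact h2.clm_apply (differentiableAt_const _)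
    obtain ⟨ζ', hζ'⟩ : ∃ ζ', HasDerivAt (fun l => fderiv ℝ Z (qf l) (w, 0)) ζ' 0 :=
      ⟨_, hζd.hasDerivAt⟩
    have hζ0 : fderiv ℝ Z (qf 0) (w, 0) = j w := by rw [hqf0]; exact hZk w
    have hγ00 : DZ G (0, γ 0) = DZ G (0, z0) := by rw [hγ0]
    have h1 : HasDerivAt (fun l => DZ G (0, γ l) (fderiv ℝ Z (qf l) (w, 0)))
        (A' (j w) + DZ G (0, z0) ζ') 0 := by
      have := hA'.clm_apply hζ'
      rw [hζ0, hγ00] at this
      exact this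
    have h2 : HasDerivAt (fun l => ω (DZ G (0, γ l) (fderiv ℝ Z (qf l) (w, 0)))
        (fderiv ℝ Z (qf l) (w, 0)))
        (ω (A' (j w) + DZ G (0, z0) ζ') (j w) + ω (DZ G (0, z0) (j w)) ζ') 0 := by
      have e1 : HasDerivAt (fun l => ω (DZ G (0, γ l) (fderiv ℝ Z (qf l) (w, 0))))
          (ω (A' (j w) + DZ G (0, z0) ζ')) 0 := ω.hasFDerivAt.comp_hasDerivAt (0:ℝ) h1
      have := e1.clm_apply hζ'
      rw [hζ0, hγ00] at this
      exact this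
    have h3 : ω (A' (j w) + DZ G (0, z0) ζ') (j w) + ω (DZ G (0, z0) (j w)) ζ' =
        ω (A' (j w)) (j w) := by
      have e1 : DZ G (0, z0) (j w) = j w := (hK _).mpr ⟨w, rfl⟩
      have e2 := hAω ζ' (j w)
      rw [e1] at e2
      rw [map_add, add_apply, e2, e1, hanti (j w) ζ']
      ring
    rw [h3] at h2
    have h4 : HasDerivAt (fun l => fderiv ℝ (pk ω G Z) (qf l) (w, 0) w) (D2 (η, 0) (w, 0) w) 0 := by
      have e1 := hFd.clm_apply (hasDerivAt_const (0:ℝ) ((w, 0) : K × ℝ))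
      have e2 := e1.clm_apply (hasDerivAt_const (0:ℝ) w)
      simpa using e2
    have h5 : (fun l => fderiv ℝ (pk ω G Z) (qf l) (w, 0) w) =ᶠ[𝓝 0]
        fun l => ω (DZ G (0, γ l) (fderiv ℝ Z (qf l) (w, 0))) (fderiv ℝ Z (qf l) (w, 0)) := by
      filter_upwards [hdl, hZγ, hqft.eventually hcd] with l e1 e2 e3
      rw [fderiv_pk e3.1 e3.2 e1, fderiv_dl e3.1 e3.2]
      have e4 : ll G Z (qf l) w = fderiv ℝ Z (qf l) (w, 0) +
          DZ G ((qf l).2, Z (qf l)) (fderiv ℝ Z (qf l) (w, 0)) := rfl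
      rw [e4, e2]
      change 1 / 2 * ω (fderiv ℝ G (0, γ l) (0, 0) + DZ G (0, γ l) (fderiv ℝ Z (qf l) (w, 0)) -
        fderiv ℝ Z (qf l) (w, 0)) (fderiv ℝ Z (qf l) (w, 0) +
          DZ G (0, γ l) (fderiv ℝ Z (qf l) (w, 0))) = _
      set ζ := fderiv ℝ Z (qf l) (w, 0) with hζ
      set x := DZ G (0, γ l) ζ with hx
      have e5 : ((0:ℝ), (0:E)) = 0 := rfl
      rw [e5, map_zero, zero_add, map_sub, sub_apply, map_add, map_add]
      have e6 : ω ζ ζ = 0 := by have := hanti ζ ζ; linarith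
      have e7 : ω x x = 0 := by have := hanti x x; linarith
      have e8 := hanti ζ x
      rw [e6, e7, e8]
      ring
    exact (h4.congr_of_eventuallyEq h5.symm).unique h2

theorem closing {N : Type} [NormedAddCommGroup N] [NormedSpace ℝ N] [FiniteDimensional ℝ N]
    {V : Type} [NormedAddCommGroup V] [NormedSpace ℝ V] [FiniteDimensional ℝ V]
    (hanti : ∀ x y, ω x y = - ω y x)
    (hG : ContDiffAt ℝ 3 G (0, z0)) (h0 : G (0, z0) = z0)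
    (j : K →L[ℝ] E) (hK : ∀ v, DZ G (0, z0) v = v ↔ ∃ k, j k = v) (jV : V →L[ℝ] K)
    (hZ : ContDiffAt ℝ 3 Z 0) (hZ0 : Z 0 = z0)
    (hZk : ∀ k : K, fderiv ℝ Z 0 (k, 0) = j k) {Q : E → ℝ × ℝ} {u1 u2 : E} {τ : N →L[ℝ] E}
    {μ : K × ℝ → N} (hμ : ∀ᶠ q in 𝓝 (0 : K × ℝ), G (q.2, Z q) - Z q + τ (μ q) = 0)
    (hsp : ∀ f : N, ω (τ f) u1 = 0 → ω (τ f) u2 = 0 → (∀ v : V, ω (τ f) (j (jV v)) = 0) → f = 0)
    (hQ : ContDiffAt ℝ 1 Q z0) (hQ' : ∀ v, fderiv ℝ Q z0 v = (ω u1 v, ω u2 v))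
    (hinv : ∀ᶠ q in 𝓝 ((0:ℝ), z0), Q (G q) = Q q.2) :
    ∀ᶠ q in 𝓝 (0 : K × ℝ), (∀ v : V, pk ω G Z q (jV v) = 0) → G (q.2, Z q) = Z q := by
  have hG0 : ContDiffAt ℝ 3 G ((0 : K × ℝ).2, Z 0) := by rw [hZ0]; exact hG
  have ht : Tendsto (fun q : K × ℝ => (q.2, Z q)) (𝓝 0) (𝓝 ((0:ℝ), z0)) := by
    have h1 : ContinuousAt (fun q : K × ℝ => (q.2, Z q)) 0 :=
      continuousAt_snd.prodMk hZ.continuousAt
    have h2 := h1.tendsto
    rw [hZ0] at h2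
    exact h2
  -- the norm on `N`
  set Θ : N →ₗ[ℝ] (ℝ × ℝ) × (V →L[ℝ] ℝ) :=
    { toFun := fun f => ((ω (τ f) u1, ω (τ f) u2), (ω (τ f)).comp (j.comp jV))
      map_add' := by
        intro f g
        rw [map_add, map_add]
        rfl
      map_smul' := by
        intro c f
        rw [map_smul, map_smul]
        rfl } with hΘ
  have hΘk : LinearMap.ker Θ = ⊥ := by
    rw [LinearMap.ker_eq_bot']
    intro f hf
    have e1 : ω (τ f) u1 = 0 := congrArg (fun p => p.1.1) hf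
    have e2 : ω (τ f) u2 = 0 := congrArg (fun p => p.1.2) hf
    have e3 : (ω (τ f)).comp (j.comp jV) = 0 := congrArg Prod.snd hf
    exact hsp f e1 e2 fun v => congrArg (fun L : V →L[ℝ] ℝ => L v) e3
  obtain ⟨C, hC0, hC⟩ := Θ.exists_antilipschitzWith hΘk
  have hC' : ∀ f, ‖f‖ ≤ C * ‖Θ f‖ := fun f => by
    have := hC.le_mul_dist f 0
    rwa [dist_zero_right, map_zero, dist_zero_right] at this
  -- smallness
  set B : ℝ := ‖τ‖ + 1 / 2 * (‖ω‖ * ‖τ‖ * ‖jV‖) with hB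
  have hB0 : 0 ≤ B := by positivity
  obtain ⟨ε, hε0, hε⟩ : ∃ ε : ℝ, 0 < ε ∧ C * (ε * B) < 1 := by
    refine ⟨1 / (2 * (C * B + 1)), by positivity, ?_⟩
    have h1 : (C:ℝ) * (1 / (2 * (C * B + 1)) * B) = (C * B) / (2 * (C * B + 1)) := by ring
    rw [h1, div_lt_one (by positivity)]
    have : (0:ℝ) ≤ C * B := by positivity
    linarith
  have hQd : HasStrictFDerivAt Q (fderiv ℝ Q z0) z0 := hQ.hasStrictFDerivAt one_ne_zero
  have hQε := hQd.isLittleO.def hε0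
  have hcont : Tendsto (fun p : ℝ × E => (G p, p.2)) (𝓝 (0, z0)) (𝓝 (z0, z0)) := by
    have h1 : Tendsto G (𝓝 (0, z0)) (𝓝 z0) := by
      have := hG.continuousAt.tendsto
      rwa [h0] at this
    exact h1.prodMk_nhds (continuous_snd.tendsto (0, z0))
  have hV : ∀ᶠ p in 𝓝 ((0:ℝ), z0), Q (G p) = Q p.2 ∧
      ‖Q (G p) - Q p.2 - fderiv ℝ Q z0 (G p - p.2)‖ ≤ ε * ‖G p - p.2‖ :=
    hinv.and (hcont.eventually hQε)
  have hll : ∀ᶠ q in 𝓝 (0 : K × ℝ), ‖ll G Z q - ll G Z 0‖ < ε := by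
    have h1 := (cd_ll hG0 hZ).continuousAt.tendsto
    have h2 := h1.eventually (Metric.ball_mem_nhds _ hε0)
    filter_upwards [h2] with q hq
    have hq' : dist (ll G Z q) (ll G Z 0) < ε := hq
    rwa [dist_eq_norm] at hq'
  have hll0 : ∀ k, ll G Z 0 k = (2:ℝ) • j k := by
    intro k
    have e1 : ll G Z 0 k = fderiv ℝ Z 0 (k, 0) +
      DZ G ((0 : K × ℝ).2, Z 0) (fderiv ℝ Z 0 (k, 0)) := rfl
    have e2 : DZ G ((0 : K × ℝ).2, Z 0) (j k) = j k := by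
      rw [hZ0]; exact (hK _).mpr ⟨k, rfl⟩
    rw [e1, hZk, e2, two_smul]
  filter_upwards [ht.eventually hV, hμ, hll] with q h1 h2 h3 h4
  obtain ⟨h5, h6⟩ := h1
  set f := μ q with hf
  have e1 : G (q.2, Z q) - Z q = - τ f := eq_neg_of_add_eq_zero_left h2
  rw [h5, sub_self, zero_sub, norm_neg, e1, map_neg, norm_neg, norm_neg, hQ'] at h6
  have e2 : ‖((ω u1 (τ f), ω u2 (τ f)) : ℝ × ℝ)‖ ≤ ε * (‖τ‖ * ‖f‖) :=
    h6.trans (mul_le_mul_of_nonneg_left (τ.le_opNorm f) hε0.le)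
  have e3 : ‖((ω (τ f) u1, ω (τ f) u2) : ℝ × ℝ)‖ = ‖((ω u1 (τ f), ω u2 (τ f)) : ℝ × ℝ)‖ := by
    rw [hanti (τ f) u1, hanti (τ f) u2]
    rw [show ((-ω u1 (τ f), -ω u2 (τ f)) : ℝ × ℝ) = -(ω u1 (τ f), ω u2 (τ f)) from rfl, norm_neg]
  have e4 : ‖(ω (τ f)).comp (j.comp jV)‖ ≤ 1 / 2 * (‖ω‖ * ‖τ‖ * ‖f‖ * ε * ‖jV‖) := by
    refine ContinuousLinearMap.opNorm_le_bound _ (by positivity) fun v => ?_
    have g1 : ω (τ f) (ll G Z q (jV v)) = 0 := by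
      have := h4 v
      rw [pk_apply] at this
      have g2 : dl G Z q = - τ f := e1
      rw [g2, map_neg, neg_apply] at this
      linarith
    have g2 : ω (τ f) (j (jV v)) = - (1 / 2 * ω (τ f) ((ll G Z q - ll G Z 0) (jV v))) := by
      rw [sub_apply, map_sub, g1, hll0, map_smul, smul_eq_mul]
      ring
    change ‖ω (τ f) (j (jV v))‖ ≤ _
    rw [g2, norm_neg, norm_mul]
    have g3 : ‖ω (τ f) ((ll G Z q - ll G Z 0) (jV v))‖ ≤ ‖ω‖ * (‖τ‖ * ‖f‖) * (ε * (‖jV‖ * ‖v‖)) := by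
      refine (ContinuousLinearMap.le_opNorm _ _).trans ?_
      have g4 : ‖ω (τ f)‖ ≤ ‖ω‖ * (‖τ‖ * ‖f‖) :=
        (ω.le_opNorm _).trans (mul_le_mul_of_nonneg_left (τ.le_opNorm f) (norm_nonneg _))
      have g5 : ‖(ll G Z q - ll G Z 0) (jV v)‖ ≤ ε * (‖jV‖ * ‖v‖) :=
        (ContinuousLinearMap.le_opNorm _ _).trans
          (mul_le_mul h3.le (jV.le_opNorm v) (norm_nonneg _) hε0.le)
      exact mul_le_mul g4 g5 (norm_nonneg _) (by positivity)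
    have g6 : ‖(1 / 2 : ℝ)‖ = 1 / 2 := by norm_num
    rw [g6]
    calc 1 / 2 * ‖ω (τ f) ((ll G Z q - ll G Z 0) (jV v))‖
        ≤ 1 / 2 * (‖ω‖ * (‖τ‖ * ‖f‖) * (ε * (‖jV‖ * ‖v‖))) := by gcongr
      _ = 1 / 2 * (‖ω‖ * ‖τ‖ * ‖f‖ * ε * ‖jV‖) * ‖v‖ := by ring
  have e5 : ‖Θ f‖ ≤ ε * B * ‖f‖ := by
    have g1 : ‖Θ f‖ = max ‖((ω (τ f) u1, ω (τ f) u2) : ℝ × ℝ)‖ ‖(ω (τ f)).comp (j.comp jV)‖ := rfl
    rw [g1, e3]
    refine max_le (e2.trans ?_) (e4.trans ?_)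
    · rw [hB]
      have : 0 ≤ ε * (1 / 2 * (‖ω‖ * ‖τ‖ * ‖jV‖)) * ‖f‖ := by positivity
      nlinarith
    · rw [hB]
      have : 0 ≤ ε * ‖τ‖ * ‖f‖ := by positivity
      nlinarith
  have e6 : ‖f‖ ≤ C * (ε * B) * ‖f‖ := by
    calc ‖f‖ ≤ C * ‖Θ f‖ := hC' f
      _ ≤ C * (ε * B * ‖f‖) := mul_le_mul_of_nonneg_left e5 (by positivity)
      _ = C * (ε * B) * ‖f‖ := by ring
  have e7 : f = 0 := by
    by_contra hne
    have : 0 < ‖f‖ := norm_pos_iff.mpr hne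
    nlinarith
  rw [e7, map_zero, neg_zero] at e1
  exact sub_eq_zero.mp e1

/-- **The abstract bifurcation theorem.** -/
theorem bifAbs (hBU : S_BU) (ω : E →L[ℝ] E →L[ℝ] ℝ) (hanti : ∀ x y, ω x y = - ω y x)
    (hnd : ∀ x, (∀ y, ω x y = 0) → x = 0) {G : ℝ × E → E} {W : ℝ × E → ℝ} {Q : E → ℝ × ℝ}
    {z0 u1 u2 η p r : E} {γ : ℝ → E} {A' : E →L[ℝ] E}
    (hG : ContDiffAt ℝ 3 G (0, z0)) (h0 : G (0, z0) = z0)
    (hW : ∀ᶠ q in 𝓝 ((0:ℝ), z0), HasFDerivAt (fun z => W (q.1, z))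
      ((((1 / 2 : ℝ) • ω) (G q - q.2)).comp (ContinuousLinearMap.id ℝ E + DZ G q)) q.2)
    (hQ : ContDiffAt ℝ 1 Q z0) (hQ' : ∀ v, fderiv ℝ Q z0 v = (ω u1 v, ω u2 v))
    (hinv : ∀ᶠ q in 𝓝 ((0:ℝ), z0), Q (G q) = Q q.2)
    (hAω : ∀ x y, ω (DZ G (0, z0) x) (DZ G (0, z0) y) = ω x y)
    (hs : fderiv ℝ G (0, z0) (1, 0) = - u2)
    (hη : DZ G (0, z0) η = η) (hp : DZ G (0, z0) p = p) (hr : DZ G (0, z0) r = r)
    (hker : ∀ v, DZ G (0, z0) v = v →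
      ∃ c1 c2 c3 c4 c5 : ℝ, v = c1 • u1 + c2 • u2 + c3 • η + c4 • p + c5 • r)
    (hη2 : ω u2 η = 1) (hp2 : ω u2 p = 0) (hr2 : ω u2 r = 0)
    (hγ : ContDiffAt ℝ 1 γ 0) (hγ0 : γ 0 = z0) (hγ' : HasDerivAt γ η 0)
    (hγf : ∀ᶠ l in 𝓝 (0:ℝ), G (0, γ l) = γ l)
    (hA' : HasDerivAt (fun l => DZ G (0, γ l)) A' 0)
    (hdef : ∀ a b : ℝ, ω (A' (a • p + b • r)) (a • p + b • r) = 2 * (a ^ 2 + b ^ 2)) :
    ∀ δ : ℝ, 0 < δ → ∃ (s : ℝ) (z : E), s ≠ 0 ∧ |s| < δ ∧ ‖z - z0‖ < δ ∧ G (s, z) = z := by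
  have : CompleteSpace E := FiniteDimensional.complete ℝ E
  -- the kernel
  set K : Submodule ℝ E := LinearMap.ker ((DZ G (0, z0) - ContinuousLinearMap.id ℝ E : E →L[ℝ] E) :
    E →ₗ[ℝ] E) with hKdef
  have hmem : ∀ v, v ∈ K ↔ DZ G (0, z0) v = v := by
    intro v
    rw [hKdef, LinearMap.mem_ker]
    have : ((DZ G (0, z0) - ContinuousLinearMap.id ℝ E : E →L[ℝ] E) : E →ₗ[ℝ] E) v =
      DZ G (0, z0) v - v := rfl
    rw [this, sub_eq_zero]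
  -- coordinates
  set d := Module.finrank ℝ K with hd
  have hdF : Module.finrank ℝ (Fin d → ℝ) = Module.finrank ℝ K := by
    rw [Module.finrank_fin_fun]
  set L : (Fin d → ℝ) ≃ₗ[ℝ] K := LinearEquiv.ofFinrankEq _ _ hdF with hL
  obtain ⟨π0, hπ0⟩ : ∃ π : E →ₗ[ℝ] K, ∀ w : K, π (w : E) = w := by
    obtain ⟨π, hπ⟩ := K.subtype.exists_leftInverse_of_injective (Submodule.ker_subtype K)
    exact ⟨π, fun w => congrArg (fun L : K →ₗ[ℝ] K => L w) hπ⟩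
  set j : (Fin d → ℝ) →L[ℝ] E := LinearMap.toContinuousLinearMap (K.subtype ∘ₗ L.toLinearMap) with hj
  set π : E →L[ℝ] (Fin d → ℝ) :=
    LinearMap.toContinuousLinearMap (L.symm.toLinearMap ∘ₗ π0) with hπdef
  have hjapp : ∀ k, j k = (L k : E) := fun k => rfl
  have hπj : ∀ k, π (j k) = k := by
    intro k
    have : π (j k) = L.symm (π0 (L k : E)) := rfl
    rw [this, hπ0, LinearEquiv.symm_apply_apply]
  have hjK : ∀ v, DZ G (0, z0) v = v ↔ ∃ k, j k = v := by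
    intro v
    constructor
    · intro hv
      refine ⟨L.symm ⟨v, (hmem v).mpr hv⟩, ?_⟩
      rw [hjapp, LinearEquiv.apply_symm_apply]
    · rintro ⟨k, rfl⟩
      rw [hjapp]
      exact (hmem _).mp (L k).2
  obtain ⟨τ, hτ⟩ := exists_tau ω hnd K
  have hτ' : ∀ f, (∀ k, ω (τ f) (j k) = 0) → f = 0 := by
    intro f hf
    refine hτ f fun k => ?_
    have := hf (L.symm k)
    rwa [hjapp, LinearEquiv.apply_symm_apply] at this
  obtain ⟨Z, μ, hZ, hZ0, hZk, hμ, hZu⟩ := reduce ω hG h0 hAω j hjK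
    (N := Fin (Module.finrank ℝ K) → ℝ) rfl τ hτ' π hπj
  -- the slice
  obtain ⟨kη, hkη⟩ := (hjK η).mp hη
  obtain ⟨kp, hkp⟩ := (hjK p).mp hp
  obtain ⟨kr, hkr⟩ := (hjK r).mp hr
  set jV : ℝ × ℂ →L[ℝ] (Fin d → ℝ) :=
    (ContinuousLinearMap.fst ℝ ℝ ℂ).smulRight kη +
      ((Complex.reCLM.comp (ContinuousLinearMap.snd ℝ ℝ ℂ)).smulRight kp +
        (Complex.imCLM.comp (ContinuousLinearMap.snd ℝ ℝ ℂ)).smulRight kr) with hjV
  have hjVapp : ∀ v : ℝ × ℂ, jV v = v.1 • kη + (v.2.re • kp + v.2.im • kr) := fun v => rfl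
  have hjjV : ∀ v : ℝ × ℂ, j (jV v) = v.1 • η + (v.2.re • p + v.2.im • r) := by
    intro v
    rw [hjVapp, map_add, map_add, map_smul, map_smul, map_smul, hkη, hkp, hkr]
  have hsp : ∀ f, ω (τ f) u1 = 0 → ω (τ f) u2 = 0 →
      (∀ v : ℝ × ℂ, ω (τ f) (j (jV v)) = 0) → f = 0 := by
    intro f h1 h2 h3
    refine hτ' f fun k => ?_
    obtain ⟨c1, c2, c3, c4, c5, hc⟩ := hker (j k) ((hjK _).mpr ⟨k, rfl⟩)
    have h4 := h3 (c3, ⟨c4, c5⟩)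
    rw [hjjV] at h4
    simp only at h4
    have h5 : j k = c1 • u1 + c2 • u2 + (c3 • η + (c4 • p + c5 • r)) := by
      rw [hc]; abel
    rw [h5, map_add, map_add, map_smul, map_smul, h1, h2, h4]
    simp
  have hcl := closing (V := ℝ × ℂ) hanti hG h0 j hjK jV hZ hZ0 hZk hμ hsp hQ hQ' hinv
  -- the potential
  have hpot := pot (ω := ω) (G := G) (Z := Z) hW hZ hZ0
  have hγ'' : HasDerivAt γ (j kη) 0 := by rw [hkη]; exact hγ'
  obtain ⟨hS1, hS2⟩ := second (ω := ω) hanti hG h0 hAω j hjK hZ hZ0 hZk π hπj hZu hγ hγ0 hγ'' hγf hA'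
  have hG0 : ContDiffAt ℝ 3 G ((0 : (Fin d → ℝ) × ℝ).2, Z 0) := by rw [hZ0]; exact hG
  have hdl0 : dl G Z 0 = 0 := by
    unfold dl
    rw [hZ0]
    change G (0, z0) - z0 = 0
    rw [h0, sub_self]
  set J : (ℝ × ℂ) × ℝ →L[ℝ] (Fin d → ℝ) × ℝ :=
    (jV.comp (ContinuousLinearMap.fst ℝ (ℝ × ℂ) ℝ)).prod (ContinuousLinearMap.snd ℝ (ℝ × ℂ) ℝ) with hJ
  have hJapp : ∀ q : (ℝ × ℂ) × ℝ, J q = (jV q.1, q.2) := fun q => rfl
  have hJ0 : J 0 = 0 := map_zero _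
  set Λ : ((Fin d → ℝ) →L[ℝ] ℝ) →L[ℝ] (ℝ × ℂ →L[ℝ] ℝ) :=
    (ContinuousLinearMap.compL ℝ (ℝ × ℂ) (Fin d → ℝ) ℝ).flip jV with hΛ
  have hΛapp : ∀ φ v, Λ φ v = φ (jV v) := fun φ v => rfl
  set P : (ℝ × ℂ) × ℝ → (ℝ × ℂ →L[ℝ] ℝ) := fun q => Λ (pk ω G Z (J q)) with hP
  have hpk2 : ContDiffAt ℝ 2 (pk ω G Z) (J 0) := by rw [hJ0]; exact cd_pk hG0 hZ
  have hPc : ContDiffAt ℝ 2 P 0 := by
    have h1 : ContDiffAt ℝ 2 (fun q => pk ω G Z (J q)) 0 :=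
      ContDiffAt.comp (0 : (ℝ × ℂ) × ℝ) (g := pk ω G Z) (f := J) hpk2 J.contDiff.contDiffAt
    exact ContDiffAt.comp (0 : (ℝ × ℂ) × ℝ) (g := Λ) (f := fun q => pk ω G Z (J q))
      Λ.contDiff.contDiffAt h1
  have hJt : Tendsto J (𝓝 0) (𝓝 0) := by
    have := J.continuous.tendsto 0
    rwa [hJ0] at this
  have hPd : ∀ᶠ q in 𝓝 (0 : (ℝ × ℂ) × ℝ),
      fderiv ℝ P q = (Λ.comp (fderiv ℝ (pk ω G Z) (J q))).comp J := by
    have h1 : ∀ᶠ q in 𝓝 (0 : (Fin d → ℝ) × ℝ), ContDiffAt ℝ 2 (pk ω G Z) q :=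
      (cd_pk (ω := ω) hG0 hZ).eventually (by simp)
    filter_upwards [hJt.eventually h1] with q h2
    have h3 : HasFDerivAt (pk ω G Z) (fderiv ℝ (pk ω G Z) (J q)) (J q) :=
      (h2.differentiableAt (by norm_num)).hasFDerivAt
    have h4 : HasFDerivAt (fun q => pk ω G Z (J q)) ((fderiv ℝ (pk ω G Z) (J q)).comp J) q :=
      h3.comp q J.hasFDerivAt
    have h5 : HasFDerivAt P (Λ.comp ((fderiv ℝ (pk ω G Z) (J q)).comp J)) q :=
      Λ.hasFDerivAt.comp q h4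
    rw [h5.fderiv]
    rfl
  have hPd0 : ∀ (d1 : (ℝ × ℂ) × ℝ) (v : ℝ × ℂ),
      fderiv ℝ P 0 d1 v = fderiv ℝ (pk ω G Z) 0 (J d1) (jV v) := by
    intro d1 v
    rw [hPd.self_of_nhds, hJ0]
    rfl
  have hll0 : ∀ k, ll G Z 0 k = (2:ℝ) • j k := by
    intro k
    have e1 : ll G Z 0 k = fderiv ℝ Z 0 (k, 0) +
      DZ G ((0 : (Fin d → ℝ) × ℝ).2, Z 0) (fderiv ℝ Z 0 (k, 0)) := rfl
    have e2 : DZ G ((0 : (Fin d → ℝ) × ℝ).2, Z 0) (j k) = j k := by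
      rw [hZ0]; exact (hjK _).mpr ⟨k, rfl⟩
    rw [e1, hZk, e2, two_smul]
  have hP2 : ∀ (d1 d2 : (ℝ × ℂ) × ℝ) (v : ℝ × ℂ), fderiv ℝ (fderiv ℝ P) 0 d1 d2 v =
      fderiv ℝ (fderiv ℝ (pk ω G Z)) 0 (J d1) (J d2) (jV v) := by
    intro d1 d2 v
    have hcurve : HasDerivAt (fun t : ℝ => t • d1) d1 0 := by
      simpa using (hasDerivAt_id (0:ℝ)).smul_const d1
    have e1 : HasFDerivAt (fderiv ℝ P) (fderiv ℝ (fderiv ℝ P) 0) ((fun t : ℝ => t • d1) 0) := by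
      simp only [zero_smul]
      exact ((hPc.fderiv_right (m := 1) (by norm_num)).differentiableAt one_ne_zero).hasFDerivAt
    have e2 : HasDerivAt (fun t : ℝ => fderiv ℝ P (t • d1)) (fderiv ℝ (fderiv ℝ P) 0 d1) 0 :=
      HasFDerivAt.comp_hasDerivAt (E := (ℝ × ℂ) × ℝ →L[ℝ] ℝ × ℂ →L[ℝ] ℝ) (F := (ℝ × ℂ) × ℝ)
        (0:ℝ) e1 hcurve
    have e3 := (e2.clm_apply (hasDerivAt_const (0:ℝ) d2)).clm_apply (hasDerivAt_const (0:ℝ) v)
    have f1 : HasFDerivAt (fderiv ℝ (pk ω G Z)) (fderiv ℝ (fderiv ℝ (pk ω G Z)) 0)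
        ((fun t : ℝ => t • J d1) 0) := by
      simp only [zero_smul]
      exact (((cd_pk (ω := ω) hG0 hZ).fderiv_right (m := 1) (by norm_num)).differentiableAt
        one_ne_zero).hasFDerivAt
    have hcurve' : HasDerivAt (fun t : ℝ => t • J d1) (J d1) 0 := by
      simpa using (hasDerivAt_id (0:ℝ)).smul_const (J d1)
    have f2 : HasDerivAt (fun t : ℝ => fderiv ℝ (pk ω G Z) (t • J d1))
        (fderiv ℝ (fderiv ℝ (pk ω G Z)) 0 (J d1)) 0 :=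
      HasFDerivAt.comp_hasDerivAt (E := (Fin d → ℝ) × ℝ →L[ℝ] (Fin d → ℝ) →L[ℝ] ℝ)
        (F := (Fin d → ℝ) × ℝ) (0:ℝ) f1 hcurve'
    have f3 := (f2.clm_apply (hasDerivAt_const (0:ℝ) (J d2))).clm_apply
      (hasDerivAt_const (0:ℝ) (jV v))
    have g1 : (fun t : ℝ => fderiv ℝ P (t • d1) d2 v) =ᶠ[𝓝 0]
        fun t => fderiv ℝ (pk ω G Z) (t • J d1) (J d2) (jV v) := by
      have ht : Tendsto (fun t : ℝ => t • d1) (𝓝 0) (𝓝 0) := by
        have := hcurve.continuousAt.tendsto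
        simpa using this
      filter_upwards [ht.eventually hPd] with t h
      rw [h, map_smul]
      rfl
    have e4 : HasDerivAt (fun t : ℝ => fderiv ℝ P (t • d1) d2 v)
        (fderiv ℝ (fderiv ℝ P) 0 d1 d2 v) 0 := by simpa using e3
    have f4 : HasDerivAt (fun t : ℝ => fderiv ℝ (pk ω G Z) (t • J d1) (J d2) (jV v))
        (fderiv ℝ (fderiv ℝ (pk ω G Z)) 0 (J d1) (J d2) (jV v)) 0 := by simpa using f3
    exact e4.unique (f4.congr_of_eventuallyEq g1)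
  have hPf : ∀ᶠ q in 𝓝 (0 : (ℝ × ℂ) × ℝ),
      HasFDerivAt (fun v => W (q.2, Z (jV v, q.2))) (P q) q.1 := by
    filter_upwards [hJt.eventually hpot] with q h
    exact HasFDerivAt.comp q.1 (g := fun k => W (q.2, Z (k, q.2))) (f := jV) h jV.hasFDerivAt
  have hP0 : P 0 = 0 := by
    have : P 0 = Λ (pk ω G Z (J 0)) := rfl
    rw [this, hJ0]
    unfold pk
    rw [hdl0, map_zero, ContinuousLinearMap.zero_comp, map_zero]
  have hDZ0 : ∀ k, DZ G ((0 : (Fin d → ℝ) × ℝ).2, Z 0) (j k) = j k := by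
    intro k
    rw [hZ0]; exact (hjK _).mpr ⟨k, rfl⟩
  have hP1 : ∀ v : ℝ × ℂ, fderiv ℝ P 0 (v, 0) = 0 := by
    intro v
    refine ContinuousLinearMap.ext fun v' => ?_
    rw [hPd0, hJapp, fderiv_pk hG0 hZ hdl0, fderiv_dl hG0 hZ, hZk, hDZ0]
    have h2 : ((0:ℝ), (0:E)) = 0 := rfl
    rw [h2, map_zero]
    simp
  have hPs : ∀ (a : ℝ) (w : ℂ), fderiv ℝ P 0 (0, 1) (a, w) = -a := by
    intro a w
    rw [hPd0, hJapp, map_zero, fderiv_pk hG0 hZ hdl0, fderiv_dl hG0 hZ, hll0]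
    set ζ := fderiv ℝ Z 0 (0, 1) with hζ
    have h1 : fderiv ℝ G ((0 : (Fin d → ℝ) × ℝ).2, Z 0) (1, 0) = - u2 := by rw [hZ0]; exact hs
    have h2 : ω (DZ G ((0 : (Fin d → ℝ) × ℝ).2, Z 0) ζ) (j (jV (a, w))) = ω ζ (j (jV (a, w))) := by
      have h3 := hAω ζ (j (jV (a, w)))
      have h4 := hDZ0 (jV (a, w))
      rw [hZ0] at h4 ⊢
      change ω (DZ G (0, z0) ζ) _ = _
      rw [← h3]
      congr 1
      exact h4.symm
    have h5 : ω u2 (j (jV (a, w))) = a := by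
      rw [hjjV, map_add, map_add, map_smul, map_smul, map_smul, hη2, hp2, hr2]
      simp
    rw [h1, map_sub, map_add, map_neg, sub_apply, add_apply, neg_apply, map_smul, map_smul,
      map_smul, h2, h5]
    simp
  have hP3 : fderiv ℝ (fderiv ℝ P) 0 ((1, 0), 0) ((1, 0), 0) = 0 := by
    refine ContinuousLinearMap.ext fun v => ?_
    have e1 : J ((1, 0), 0) = (kη, 0) := by
      rw [hJapp, hjVapp]
      simp
    rw [hP2, e1, hS1]
    rfl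
  have hP4 : ∀ w : ℂ, fderiv ℝ (fderiv ℝ P) 0 ((1, 0), 0) ((0, w), 0) (0, w) = 2 * ‖w‖ ^ 2 := by
    intro w
    have e1 : J ((1, 0), 0) = (kη, 0) := by
      rw [hJapp, hjVapp]
      simp
    have e2 : J ((0, w), 0) = (jV (0, w), 0) := rfl
    rw [hP2, e1, e2, hS2, hjjV]
    simp only [zero_smul, zero_add]
    rw [hdef, Complex.sq_norm, Complex.normSq_apply]
    ring
  -- conclusion
  intro δ hδ
  have hgood : ∀ᶠ q in 𝓝 (0 : (ℝ × ℂ) × ℝ),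
      ((∀ v : ℝ × ℂ, pk ω G Z (J q) (jV v) = 0) → G ((J q).2, Z (J q)) = Z (J q)) ∧
      ‖Z (J q) - z0‖ < δ := by
    have h1 : ∀ᶠ q in 𝓝 (0 : (Fin d → ℝ) × ℝ), ‖Z q - z0‖ < δ := by
      have h2 := hZ.continuousAt.tendsto
      rw [hZ0] at h2
      filter_upwards [h2.eventually (Metric.ball_mem_nhds z0 hδ)] with q hq
      have hq' : dist (Z q) z0 < δ := hq
      rwa [dist_eq_norm] at hq'
    exact (hJt.eventually hcl).and (hJt.eventually h1)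
  obtain ⟨ε, hε0, hε⟩ := Metric.eventually_nhds_iff.mp hgood
  obtain ⟨v, s, hs0, hs1, hv, hPv⟩ := hBU (fun q => W (q.2, Z (jV q.1, q.2))) P hPc hPf hP0 hP1
    hPs hP3 hP4 (min ε δ) (lt_min hε0 hδ)
  have hq : dist ((v, s) : (ℝ × ℂ) × ℝ) 0 < ε := by
    rw [dist_zero_right]
    refine max_lt (hv.trans_le (min_le_left _ _)) ?_
    rw [Real.norm_eq_abs]
    exact hs1.trans_le (min_le_left _ _)
  obtain ⟨h1, h2⟩ := hε hq
  refine ⟨s, Z (J (v, s)), hs0, hs1.trans_le (min_le_right _ _), h2, ?_⟩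
  exact h1 fun v' => congrArg (fun L : ℝ × ℂ →L[ℝ] ℝ => L v') hPv

end Bif

end Pool.Agent.D0H95.BF
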