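import Pool.Agent.D0H95.BF.Lin

/-!
Isochronous families: bifurcation at the resonances.
-/

set_option autoImplicit false

namespace Pool.Agent.D0H95.BF

open Pool.Agent.W821.TB Pool.Agent.D0H95.NB Finset Filter Topology

theorem rot0 {X Y c s : ℝ} (h1 : X = c * X + s * Y) (h2 : Y = -s * X + c * Y)
    (h3 : c ^ 2 + s ^ 2 = 1) (h4 : c ≠ 1) : X = 0 ∧ Y = 0 := by
  have e1 : 2 * (1 - c) * X = 0 := by
    linear_combination (1 - c) * h1 + s * h2 - X * h3
  have e2 : 2 * (1 - c) * Y = 0 := by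
    linear_combination (1 - c) * h2 - s * h1 - Y * h3
  have h5 : 2 * (1 - c) ≠ 0 := by
    intro h
    exact h4 (by linarith)
  exact ⟨(mul_eq_zero.mp e1).resolve_left h5, (mul_eq_zero.mp e2).resolve_left h5⟩

theorem sub_aux {E : Type} [AddCommGroup E] [Module ℝ E] (a b : ℝ) (x y : E) :
    a • x - b • y = a • x + (-b) • y := by
  rw [neg_smul, sub_eq_add_neg]

theorem comb1 {E : Type} [AddCommGroup E] [Module ℂ E] [Module ℝ E] [SMulCommClass ℝ ℂ E]
    (C S C' S' : ℝ) (d : ℂ) (p r : E) :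
    C • (d • (C' • p - S' • r)) - S • (d • (S' • p + C' • r)) =
      d • ((C' * C - S' * S) • p - (S' * C + C' * S) • r) := by
  rw [smul_comm C d, smul_comm S d, ← smul_sub]
  congr 1
  module

theorem comb2 {E : Type} [AddCommGroup E] [Module ℂ E] [Module ℝ E] [SMulCommClass ℝ ℂ E]
    (C S C' S' : ℝ) (d : ℂ) (p r : E) :
    S • (d • (C' • p - S' • r)) + C • (d • (S' • p + C' • r)) =
      d • ((S' * C + C' * S) • p + (C' * C - S' * S) • r) := by
  rw [smul_comm C d, smul_comm S d, ← smul_add]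
  congr 1
  module

variable {m : Fin 3 → ℝ}

/-- The data of a relative periodic orbit with two elliptic pairs of multipliers. -/
structure EP (P : Pk m) (T : ℝ) (c : ℂ) (z p1 r1 p2 r2 : cm m) (α1 α2 : ℝ) : Prop where
  hS : ∀ t, ((P.g t z : cm m) : Ph 3) ∈ P.S
  hg : P.g T z = c • z
  hp1 : fderiv ℝ (P.g T) z p1 = c • (Real.cos α1 • p1 - Real.sin α1 • r1)
  hr1 : fderiv ℝ (P.g T) z r1 = c • (Real.sin α1 • p1 + Real.cos α1 • r1)
  hp2 : fderiv ℝ (P.g T) z p2 = c • (Real.cos α2 • p2 - Real.sin α2 • r2)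
  hr2 : fderiv ℝ (P.g T) z r2 = c • (Real.sin α2 • p2 + Real.cos α2 • r2)
  hω1 : ome m (p1 : Ph 3) (r1 : Ph 3) ≠ 0
  hω2 : ome m (p2 : Ph 3) (r2 : Ph 3) ≠ 0
  hs1 : Real.sin α1 ≠ 0
  hs2 : Real.sin α2 ≠ 0
  hcc : Real.cos α1 ≠ Real.cos α2
  hind : ∀ a b : ℝ, a • vf m (z : Ph 3) + b • (Complex.I • (z : Ph 3)) = 0 → a = 0 ∧ b = 0

theorem EP.swap {P : Pk m} {T : ℝ} {c : ℂ} {z p1 r1 p2 r2 : cm m} {α1 α2 : ℝ}
    (h : EP P T c z p1 r1 p2 r2 α1 α2) : EP P T c z p2 r2 p1 r1 α2 α1 :=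
  ⟨h.hS, h.hg, h.hp2, h.hr2, h.hp1, h.hr1, h.hω2, h.hω1, h.hs2, h.hs1, h.hcc.symm, h.hind⟩

theorem D_ome (P : Pk m) {z : cm m} (hS : ∀ t, ((P.g t z : cm m) : Ph 3) ∈ P.S) {T : ℝ}
    (hT : 0 ≤ T) (x y : cm m) :
    ome m ((fderiv ℝ (P.g T) z x : cm m) : Ph 3) ((fderiv ℝ (P.g T) z y : cm m) : Ph 3) =
      ome m (x : Ph 3) (y : Ph 3) := by
  have h1 := wr_seg (m := m) (y := fun t => ((P.g t z : cm m) : Ph 3))
    (ξ := fun t => ((fderiv ℝ (P.g t) z x : cm m) : Ph 3))
    (η := fun t => ((fderiv ℝ (P.g t) z y : cm m) : Ph 3)) hT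
    (fun t _ => Rg_ne P.hδ (hS t)) (fun t _ => jac_at P (hS t) x)
    (fun t _ => jac_at P (hS t) y)
  simp only [P.D_zero] at h1
  exact h1

/-- Skew products of eigenplanes. -/
theorem orth_pair {ω : cm m → cm m → ℝ} {D : cm m → cm m} {c : ℂ} (hc : ‖c‖ = 1)
    (hω : ∀ x y : cm m, ω x y = ome m (x : Ph 3) (y : Ph 3)) (hD : ∀ x y, ω (D x) (D y) = ω x y)
    {p r p' r' : cm m} {α β : ℝ}
    (hp : D p = c • (Real.cos α • p - Real.sin α • r))
    (hr : D r = c • (Real.sin α • p + Real.cos α • r))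
    (hp' : D p' = c • (Real.cos β • p' - Real.sin β • r'))
    (hr' : D r' = c • (Real.sin β • p' + Real.cos β • r')) (h : Real.cos α ≠ Real.cos β) :
    ω p p' = 0 ∧ ω p r' = 0 ∧ ω r p' = 0 ∧ ω r r' = 0 := by
  have hcω : ∀ x y : cm m, ω (c • x) (c • y) = ω x y := by
    intro x y
    rw [hω, hω]
    exact ome_smul hc _ _
  have hadd : ∀ x y z : cm m, ω (x + y) z = ω x z + ω y z := by
    intro x y z
    rw [hω, hω, hω]
    exact ome_add_left _ _ _
  have hadd' : ∀ x y z : cm m, ω x (y + z) = ω x y + ω x z := by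
    intro x y z
    rw [hω, hω, hω]
    exact ome_add_right _ _ _
  have hsm : ∀ (a : ℝ) (x y : cm m), ω (a • x) y = a * ω x y := by
    intro a x y
    rw [hω, hω]
    exact ome_smul_left _ _ _
  have hsm' : ∀ (a : ℝ) (x y : cm m), ω x (a • y) = a * ω x y := by
    intro a x y
    rw [hω, hω]
    exact ome_smul_right _ _ _
  have key : ∀ (a b d e : ℝ) , ω (a • p + b • r) (d • p' + e • r') =
      a * d * ω p p' + a * e * ω p r' + b * d * ω r p' + b * e * ω r r' := by
    intro a b d e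
    rw [hadd, hadd', hadd', hsm, hsm, hsm, hsm, hsm', hsm', hsm', hsm']
    ring
  have sub1 : Real.cos α • p - Real.sin α • r = Real.cos α • p + (-Real.sin α) • r :=
    sub_aux _ _ _ _
  have sub2 : Real.cos β • p' - Real.sin β • r' = Real.cos β • p' + (-Real.sin β) • r' :=
    sub_aux _ _ _ _
  have e1 := hD p p'
  have e2 := hD p r'
  have e3 := hD r p'
  have e4 := hD r r'
  rw [hp, hp', hcω, sub1, sub2, key] at e1
  rw [hp, hr', hcω, sub1, key] at e2
  rw [hr, hp', hcω, sub2, key] at e3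
  rw [hr, hr', hcω, key] at e4
  have s1 := Real.sin_sq_add_cos_sq α
  have s2 := Real.sin_sq_add_cos_sq β
  have f1 : Real.cos (α - β) ≠ 1 := by
    intro h1
    apply h
    have h2 : Real.sin (α - β) = 0 := by
      have := Real.sin_sq_add_cos_sq (α - β)
      rw [h1] at this
      nlinarith [sq_nonneg (Real.sin (α - β))]
    have h3 : Real.cos α = Real.cos ((α - β) + β) := by rw [sub_add_cancel]
    rw [h3, Real.cos_add, h1, h2]; ring
  have f2 : Real.cos (α + β) ≠ 1 := by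
    intro h1
    apply h
    have h2 : Real.sin (α + β) = 0 := by
      have := Real.sin_sq_add_cos_sq (α + β)
      rw [h1] at this
      nlinarith [sq_nonneg (Real.sin (α + β))]
    have h3 : Real.cos α = Real.cos ((α + β) - β) := by rw [add_sub_cancel_right]
    rw [h3, Real.cos_sub, h1, h2]; ring
  have g1 : ω p p' + ω r r' = Real.cos (α - β) * (ω p p' + ω r r') +
      Real.sin (α - β) * (ω p r' - ω r p') := by
    rw [Real.cos_sub, Real.sin_sub]
    linear_combination -e1 - e4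
  have g2 : ω p r' - ω r p' = -Real.sin (α - β) * (ω p p' + ω r r') +
      Real.cos (α - β) * (ω p r' - ω r p') := by
    rw [Real.cos_sub, Real.sin_sub]
    linear_combination -e2 + e3
  have g3 : ω p p' - ω r r' = Real.cos (α + β) * (ω p p' - ω r r') +
      (-Real.sin (α + β)) * (ω p r' + ω r p') := by
    rw [Real.cos_add, Real.sin_add]
    linear_combination -e1 + e4
  have g4 : ω p r' + ω r p' = -(-Real.sin (α + β)) * (ω p p' - ω r r') +
      Real.cos (α + β) * (ω p r' + ω r p') := by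
    rw [Real.cos_add, Real.sin_add]
    linear_combination -e2 - e3
  obtain ⟨k1, k2⟩ := rot0 g1 g2 (by have := Real.sin_sq_add_cos_sq (α - β); linarith) f1
  obtain ⟨k3, k4⟩ := rot0 g3 g4 (by have := Real.sin_sq_add_cos_sq (α + β); linarith) f2
  exact ⟨by linarith, by linarith, by linarith, by linarith⟩

/-- Skew products with a fixed vector. -/
theorem orth_fix {ω : cm m → cm m → ℝ} {D : cm m → cm m} {c : ℂ} (hc : ‖c‖ = 1)
    (hω : ∀ x y : cm m, ω x y = ome m (x : Ph 3) (y : Ph 3)) (hD : ∀ x y, ω (D x) (D y) = ω x y)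
    {u p r : cm m} {α : ℝ} (hu : D u = c • u)
    (hp : D p = c • (Real.cos α • p - Real.sin α • r))
    (hr : D r = c • (Real.sin α • p + Real.cos α • r)) (h : Real.cos α ≠ 1) :
    ω u p = 0 ∧ ω u r = 0 := by
  have hcω : ∀ x y : cm m, ω (c • x) (c • y) = ω x y := by
    intro x y
    rw [hω, hω]
    exact ome_smul hc _ _
  have hadd' : ∀ x y z : cm m, ω x (y + z) = ω x y + ω x z := by
    intro x y z
    rw [hω, hω, hω]
    exact ome_add_right _ _ _
  have hsm' : ∀ (a : ℝ) (x y : cm m), ω x (a • y) = a * ω x y := by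
    intro a x y
    rw [hω, hω]
    exact ome_smul_right _ _ _
  have sub1 : Real.cos α • p - Real.sin α • r = Real.cos α • p + (-Real.sin α) • r :=
    sub_aux _ _ _ _
  have e1 := hD u p
  have e2 := hD u r
  rw [hu, hp, hcω, sub1, hadd', hsm', hsm'] at e1
  rw [hu, hr, hcω, hadd', hsm', hsm'] at e2
  refine rot0 (c := Real.cos α) (s := -Real.sin α) (by linarith) (by linarith) ?_ h
  have := Real.sin_sq_add_cos_sq α
  nlinarith

/-- Iteration of the twisted period map. -/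
theorem iter_D (P : Pk m) {T : ℝ} {c : ℂ} (hc : ‖c‖ = 1) {z : cm m} (hg : P.g T z = c • z) (q : ℕ) :
    P.g (q * T) z = c ^ q • z ∧
    (∀ {p r : cm m} {α : ℝ}, fderiv ℝ (P.g T) z p = c • (Real.cos α • p - Real.sin α • r) →
      fderiv ℝ (P.g T) z r = c • (Real.sin α • p + Real.cos α • r) →
      fderiv ℝ (P.g (q * T)) z p = c ^ q • (Real.cos (q * α) • p - Real.sin (q * α) • r) ∧
      fderiv ℝ (P.g (q * T)) z r = c ^ q • (Real.sin (q * α) • p + Real.cos (q * α) • r)) ∧
    (∀ {u : cm m}, fderiv ℝ (P.g T) z u = c • u → fderiv ℝ (P.g (q * T)) z u = c ^ q • u) := by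
  induction q with
  | zero =>
    refine ⟨?_, ?_, ?_⟩
    · simp [P.hg.zero]
    · intro p r α _ _
      simp [P.D_zero]
    · intro u _
      simp [P.D_zero]
  | succ q ih =>
    obtain ⟨h1, h2, h3⟩ := ih
    have e0 : ((q + 1 : ℕ) : ℝ) * T = q * T + T := by push_cast; ring
    have eD : ∀ v w : cm m, fderiv ℝ (P.g T) z v = c • w →
        fderiv ℝ (P.g (((q + 1 : ℕ) : ℝ) * T)) z v = c • fderiv ℝ (P.g (q * T)) z w := by
      intro v w hv
      rw [e0, P.D_add, hg, hv, P.D_smul hc]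
    refine ⟨?_, ?_, ?_⟩
    · rw [e0, P.add, hg, P.smul hc, h1, smul_smul, pow_succ']
    · intro p r α hp hr
      obtain ⟨h4, h5⟩ := h2 hp hr
      constructor
      · rw [eD _ _ hp, map_sub, map_smul, map_smul, h4, h5]
        have e1 : ((q + 1 : ℕ) : ℝ) * α = q * α + α := by push_cast; ring
        rw [e1, Real.cos_add, Real.sin_add, pow_succ', ← smul_smul]
        congr 1
        exact comb1 _ _ _ _ _ _ _
      · rw [eD _ _ hr, map_add, map_smul, map_smul, h4, h5]
        have e1 : ((q + 1 : ℕ) : ℝ) * α = q * α + α := by push_cast; ring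
        rw [e1, Real.cos_add, Real.sin_add, pow_succ', ← smul_smul]
        congr 1
        exact comb2 _ _ _ _ _ _ _
    · intro u hu
      rw [eD _ _ hu, h3 hu, smul_smul, pow_succ']

end Pool.Agent.D0H95.BF
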