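import Pool.Agent.D0H95.BF.Stm2

/-!
Two functions with the same resonances are constant.
-/

set_option autoImplicit false

namespace Pool.Agent.D0H95.BF

open Filter Topology Set

theorem cd_deriv {h : ℝ → ℝ} {x : ℝ} (hh : ContDiffAt ℝ 1 h x) : ContinuousAt (deriv h) x := by
  have h1 := hh.continuousAt_fderiv one_ne_zero
  have h2 : deriv h = fun y => fderiv ℝ h y 1 := by
    funext y
    exact fderiv_apply_one_eq_deriv.symm
  rw [h2]
  exact h1.clm_apply continuousAt_const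

theorem exI {p : ℝ → Prop} {x0 : ℝ} (h : ∀ᶠ x in 𝓝 x0, p x) :
    ∃ a b : ℝ, a < x0 ∧ x0 < b ∧ ∀ x ∈ Icc a b, p x := by
  obtain ⟨ε, hε, h1⟩ := Metric.nhds_basis_closedBall.mem_iff.mp h
  refine ⟨x0 - ε, x0 + ε, by linarith, by linarith, fun x hx => h1 ?_⟩
  rw [Metric.mem_closedBall, Real.dist_eq, abs_le]
  exact ⟨by linarith [hx.1], by linarith [hx.2]⟩

theorem injI {a b : ℝ} {f : ℝ → ℝ} (hc : ContinuousOn f (Icc a b))
    (hd : ∀ x ∈ Icc a b, deriv f x ≠ 0) : InjOn f (Icc a b) := by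
  have key : ∀ x ∈ Icc a b, ∀ y ∈ Icc a b, x < y → f x ≠ f y := by
    intro x hx y hy hxy h
    obtain ⟨c, hc', hc0⟩ := exists_deriv_eq_zero hxy
      (hc.mono (Icc_subset_Icc hx.1 hy.2)) h
    exact hd c ⟨hx.1.trans hc'.1.le, hc'.2.le.trans hy.2⟩ hc0
  intro x hx y hy h
  rcases lt_trichotomy x y with h1 | h1 | h1
  · exact absurd h (key x hx y hy h1)
  · exact h1
  · exact absurd h.symm (key y hy x hx h1)

theorem ivt_int {x0 x1 : ℝ} {f : ℝ → ℝ} (hc : ContinuousOn f (uIcc x0 x1)) {q : ℕ}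
    (hq : 1 < q * |f x1 - f x0|) : ∃ x ∈ uIcc x0 x1, ∃ k : ℤ, q * f x = k := by
  have h1 := intermediate_value_uIcc hc
  have hq0 : (0:ℝ) < q := by
    rcases Nat.eq_zero_or_pos q with h | h
    · rw [h] at hq; norm_num at hq
    · exact_mod_cast h
  set lo := min (f x0) (f x1) with hlo
  set hi := max (f x0) (f x1) with hhi
  have h2 : hi - lo = |f x1 - f x0| := max_sub_min_eq_abs _ _
  set k : ℤ := ⌈q * lo⌉ with hk
  have h3 : q * lo ≤ k := Int.le_ceil _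
  have h4 : (k : ℝ) < q * lo + 1 := Int.ceil_lt_add_one _
  have h5 : (k : ℝ) / q ∈ uIcc (f x0) (f x1) := by
    constructor
    · rw [le_div_iff₀ hq0]
      change lo * q ≤ k
      linarith
    · rw [div_le_iff₀ hq0]
      change (k:ℝ) ≤ hi * q
      have : (hi - lo) * q > 1 := by rw [h2]; linarith
      nlinarith
  obtain ⟨x, hx, hfx⟩ := h1 h5
  exact ⟨x, hx, k, by rw [hfx]; field_simp⟩

theorem res_one (hNT : S_NT) {A B : ℝ} {f g : ℝ → ℝ} (hf : ∀ x ∈ Ioo A B, ContDiffAt ℝ 1 f x)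
    (hg : ∀ x ∈ Ioo A B, ContDiffAt ℝ 1 g x)
    (hfg : ∀ x ∈ Ioo A B, ∀ k : ℤ, f x + g x ≠ k ∧ f x - g x ≠ k)
    (hg0 : ∀ x ∈ Ioo A B, ∀ k : ℤ, g x ≠ k)
    (H1 : ∀ x ∈ Ioo A B, deriv f x ≠ 0 → ∀ q : ℕ, 0 < q → (∃ k : ℤ, q * f x = k) →
      ∃ k : ℤ, q * g x = k)
    (H2 : ∀ x ∈ Ioo A B, deriv g x ≠ 0 → ∀ q : ℕ, 0 < q → (∃ k : ℤ, q * g x = k) →
      ∃ k : ℤ, q * f x = k) :
    ∀ x ∈ Ioo A B, deriv f x = 0 := by
  intro x0 hx0
  by_contra hne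
  obtain ⟨a, b, ha, hb, hab⟩ := exI (((cd_deriv (hf x0 hx0)).eventually_ne hne).and
    (isOpen_Ioo.mem_nhds hx0))
  have hfc : ContinuousOn f (Icc a b) := fun x hx =>
    (hf x (hab x hx).2).continuousAt.continuousWithinAt
  have hgc : ContinuousOn g (Icc a b) := fun x hx =>
    (hg x (hab x hx).2).continuousAt.continuousWithinAt
  have hfi := injI hfc fun x hx => (hab x hx).1
  by_cases hz : ∃ x1 ∈ Ioo a b, deriv g x1 ≠ 0
  · obtain ⟨x1, hx1, hne1⟩ := hz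
    obtain ⟨a', b', ha', hb', hab'⟩ := exI
      (((cd_deriv (hg x1 (hab x1 ⟨hx1.1.le, hx1.2.le⟩).2)).eventually_ne hne1).and
      (isOpen_Ioo.mem_nhds hx1))
    have hsub : Icc a' b' ⊆ Icc a b := fun x hx => ⟨(hab' x hx).2.1.le, (hab' x hx).2.2.le⟩
    have hgi := injI (hgc.mono hsub) fun x hx => (hab' x hx).1
    obtain ⟨x, hx, q, hq, h⟩ := hNT a' b' f g (ha'.trans hb') (hfc.mono hsub) (hgc.mono hsub)
      (hfi.mono hsub) hgi (fun x hx => hfg x (hab x (hsub hx)).2)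
    have hx' : x ∈ Icc a' b' := ⟨hx.1.le, hx.2.le⟩
    rcases h with ⟨h1, h2⟩ | ⟨h1, h2⟩
    · obtain ⟨k, hk⟩ := H1 x (hab x (hsub hx')).2 (hab x (hsub hx')).1 q hq h1
      exact h2 k hk
    · obtain ⟨k, hk⟩ := H2 x (hab x (hsub hx')).2 (hab' x hx').1 q hq h1
      exact h2 k hk
  · push Not at hz
    set x1 := (x0 + b) / 2 with hx1
    have hx01 : x0 < x1 := by rw [hx1]; linarith
    have hx1b : x1 < b := by rw [hx1]; linarith
    have hI : uIcc x0 x1 ⊆ Ioo a b := by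
      rw [uIcc_of_le hx01.le]
      intro x hx
      exact ⟨by linarith [hx.1], by linarith [hx.2]⟩
    have hI' : uIcc x0 x1 ⊆ Icc a b := hI.trans Ioo_subset_Icc_self
    have hd : 0 < |f x1 - f x0| := by
      rw [abs_pos, sub_ne_zero]
      intro h
      have := hfi (hI' right_mem_uIcc) (hI' left_mem_uIcc) h
      linarith
    have hgconst : ∀ x ∈ Ioo a b, g x = g x0 := by
      intro x hx
      exact isOpen_Ioo.is_const_of_deriv_eq_zero (convex_Ioo a b).isPreconnected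
        (fun y hy => ((hg y (hab y ⟨hy.1.le, hy.2.le⟩).2).differentiableAt
          one_ne_zero).differentiableWithinAt) hz hx ⟨ha, hb⟩
    obtain ⟨q, hq⟩ := exists_nat_gt (1 / |f x1 - f x0|)
    have hq1 : 1 < q * |f x1 - f x0| := by
      rw [div_lt_iff₀ hd] at hq; exact hq
    have hq0 : 0 < q := by
      rcases Nat.eq_zero_or_pos q with h | h
      · rw [h] at hq1; norm_num at hq1
      · exact h
    have hq2 : 1 < ((q + 1 : ℕ) : ℝ) * |f x1 - f x0| := by push_cast; linarith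
    have key : ∀ Q : ℕ, 0 < Q → 1 < Q * |f x1 - f x0| → ∃ k : ℤ, Q * g x0 = k := by
      intro Q hQ hQ1
      obtain ⟨x, hx, k, hk⟩ := ivt_int (hfc.mono hI') hQ1
      obtain ⟨k', hk'⟩ := H1 x (hab x (hI' hx)).2 (hab x (hI' hx)).1 Q hQ ⟨k, hk⟩
      rw [hgconst x (hI hx)] at hk'
      exact ⟨k', hk'⟩
    obtain ⟨k1, hk1⟩ := key q hq0 hq1
    obtain ⟨k2, hk2⟩ := key (q + 1) (Nat.succ_pos q) hq2
    refine hg0 x0 hx0 (k2 - k1) ?_
    push_cast at hk2 ⊢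
    linarith

theorem res_two (hNT : S_NT) {A B : ℝ} {f g : ℝ → ℝ} (hf : ∀ x ∈ Ioo A B, ContDiffAt ℝ 1 f x)
    (hg : ∀ x ∈ Ioo A B, ContDiffAt ℝ 1 g x)
    (hfg : ∀ x ∈ Ioo A B, ∀ k : ℤ, f x + g x ≠ k ∧ f x - g x ≠ k)
    (hf0 : ∀ x ∈ Ioo A B, ∀ k : ℤ, f x ≠ k) (hg0 : ∀ x ∈ Ioo A B, ∀ k : ℤ, g x ≠ k)
    (H1 : ∀ x ∈ Ioo A B, deriv f x ≠ 0 → ∀ q : ℕ, 0 < q → (∃ k : ℤ, q * f x = k) →
      ∃ k : ℤ, q * g x = k)
    (H2 : ∀ x ∈ Ioo A B, deriv g x ≠ 0 → ∀ q : ℕ, 0 < q → (∃ k : ℤ, q * g x = k) →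
      ∃ k : ℤ, q * f x = k) :
    ∀ x ∈ Ioo A B, ∀ y ∈ Ioo A B, f x = f y ∧ g x = g y := by
  have h1 := res_one hNT hf hg hfg hg0 H1 H2
  have h2 := res_one hNT hg hf (fun x hx k => ⟨by rw [add_comm]; exact (hfg x hx k).1, fun h => by
    apply (hfg x hx (-k)).2
    push_cast
    linarith⟩) hf0 H2 H1
  intro x hx y hy
  exact ⟨isOpen_Ioo.is_const_of_deriv_eq_zero (convex_Ioo A B).isPreconnected
    (fun y hy => ((hf y hy).differentiableAt one_ne_zero).differentiableWithinAt) h1 hx hy,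
    isOpen_Ioo.is_const_of_deriv_eq_zero (convex_Ioo A B).isPreconnected
    (fun y hy => ((hg y hy).differentiableAt one_ne_zero).differentiableWithinAt) h2 hx hy⟩

end Pool.Agent.D0H95.BF
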