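import Pool.Agent.D0H95.BF.EpBif
import Pool.Agent.D0H95.BF.Res

/-!
The multipliers are constant along the isochronous family of a stable orbit.
-/

set_option autoImplicit false

namespace Pool.Agent.D0H95.BF

open Pool.Agent.W821.TB Pool.Agent.D0H95.NB Finset Filter Topology

theorem lock' {n : ℕ} {m : Fin n → ℝ} (hn : 2 ≤ n) (hm : ∀ a, 0 < m a) {x : ℝ → Ph n}
    (hx : IsSol m Set.univ x) (hre : ¬ IsRelEq x) (hst : LyapunovStable m (Set.range x))
    {T : ℝ} (hT : 0 < T) {c : ℂ} (hc : ‖c‖ = 1) (hper : ∀ t, x (t + T) = c • x t) :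
    ∃ K : ℕ, 1 ≤ K ∧ ∃ U : Set (Ph n), IsOpen U ∧ Set.range x ⊆ U ∧
      ∀ (y : ℝ → Ph n) (d : ℂ) (S : ℝ), 0 < S →
      IsSol m Set.univ y → y 0 ∈ U → ‖d‖ = 1 → (∀ t, y (t + S) = d • y t) → d ^ (2 * K) = 1 := by
  have hdist : ∀ {y : ℝ → Ph n} {d : ℂ} {S : ℝ}, ‖d‖ = 1 → (∀ t, y (t + S) = d • y t) →
      DistPer y S := by
    intro y d S hd hy t a b
    rw [hy]
    have : (d • y t).1 a - (d • y t).1 b = d * ((y t).1 a - (y t).1 b) := by simp [mul_sub]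
    rw [this, norm_mul, hd, one_mul]
  rcases final hn hm hx hT (hdist hc hper) hst with h | ⟨K, hK, -, U, hUo, hxU, -, hU⟩
  · exact absurd h hre
  refine ⟨K, hK, U, hUo, hxU, ?_⟩
  intro y d S hS hy hyU hd hyd
  have h1 := hU y hy hyU S hS (hdist hd hyd) 0
  have h2 := iter_smul hyd (2 * K) 0
  have h3 : ((2 * K : ℕ) : ℝ) * S = 2 * K * S := by push_cast; ring
  rw [h3, h1] at h2
  obtain ⟨a, ha⟩ := exists_ne_zero hn (hy.mem 0)
  have h4 : (y 0).1 a = d ^ (2 * K) * (y 0).1 a := congrArg (fun z : Ph n => z.1 a) h2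
  have h5 : (d ^ (2 * K) - 1) * (y 0).1 a = 0 := by linear_combination -h4
  rcases mul_eq_zero.mp h5 with h | h
  · exact sub_eq_zero.mp h
  · exact absurd h ha

theorem indep {n : ℕ} {m : Fin n → ℝ} (hn : 2 ≤ n) (hm : ∀ a, 0 < m a) {x : ℝ → Ph n}
    (hx : IsSol m Set.univ x) (hre : ¬ IsRelEq x) (a b : ℝ)
    (h : a • vf m (x 0) + b • (Complex.I • x 0) = 0) : a = 0 ∧ b = 0 := by
  have hs := surj hn hm hx hre
  have hne : ∀ a b, a ≠ b → (x 0).1 a ≠ (x 0).1 b := (hx.mem 0).1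
  have key : ∀ w : ℝ × ℝ, a * w.1 + b * w.2 = 0 := by
    intro w
    obtain ⟨v, hv⟩ := hs w
    rw [QQ_fderiv hne] at hv
    rw [← hv]
    change a * ome m (vf m (x 0)) (v : Ph n) + b * ome m (Complex.I • (x 0)) (v : Ph n) = 0
    rw [← ome_smul_left, ← ome_smul_left, ← ome_add_left, h]
    have h1 := ome_smul_left (m := m) 0 (0 : Ph n) (v : Ph n)
    rw [zero_smul, zero_mul] at h1
    exact h1
  constructor
  · simpa using key (1, 0)
  · simpa using key (0, 1)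

variable {m : Fin 3 → ℝ}

theorem gen_cd {E : Type} [NormedAddCommGroup E] [NormedSpace ℝ E] {h : ℝ → E} {x : ℝ}
    (hh : ContDiffAt ℝ 1 h x) : ContinuousAt (deriv h) x := by
  have h1 := hh.continuousAt_fderiv one_ne_zero
  have h2 : deriv h = fun y => fderiv ℝ h y 1 := by
    funext y
    exact fderiv_apply_one_eq_deriv.symm
  rw [h2]
  exact h1.clm_apply continuousAt_const

theorem core (hBU : S_BU) (hNT : S_NT) (hm : ∀ a, 0 < m a) {x : ℝ → Ph 3}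
    (hx : IsSol m Set.univ x) (hre : ¬ IsRelEq x) (hst : LyapunovStable m (Set.range x))
    {P : Pk m} {T : ℝ} (hT : 0 < T) {c : ℂ} (hc : ‖c‖ = 1)
    {γ p1 r1 p2 r2 : ℝ → cm m} {α1 α2 : ℝ → ℝ} {l0 : ℝ}
    (hxP : ∀ t, ((P.g t (γ l0) : cm m) : Ph 3) = x t)
    (hev : ∀ᶠ l in 𝓝 l0, ContDiffAt ℝ 1 γ l ∧
      (∀ t, ((P.g t (γ l) : cm m) : Ph 3) ∈ P.S) ∧ P.g T (γ l) = c • γ l)
    (hL : ome m (Complex.I • (γ l0 : Ph 3)) ((deriv γ l0 : cm m) : Ph 3) ≠ 0)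
    (hcp1 : ContDiffAt ℝ 1 p1 l0) (hcr1 : ContDiffAt ℝ 1 r1 l0) (hca1 : ContDiffAt ℝ 1 α1 l0)
    (hcp2 : ContDiffAt ℝ 1 p2 l0) (hcr2 : ContDiffAt ℝ 1 r2 l0) (hca2 : ContDiffAt ℝ 1 α2 l0)
    (hrel1 : ∀ᶠ l in 𝓝 l0,
      fderiv ℝ (P.g T) (γ l) (p1 l) = c • (Real.cos (α1 l) • p1 l - Real.sin (α1 l) • r1 l) ∧
      fderiv ℝ (P.g T) (γ l) (r1 l) = c • (Real.sin (α1 l) • p1 l + Real.cos (α1 l) • r1 l))
    (hrel2 : ∀ᶠ l in 𝓝 l0,
      fderiv ℝ (P.g T) (γ l) (p2 l) = c • (Real.cos (α2 l) • p2 l - Real.sin (α2 l) • r2 l) ∧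
      fderiv ℝ (P.g T) (γ l) (r2 l) = c • (Real.sin (α2 l) • p2 l + Real.cos (α2 l) • r2 l))
    (hω1 : ome m (p1 l0 : Ph 3) (r1 l0 : Ph 3) ≠ 0) (hω2 : ome m (p2 l0 : Ph 3) (r2 l0 : Ph 3) ≠ 0)
    (hs1 : Real.sin (α1 l0) ≠ 0) (hs2 : Real.sin (α2 l0) ≠ 0)
    (hcc : Real.cos (α1 l0) ≠ Real.cos (α2 l0)) :
    ∀ᶠ l in 𝓝 l0, α1 l = α1 l0 ∧ α2 l = α2 l0 := by
  obtain ⟨ω, hω⟩ := exists_om m
  have hx0 : (γ l0 : Ph 3) = x 0 := by
    rw [← hxP 0, P.hg.zero]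
  have hper : ∀ t, x (t + T) = c • x t := by
    intro t
    rw [← hxP, ← hxP, P.per_smul hc hev.self_of_nhds.2.2]
    rfl
  obtain ⟨K, hK, U, hUo, hxU, hlock⟩ := lock' (by norm_num) hm hx hre hst hT hc hper
  have hcK : c ^ (2 * K) = 1 := hlock x c T hT hx (hxU ⟨0, rfl⟩) hc hper
  have hK0 : (0:ℝ) < K := by exact_mod_cast hK
  -- everything near `l0`
  have hγc : ContinuousAt γ l0 := hev.self_of_nhds.1.continuousAt
  have hγcm : ContinuousAt (fun l => ((γ l : cm m) : Ph 3)) l0 :=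
    (inc m).continuous.continuousAt.comp hγc
  have hU0 : ∀ᶠ l in 𝓝 l0, ((γ l : cm m) : Ph 3) ∈ U := by
    refine hγcm.eventually (hUo.mem_nhds ?_)
    change ((γ l0 : cm m) : Ph 3) ∈ U
    rw [hx0]
    exact hxU ⟨0, rfl⟩
  have hne0 : ∀ a b, a ≠ b → ((γ l0 : cm m) : Ph 3).1 a ≠ ((γ l0 : cm m) : Ph 3).1 b := by
    rw [hx0]; exact (hx.mem 0).1
  have hind : ∀ᶠ l in 𝓝 l0, ∀ a b : ℝ,
      a • vf m ((γ l : cm m) : Ph 3) + b • (Complex.I • ((γ l : cm m) : Ph 3)) = 0 →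
      a = 0 ∧ b = 0 := by
    have h1 : LinearIndependent ℝ ![vf m ((γ l0 : cm m) : Ph 3), Complex.I • ((γ l0 : cm m) : Ph 3)] := by
      rw [LinearIndependent.pair_iff]
      intro s t hst'
      rw [hx0] at hst'
      exact indep (by norm_num) hm hx hre s t hst'
    have h2 : Tendsto (fun l => ![vf m ((γ l : cm m) : Ph 3), Complex.I • ((γ l : cm m) : Ph 3)])
        (𝓝 l0) (𝓝 ![vf m ((γ l0 : cm m) : Ph 3), Complex.I • ((γ l0 : cm m) : Ph 3)]) := by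
      have h3 : ContinuousAt (fun l => vf m ((γ l : cm m) : Ph 3)) l0 := by
        have h4 : ContinuousAt (vf m) ((fun l => ((γ l : cm m) : Ph 3)) l0) :=
          (contDiffAt_vf hne0).continuousAt
        exact ContinuousAt.comp (g := vf m) (f := fun l => ((γ l : cm m) : Ph 3)) h4 hγcm
      have h5 : ContinuousAt (fun l => Complex.I • ((γ l : cm m) : Ph 3)) l0 :=
        (continuous_const_smul Complex.I).continuousAt.comp hγcm
      rw [tendsto_pi_nhds]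
      intro i
      fin_cases i
      · exact h3
      · exact h5
    filter_upwards [h2.eventually h1.eventually] with l hl
    exact LinearIndependent.pair_iff.mp hl
  have hωc : ∀ {p r : ℝ → cm m}, ContinuousAt p l0 → ContinuousAt r l0 →
      ContinuousAt (fun l => ome m (p l : Ph 3) (r l : Ph 3)) l0 := by
    intro p r hp hr
    have h1 : ContinuousAt (fun l => ω (p l) (r l)) l0 :=
      (ω.continuous.continuousAt.comp hp).clm_apply hr
    have h2 : (fun l => ω (p l) (r l)) = fun l => ome m (p l : Ph 3) (r l : Ph 3) :=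
      funext fun l => hω _ _
    rwa [h2] at h1
  have hL' : ∀ᶠ l in 𝓝 l0, ome m (Complex.I • (γ l : Ph 3)) ((deriv γ l : cm m) : Ph 3) ≠ 0 := by
    have h1 : ContinuousAt (fun l => Complex.I • γ l) l0 :=
      (continuous_const_smul Complex.I).continuousAt.comp hγc
    exact (hωc h1 (gen_cd hev.self_of_nhds.1)).eventually_ne hL
  have hw1 := (hωc hcp1.continuousAt hcr1.continuousAt).eventually_ne hω1
  have hw2 := (hωc hcp2.continuousAt hcr2.continuousAt).eventually_ne hω2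
  have hsin1 : ∀ᶠ l in 𝓝 l0, Real.sin (α1 l) ≠ 0 :=
    (Real.continuous_sin.continuousAt.comp hca1.continuousAt).eventually_ne hs1
  have hsin2 : ∀ᶠ l in 𝓝 l0, Real.sin (α2 l) ≠ 0 :=
    (Real.continuous_sin.continuousAt.comp hca2.continuousAt).eventually_ne hs2
  have hcc' : ∀ᶠ l in 𝓝 l0, Real.cos (α1 l) ≠ Real.cos (α2 l) := by
    have h1 : ContinuousAt (fun l => Real.cos (α1 l) - Real.cos (α2 l)) l0 :=
      (Real.continuous_cos.continuousAt.comp hca1.continuousAt).sub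
        (Real.continuous_cos.continuousAt.comp hca2.continuousAt)
    filter_upwards [h1.eventually_ne (sub_ne_zero.mpr hcc)] with l hl
    exact sub_ne_zero.mp hl
  have hall : ∀ᶠ l in 𝓝 l0,
      (ContDiffAt ℝ 1 γ l ∧ (∀ᶠ l' in 𝓝 l, P.g T (γ l') = c • γ l') ∧ ((γ l : cm m) : Ph 3) ∈ U ∧
        ome m (Complex.I • (γ l : Ph 3)) ((deriv γ l : cm m) : Ph 3) ≠ 0) ∧
      (ContDiffAt ℝ 1 p1 l ∧ ContDiffAt ℝ 1 r1 l ∧ ContDiffAt ℝ 1 α1 l ∧
        ContDiffAt ℝ 1 p2 l ∧ ContDiffAt ℝ 1 r2 l ∧ ContDiffAt ℝ 1 α2 l) ∧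
      (∀ᶠ l in 𝓝 l,
      fderiv ℝ (P.g T) (γ l) (p1 l) = c • (Real.cos (α1 l) • p1 l - Real.sin (α1 l) • r1 l) ∧
      fderiv ℝ (P.g T) (γ l) (r1 l) = c • (Real.sin (α1 l) • p1 l + Real.cos (α1 l) • r1 l)) ∧
      (∀ᶠ l in 𝓝 l,
      fderiv ℝ (P.g T) (γ l) (p2 l) = c • (Real.cos (α2 l) • p2 l - Real.sin (α2 l) • r2 l) ∧
      fderiv ℝ (P.g T) (γ l) (r2 l) = c • (Real.sin (α2 l) • p2 l + Real.cos (α2 l) • r2 l)) ∧
      EP P T c (γ l) (p1 l) (r1 l) (p2 l) (r2 l) (α1 l) (α2 l) := by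
    filter_upwards [hev, (hev.mono fun l hl => hl.2.2).eventually_nhds, hU0, hL',
      hcp1.eventually (by simp), hcr1.eventually (by simp), hca1.eventually (by simp),
      hcp2.eventually (by simp), hcr2.eventually (by simp), hca2.eventually (by simp),
      hrel1.eventually_nhds, hrel2.eventually_nhds, hw1, hw2, hsin1, hsin2, hcc', hind]
      with l a1 a2 a3 a4 a5 a6 a7 a8 a9 a10 a11 a12 a13 a14 a15 a16 a17 a18
    exact ⟨⟨a1.1, a2, a3, a4⟩, ⟨a5, a6, a7, a8, a9, a10⟩, a11, a12,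
      ⟨a1.2.1, a1.2.2, a11.self_of_nhds.1, a11.self_of_nhds.2, a12.self_of_nhds.1,
        a12.self_of_nhds.2, a13, a14, a15, a16, a17, a18⟩⟩
  obtain ⟨A, B, hA, hB, hAB⟩ := exI hall
  -- no bifurcation
  have nobif : ∀ (l : ℝ), (∀ t, ((P.g t (γ l) : cm m) : Ph 3) ∈ P.S) → ((γ l : cm m) : Ph 3) ∈ U →
      ∀ q : ℕ, 1 ≤ q → ¬ ∀ δ : ℝ, 0 < δ → ∃ (s : ℝ) (z : cm m), s ≠ 0 ∧ |s| < δ ∧
        ‖z - γ l‖ < δ ∧ P.g (q * T) z = (Complex.exp (s * Complex.I) * c ^ q) • z := by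
    intro l hlS hlU q hq hbif
    have hq0 : (0:ℝ) < q := by exact_mod_cast hq
    have hqT : 0 < (q : ℝ) * T := by positivity
    have hnear := P.near (z0 := γ l) (T := q * T) (fun t _ => hlS t)
    have hU1 : ∀ᶠ z : cm m in 𝓝 (γ l), (z : Ph 3) ∈ U :=
      (inc m).continuous.continuousAt.eventually (hUo.mem_nhds hlU)
    obtain ⟨ε, hε, hball⟩ := Metric.eventually_nhds_iff_ball.mp (hnear.and hU1)
    have hpi : 0 < Real.pi / K := by positivity
    obtain ⟨s, z, hs0, hs1, hz, hgz⟩ := hbif (min ε (Real.pi / K)) (lt_min hε hpi)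
    have hzb : z ∈ Metric.ball (γ l) ε := by
      rw [Metric.mem_ball, dist_eq_norm]
      exact lt_of_lt_of_le hz (min_le_left _ _)
    obtain ⟨hz1, hz2⟩ := hball z hzb
    have hcq : ‖c ^ q‖ = 1 := by rw [norm_pow, hc, one_pow]
    have hd : ‖Complex.exp (s * Complex.I) * c ^ q‖ = 1 := by
      rw [norm_mul, hcq, norm_expI, one_mul]
    have hallz := P.per_mem hd hqT hgz hz1
    have hy := P.sol_of hallz
    apply hs0
    have hcqK : (c ^ q) ^ (2 * K) = 1 := by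
      rw [← pow_mul, mul_comm, pow_mul, hcK, one_pow]
    refine small_angle hK (lt_of_lt_of_le hs1 (min_le_right _ _)) hcqK
      (hlock _ _ (q * T) hqT hy ?_ hd ?_)
    · change ((P.g 0 z : cm m) : Ph 3) ∈ U
      rw [P.hg.zero]; exact hz2
    · intro t
      change ((P.g (t + q * T) z : cm m) : Ph 3) = _
      rw [P.per_smul hd hgz]
      rfl
  have h2pi : (2 * Real.pi) ≠ 0 := by positivity
  have hint : ∀ (q : ℕ) (α : ℝ), (∃ k : ℤ, q * (α / (2 * Real.pi)) = k) ↔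
      Real.cos (q * α) = 1 := by
    intro q α
    rw [Real.cos_eq_one_iff]
    constructor
    · rintro ⟨k, hk⟩
      refine ⟨k, ?_⟩
      rw [← hk]
      field_simp
    · rintro ⟨k, hk⟩
      refine ⟨k, ?_⟩
      rw [← mul_div_assoc, ← hk]
      field_simp
  have hsn : ∀ α : ℝ, Real.sin α ≠ 0 → ∀ k : ℤ, α / (2 * Real.pi) ≠ k := by
    intro α hα k hk
    apply hα
    have h1 : α = k * (2 * Real.pi) := by
      rw [← hk]; field_simp
    rw [h1]
    have := Real.sin_int_mul_pi (2 * k)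
    push_cast at this
    rw [show (k:ℝ) * (2 * Real.pi) = 2 * k * Real.pi by ring]
    exact this
  have key := res_two hNT (A := A) (B := B) (f := fun l => α1 l / (2 * Real.pi))
    (g := fun l => α2 l / (2 * Real.pi)) ?_ ?_ ?_ ?_ ?_ ?_ ?_
  · filter_upwards [Ioo_mem_nhds hA hB] with l hl
    obtain ⟨k1, k2⟩ := key l hl l0 ⟨hA, hB⟩
    constructor
    · have k1' : α1 l / (2 * Real.pi) = α1 l0 / (2 * Real.pi) := k1
      field_simp at k1'
      linarith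
    · have k2' : α2 l / (2 * Real.pi) = α2 l0 / (2 * Real.pi) := k2
      field_simp at k2'
      linarith
  · intro l hl
    exact (hAB l ⟨hl.1.le, hl.2.le⟩).2.1.2.2.1.div_const _
  · intro l hl
    exact (hAB l ⟨hl.1.le, hl.2.le⟩).2.1.2.2.2.2.2.div_const _
  · intro l hl k
    have hE := (hAB l ⟨hl.1.le, hl.2.le⟩).2.2.2.2
    constructor
    · intro h
      apply hE.hcc
      have h1 : α1 l = k * (2 * Real.pi) - α2 l := by
        have h2 : α1 l / (2 * Real.pi) + α2 l / (2 * Real.pi) = k := h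
        rw [← h2]; field_simp; ring
      rw [h1, Real.cos_int_mul_two_pi_sub]
    · intro h
      apply hE.hcc
      have h1 : α1 l = α2 l + k * (2 * Real.pi) := by
        have h2 : α1 l / (2 * Real.pi) - α2 l / (2 * Real.pi) = k := h
        rw [← h2]; field_simp; ring
      rw [h1, Real.cos_add_int_mul_two_pi]
  · intro l hl
    exact hsn _ (hAB l ⟨hl.1.le, hl.2.le⟩).2.2.2.2.hs1
  · intro l hl
    exact hsn _ (hAB l ⟨hl.1.le, hl.2.le⟩).2.2.2.2.hs2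
  · intro l hl hd q hq hk
    obtain ⟨⟨b1, b2, b3, b4⟩, ⟨b5, b6, b7, b8, b9, b10⟩, b11, b12, b13⟩ := hAB l ⟨hl.1.le, hl.2.le⟩
    rw [hint] at hk ⊢
    by_contra hne
    have hd' : deriv α1 l ≠ 0 := by
      intro h
      apply hd
      rw [deriv_div_const, h, zero_div]
    exact nobif l b13.hS b3 q hq (ep_bif hBU hm hT hc b1
      (b1.differentiableAt one_ne_zero).hasDerivAt b2 b4
      (b5.differentiableAt one_ne_zero).hasDerivAt (b6.differentiableAt one_ne_zero).hasDerivAt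
      (b7.differentiableAt one_ne_zero).hasDerivAt hd' b11 b13 hq hk hne)
  · intro l hl hd q hq hk
    obtain ⟨⟨b1, b2, b3, b4⟩, ⟨b5, b6, b7, b8, b9, b10⟩, b11, b12, b13⟩ := hAB l ⟨hl.1.le, hl.2.le⟩
    rw [hint] at hk ⊢
    by_contra hne
    have hd' : deriv α2 l ≠ 0 := by
      intro h
      apply hd
      rw [deriv_div_const, h, zero_div]
    exact nobif l b13.hS b3 q hq (ep_bif hBU hm hT hc b1
      (b1.differentiableAt one_ne_zero).hasDerivAt b2 b4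
      (b8.differentiableAt one_ne_zero).hasDerivAt (b9.differentiableAt one_ne_zero).hasDerivAt
      (b10.differentiableAt one_ne_zero).hasDerivAt hd' b12 b13.swap hq hk hne)

end Pool.Agent.D0H95.BF
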