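import Pool.Agent.D0H95.NB.Main2

/-!
Statements for the elliptic Lagrange solutions (helper95, MP_5027f4_mp slot 4).

Notation: `ν` mean motion, `A` semi-major axis, `M = ν² A³` total mass, `e` eccentricity, `u`
eccentric anomaly. The Jacobi fields of the homographic equilateral solution in the second complex
direction `b` are `ρ ζ b`, where `ζ` as a function of `u` solves
`((1 - e cos u) ζ')' + 2 i √(1-e²) ζ' = 3/2 ζ + κ conj ζ`.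
-/

set_option autoImplicit false

open Filter Topology Set
open Pool.Agent.W821.TB Pool.Agent.D0H95.NB

namespace Pool.Agent.D0H95.BF

/-- Module KEP. Kepler's equation and the elliptic motion.

Proof. `h u = u - e sin u` is a strictly increasing bijection of `ℝ` with derivative
`1 - e cos u > 0` and `h (u + 2π) = h u + 2π`; take the inverse function at `ν t`
(`HasDerivAt.of_local_left_inverse` or `OrderIso`). The rest is differentiation;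
`‖ell A e u‖ = A (1 - e cos u)`. -/
noncomputable def ell (A e u : ℝ) : ℂ :=
  (A : ℂ) * (((Real.cos u - e : ℝ) : ℂ) + ((Real.sqrt (1 - e ^ 2) * Real.sin u : ℝ) : ℂ) * Complex.I)

noncomputable def ellv (A ν e u : ℝ) : ℂ :=
  ((A * ν / (1 - e * Real.cos u) : ℝ) : ℂ) *
    (((- Real.sin u : ℝ) : ℂ) + ((Real.sqrt (1 - e ^ 2) * Real.cos u : ℝ) : ℂ) * Complex.I)

def S_KEP : Prop := ∀ (ν A e : ℝ), 0 < ν → 0 < A → |e| < 1 →
  (∀ u, ‖ell A e u‖ = A * (1 - e * Real.cos u)) ∧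
  ∃ u : ℝ → ℝ, u 0 = 0 ∧
    (∀ t, u t - e * Real.sin (u t) = ν * t) ∧
    (∀ t, HasDerivAt u (ν / (1 - e * Real.cos (u t))) t) ∧
    (∀ t, u (t + 2 * Real.pi / ν) = u t + 2 * Real.pi) ∧
    (∀ t, HasDerivAt (fun t => ell A e (u t)) (ellv A ν e (u t)) t) ∧
    (∀ t, HasDerivAt (fun t => ellv A ν e (u t))
      (((- (ν ^ 2 * A ^ 3 / ‖ell A e (u t)‖ ^ 3) : ℝ) : ℂ) * ell A e (u t)) t)

/-- Module TRI. Linear algebra of the equilateral triangle with masses `m 0, m 1, m 2`.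

Proof. With `d = ρ (a j - a i)`, `‖d‖ = ‖ρ‖`, the derivative of the acceleration in the direction
`ξ`, `Σ m ξ = 0`, is `Σ_{j≠i} m j [(ξ j - ξ i) / r³ - 3 d Re (conj d (ξ j - ξ i)) / r⁵]
= r⁻³ (M/2 ξ i - 3/2 (ρ/‖ρ‖)² Σ_j m j (a j - a i)² conj (ξ j - ξ i))`, `r = ‖ρ‖`, `M = Σ m`.
Let `e₀ = a 2 - a 1`, `e₁ = a 0 - a 2`, `e₂ = a 1 - a 0`, so `Σ e = 0`, `e₁ = w e₀`, `e₂ = w² e₀`,
`w² + w + 1 = 0` (equilateral), and `b' i = conj (e i) / m i`: then `Σ m b' = 0`,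
`Σ m conj (a) b' = 0` and `- Σ_j m j (a j - a i)² conj (b' j - b' i) = k b' i` with
`k = e₀⁴ (m 0 + w m 1 + w² m 2)`, `|k|² = M² - 3 σ₂`; while for `ξ = a` the sum is `M a i`.
Take `b = θ b'` with `‖θ‖ = 1`, `θ² |k| = k`, so that `k conj z b'` becomes real:
`b i = θ b' i` satisfies `- Σ_j m j (a j - a i)² conj (z (b j - b i)) = |k| conj z b i`.
`κ = 3/2 |k| / M`. -/
def S_TRI : Prop := ∀ (m : Fin 3 → ℝ), (∀ i, 0 < m i) → ∀ a : Fin 3 → ℂ,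
  (∀ i j, i ≠ j → ‖a i - a j‖ = 1) → (∑ i, (m i : ℂ) * a i = 0) →
  ∃ (b : Fin 3 → ℂ) (κ : ℝ), (∀ i, b i ≠ 0) ∧ (∑ i, (m i : ℂ) * b i = 0) ∧
    (∑ i, (m i : ℂ) * ((starRingEnd ℂ) (a i) * b i) = 0) ∧ 0 ≤ κ ∧
    κ ^ 2 = 9 / 4 * (1 - 3 * (m 0 * m 1 + m 1 * m 2 + m 2 * m 0) / (m 0 + m 1 + m 2) ^ 2) ∧
    (∀ ξ : Fin 3 → ℂ, (∑ i, (m i : ℂ) * ξ i = 0) → ∀ i,
      ξ i = (∑ j, (m j : ℂ) * ((starRingEnd ℂ) (a j) * ξ j)) /
          (∑ j, (m j : ℂ) * ((starRingEnd ℂ) (a j) * a j)) * a i +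
        (∑ j, (m j : ℂ) * ((starRingEnd ℂ) (b j) * ξ j)) /
          (∑ j, (m j : ℂ) * ((starRingEnd ℂ) (b j) * b j)) * b i) ∧
    (∀ ρ : ℂ, ρ ≠ 0 → ∀ i, acc m (fun j => ρ * a j) i =
      (((- ((m 0 + m 1 + m 2) / ‖ρ‖ ^ 3) : ℝ)) : ℂ) * (ρ * a i)) ∧
    (∀ ρ : ℂ, ρ ≠ 0 → ∀ (w : Fin 3 → ℂ) (z z' : ℂ),
      fderiv ℝ (vf m) ((fun j => ρ * a j), w) ((fun j => z * a j), (fun j => z' * a j)) =
        ((fun j => z' * a j), (fun j => (((m 0 + m 1 + m 2) / ‖ρ‖ ^ 3 : ℝ) : ℂ) *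
          (1 / 2 * z + 3 / 2 * (ρ ^ 2 / (‖ρ‖ : ℂ) ^ 2) * (starRingEnd ℂ) z) * a j))) ∧
    (∀ ρ : ℂ, ρ ≠ 0 → ∀ (w : Fin 3 → ℂ) (z z' : ℂ),
      fderiv ℝ (vf m) ((fun j => ρ * a j), w) ((fun j => z * b j), (fun j => z' * b j)) =
        ((fun j => z' * b j), (fun j => (((m 0 + m 1 + m 2) / ‖ρ‖ ^ 3 : ℝ) : ℂ) *
          (1 / 2 * z + κ * (ρ ^ 2 / (‖ρ‖ : ℂ) ^ 2) * (starRingEnd ℂ) z) * b j)))

/-- Module EIG. Differentiable continuation of a simple eigenvalue `exp (i α)` on the unit circle of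
symplectic maps (`p + i r` is the complex eigenvector).

Proof. Implicit function theorem for the unknowns `(p, r, x, y) ∈ E × E × ℝ × ℝ` and the equations
`M e p = x p - y r`, `M e r = y p + x r`, `ω p0 p + ω r0 r = 0`, `ω p0 r - ω r0 p = 2 ω p0 r0`
at `(p0, r0, cos α0, sin α0)`: the linearization is injective (pair the first two equations with
`ω p0`, `ω r0`: by the invariance of `ω` the terms with `δp, δr` cancel and
`(δx, δy) ω p0 r0 = 0`; then `(δp, δr) = (c p0 - d r0, d p0 + c r0)` by simplicity and `c = d = 0` by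
the last two equations), so bijective. Then `ω (M p) (M r) = ω p r` gives
`(x² + y²) ω p r = ω p r`, so `x² + y² = 1`, and `α e = α0 + arg ((x + i y) exp (-i α0))`. -/
def S_EIG : Prop := ∀ (E : Type) [NormedAddCommGroup E] [NormedSpace ℝ E] [FiniteDimensional ℝ E]
  (ω : E →L[ℝ] E →L[ℝ] ℝ) (M : ℝ → E →L[ℝ] E) (p0 r0 : E) (α0 : ℝ) (N : ℕ),
  1 ≤ N → (∀ x y, ω x y = - ω y x) →
  (∀ᶠ e in 𝓝 (0:ℝ), ∀ x y, ω (M e x) (M e y) = ω x y) → ContDiffAt ℝ N M 0 →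
  M 0 p0 = Real.cos α0 • p0 - Real.sin α0 • r0 → M 0 r0 = Real.sin α0 • p0 + Real.cos α0 • r0 →
  ω p0 r0 ≠ 0 →
  (∀ x y, M 0 x = Real.cos α0 • x - Real.sin α0 • y → M 0 y = Real.sin α0 • x + Real.cos α0 • y →
    ∃ c d : ℝ, x = c • p0 - d • r0 ∧ y = d • p0 + c • r0) →
  ∃ (p r : ℝ → E) (α : ℝ → ℝ), p 0 = p0 ∧ r 0 = r0 ∧ α 0 = α0 ∧ ContDiffAt ℝ N p 0 ∧
    ContDiffAt ℝ N r 0 ∧ ContDiffAt ℝ N α 0 ∧
    ∀ᶠ e in 𝓝 (0:ℝ), M e (p e) = Real.cos (α e) • p e - Real.sin (α e) • r e ∧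
      M e (r e) = Real.sin (α e) • p e + Real.cos (α e) • r e

/-- Module PERT. Second order perturbation of the Floquet exponent (checked numerically).

Proof. `s = l² + 2 l + 3/2`, `s' = l² - 2 l + 3/2`, `κ² = s s'`, `p = √(1 - e²)`, `q = Λ e`.
Test pair `X = exp (i q u) (κ + e x₊ exp (i u) + e x₋ exp (- i u))`,
`Y = exp (i q u) (- s + e y₊ exp (i u) + e y₋ exp (- i u))` with the real solutions of
`(μ² + 2μ + 3/2) x + κ y = l μ κ / 2`, `κ x + (μ² - 2μ + 3/2) y = - l μ s / 2`, `μ = l ± 1`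
(the determinants `μ⁴ - μ² + 9/4 - κ²` are `2 l (2 l + 1)(l + 1)`, `- 2 l (2 l - 1)(l - 1)`).
`R^A = ((1 - e cos u) X')' + 2 i p X' - 3/2 X - κ Y`, `R^B = ((1 - e cos u) Y')' - 2 i p Y' - 3/2 Y - κ X`
are trigonometric polynomials `exp (i q u) Σ_{|k| ≤ 2} R_k exp (i k u)`; Green's formula with
`(A, B)` and the quasi-periodicity (the same multiplier) give `∫_0^{2π} (conj A R^A + conj B R^B) = 0`
(the primitive is `r (conj A X' - conj A' X) + r (conj B Y' - conj B' Y) + 2 i p (conj A X - conj B Y)`,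
`r = 1 - e cos u`). As `A = κ exp (i q u) + O(e)`, `B = - s exp (i q u) + O(e)`:
`κ R^A_0 - s R^B_0 = O(e) Σ |R_k|`, `R_k = O(e² + |e| |q - l|)` for `k ≠ 0`,
`R_0 = O(|q - l| + e²)`. Expanding: `- (q - l) s 2 l (2 l² - 1) + e² (...) = O(|e|³ + |e| |q - l| + |q - l|²)`
with `(...) = s (l (l+1) Q₊ / (8 (2l+1)) + l (1-l) Q₋ / (8 (2l-1)) - 4 l²)`,
`Q± = 4 l⁴ ± 4 l³ + 14 l² ± 14 l + 12`, which is `s 2 l (2 l² - 1)` times the coefficient below. -/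
def S_PERT : Prop := ∀ (κ l δ C : ℝ) (Λ : ℝ → ℝ) (A A' B B' : ℝ → ℝ → ℂ),
  0 < l → l < 1 → 4 * l ^ 2 ≠ 1 → 2 * l ^ 2 ≠ 1 → l ^ 4 - l ^ 2 + 9 / 4 - κ ^ 2 = 0 →
  0 < δ → δ < 1 →
  (∀ e, |e| < δ → ∀ u, HasDerivAt (A e) (A' e u) u ∧ HasDerivAt (B e) (B' e u) u ∧
    HasDerivAt (fun u => ((1 - e * Real.cos u : ℝ) : ℂ) * A' e u)
      (3 / 2 * A e u + κ * B e u - 2 * Real.sqrt (1 - e ^ 2) * Complex.I * A' e u) u ∧
    HasDerivAt (fun u => ((1 - e * Real.cos u : ℝ) : ℂ) * B' e u)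
      (3 / 2 * B e u + κ * A e u + 2 * Real.sqrt (1 - e ^ 2) * Complex.I * B' e u) u ∧
    A e (u + 2 * Real.pi) = Complex.exp (2 * Real.pi * Λ e * Complex.I) * A e u ∧
    B e (u + 2 * Real.pi) = Complex.exp (2 * Real.pi * Λ e * Complex.I) * B e u) →
  (∀ e, |e| < δ → |Λ e - l| ≤ C * |e| ∧ ∀ u ∈ Icc (0:ℝ) (2 * Real.pi),
    ‖A e u - κ * Complex.exp (l * u * Complex.I)‖ ≤ C * |e| ∧
    ‖B e u + (l ^ 2 + 2 * l + 3 / 2) * Complex.exp (l * u * Complex.I)‖ ≤ C * |e|) →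
  ∃ C' : ℝ, ∀ᶠ e in 𝓝 (0:ℝ), |Λ e - l -
    l * (6 * l ^ 2 - 7) * (l ^ 2 - 1) / (4 * (4 * l ^ 2 - 1) * (2 * l ^ 2 - 1)) * e ^ 2| ≤ C' * |e| ^ 3

/-- Module CIRC. Quasi-periodic solutions of the circular problem.

Proof. `X` satisfies `X'''' + X'' + (9/4 - κ²) X = 0`, i.e. with `D = d/du` and
`l'² = 1 - l²` (`l² l'² = 9/4 - κ²`): `(D - i l)(D + i l)(D - i l')(D + i l') X = 0`. On functions
with `g (u + 2π) = exp (2π i l) g u` the operator `D - i μ` is injective if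
`exp (2π i μ) ≠ exp (2π i l)`; here `μ = - l, l', - l'` (`2 l ∉ ℤ`, `l ± l' ∉ ℤ`). So
`(D - i l) X = 0`, `X = c κ exp (i l u)`, and the first equation gives `Y`. -/
def S_CIRC : Prop := ∀ (κ l : ℝ) (X X' Y Y' : ℝ → ℂ),
  0 < l → l < 1 → 4 * l ^ 2 ≠ 1 → 2 * l ^ 2 ≠ 1 → l ^ 4 - l ^ 2 + 9 / 4 - κ ^ 2 = 0 →
  (∀ u, HasDerivAt X (X' u) u ∧ HasDerivAt Y (Y' u) u ∧
    HasDerivAt X' (3 / 2 * X u + κ * Y u - 2 * Complex.I * X' u) u ∧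
    HasDerivAt Y' (3 / 2 * Y u + κ * X u + 2 * Complex.I * Y' u) u ∧
    X (u + 2 * Real.pi) = Complex.exp (2 * Real.pi * l * Complex.I) * X u ∧
    Y (u + 2 * Real.pi) = Complex.exp (2 * Real.pi * l * Complex.I) * Y u) →
  ∃ c : ℂ, ∀ u, X u = c * κ * Complex.exp (l * u * Complex.I) ∧
    Y u = - c * (l ^ 2 + 2 * l + 3 / 2) * Complex.exp (l * u * Complex.I)

/-- Module NT.

Proof. Suppose not: for all `q` and all `x` in `(a, b)`: `q f x ∈ ℤ ↔ q g x ∈ ℤ`. `f, g` are strictly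
monotone. For large `q` the set `S_q = {x | q f x ∈ ℤ}` (intersected with `(a, b)`) has at least two
points, and for consecutive points `x < x'` of `S_q` both `f x' - f x` and `g x' - g x` are
`± 1/q` (there is no point of `S_q = {x | q g x ∈ ℤ}` between them). So with the sign
`σ = ± 1` (equal or different monotonicity) `g - σ f` takes one value `D` on `S_q`, and `q D ∈ ℤ`.
The same for `q + 1` and `q (q + 1)`, with `S_q, S_{q+1} ⊆ S_{q (q+1)}`: the same `D`, `(q+1) D ∈ ℤ`;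
so `D ∈ ℤ`, a contradiction. -/
def S_NT : Prop := ∀ (a b : ℝ) (f g : ℝ → ℝ), a < b → ContinuousOn f (Icc a b) →
  ContinuousOn g (Icc a b) → InjOn f (Icc a b) → InjOn g (Icc a b) →
  (∀ x ∈ Icc a b, ∀ k : ℤ, f x + g x ≠ k ∧ f x - g x ≠ k) →
  ∃ x ∈ Ioo a b, ∃ q : ℕ, 0 < q ∧
    (((∃ k : ℤ, q * f x = k) ∧ ∀ k : ℤ, q * g x ≠ k) ∨
      ((∃ k : ℤ, q * g x = k) ∧ ∀ k : ℤ, q * f x ≠ k))

end Pool.Agent.D0H95.BF
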