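import Pool.Agent.D0H95.BF.Simple
import Pool.Agent.D0H95.BF.Stm2

/-!
Continuation of elliptic pairs; uniqueness of Jacobi fields.
-/

set_option autoImplicit false

namespace Pool.Agent.D0H95.BF

open Pool.Agent.W821.TB Pool.Agent.D0H95.NB Finset Filter Topology

/-- Jacobi fields are given by the derivative of the flow. -/
theorem jac_uniq {n : ℕ} {m : Fin n → ℝ} (hm : ∀ a, 0 < m a) (P : Pk m) {z : cm m}
    (hS : ∀ t, ((P.g t z : cm m) : Ph n) ∈ P.S) {ξ : ℝ → Ph n} (hcm : ∀ t, ξ t ∈ cm m)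
    (hξ : ∀ t, HasDerivAt ξ (fderiv ℝ (vf m) ((P.g t z : cm m) : Ph n) (ξ t)) t) {v : cm m}
    (hv : (v : Ph n) = ξ 0) {t : ℝ} (ht : 0 ≤ t) :
    ξ t = ((fderiv ℝ (P.g t) z v : cm m) : Ph n) := by
  set ζ : ℝ → Ph n := fun t => ξ t - ((fderiv ℝ (P.g t) z v : cm m) : Ph n) with hζ
  have hζd : ∀ t, HasDerivAt ζ (fderiv ℝ (vf m) ((P.g t z : cm m) : Ph n) (ζ t)) t := by
    intro t
    have h1 := (hξ t).sub (jac_at P (hS t) v)
    rw [← map_sub] at h1
    exact h1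
  have hζ0 : ζ 0 = 0 := by
    rw [hζ]
    simp only
    rw [P.D_zero, hv, sub_self]
  have hW : ∀ w : cm m, ome m (ζ t) ((fderiv ℝ (P.g t) z w : cm m) : Ph n) = 0 := by
    intro w
    have h1 := wr_seg (m := m) (y := fun t => ((P.g t z : cm m) : Ph n)) (ξ := ζ)
      (η := fun t => ((fderiv ℝ (P.g t) z w : cm m) : Ph n)) ht
      (fun t _ => Rg_ne P.hδ (hS t)) (fun t _ => hζd t) (fun t _ => jac_at P (hS t) w)
    rw [h1, hζ0]
    have h2 := ome_smul_left (m := m) 0 (0 : Ph n) ((fderiv ℝ (P.g 0) z w : cm m) : Ph n)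
    rw [zero_smul, zero_mul] at h2
    exact h2
  have hinj : Function.Injective (fderiv ℝ (P.g t) z) := by
    rw [injective_iff_map_eq_zero]
    intro v hv
    refine om_nd hm v fun y => ?_
    have h1 := wr_seg (m := m) (y := fun t => ((P.g t z : cm m) : Ph n))
      (ξ := fun t => ((fderiv ℝ (P.g t) z v : cm m) : Ph n))
      (η := fun t => ((fderiv ℝ (P.g t) z y : cm m) : Ph n)) ht
      (fun t _ => Rg_ne P.hδ (hS t)) (fun t _ => jac_at P (hS t) v)
      (fun t _ => jac_at P (hS t) y)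
    simp only [P.D_zero] at h1
    rw [← h1, hv]
    have h2 := ome_smul_left (m := m) 0 (0 : Ph n) ((fderiv ℝ (P.g t) z y : cm m) : Ph n)
    rw [zero_smul, zero_mul] at h2
    exact h2
  have hsurj : Function.Surjective (fderiv ℝ (P.g t) z) :=
    (LinearMap.injective_iff_surjective (f := (fderiv ℝ (P.g t) z).toLinearMap)).mp hinj
  have hmem : ζ t ∈ cm m := by
    rw [hζ]
    exact (cm m).sub_mem (hcm t) (fderiv ℝ (P.g t) z v).2
  have h0 : (⟨ζ t, hmem⟩ : cm m) = 0 := by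
    refine om_nd hm _ fun y => ?_
    obtain ⟨w, hw⟩ := hsurj y
    rw [← hw]
    exact hW w
  have h1 : ζ t = 0 := congrArg Subtype.val h0
  exact sub_eq_zero.mp h1

variable {m : Fin 3 → ℝ}

theorem eig_cont (hEIG : S_EIG) (hm : ∀ a, 0 < m a) {N : ℕ} (hN : 1 ≤ N) {P : Pk m} {T : ℝ}
    (hT : 0 < T) {c : ℂ} (hc : ‖c‖ = 1) {γ : ℝ → cm m} {l0 : ℝ} (hγ : ContDiffAt ℝ N γ l0)
    (hS : ∀ᶠ l in 𝓝 l0, ∀ t, ((P.g t (γ l) : cm m) : Ph 3) ∈ P.S)
    {p0 r0 p2 r2 : cm m} {α0 α2 : ℝ} (h : EP P T c (γ l0) p0 r0 p2 r2 α0 α2) :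
    ∃ (p r : ℝ → cm m) (α : ℝ → ℝ), p l0 = p0 ∧ r l0 = r0 ∧ α l0 = α0 ∧ ContDiffAt ℝ N p l0 ∧
      ContDiffAt ℝ N r l0 ∧ ContDiffAt ℝ N α l0 ∧ ∀ᶠ l in 𝓝 l0,
      fderiv ℝ (P.g T) (γ l) (p l) = c • (Real.cos (α l) • p l - Real.sin (α l) • r l) ∧
      fderiv ℝ (P.g T) (γ l) (r l) = c • (Real.sin (α l) • p l + Real.cos (α l) • r l) := by
  obtain ⟨ω, hω⟩ := exists_om m
  have hc0 : c ≠ 0 := by rintro rfl; simp at hc
  have hinv : ∀ {v w : cm m}, c⁻¹ • v = w → v = c • w := by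
    intro v w hvw
    rw [← hvw, smul_smul, mul_inv_cancel₀ hc0, one_smul]
  have hinv' : ∀ {v w : cm m}, v = c • w → c⁻¹ • v = w := by
    intro v w hvw
    rw [hvw, smul_smul, inv_mul_cancel₀ hc0, one_smul]
  set M : ℝ → cm m →L[ℝ] cm m := fun e =>
    (rotL m c⁻¹).comp (fderiv ℝ (P.g T) (γ (l0 + e))) with hM
  have hM0 : M 0 = (rotL m c⁻¹).comp (fderiv ℝ (P.g T) (γ l0)) := by rw [hM]; simp
  have htend : Tendsto (fun e : ℝ => l0 + e) (𝓝 0) (𝓝 l0) := by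
    have h1 : Continuous (fun e : ℝ => l0 + e) := by fun_prop
    have := h1.tendsto 0
    rwa [add_zero] at this
  have hMc : ContDiffAt ℝ N M 0 := by
    have h1 : ContDiff ℝ (N + 1 : ℕ) (P.g T) := cdN_t P (Nat.succ_ne_zero N) T
    have h2 : ContDiff ℝ N (fderiv ℝ (P.g T)) := h1.fderiv_right (by norm_cast)
    have h3 : ContDiffAt ℝ N (fun e : ℝ => l0 + e) 0 := by fun_prop
    have h4 : ContDiffAt ℝ N (fun e : ℝ => γ (l0 + e)) 0 := by
      have h5 : ContDiffAt ℝ N γ ((fun e : ℝ => l0 + e) 0) := by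
        simp only [add_zero]; exact hγ
      exact h5.comp (0:ℝ) h3
    have h5 : ContDiffAt ℝ N (fun e : ℝ => fderiv ℝ (P.g T) (γ (l0 + e))) 0 :=
      h2.contDiffAt.comp (0:ℝ) h4
    exact contDiffAt_const.clm_comp h5
  obtain ⟨p, r, α, e1, e2, e3, e4, e5, e6, e7⟩ := hEIG (cm m) ω M p0 r0 α0 N hN
    (by intro x y; rw [hω, hω]; exact ome_anti _ _)
    (by
      filter_upwards [htend.eventually hS] with e he x y
      have h1 : ∀ v, M e v = c⁻¹ • fderiv ℝ (P.g T) (γ (l0 + e)) v := fun v => rfl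
      rw [h1, h1, hω, hω]
      have h2 := D_ome P he hT.le x y
      rw [← h2]
      exact ome_smul (by rw [norm_inv, hc, inv_one]) _ _) hMc
    (by rw [hM0]; exact hinv' h.hp1) (by rw [hM0]; exact hinv' h.hr1)
    (by rw [hω]; exact h.hω1)
    (by
      intro x y hx hy
      rw [hM0] at hx hy
      exact h.simple hm hT hc (hinv hx) (hinv hy))
  have htend' : Tendsto (fun l : ℝ => l - l0) (𝓝 l0) (𝓝 0) := by
    have h1 : Continuous (fun e : ℝ => e - l0) := by fun_prop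
    have := h1.tendsto l0
    rwa [sub_self] at this
  have hcomp : ∀ {F : Type} [NormedAddCommGroup F] [NormedSpace ℝ F] {g : ℝ → F},
      ContDiffAt ℝ N g 0 → ContDiffAt ℝ N (fun l => g (l - l0)) l0 := by
    intro F _ _ g hg
    have h3 : ContDiffAt ℝ N (fun e : ℝ => e - l0) l0 := by fun_prop
    have h5 : ContDiffAt ℝ N g ((fun e : ℝ => e - l0) l0) := by
      simp only [sub_self]; exact hg
    exact ContDiffAt.comp (g := g) (f := fun e : ℝ => e - l0) l0 h5 h3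
  refine ⟨fun l => p (l - l0), fun l => r (l - l0), fun l => α (l - l0), by simp [e1],
    by simp [e2], by simp [e3], hcomp e4, hcomp e5, hcomp e6, ?_⟩
  filter_upwards [htend'.eventually e7] with l hl
  have h1 : ∀ v, M (l - l0) v = c⁻¹ • fderiv ℝ (P.g T) (γ l) v := by
    intro v
    rw [hM]
    simp only [add_sub_cancel]
    rfl
  rw [h1, h1] at hl
  exact ⟨hinv hl.1, hinv hl.2⟩

end Pool.Agent.D0H95.BF
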