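import Pool.Agent.D0H95.NB.Main2

/-!
Higher differentiability of the flow; the variational equation on orbit segments; the action.
-/

set_option autoImplicit false

namespace Pool.Agent.D0H95.BF

open Pool.Agent.W821.TB Pool.Agent.D0H95.NB Finset Filter Topology
open Pool.Agent.GR.Flow (IsFlowOf contDiff_flow hasDerivAt_fderiv_flow)

variable {n : ℕ} {m : Fin n → ℝ}

theorem contDiff_NS' {N : ℕ} : ContDiff ℝ N (NS : Ph n → ℝ) := by
  unfold NS
  refine ContDiff.sum fun a _ => ?_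
  have h1 : ContDiff ℝ N (fun z : Ph n => z.1 a) := by fun_prop
  have h2 : ContDiff ℝ N (fun z : Ph n => z.2 a) := by fun_prop
  exact (h1.norm_sq ℝ).add (h2.norm_sq ℝ)

theorem contDiff_chi' {N : ℕ} (R δ : ℝ) : ContDiff ℝ N (chi R δ : Ph n → ℝ) := by
  unfold chi
  have hst : ContDiff ℝ N Real.smoothTransition := by
    have := Real.smoothTransition.contDiff (n := (N : ℕ∞))
    exact_mod_cast this
  refine ContDiff.mul ?_ ?_
  · exact hst.comp (contDiff_const.sub (contDiff_NS'.div_const R))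
  · refine contDiff_prod fun a _ => contDiff_prod fun b _ => ?_
    have h1 : ContDiff ℝ N (fun z : Ph n => z.1 b - z.1 a) := by fun_prop
    exact hst.comp (((contDiff_const.mul (h1.norm_sq ℝ)).div_const δ).sub contDiff_const)

theorem contDiffAt_acc' {N : ℕ} {z : Ph n} (hq : ∀ a b, a ≠ b → z.1 a ≠ z.1 b) (a : Fin n) :
    ContDiffAt ℝ N (fun p : Ph n => acc m p.1 a) z := by
  unfold acc
  refine ContDiffAt.sum fun b hb => ?_
  have hne : z.1 b - z.1 a ≠ 0 := sub_ne_zero.2 (hq b a (Finset.ne_of_mem_erase hb))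
  have hd : ContDiffAt ℝ N (fun p : Ph n => p.1 b - p.1 a) z := by fun_prop
  have hn : ContDiffAt ℝ N (fun p : Ph n => ‖p.1 b - p.1 a‖) z := hd.norm ℝ hne
  have hn3 : ContDiffAt ℝ N (fun p : Ph n => m b / ‖p.1 b - p.1 a‖ ^ 3) z :=
    contDiffAt_const.div (hn.pow 3) (pow_ne_zero 3 (norm_ne_zero_iff.2 hne))
  have ho : ContDiffAt ℝ N (fun p : Ph n => ((m b / ‖p.1 b - p.1 a‖ ^ 3 : ℝ) : ℂ)) z :=
    (Complex.ofRealCLM.contDiff.contDiffAt).comp z hn3
  exact ho.mul hd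

theorem contDiffAt_vf' {N : ℕ} {z : Ph n} (hz : ∀ a b, a ≠ b → z.1 a ≠ z.1 b) :
    ContDiffAt ℝ N (vf m) z :=
  ContDiffAt.prodMk contDiffAt_snd (contDiffAt_pi.2 fun a => contDiffAt_acc' hz a)

theorem contDiff_XX' {N : ℕ} {R δ : ℝ} (hδ : 0 < δ) : ContDiff ℝ N (XX m R δ) := by
  rw [contDiff_iff_contDiffAt]
  intro z
  have hinc : ContDiff ℝ N (fun z : cm m => (z : Ph n)) := (inc m).contDiff
  by_cases hz : ∀ a b, a ≠ b → (z : Ph n).1 a ≠ (z : Ph n).1 b
  · have h0 : ContDiffAt ℝ N (fun z : cm m => chi R δ (z : Ph n)) z :=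
      ((contDiff_chi' R δ).comp hinc).contDiffAt
    have h1 : ContDiffAt ℝ N (vf m) ((fun z : cm m => (z : Ph n)) z) := contDiffAt_vf' hz
    have h2 : ContDiffAt ℝ N (fun z : cm m => vf m (z : Ph n)) z := h1.comp z hinc.contDiffAt
    have h3 : ContDiffAt ℝ N (fun z : cm m => pr m (vf m (z : Ph n))) z :=
      (pr m).contDiff.contDiffAt.comp z h2
    exact h0.smul h3
  · simp only [not_forall, not_not] at hz
    obtain ⟨a, b, hab, h⟩ := hz
    have h1 := (hinc.continuous.tendsto z).eventually (chi_zero_near (R := R) hδ hab h)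
    refine ContDiffAt.congr_of_eventuallyEq (contDiffAt_const (c := (0 : cm m))) ?_
    filter_upwards [h1] with w hw
    unfold XX
    rw [hw, zero_smul]

theorem cdN (P : Pk m) {N : ℕ} (hN : N ≠ 0) : ContDiff ℝ N (fun p : ℝ × cm m => P.g p.1 p.2) :=
  contDiff_flow (X := P.X) (m := N) hN (contDiff_XX' P.hδ) P.hK P.hg

theorem cdN_t (P : Pk m) {N : ℕ} (hN : N ≠ 0) (t : ℝ) : ContDiff ℝ N (P.g t) := by
  have h : ContDiff ℝ N (fun z : cm m => (t, z)) := contDiff_const.prodMk contDiff_id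
  exact (cdN P hN).comp h

theorem jac_at (P : Pk m) {z : cm m} {t : ℝ} (hS : ((P.g t z : cm m) : Ph n) ∈ P.S) (v : cm m) :
    HasDerivAt (fun t => ((fderiv ℝ (P.g t) z v : cm m) : Ph n))
      (fderiv ℝ (vf m) ((P.g t z : cm m) : Ph n) ((fderiv ℝ (P.g t) z v : cm m) : Ph n)) t := by
  have h0 : ContDiff ℝ 1 (P.X : cm m → cm m) := by
    rw [show (P.X : cm m → cm m) = XX m P.R P.δ from rfl]
    exact contDiff_XX P.hδ
  have h1 := hasDerivAt_fderiv_flow (X := P.X) h0 P.hK P.hg (P.g t z) (fderiv ℝ (P.g t) z v)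
  rw [show (P.X : cm m → cm m) = XX m P.R P.δ from rfl] at h1
  have h2 : HasDerivAt (fun s => fderiv ℝ (P.g s) z v)
      (fderiv ℝ (XX m P.R P.δ) (P.g t z) (fderiv ℝ (P.g t) z v)) t := by
    have h3 : (fun s => fderiv ℝ (P.g s) z v) =
        fun s => fderiv ℝ (P.g (s - t)) (P.g t z) (fderiv ℝ (P.g t) z v) := by
      funext s
      rw [← P.D_add (s - t) t, sub_add_cancel]
    rw [h3]
    have h5 : HasDerivAt (fun t_1 => fderiv ℝ (P.g t_1) (P.g t z) (fderiv ℝ (P.g t) z v))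
        (fderiv ℝ (XX m P.R P.δ) (P.g t z) (fderiv ℝ (P.g t) z v)) (t - t) := by
      rw [sub_self]; exact h1
    exact h5.comp_sub_const t t
  have h6 : HasDerivAt (fun s => inc m (fderiv ℝ (P.g s) z v))
      (inc m (fderiv ℝ (XX m P.R P.δ) (P.g t z) (fderiv ℝ (P.g t) z v))) t :=
    (inc m).hasFDerivAt.comp_hasDerivAt t h2
  have h7 : inc m (fderiv ℝ (XX m P.R P.δ) (P.g t z) (fderiv ℝ (P.g t) z v)) =
      fderiv ℝ (vf m) ((P.g t z : cm m) : Ph n) ((fderiv ℝ (P.g t) z v : cm m) : Ph n) :=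
    P.fderiv_XX hS _
  rw [h7] at h6
  exact h6

/-- Pointwise versions of the variational equation. -/
theorem vf_deriv {y : ℝ → Ph n} {t : ℝ} (hy : HasDerivAt y (vf m (y t)) t)
    (hne : ∀ a b, a ≠ b → (y t).1 a ≠ (y t).1 b) :
    HasDerivAt (fun t => vf m (y t)) (fderiv ℝ (vf m) (y t) (vf m (y t))) t := by
  have h1 : HasFDerivAt (vf m) (fderiv ℝ (vf m) (y t)) (y t) :=
    ((contDiffAt_vf hne).differentiableAt one_ne_zero).hasFDerivAt
  exact h1.comp_hasDerivAt t hy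

theorem sc_deriv {y : ℝ → Ph n} {t : ℝ} (hy : HasDerivAt y (vf m (y t)) t)
    (hne : ∀ a b, a ≠ b → (y t).1 a ≠ (y t).1 b) :
    HasDerivAt (sc m y) (fderiv ℝ (vf m) (y t) (sc m y t)) t := by
  unfold sc
  have h1 : HasDerivAt (fun t => (((-2 : ℝ) • (y t).1, (y t).2) : Ph n))
      ((-2 : ℝ) • (y t).2, acc m (y t).1) t := by
    have hf : HasDerivAt (fun t => (y t).1) (y t).2 t :=
      (ContinuousLinearMap.fst ℝ (Fin n → ℂ) (Fin n → ℂ)).hasFDerivAt.comp_hasDerivAt t hy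
    have hs : HasDerivAt (fun t => (y t).2) (acc m (y t).1) t :=
      (ContinuousLinearMap.snd ℝ (Fin n → ℂ) (Fin n → ℂ)).hasFDerivAt.comp_hasDerivAt t hy
    exact (hf.const_smul (-2 : ℝ)).prodMk hs
  have h2 : HasDerivAt (fun t : ℝ => 3 * t) 3 t := by
    simpa using (hasDerivAt_id t).const_mul 3
  have h3 := h1.add (h2.smul (vf_deriv hy hne))
  refine h3.congr_deriv ?_
  rw [map_add, map_smul, fderiv_scale hne]
  unfold vf
  ext a <;> simp <;> ring

/-- The Wronskian is constant on orbit segments. -/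
theorem wr_seg {y ξ η : ℝ → Ph n} {T : ℝ} (hT : 0 ≤ T)
    (hne : ∀ t ∈ Set.Icc 0 T, ∀ a b, a ≠ b → (y t).1 a ≠ (y t).1 b)
    (hξ : ∀ t ∈ Set.Icc 0 T, HasDerivAt ξ (fderiv ℝ (vf m) (y t) (ξ t)) t)
    (hη : ∀ t ∈ Set.Icc 0 T, HasDerivAt η (fderiv ℝ (vf m) (y t) (η t)) t) :
    ome m (ξ T) (η T) = ome m (ξ 0) (η 0) := by
  have hd : ∀ t ∈ Set.Icc 0 T, HasDerivAt (fun t => ome m (ξ t) (η t)) 0 t := by
    intro t ht
    have h := hasDerivAt_ome (m := m) (hξ t ht) (hη t ht)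
    rw [ham (hne t ht)] at h
    exact h
  exact constant_of_has_deriv_right_zero (f := fun t => ome m (ξ t) (η t))
    (a := 0) (b := T) (fun t ht => (hd t ht).continuousAt.continuousWithinAt)
    (fun t ht => (hd t ⟨ht.1, ht.2.le⟩).hasDerivWithinAt) T ⟨hT, le_rfl⟩

/-- `Σ m q · v`. -/
noncomputable def gg (m : Fin n → ℝ) (z : Ph n) : ℝ := ∑ a, m a * ip (z.1 a) (z.2 a)

/-- The derivative of `gg`. -/
noncomputable def dgg (m : Fin n → ℝ) (z v : Ph n) : ℝ :=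
  ∑ a, m a * (ip (v.1 a) (z.2 a) + ip (z.1 a) (v.2 a))

theorem hasDerivAt_gg {z : ℝ → Ph n} {z' : Ph n} {t : ℝ} (h : HasDerivAt z z' t) :
    HasDerivAt (fun s => gg m (z s)) (dgg m (z t) z') t := by
  unfold gg dgg
  exact HasDerivAt.fun_sum fun a _ => (NB.hasDerivAt_ip (fst_deriv h a) (snd_deriv h a)).const_mul (m a)

theorem contDiff_gg {N : ℕ} : ContDiff ℝ N (gg m : Ph n → ℝ) := by
  unfold gg
  refine ContDiff.sum fun a _ => contDiff_const.mul ?_
  unfold ip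
  have h1 : ContDiff ℝ N (fun z : Ph n => (starRingEnd ℂ) (z.1 a)) :=
    Complex.conjCLE.contDiff.comp (by fun_prop : ContDiff ℝ N (fun z : Ph n => z.1 a))
  have h2 : ContDiff ℝ N (fun z : Ph n => z.2 a) := by fun_prop
  exact Complex.reCLM.contDiff.comp (h1.mul h2)

theorem ome_scale (z v : Ph n) : ome m ((-2 : ℝ) • z.1, z.2) v =
    - (1 / 2 * ome m z v + 3 / 2 * dgg m z v) := by
  unfold ome dgg
  rw [Finset.mul_sum, Finset.mul_sum, ← Finset.sum_add_distrib, ← Finset.sum_neg_distrib]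
  refine Finset.sum_congr rfl fun a _ => ?_
  simp only [Pi.smul_apply, ip_eq, Complex.real_smul, Complex.mul_re, Complex.mul_im,
    Complex.ofReal_re, Complex.ofReal_im]
  ring

/-- The derivative of the action. -/
theorem action_seg (P : Pk m) {z : cm m} {T : ℝ} (hT : 0 ≤ T)
    (hS : ∀ t ∈ Set.Icc 0 T, ((P.g t z : cm m) : Ph n) ∈ P.S) (v : cm m) :
    1 / 2 * (ome m (P.g T z : cm m) (fderiv ℝ (P.g T) z v : cm m) - ome m (z : Ph n) (v : Ph n)) =
      - (3 / 2) * (dgg m (P.g T z : cm m) (fderiv ℝ (P.g T) z v : cm m) - dgg m (z : Ph n) (v : Ph n)) +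
      3 * T * ome m (vf m (z : Ph n)) (v : Ph n) := by
  set y : ℝ → Ph n := fun t => ((P.g t z : cm m) : Ph n) with hy
  set ξ : ℝ → Ph n := fun t => ((fderiv ℝ (P.g t) z v : cm m) : Ph n) with hξ
  have hne : ∀ t ∈ Set.Icc 0 T, ∀ a b, a ≠ b → (y t).1 a ≠ (y t).1 b := fun t ht =>
    Rg_ne P.hδ (hS t ht)
  have hyd : ∀ t ∈ Set.Icc 0 T, HasDerivAt y (vf m (y t)) t := fun t ht => P.deriv_coe (hS t ht)
  have hξd : ∀ t ∈ Set.Icc 0 T, HasDerivAt ξ (fderiv ℝ (vf m) (y t) (ξ t)) t := fun t ht =>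
    jac_at P (hS t ht) v
  have h1 := wr_seg (m := m) hT hne (fun t ht => sc_deriv (hyd t ht) (hne t ht)) hξd
  have h2 := wr_seg (m := m) hT hne (fun t ht => vf_deriv (hyd t ht) (hne t ht)) hξd
  have hy0 : y 0 = (z : Ph n) := by rw [hy]; simp only; rw [P.hg.zero]
  have hξ0 : ξ 0 = (v : Ph n) := by rw [hξ]; simp only; rw [P.D_zero]
  have e1 : sc m y T = ((-2 : ℝ) • (y T).1, (y T).2) + (3 * T) • vf m (y T) := rfl
  have e2 : sc m y 0 = ((-2 : ℝ) • (y 0).1, (y 0).2) := by unfold sc; simp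
  rw [e1, e2, ome_add_left, ome_smul_left, h2, ome_scale, ome_scale, hy0, hξ0] at h1
  change 1 / 2 * (ome m (y T) (ξ T) - _) = - (3 / 2) * (dgg m (y T) (ξ T) - _) + _
  linarith

end Pool.Agent.D0H95.BF
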