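import Pool.Agent.D0H95.BF.Bif
import Pool.Agent.D0H95.BF.Smooth

/-!
The bifurcation theorem for the `n`-body problem.
-/

set_option autoImplicit false

namespace Pool.Agent.D0H95.BF

open Pool.Agent.W821.TB Pool.Agent.D0H95.NB Finset Filter Topology

variable {n : ℕ} {m : Fin n → ℝ}

/-- The symplectic form on the centre of mass frame. -/
theorem exists_om (m : Fin n → ℝ) : ∃ ω : cm m →L[ℝ] cm m →L[ℝ] ℝ, ∀ x y : cm m,
    ω x y = ome m (x : Ph n) (y : Ph n) := by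
  set B : Ph n →ₗ[ℝ] Ph n →ₗ[ℝ] ℝ := LinearMap.mk₂ ℝ (fun x y : Ph n => ome m x y)
    (fun x y z => ome_add_left _ _ _) (fun c x y => ome_smul_left _ _ _)
    (fun x y z => ome_add_right _ _ _) (fun c x y => ome_smul_right _ _ _) with hB
  set L : Ph n →ₗ[ℝ] (Ph n →L[ℝ] ℝ) :=
    (LinearMap.toContinuousLinearMap (𝕜 := ℝ) (E := Ph n) (F' := ℝ)).toLinearMap ∘ₗ B with hL
  set Ω : Ph n →L[ℝ] (Ph n →L[ℝ] ℝ) := LinearMap.toContinuousLinearMap L with hΩ
  refine ⟨((ContinuousLinearMap.compL ℝ (cm m) (Ph n) ℝ).flip (inc m)).comp (Ω.comp (inc m)), ?_⟩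
  intro x y
  rfl

theorem om_nd (hm : ∀ a, 0 < m a) (x : cm m) (h : ∀ y : cm m, ome m (x : Ph n) (y : Ph n) = 0) :
    x = 0 := by
  have hmem : ((-(x : Ph n).2, (x : Ph n).1) : Ph n) ∈ cm m := by
    have h1 := x.2
    rw [mem_cm] at h1 ⊢
    refine ⟨?_, h1.1⟩
    have h2 : ∑ a, (m a : ℂ) * (-(x : Ph n).2) a = -∑ a, (m a : ℂ) * (x : Ph n).2 a := by
      rw [← Finset.sum_neg_distrib]
      exact Finset.sum_congr rfl fun a _ => by simp
    rw [h2, h1.2, neg_zero]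
  have h1 := h ⟨_, hmem⟩
  have h2 : ome m (x : Ph n) ((-(x : Ph n).2, (x : Ph n).1) : Ph n) =
      ∑ a, m a * (‖(x : Ph n).1 a‖ ^ 2 + ‖(x : Ph n).2 a‖ ^ 2) := by
    unfold ome
    refine Finset.sum_congr rfl fun a _ => ?_
    simp only [ip_eq, Pi.neg_apply, Complex.neg_re, Complex.neg_im, Complex.sq_norm,
      Complex.normSq_apply]
    ring
  have h3 : ∑ a, m a * (‖(x : Ph n).1 a‖ ^ 2 + ‖(x : Ph n).2 a‖ ^ 2) = 0 := by
    rw [← h2]; exact h1
  have h4 := (Finset.sum_eq_zero_iff_of_nonneg fun a _ => by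
    have := (hm a).le
    positivity).mp h3
  have h5 : ∀ a, ‖(x : Ph n).1 a‖ ^ 2 + ‖(x : Ph n).2 a‖ ^ 2 = 0 := by
    intro a
    rcases mul_eq_zero.mp (h4 a (Finset.mem_univ a)) with h | h
    · exact absurd h (hm a).ne'
    · exact h
  apply Subtype.ext
  refine Prod.ext ?_ ?_
  · funext a
    have h6 := h5 a
    have h7 : ‖(x : Ph n).1 a‖ ^ 2 = 0 := by nlinarith [sq_nonneg ‖(x : Ph n).1 a‖, sq_nonneg ‖(x : Ph n).2 a‖]
    have h8 : (x : Ph n).1 a = 0 := by simpa using h7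
    exact h8
  · funext a
    have h6 := h5 a
    have h7 : ‖(x : Ph n).2 a‖ ^ 2 = 0 := by nlinarith [sq_nonneg ‖(x : Ph n).1 a‖, sq_nonneg ‖(x : Ph n).2 a‖]
    have h8 : (x : Ph n).2 a = 0 := by simpa using h7
    exact h8

/-- The rotation factor. -/
noncomputable def ef (c : ℂ) (σ s : ℝ) : ℂ := Complex.exp (-((σ * s : ℝ) * Complex.I)) * c⁻¹

theorem ef_norm {c : ℂ} (hc : ‖c‖ = 1) (σ s : ℝ) : ‖ef c σ s‖ = 1 := by
  unfold ef
  rw [norm_mul, norm_inv, hc, inv_one, mul_one,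
    show -(((σ * s : ℝ) : ℂ) * Complex.I) = ((-(σ * s) : ℝ) : ℂ) * Complex.I by push_cast; ring]
  exact norm_expI _

theorem ef_zero (c : ℂ) (σ : ℝ) : ef c σ 0 = c⁻¹ := by unfold ef; simp

theorem ef_cd {c : ℂ} {σ : ℝ} {N : ℕ} : ContDiff ℝ N (ef c σ) := by
  unfold ef
  have h0 : ContDiff ℝ N (fun s : ℝ => σ * s) := contDiff_const.mul contDiff_id
  have h1 : ContDiff ℝ N (fun s : ℝ => -(((σ * s : ℝ) : ℂ) * Complex.I)) :=
    ((Complex.ofRealCLM.contDiff.comp h0).mul contDiff_const).neg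
  exact h1.cexp.mul contDiff_const

/-- The twisted period map. -/
noncomputable def GG (P : Pk m) (T : ℝ) (c : ℂ) (σ : ℝ) (p : ℝ × cm m) : cm m :=
  ef c σ p.1 • P.g T p.2

theorem GG_cd (P : Pk m) (T : ℝ) (c : ℂ) (σ : ℝ) {N : ℕ} (hN : N ≠ 0) :
    ContDiff ℝ N (GG P T c σ) := by
  have h1 : ContDiff ℝ N (fun p : ℝ × cm m =>
      (ContinuousLinearMap.lsmul ℝ ℂ : ℂ →L[ℝ] cm m →L[ℝ] cm m) (ef c σ p.1)) :=
    ContDiff.comp (g := fun w : ℂ => (ContinuousLinearMap.lsmul ℝ ℂ : ℂ →L[ℝ] cm m →L[ℝ] cm m) w)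
      (f := fun p : ℝ × cm m => ef c σ p.1) (ContinuousLinearMap.contDiff _)
      (ef_cd.comp contDiff_fst)
  exact h1.clm_apply ((cdN_t P hN T).comp contDiff_snd)

theorem GG_DZ (P : Pk m) (T : ℝ) (c : ℂ) (σ s : ℝ) (z v : cm m) :
    DZ (GG P T c σ) (s, z) v = ef c σ s • fderiv ℝ (P.g T) z v := by
  have h1 : HasFDerivAt (fun z : cm m => GG P T c σ (s, z)) (DZ (GG P T c σ) (s, z)) z := by
    have hin : HasFDerivAt (fun z : cm m => (s, z)) (ContinuousLinearMap.inr ℝ ℝ (cm m)) z := by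
      have := (ContinuousLinearMap.inr ℝ ℝ (cm m)).hasFDerivAt (x := z)
      have h4 := this.add_const ((s, (0 : cm m)) : ℝ × cm m)
      have h5 : (fun k : cm m => ContinuousLinearMap.inr ℝ ℝ (cm m) k + (s, 0)) = fun k => (s, k) := by
        funext k
        simp
      rw [h5] at h4
      exact h4
    have hG : HasFDerivAt (GG P T c σ) (fderiv ℝ (GG P T c σ) (s, z)) (s, z) :=
      ((GG_cd P T c σ (N := 1) one_ne_zero).differentiable (by norm_num) (s, z)).hasFDerivAt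
    exact HasFDerivAt.comp z (g := GG P T c σ) (f := fun z : cm m => (s, z)) hG hin
  have h2 : HasFDerivAt (fun z : cm m => GG P T c σ (s, z))
      ((rotL m (ef c σ s)).comp (fderiv ℝ (P.g T) z)) z :=
    (rotL m (ef c σ s)).hasFDerivAt.comp z (P.diff T z)
  exact congrArg (fun L : cm m →L[ℝ] cm m => L v) (h1.unique h2)

theorem GG_Ds (P : Pk m) {T : ℝ} {c : ℂ} (hc : ‖c‖ = 1) (σ : ℝ) {z : cm m} (hz : P.g T z = c • z) :
    fderiv ℝ (GG P T c σ) (0, z) (1, 0) = - (σ • (Complex.I • z)) := by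
  have hc0 : c ≠ 0 := by rintro rfl; simp at hc
  have hG : HasFDerivAt (GG P T c σ) (fderiv ℝ (GG P T c σ) (0, z)) (0, z) :=
    ((GG_cd P T c σ (N := 1) one_ne_zero).differentiable (by norm_num) (0, z)).hasFDerivAt
  have h1 : HasDerivAt (fun r : ℝ => GG P T c σ (r, z)) (fderiv ℝ (GG P T c σ) (0, z) (1, 0)) 0 := by
    have h2 : HasDerivAt (fun r : ℝ => ((r, z) : ℝ × cm m)) (1, 0) 0 :=
      (hasDerivAt_id (0:ℝ)).prodMk (hasDerivAt_const (0:ℝ) z)
    exact HasFDerivAt.comp_hasDerivAt (0:ℝ) (l := GG P T c σ) hG h2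
  have h2 : HasDerivAt (ef c σ) (-(σ * Complex.I) * c⁻¹) 0 := by
    have h4 : HasDerivAt (fun r : ℝ => σ * r) σ 0 := by
      simpa using (hasDerivAt_id (0:ℝ)).const_mul σ
    have h5 := ((h4.ofReal_comp.mul_const Complex.I).neg).cexp.mul_const c⁻¹
    have h6 : HasDerivAt (ef c σ) (Complex.exp (-(((σ * 0 : ℝ) : ℂ) * Complex.I)) *
        (-(σ * Complex.I)) * c⁻¹) 0 := h5
    refine h6.congr_deriv ?_
    simp
  have h3 := h2.smul_const (P.g T z)
  have h4 := h1.unique h3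
  rw [h4, hz, smul_smul, mul_assoc, inv_mul_cancel₀ hc0, mul_one, neg_smul]
  congr 1
  rw [← smul_smul]
  rfl

/-- The potential. -/
noncomputable def WW (P : Pk m) (T : ℝ) (c : ℂ) (σ : ℝ) (p : ℝ × cm m) : ℝ :=
  σ * (-(3 / 2) * (gg m (P.g T p.2 : cm m) - gg m (p.2 : Ph n)) + 3 * T * energy m (p.2 : Ph n) -
    1 / 2 * ome m (p.2 : Ph n) (GG P T c σ p : cm m))

theorem ome_sub_left (u v w : Ph n) : ome m (u - v) w = ome m u w - ome m v w := by
  have h := ome_add_left (m := m) (u - v) v w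
  rw [sub_add_cancel] at h
  linarith

theorem pot_n (P : Pk m) {T : ℝ} (hT : 0 ≤ T) {c : ℂ} (hc : ‖c‖ = 1) (σ : ℝ) {z0 : cm m}
    (hS0 : ∀ t ∈ Set.Icc 0 T, ((P.g t z0 : cm m) : Ph n) ∈ P.S)
    {ω : cm m →L[ℝ] cm m →L[ℝ] ℝ} (hω : ∀ x y : cm m, ω x y = ome m (x : Ph n) (y : Ph n)) :
    ∀ᶠ q in 𝓝 ((0:ℝ), z0), HasFDerivAt (fun z => WW P T c σ (q.1, z))
      ((((1 / 2 : ℝ) • (σ • ω)) (GG P T c σ q - q.2)).comp
        (ContinuousLinearMap.id ℝ (cm m) + DZ (GG P T c σ) q)) q.2 := by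
  have hnear := P.near (z0 := z0) (T := T) hS0
  have ht : Tendsto (fun p : ℝ × cm m => p.2) (𝓝 ((0:ℝ), z0)) (𝓝 z0) := continuous_snd.tendsto _
  filter_upwards [ht.eventually hnear] with q hq
  obtain ⟨s, z⟩ := q
  simp only at hq
  set G := GG P T c σ with hG
  have hne : ∀ a b, a ≠ b → (z : Ph n).1 a ≠ (z : Ph n).1 b := by
    have := Rg_ne P.hδ (hq 0 ⟨le_rfl, hT⟩)
    rwa [P.hg.zero] at this
  -- differentiability
  have hGd : ∀ v : cm m, HasDerivAt (fun r : ℝ => G (s, z + r • v)) (DZ G (s, z) v) 0 := by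
    intro v
    have h1 : HasFDerivAt G (fderiv ℝ G (s, z)) ((fun r : ℝ => ((s, z + r • v) : ℝ × cm m)) 0) := by
      have : (fun r : ℝ => ((s, z + r • v) : ℝ × cm m)) 0 = (s, z) := by simp
      rw [this]
      exact ((GG_cd P T c σ (N := 1) one_ne_zero).differentiable (by norm_num) (s, z)).hasFDerivAt
    have h2 : HasDerivAt (fun r : ℝ => ((s, z + r • v) : ℝ × cm m)) (0, v) 0 := by
      have h3 : HasDerivAt (fun r : ℝ => z + r • v) v 0 := by
        simpa using ((hasDerivAt_id (0:ℝ)).smul_const v).const_add z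
      exact (hasDerivAt_const (0:ℝ) s).prodMk h3
    exact HasFDerivAt.comp_hasDerivAt (0:ℝ) (l := G) h1 h2
  have hPd : ∀ v : cm m, HasDerivAt (fun r : ℝ => ((P.g T (z + r • v) : cm m) : Ph n))
      ((fderiv ℝ (P.g T) z v : cm m) : Ph n) 0 := by
    intro v
    have h1 : HasFDerivAt (P.g T) (fderiv ℝ (P.g T) z) ((fun r : ℝ => z + r • v) 0) := by
      have : (fun r : ℝ => z + r • v) 0 = z := by simp
      rw [this]
      exact P.diff T z
    have h3 : HasDerivAt (fun r : ℝ => z + r • v) v 0 := by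
      simpa using ((hasDerivAt_id (0:ℝ)).smul_const v).const_add z
    exact (inc m).hasFDerivAt.comp_hasDerivAt (0:ℝ) (h1.comp_hasDerivAt (0:ℝ) h3)
  have hzd : ∀ v : cm m, HasDerivAt (fun r : ℝ => ((z + r • v : cm m) : Ph n)) (v : Ph n) 0 := by
    intro v
    have h3 : HasDerivAt (fun r : ℝ => z + r • v) v 0 := by
      simpa using ((hasDerivAt_id (0:ℝ)).smul_const v).const_add z
    exact (inc m).hasFDerivAt.comp_hasDerivAt (0:ℝ) h3
  have hWd : DifferentiableAt ℝ (fun z => WW P T c σ (s, z)) z := by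
    have d1 : DifferentiableAt ℝ (fun z : cm m => gg m (P.g T z : cm m)) z :=
      DifferentiableAt.comp z (g := fun w : cm m => gg m (inc m w)) (f := P.g T)
        ((contDiff_gg (N := 1)).differentiable (by norm_num) _ |>.comp _
          (inc m).differentiableAt) (P.diff T z).differentiableAt
    have d2 : DifferentiableAt ℝ (fun z : cm m => gg m (z : Ph n)) z :=
      ((contDiff_gg (N := 1)).differentiable (by norm_num) _).comp z (inc m).differentiableAt
    have d3 : DifferentiableAt ℝ (fun z : cm m => energy m (z : Ph n)) z :=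
      ((contDiffAt_energy' (m := m) (N := 1) hne).differentiableAt one_ne_zero).comp z
        (inc m).differentiableAt
    have d4 : DifferentiableAt ℝ (fun z : cm m => ω z (G (s, z))) z := by
      have d5 : DifferentiableAt ℝ (fun z : cm m => G (s, z)) z := by
        have d6 : DifferentiableAt ℝ G (s, z) :=
          (GG_cd P T c σ (N := 1) one_ne_zero).differentiable (by norm_num) (s, z)
        exact DifferentiableAt.comp z (g := G) (f := fun z : cm m => (s, z)) d6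
          ((differentiableAt_const s).prodMk differentiableAt_id)
      exact (ω.differentiableAt).clm_apply d5
    have d5 : (fun z : cm m => ω z (G (s, z))) = fun z : cm m => ome m (z : Ph n) (G (s, z) : cm m) := by
      funext z
      exact hω _ _
    rw [d5] at d4
    unfold WW
    exact (((d1.sub d2).const_mul _).add (d3.const_mul _) |>.sub (d4.const_mul _)).const_mul σ
  have key : fderiv ℝ (fun z => WW P T c σ (s, z)) z =
      ((((1 / 2 : ℝ) • (σ • ω)) (G (s, z) - z)).comp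
        (ContinuousLinearMap.id ℝ (cm m) + DZ G (s, z))) := by
    refine ContinuousLinearMap.ext fun v => ?_
    have h1 : HasDerivAt (fun r : ℝ => WW P T c σ (s, z + r • v))
        (fderiv ℝ (fun z => WW P T c σ (s, z)) z v) 0 := by
      have h2 : HasFDerivAt (fun z => WW P T c σ (s, z)) (fderiv ℝ (fun z => WW P T c σ (s, z)) z)
          ((fun r : ℝ => z + r • v) 0) := by
        have : (fun r : ℝ => z + r • v) 0 = z := by simp
        rw [this]
        exact hWd.hasFDerivAt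
      have h3 : HasDerivAt (fun r : ℝ => z + r • v) v 0 := by
        simpa using ((hasDerivAt_id (0:ℝ)).smul_const v).const_add z
      exact h2.comp_hasDerivAt (0:ℝ) h3
    have z0' : z + (0:ℝ) • v = z := by simp
    have e1 := hasDerivAt_gg (m := m) (hPd v)
    have e2 := hasDerivAt_gg (m := m) (hzd v)
    have e3 : HasDerivAt (fun r : ℝ => energy m ((z + r • v : cm m) : Ph n))
        (ome m (vf m (z : Ph n)) (v : Ph n)) 0 := by
      have h2 : HasFDerivAt (energy m) (fderiv ℝ (energy m) (z : Ph n))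
          ((fun r : ℝ => ((z + r • v : cm m) : Ph n)) 0) := by
        have : (fun r : ℝ => ((z + r • v : cm m) : Ph n)) 0 = (z : Ph n) := by simp
        rw [this]
        exact ((contDiffAt_energy' (m := m) (N := 1) hne).differentiableAt one_ne_zero).hasFDerivAt
      have h3 := h2.comp_hasDerivAt (0:ℝ) (hzd v)
      rw [fderiv_energy hne] at h3
      exact h3
    have e4 := hasDerivAt_ome (m := m) (hzd v)
      ((inc m).hasFDerivAt.comp_hasDerivAt (0:ℝ) (hGd v))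
    have e5 := (((e1.sub e2).const_mul (-(3 / 2) : ℝ)).add (e3.const_mul (3 * T))).sub
      (e4.const_mul (1 / 2))
    have e6 := e5.const_mul σ
    have e7 := h1.unique e6
    rw [e7]
    simp only [z0', Function.comp]
    have a1 := action_seg P hT hq v
    have a2 : ome m ((G (s, z) : cm m) : Ph n) ((DZ G (s, z) v : cm m) : Ph n) =
        ome m ((P.g T z : cm m) : Ph n) ((fderiv ℝ (P.g T) z v : cm m) : Ph n) := by
      rw [hG, GG_DZ]
      exact ome_smul (ef_norm hc σ s) _ _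
    have a3 : (((1 / 2 : ℝ) • (σ • ω)) (G (s, z) - z)).comp
        (ContinuousLinearMap.id ℝ (cm m) + DZ G (s, z)) v =
        1 / 2 * (σ * ω (G (s, z) - z) (v + DZ G (s, z) v)) := rfl
    rw [a3, hω]
    have a4 : ((G (s, z) - z : cm m) : Ph n) = ((G (s, z) : cm m) : Ph n) - (z : Ph n) := rfl
    have a5 : ((v + DZ G (s, z) v : cm m) : Ph n) = (v : Ph n) + ((DZ G (s, z) v : cm m) : Ph n) := rfl
    rw [a4, a5, ome_sub_left, ome_add_right, ome_add_right, a2]
    simp only [inc_apply]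
    have a6 := ome_anti (m := m) (v : Ph n) ((G (s, z) : cm m) : Ph n)
    rw [a6]
    linear_combination (-σ) * a1
  have := hWd.hasFDerivAt
  rw [key] at this
  exact this

theorem QQ_fderiv {z : cm m} (hz : ∀ a b, a ≠ b → (z : Ph n).1 a ≠ (z : Ph n).1 b) (v : cm m) :
    fderiv ℝ (QQ m) z v = (ome m (vf m (z : Ph n)) (v : Ph n),
      ome m (Complex.I • (z : Ph n)) (v : Ph n)) := by
  have h1 : HasFDerivAt (fun w : cm m => energy m (inc m w))
      ((fderiv ℝ (energy m) (inc m z)).comp (inc m)) z :=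
    (((contDiffAt_energy' (m := m) (N := 1) hz).differentiableAt one_ne_zero).hasFDerivAt).comp z
      (inc m).hasFDerivAt
  have h2 : HasFDerivAt (fun w : cm m => ang m (inc m w))
      ((fderiv ℝ (ang m) (inc m z)).comp (inc m)) z :=
    ((contDiff_ang.differentiable one_ne_zero _).hasFDerivAt).comp z (inc m).hasFDerivAt
  have h3 : HasFDerivAt (QQ m) (((fderiv ℝ (energy m) (inc m z)).comp (inc m)).prod
      ((fderiv ℝ (ang m) (inc m z)).comp (inc m))) z := h1.prodMk h2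
  rw [h3.fderiv]
  change (fderiv ℝ (energy m) (z : Ph n) (v : Ph n), fderiv ℝ (ang m) (z : Ph n) (v : Ph n)) = _
  rw [fderiv_energy hz, fderiv_ang]

/-- **The bifurcation theorem.** -/
theorem nbif (hBU : S_BU) (P : Pk m) (hm : ∀ a, 0 < m a) {z0 : cm m}
    {T : ℝ} (hT : 0 < T) (hS0 : ∀ t ∈ Set.Icc 0 T, ((P.g t z0 : cm m) : Ph n) ∈ P.S)
    {c : ℂ} (hc : ‖c‖ = 1) (hgT : P.g T z0 = c • z0)
    {u1 η p r : cm m} {γ : ℝ → cm m} {A' : cm m →L[ℝ] cm m} {h : ℝ} (hh : h ≠ 0)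
    (hu1 : (u1 : Ph n) = vf m (z0 : Ph n))
    (hη : fderiv ℝ (P.g T) z0 η = c • η) (hp : fderiv ℝ (P.g T) z0 p = c • p)
    (hr : fderiv ℝ (P.g T) z0 r = c • r)
    (hker : ∀ v, fderiv ℝ (P.g T) z0 v = c • v →
      ∃ c1 c2 c3 c4 c5 : ℝ, v = c1 • u1 + c2 • (Complex.I • z0) + c3 • η + c4 • p + c5 • r)
    (hη2 : ome m (Complex.I • (z0 : Ph n)) (η : Ph n) = 1)
    (hp2 : ome m (Complex.I • (z0 : Ph n)) (p : Ph n) = 0)
    (hr2 : ome m (Complex.I • (z0 : Ph n)) (r : Ph n) = 0)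
    (hγ : ContDiffAt ℝ 1 γ 0) (hγ0 : γ 0 = z0) (hγ' : HasDerivAt γ η 0)
    (hγf : ∀ᶠ l in 𝓝 (0:ℝ), P.g T (γ l) = c • γ l)
    (hA' : HasDerivAt (fun l => fderiv ℝ (P.g T) (γ l)) A' 0)
    (hdef : ∀ a b : ℝ, ome m ((c⁻¹ • A' (a • p + b • r) : cm m) : Ph n)
      ((a • p + b • r : cm m) : Ph n) = h * (a ^ 2 + b ^ 2)) :
    ∀ δ : ℝ, 0 < δ → ∃ (s : ℝ) (z : cm m), s ≠ 0 ∧ |s| < δ ∧ ‖z - z0‖ < δ ∧
      P.g T z = (Complex.exp (s * Complex.I) * c) • z := by
  have hc0 : c ≠ 0 := by rintro rfl; simp at hc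
  obtain ⟨σ, hσ1, hσh⟩ : ∃ σ : ℝ, σ * σ = 1 ∧ σ * h = |h| := by
    rcases lt_or_gt_of_ne hh with h1 | h1
    · exact ⟨-1, by norm_num, by rw [abs_of_neg h1]; ring⟩
    · exact ⟨1, by norm_num, by rw [abs_of_pos h1]; ring⟩
  have hh0 : 0 < |h| := abs_pos.mpr hh
  set lam : ℝ := Real.sqrt (2 / |h|) with hlam
  have hlam2 : lam ^ 2 = 2 / |h| := Real.sq_sqrt (by positivity)
  have hlam0 : lam ≠ 0 := by
    have : 0 < lam := Real.sqrt_pos.mpr (by positivity)
    exact this.ne'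
  obtain ⟨ω, hω⟩ := exists_om m
  set G := GG P T c σ with hG
  have hG0z : G (0, z0) = z0 := by
    rw [hG]
    unfold GG
    simp only
    rw [ef_zero, hgT, smul_smul, inv_mul_cancel₀ hc0, one_smul]
  have hDZ : ∀ v, DZ G (0, z0) v = c⁻¹ • fderiv ℝ (P.g T) z0 v := by
    intro v
    rw [hG, GG_DZ, ef_zero]
  have hfix : ∀ v, fderiv ℝ (P.g T) z0 v = c • v → DZ G (0, z0) v = v := by
    intro v hv
    rw [hDZ, hv, smul_smul, inv_mul_cancel₀ hc0, one_smul]
  have hfix' : ∀ v, DZ G (0, z0) v = v → fderiv ℝ (P.g T) z0 v = c • v := by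
    intro v hv
    rw [hDZ] at hv
    rw [← hv, smul_smul, mul_inv_cancel₀ hc0, one_smul]
    rw [hv]
  have hne : ∀ a b, a ≠ b → (z0 : Ph n).1 a ≠ (z0 : Ph n).1 b := by
    have := Rg_ne P.hδ (hS0 0 ⟨le_rfl, hT.le⟩)
    rwa [P.hg.zero] at this
  have hσω : ∀ x y : cm m, (σ • ω) x y = σ * ome m (x : Ph n) (y : Ph n) := by
    intro x y
    change σ * ω x y = _
    rw [hω]
  have hcs : ∀ (b : ℝ) (v : cm m), fderiv ℝ (P.g T) z0 v = c • v →
      fderiv ℝ (P.g T) z0 (b • v) = c • (b • v) := by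
    intro b v hv
    rw [map_smul, hv, smul_comm]
  -- the bifurcation
  have key := bifAbs hBU (σ • ω) (G := G) (W := WW P T c σ) (Q := QQ m) (z0 := z0)
    (u1 := σ • u1) (u2 := σ • (Complex.I • z0)) (η := η) (p := lam • p) (r := lam • r) (γ := γ)
    (A' := (rotL m c⁻¹).comp A') ?_ ?_ ?_ hG0z ?_ ?_ ?_ ?_ ?_ ?_ ?_ ?_ ?_ ?_ ?_ ?_ ?_ hγ hγ0 hγ'
    ?_ ?_ ?_
  · intro δ hδ
    obtain ⟨s, z, hs0, hs1, hz, hGz⟩ := key δ hδ
    have hσa : |σ| = 1 := by
      have h1 : |σ| * |σ| = 1 := by rw [← abs_mul, hσ1, abs_one]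
      have h2 : (|σ| - 1) * (|σ| + 1) = 0 := by linear_combination h1
      rcases mul_eq_zero.mp h2 with h3 | h3
      · linarith
      · have := abs_nonneg σ; linarith
    refine ⟨σ * s, z, ?_, ?_, hz, ?_⟩
    · intro h0
      rcases mul_eq_zero.mp h0 with h1 | h1
      · rw [h1, abs_zero] at hσa; norm_num at hσa
      · exact hs0 h1
    · rw [abs_mul, hσa, one_mul]; exact hs1
    · have h1 : ef c σ s • P.g T z = z := hGz
      have h2 : (Complex.exp (((σ * s : ℝ) : ℂ) * Complex.I) * c) * ef c σ s = 1 := by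
        unfold ef
        rw [mul_mul_mul_comm, ← Complex.exp_add, add_neg_cancel, Complex.exp_zero,
          mul_inv_cancel₀ hc0, one_mul]
      conv_rhs => rw [← h1]
      rw [smul_smul, h2, one_smul]
  · intro x y
    rw [hσω, hσω, ome_anti]; ring
  · intro x hx
    refine om_nd hm x fun y => ?_
    have h1 := hx y
    rw [hσω] at h1
    rcases mul_eq_zero.mp h1 with h2 | h2
    · rw [h2] at hσ1; norm_num at hσ1
    · exact h2
  · exact (GG_cd P T c σ (N := 3) (by norm_num)).contDiffAt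
  · exact pot_n P hT.le hc σ hS0 hω
  · exact contDiffAt_QQ hne
  · intro v
    rw [QQ_fderiv hne, hσω, hσω]
    have e1 : ((σ • u1 : cm m) : Ph n) = σ • (u1 : Ph n) := rfl
    have e2 : ((σ • (Complex.I • z0) : cm m) : Ph n) = σ • (Complex.I • (z0 : Ph n)) := rfl
    rw [e1, e2, ome_smul_left, ome_smul_left, ← mul_assoc, ← mul_assoc, hσ1, one_mul, one_mul, hu1]
  · have hnear := P.near (z0 := z0) (T := T) hS0
    have h1 : Tendsto (fun p : ℝ × cm m => p.2) (𝓝 ((0:ℝ), z0)) (𝓝 z0) :=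
      continuous_snd.tendsto _
    filter_upwards [h1.eventually hnear] with q hq
    change QQ m (ef c σ q.1 • P.g T q.2) = _
    rw [QQ_smul (ef_norm hc σ q.1)]
    unfold QQ
    rw [P.energy_eq hT.le hq, P.ang_eq hT.le hq]
  · intro x y
    rw [hσω, hσω, hDZ, hDZ]
    have e1 : ∀ w : cm m, ((c⁻¹ • w : cm m) : Ph n) = c⁻¹ • (w : Ph n) := fun w => rfl
    rw [e1, e1, ome_smul (by rw [norm_inv, hc, inv_one])]
    congr 1
    have h1 := wr_seg (m := m) (y := fun t => ((P.g t z0 : cm m) : Ph n))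
      (ξ := fun t => ((fderiv ℝ (P.g t) z0 x : cm m) : Ph n))
      (η := fun t => ((fderiv ℝ (P.g t) z0 y : cm m) : Ph n)) hT.le
      (fun t ht => Rg_ne P.hδ (hS0 t ht)) (fun t ht => jac_at P (hS0 t ht) x)
      (fun t ht => jac_at P (hS0 t ht) y)
    simp only [P.D_zero] at h1
    exact h1
  · exact GG_Ds P hc σ hgT
  · exact hfix _ hη
  · exact hfix _ (hcs lam p hp)
  · exact hfix _ (hcs lam r hr)
  · intro v hv
    obtain ⟨c1, c2, c3, c4, c5, hv'⟩ := hker v (hfix' v hv)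
    refine ⟨c1 * σ, c2 * σ, c3, c4 / lam, c5 / lam, ?_⟩
    rw [hv', smul_smul, smul_smul, smul_smul, smul_smul, mul_assoc, mul_assoc, hσ1, mul_one, mul_one,
      div_mul_cancel₀ _ hlam0, div_mul_cancel₀ _ hlam0]
  · rw [hσω]
    have e2 : ((σ • (Complex.I • z0) : cm m) : Ph n) = σ • (Complex.I • (z0 : Ph n)) := rfl
    rw [e2, ome_smul_left, ← mul_assoc, hσ1, one_mul, hη2]
  · rw [hσω]
    have e2 : ((σ • (Complex.I • z0) : cm m) : Ph n) = σ • (Complex.I • (z0 : Ph n)) := rfl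
    have e3 : ((lam • p : cm m) : Ph n) = lam • (p : Ph n) := rfl
    rw [e2, e3, ome_smul_left, ome_smul_right, hp2, mul_zero, mul_zero, mul_zero]
  · rw [hσω]
    have e2 : ((σ • (Complex.I • z0) : cm m) : Ph n) = σ • (Complex.I • (z0 : Ph n)) := rfl
    have e3 : ((lam • r : cm m) : Ph n) = lam • (r : Ph n) := rfl
    rw [e2, e3, ome_smul_left, ome_smul_right, hr2, mul_zero, mul_zero, mul_zero]
  · filter_upwards [hγf] with l hl
    change ef c σ 0 • P.g T (γ l) = γ l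
    rw [ef_zero, hl, smul_smul, inv_mul_cancel₀ hc0, one_smul]
  · have h1 : (fun l => DZ G (0, γ l)) = fun l => (rotL m c⁻¹).comp (fderiv ℝ (P.g T) (γ l)) := by
      funext l
      refine ContinuousLinearMap.ext fun v => ?_
      rw [hG, GG_DZ, ef_zero]
      rfl
    rw [h1]
    have h2 := (hasDerivAt_const (0:ℝ) (rotL m c⁻¹)).clm_comp hA'
    simpa using h2
  · intro a b
    have e1 : a • (lam • p) + b • (lam • r) = (a * lam) • p + (b * lam) • r := by
      rw [smul_smul, smul_smul]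
    rw [e1, hσω]
    have e2 := hdef (a * lam) (b * lam)
    have e3 : (((rotL m c⁻¹).comp A' ((a * lam) • p + (b * lam) • r) : cm m) : Ph n) =
      ((c⁻¹ • A' ((a * lam) • p + (b * lam) • r) : cm m) : Ph n) := rfl
    rw [e3, e2]
    have e4 : σ * (h * ((a * lam) ^ 2 + (b * lam) ^ 2)) = (σ * h) * lam ^ 2 * (a ^ 2 + b ^ 2) := by
      ring
    rw [e4, hσh, hlam2]
    field_simp

end Pool.Agent.D0H95.BF
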