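import Pool.Agent.D0H95.BF.Ker
import Pool.Agent.D0H95.BF.NBif

/-!
Bifurcation at a resonance of an isochronous family.
-/

set_option autoImplicit false

namespace Pool.Agent.D0H95.BF

open Pool.Agent.W821.TB Pool.Agent.D0H95.NB Finset Filter Topology

variable {m : Fin 3 → ℝ}

theorem fix_deriv {n : ℕ} {m : Fin n → ℝ} (P : Pk m) {T : ℝ} {c : ℂ} {γ : ℝ → cm m} {v : cm m}
    {l0 : ℝ} (hγ : HasDerivAt γ v l0) (hγf : ∀ᶠ l in 𝓝 l0, P.g T (γ l) = c • γ l) :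
    fderiv ℝ (P.g T) (γ l0) v = c • v := by
  have h1 : HasDerivAt (fun l => P.g T (γ l)) (fderiv ℝ (P.g T) (γ l0) v) l0 :=
    (P.diff T (γ l0)).comp_hasDerivAt l0 hγ
  have h2 : HasDerivAt (fun l => c • γ l) (c • v) l0 := hγ.const_smul c
  have h3 : (fun l => P.g T (γ l)) =ᶠ[𝓝 l0] fun l => c • γ l := hγf
  exact (h1.congr_of_eventuallyEq h3.symm).unique h2

theorem ep_bif (hBU : S_BU) (hm : ∀ a, 0 < m a) {P : Pk m} {T : ℝ} (hT : 0 < T) {c : ℂ}
    (hc : ‖c‖ = 1) {γ p1 r1 : ℝ → cm m} {α1 : ℝ → ℝ} {l0 : ℝ} {p2 r2 v0 p' r' : cm m}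
    {α2 a' : ℝ} (hγ : ContDiffAt ℝ 1 γ l0) (hγ' : HasDerivAt γ v0 l0)
    (hγf : ∀ᶠ l in 𝓝 l0, P.g T (γ l) = c • γ l)
    (hκ : ome m (Complex.I • (γ l0 : Ph 3)) (v0 : Ph 3) ≠ 0)
    (hp : HasDerivAt p1 p' l0) (hr : HasDerivAt r1 r' l0) (hα : HasDerivAt α1 a' l0) (ha' : a' ≠ 0)
    (hrel : ∀ᶠ l in 𝓝 l0,
      fderiv ℝ (P.g T) (γ l) (p1 l) = c • (Real.cos (α1 l) • p1 l - Real.sin (α1 l) • r1 l) ∧
      fderiv ℝ (P.g T) (γ l) (r1 l) = c • (Real.sin (α1 l) • p1 l + Real.cos (α1 l) • r1 l))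
    (h : EP P T c (γ l0) (p1 l0) (r1 l0) p2 r2 (α1 l0) α2)
    {q : ℕ} (hq : 1 ≤ q) (h1 : Real.cos (q * α1 l0) = 1) (h2 : Real.cos (q * α2) ≠ 1) :
    ∀ δ : ℝ, 0 < δ → ∃ (s : ℝ) (z : cm m), s ≠ 0 ∧ |s| < δ ∧ ‖z - γ l0‖ < δ ∧
      P.g (q * T) z = (Complex.exp (s * Complex.I) * c ^ q) • z := by
  obtain ⟨ω, hω⟩ := exists_om m
  have hcq : ‖c ^ q‖ = 1 := by rw [norm_pow, hc, one_pow]
  have hcq0 : c ^ q ≠ 0 := by
    intro h0
    rw [h0] at hcq
    simp at hcq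
  have hq0 : (0:ℝ) < q := by exact_mod_cast hq
  have hqT : 0 < (q : ℝ) * T := by positivity
  have hs1 : Real.sin (q * α1 l0) = 0 := by
    have := Real.sin_sq_add_cos_sq (q * α1 l0)
    rw [h1] at this
    nlinarith [sq_nonneg (Real.sin (q * α1 l0))]
  obtain ⟨i1, i2, i3⟩ := iter_D P hc h.hg q
  have hz0 : ((γ l0 : cm m) : Ph 3) ∈ P.S := by
    have := h.hS 0
    rwa [P.hg.zero] at this
  set κ := ome m (Complex.I • (γ l0 : Ph 3)) (v0 : Ph 3) with hκdef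
  -- u1
  obtain ⟨u1, hu1⟩ : ∃ u1 : cm m, (u1 : Ph 3) = vf m ((γ l0 : cm m) : Ph 3) :=
    ⟨⟨_, vf_mem (γ l0).2⟩, rfl⟩
  have hη : fderiv ℝ (P.g T) (γ l0) v0 = c • v0 := fix_deriv P hγ' hγf
  have hcos1 : Real.cos (α1 l0) ≠ 1 := by
    intro h3
    have := Real.sin_sq_add_cos_sq (α1 l0)
    rw [h3] at this
    exact h.hs1 (by nlinarith [sq_nonneg (Real.sin (α1 l0))])
  have hDω : ∀ x y, ω (fderiv ℝ (P.g T) (γ l0) x) (fderiv ℝ (P.g T) (γ l0) y) = ω x y := by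
    intro x y
    rw [hω, hω]
    exact D_ome P h.hS hT.le x y
  have hDqω : ∀ x y, ω (fderiv ℝ (P.g (q * T)) (γ l0) x) (fderiv ℝ (P.g (q * T)) (γ l0) y) =
      ω x y := by
    intro x y
    rw [hω, hω]
    exact D_ome P h.hS hqT.le x y
  have hDu2 : fderiv ℝ (P.g T) (γ l0) (Complex.I • γ l0) = c • (Complex.I • γ l0) := by
    rw [D_I, h.hg, smul_comm]
  obtain ⟨b1, b2⟩ := orth_fix (ω := fun x y => ω x y) (D := fderiv ℝ (P.g T) (γ l0)) hc hω hDω hDu2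
    h.hp1 h.hr1 hcos1
  -- the derivative of the linearization
  set DD : cm m → (cm m →L[ℝ] cm m) := fderiv ℝ (P.g (q * T)) with hDD
  have hDDd : DifferentiableAt ℝ DD (γ l0) := by
    have h3 : ContDiff ℝ 2 (P.g (q * T)) := cdN_t P (N := 2) (by norm_num) _
    have h4 : ContDiff ℝ 1 DD := h3.fderiv_right (by norm_num)
    exact h4.differentiable (by norm_num) _
  set B' : cm m →L[ℝ] cm m := fderiv ℝ DD (γ l0) v0 with hB'
  have hBd : HasDerivAt (fun l => DD (γ l)) B' l0 := by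
    have h3 : HasFDerivAt DD (fderiv ℝ DD (γ l0)) (γ l0) := hDDd.hasFDerivAt
    exact HasFDerivAt.comp_hasDerivAt (l := DD) l0 h3 hγ'
  -- eventually, the iterated relations
  have hrelq : ∀ᶠ l in 𝓝 l0,
      DD (γ l) (p1 l) = c ^ q • (Real.cos (q * α1 l) • p1 l - Real.sin (q * α1 l) • r1 l) ∧
      DD (γ l) (r1 l) = c ^ q • (Real.sin (q * α1 l) • p1 l + Real.cos (q * α1 l) • r1 l) := by
    filter_upwards [hrel, hγf] with l hl1 hl2
    exact (iter_D P hc hl2 q).2.1 hl1.1 hl1.2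
  have hfq : ∀ᶠ l in 𝓝 l0, P.g (q * T) (γ l) = c ^ q • γ l := by
    filter_upwards [hγf] with l hl2
    exact (iter_D P hc hl2 q).1
  have hqα : HasDerivAt (fun l => (q:ℝ) * α1 l) (q * a') l0 := hα.const_mul _
  have hcosd : HasDerivAt (fun l => Real.cos (q * α1 l)) 0 l0 := by
    have := hqα.cos
    rw [hs1] at this
    simpa using this
  have hsind : HasDerivAt (fun l => Real.sin (q * α1 l)) (q * a') l0 := by
    have := hqα.sin
    rw [h1] at this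
    simpa using this
  have e1 : B' (p1 l0) + DD (γ l0) p' = c ^ q • (p' - (q * a') • r1 l0) := by
    have h3 := hBd.clm_apply hp
    have h4 : HasDerivAt (fun l => c ^ q • (Real.cos (q * α1 l) • p1 l - Real.sin (q * α1 l) • r1 l))
        (c ^ q • (p' - (q * a') • r1 l0)) l0 := by
      have h5 := ((hcosd.smul hp).sub (hsind.smul hr)).const_smul (c ^ q)
      refine h5.congr_deriv ?_
      rw [h1, hs1]
      simp
    exact (h3.congr_of_eventuallyEq (hrelq.mono fun l hl => hl.1.symm)).unique h4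
  have e2 : B' (r1 l0) + DD (γ l0) r' = c ^ q • (r' + (q * a') • p1 l0) := by
    have h3 := hBd.clm_apply hr
    have h4 : HasDerivAt (fun l => c ^ q • (Real.sin (q * α1 l) • p1 l + Real.cos (q * α1 l) • r1 l))
        (c ^ q • (r' + (q * a') • p1 l0)) l0 := by
      have h5 := ((hsind.smul hp).add (hcosd.smul hr)).const_smul (c ^ q)
      refine h5.congr_deriv ?_
      rw [h1, hs1]
      simp
      abel
    exact (h3.congr_of_eventuallyEq (hrelq.mono fun l hl => hl.2.symm)).unique h4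
  have hDqp : DD (γ l0) (p1 l0) = c ^ q • p1 l0 := by
    have := (i2 h.hp1 h.hr1).1
    rw [h1, hs1, one_smul, zero_smul, sub_zero] at this
    exact this
  have hDqr : DD (γ l0) (r1 l0) = c ^ q • r1 l0 := by
    have := (i2 h.hp1 h.hr1).2
    rw [h1, hs1, one_smul, zero_smul, zero_add] at this
    exact this
  have hcω : ∀ x y : cm m, ω (c ^ q • x) (c ^ q • y) = ω x y := by
    intro x y
    rw [hω, hω]
    exact ome_smul hcq _ _
  have hanti : ∀ x y, ω x y = - ω y x := by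
    intro x y
    rw [hω, hω]
    exact ome_anti _ _
  have hself : ∀ x, ω x x = 0 := fun x => by have := hanti x x; linarith
  -- reparametrization
  set g : ℝ → cm m := fun l => γ (l0 + κ⁻¹ * l) with hg
  have hin : HasDerivAt (fun l : ℝ => l0 + κ⁻¹ * l) κ⁻¹ 0 := by
    simpa using ((hasDerivAt_id (0:ℝ)).const_mul κ⁻¹).const_add l0
  have hin0 : (fun l : ℝ => l0 + κ⁻¹ * l) 0 = l0 := by simp
  have hg0 : g 0 = γ l0 := by rw [hg]; simp
  have htend : Tendsto (fun l : ℝ => l0 + κ⁻¹ * l) (𝓝 0) (𝓝 l0) := by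
    have h3 : Tendsto (fun l : ℝ => l0 + κ⁻¹ * l) (𝓝 0) (𝓝 ((fun l : ℝ => l0 + κ⁻¹ * l) 0)) :=
      hin.continuousAt.tendsto
    rwa [hin0] at h3
  have hgd : HasDerivAt g (κ⁻¹ • v0) 0 := by
    have h3 : HasDerivAt γ v0 ((fun l : ℝ => l0 + κ⁻¹ * l) 0) := by rw [hin0]; exact hγ'
    exact h3.scomp (0:ℝ) hin
  have hgc : ContDiffAt ℝ 1 g 0 := by
    have h3 : ContDiffAt ℝ 1 (fun l : ℝ => l0 + κ⁻¹ * l) 0 := by fun_prop
    have h4 : ContDiffAt ℝ 1 γ ((fun l : ℝ => l0 + κ⁻¹ * l) 0) := by rw [hin0]; exact hγ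
    exact h4.comp (0:ℝ) h3
  refine nbif hBU P hm (z0 := γ l0) hqT (fun t _ => h.hS t) hcq i1 (u1 := u1) (η := κ⁻¹ • v0)
    (p := p1 l0) (r := r1 l0) (γ := g) (A' := κ⁻¹ • B')
    (h := κ⁻¹ * (q * a' * ω (p1 l0) (r1 l0))) ?_ hu1 ?_ hDqp hDqr ?_ ?_ ?_ ?_ hgc hg0 hgd ?_ ?_ ?_
  · refine mul_ne_zero (inv_ne_zero hκ) (mul_ne_zero (mul_ne_zero hq0.ne' ha') ?_)
    rw [hω]; exact h.hω1
  · rw [map_smul, i3 hη, smul_comm]
  · intro v hv
    obtain ⟨c1, c2, c3, c4, c5, hv'⟩ := h.ker hm hT hc hη hκ hq h1 hs1 h2 hu1 hv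
    refine ⟨c1, c2, c3 * κ, c4, c5, ?_⟩
    rw [hv', smul_smul, mul_assoc, mul_inv_cancel₀ hκ, mul_one]
  · have e3 : ((κ⁻¹ • v0 : cm m) : Ph 3) = κ⁻¹ • (v0 : Ph 3) := rfl
    rw [e3, ome_smul_right, ← hκdef, inv_mul_cancel₀ hκ]
  · have := b1
    simp only [hω] at this
    exact this
  · have := b2
    simp only [hω] at this
    exact this
  · exact htend.eventually hfq
  · have h3 : HasDerivAt (fun l => DD (γ l)) B' ((fun l : ℝ => l0 + κ⁻¹ * l) 0) := by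
      rw [hin0]; exact hBd
    exact HasDerivAt.scomp (𝕜 := ℝ) (F := cm m →L[ℝ] cm m) (g₁ := fun l => DD (γ l))
      (h := fun l : ℝ => l0 + κ⁻¹ * l) (g₁' := B') (h' := κ⁻¹) (x := (0:ℝ)) h3 hin
  · intro a b
    set v := a • p1 l0 + b • r1 l0 with hv
    set v' := a • p' + b • r' with hv'
    have e3 : B' v = c ^ q • (v' + (q * a') • (b • p1 l0 - a • r1 l0)) - DD (γ l0) v' := by
      have e4 : B' (p1 l0) = c ^ q • (p' - (q * a') • r1 l0) - DD (γ l0) p' := eq_sub_of_add_eq e1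
      have e5 : B' (r1 l0) = c ^ q • (r' + (q * a') • p1 l0) - DD (γ l0) r' := eq_sub_of_add_eq e2
      rw [hv, map_add, map_smul, map_smul, e4, e5, hv', map_add, map_smul, map_smul,
        smul_sub a, smul_sub b, smul_comm a (c ^ q), smul_comm b (c ^ q)]
      have e6 : a • (p' - (q * a') • r1 l0) + b • (r' + (q * a') • p1 l0) =
        a • p' + b • r' + (q * a') • (b • p1 l0 - a • r1 l0) := by module
      rw [← e6, smul_add (c ^ q)]
      abel
    have hDv : DD (γ l0) v = c ^ q • v := by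
      rw [hv, map_add, map_smul, map_smul, hDqp, hDqr, smul_add, smul_comm a, smul_comm b]
    have e4 : ω (B' v) (c ^ q • v) = (q * a') * ω (b • p1 l0 - a • r1 l0) v := by
      have e5 : ω (B' v) (c ^ q • v) = ω (c ^ q • (v' + (q * a') • (b • p1 l0 - a • r1 l0)))
          (c ^ q • v) - ω (DD (γ l0) v') (c ^ q • v) := by
        rw [e3, map_sub]; rfl
      have e6 : ∀ w : cm m, ω (v' + (q * a') • w) v = ω v' v + (q * a') * ω w v := by
        intro w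
        rw [map_add ω v' _, map_smul ω]
        rfl
      rw [e5, hcω, ← hDv, hDqω, e6]
      ring
    have e5 : ω (b • p1 l0 - a • r1 l0) v = (a ^ 2 + b ^ 2) * ω (p1 l0) (r1 l0) := by
      have e6 : ω (b • p1 l0 - a • r1 l0) v = b * (a * ω (p1 l0) (p1 l0) + b * ω (p1 l0) (r1 l0)) -
          a * (a * ω (r1 l0) (p1 l0) + b * ω (r1 l0) (r1 l0)) := by
        rw [map_sub, map_smul, map_smul, hv]
        change b * ω (p1 l0) (a • p1 l0 + b • r1 l0) - a * ω (r1 l0) (a • p1 l0 + b • r1 l0) = _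
        rw [map_add, map_add, map_smul, map_smul, map_smul, map_smul]
        rfl
      rw [e6, hself, hself, hanti (r1 l0) (p1 l0)]
      ring
    have e6 : ome m (((c ^ q)⁻¹ • (κ⁻¹ • B') v : cm m) : Ph 3) (v : Ph 3) =
        κ⁻¹ * ω (B' v) (c ^ q • v) := by
      have e7 : (((c ^ q)⁻¹ • (κ⁻¹ • B') v : cm m) : Ph 3) =
          (c ^ q)⁻¹ • (((κ⁻¹ • B') v : cm m) : Ph 3) := rfl
      have e8 : (v : Ph 3) = (c ^ q)⁻¹ • ((c ^ q • v : cm m) : Ph 3) := by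
        have : ((c ^ q • v : cm m) : Ph 3) = c ^ q • (v : Ph 3) := rfl
        rw [this, smul_smul, inv_mul_cancel₀ hcq0, one_smul]
      rw [e7]
      conv_lhs => rw [e8]
      rw [ome_smul (by rw [norm_inv, hcq, inv_one]), ← hω]
      have e9 : (κ⁻¹ • B') v = κ⁻¹ • B' v := rfl
      rw [e9, map_smul ω]
      rfl
    rw [e6, e4, e5]
    ring

end Pool.Agent.D0H95.BF
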