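import Pool.Agent.D0H95.BF.Core

/-!
The kernel at a resonance.
-/

set_option autoImplicit false

namespace Pool.Agent.D0H95.BF

open Pool.Agent.W821.TB Pool.Agent.D0H95.NB Finset Filter Topology

section General

variable {n : ℕ} {m : Fin n → ℝ}

theorem D_vf (P : Pk m) {z u1 : cm m} {t : ℝ} (h0 : (z : Ph n) ∈ P.S)
    (ht : ((P.g t z : cm m) : Ph n) ∈ P.S) (hu1 : (u1 : Ph n) = vf m (z : Ph n)) :
    ((fderiv ℝ (P.g t) z u1 : cm m) : Ph n) = vf m ((P.g t z : cm m) : Ph n) := by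
  have e1 : XX m P.R P.δ z = u1 := by
    apply Subtype.ext
    rw [XX_one P.hR P.hδ h0, hu1]
  have h1 : HasDerivAt (fun s => P.g s z) u1 0 := by
    have := P.hg.deriv z 0
    rwa [P.hg.zero, e1] at this
  have h2 : HasDerivAt (fun s => P.g t (P.g s z)) (fderiv ℝ (P.g t) z u1) 0 := by
    have h3 : HasFDerivAt (P.g t) (fderiv ℝ (P.g t) z) (P.g 0 z) := by
      rw [P.hg.zero]; exact P.diff t z
    exact h3.comp_hasDerivAt (0:ℝ) h1
  have h3 : HasDerivAt (fun s => P.g (t + s) z) (XX m P.R P.δ (P.g t z)) 0 := by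
    have h4 : HasDerivAt (fun s => P.g s z) (XX m P.R P.δ (P.g t z)) (t + 0) := by
      rw [add_zero]; exact P.hg.deriv z t
    exact h4.comp_const_add t 0
  have h4 : (fun s => P.g (t + s) z) = fun s => P.g t (P.g s z) := funext fun s => P.add t s z
  rw [h4] at h3
  rw [h2.unique h3, XX_one P.hR P.hδ ht]

theorem D_I (P : Pk m) (z : cm m) (t : ℝ) :
    fderiv ℝ (P.g t) z (Complex.I • z) = Complex.I • P.g t z := by
  have hcurve : HasDerivAt (fun s : ℝ => Complex.exp (s * Complex.I)) Complex.I 0 := by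
    have h4 : HasDerivAt (fun s : ℝ => (s : ℂ) * Complex.I) Complex.I 0 := by
      have := (Complex.ofRealCLM.hasDerivAt (x := (0:ℝ))).mul_const Complex.I
      simpa using this
    have := h4.cexp
    simpa using this
  have h1 : HasDerivAt (fun s : ℝ => Complex.exp (s * Complex.I) • z) (Complex.I • z) 0 :=
    hcurve.smul_const z
  have h2 : HasDerivAt (fun s : ℝ => P.g t (Complex.exp (s * Complex.I) • z))
      (fderiv ℝ (P.g t) z (Complex.I • z)) 0 := by
    have h3 : HasFDerivAt (P.g t) (fderiv ℝ (P.g t) z)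
        ((fun s : ℝ => Complex.exp (s * Complex.I) • z) 0) := by
      have : (fun s : ℝ => Complex.exp (s * Complex.I) • z) 0 = z := by simp
      rw [this]
      exact P.diff t z
    exact h3.comp_hasDerivAt (0:ℝ) h1
  have h3 := hcurve.smul_const (P.g t z)
  have h4 : (fun s : ℝ => P.g t (Complex.exp (s * Complex.I) • z)) =
      fun s : ℝ => Complex.exp (s * Complex.I) • P.g t z := funext fun s => P.smul (norm_expI s) t z
  rw [h4] at h2
  exact h2.unique h3

/-- Fixed vectors of the twisted period map do not change the energy. -/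
theorem dE_zero (P : Pk m) {z : cm m} (hS : ∀ t, ((P.g t z : cm m) : Ph n) ∈ P.S) {T : ℝ}
    (hT : 0 < T) {c : ℂ} (hc : ‖c‖ = 1) (hg : P.g T z = c • z) {v : cm m}
    (hv : fderiv ℝ (P.g T) z v = c • v) : ome m (vf m (z : Ph n)) (v : Ph n) = 0 := by
  have hper : ∀ t, ((P.g (t + T) z : cm m) : Ph n) = c • ((P.g t z : cm m) : Ph n) := by
    intro t
    rw [P.per_smul hc hg]
    rfl
  have hp : ∀ t, ((fderiv ℝ (P.g (t + T)) z v : cm m) : Ph n) =
      c • ((fderiv ℝ (P.g t) z v : cm m) : Ph n) := by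
    intro t
    rw [P.D_add, hg, hv, P.D_smul hc]
    rfl
  have h := energy_zero (P.sol_of hS) (fun t => P.jac hS v t) hT hc hper hp 0
  rw [P.hg.zero, P.D_zero] at h
  have hne : ∀ a b, a ≠ b → (z : Ph n).1 a ≠ (z : Ph n).1 b := by
    have := Rg_ne P.hδ (hS 0)
    rwa [P.hg.zero] at this
  rwa [fderiv_energy hne] at h

end General

variable {m : Fin 3 → ℝ}

theorem EP.ker (hm : ∀ a, 0 < m a) {P : Pk m} {T : ℝ} {c : ℂ} {z p1 r1 p2 r2 : cm m} {α1 α2 : ℝ}
    (h : EP P T c z p1 r1 p2 r2 α1 α2) (hT : 0 < T) (hc : ‖c‖ = 1) {η : cm m}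
    (hη : fderiv ℝ (P.g T) z η = c • η)
    (hηL : ome m (Complex.I • (z : Ph 3)) (η : Ph 3) ≠ 0) {q : ℕ} (hq : 1 ≤ q)
    (h1 : Real.cos (q * α1) = 1) (h1' : Real.sin (q * α1) = 0)
    (h2 : Real.cos (q * α2) ≠ 1) {u1 : cm m} (hu1 : (u1 : Ph 3) = vf m (z : Ph 3)) {v : cm m}
    (hv : fderiv ℝ (P.g (q * T)) z v = c ^ q • v) :
    ∃ c1 c2 c3 c4 c5 : ℝ, v = c1 • u1 + c2 • (Complex.I • z) + c3 • η + c4 • p1 + c5 • r1 := by
  obtain ⟨ω, hω⟩ := exists_om m
  have hcq : ‖c ^ q‖ = 1 := by rw [norm_pow, hc, one_pow]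
  have hqT : 0 < (q : ℝ) * T := by
    have : (0:ℝ) < q := by exact_mod_cast hq
    positivity
  obtain ⟨i1, i2, i3⟩ := iter_D P hc h.hg q
  have hz0 : (z : Ph 3) ∈ P.S := by
    have := h.hS 0
    rwa [P.hg.zero] at this
  set D := fderiv ℝ (P.g T) z with hD
  set Dq := fderiv ℝ (P.g (q * T)) z with hDq
  have hDω : ∀ x y, ω (D x) (D y) = ω x y := by
    intro x y
    rw [hω, hω]
    exact D_ome P h.hS hT.le x y
  have hDqω : ∀ x y, ω (Dq x) (Dq y) = ω x y := by
    intro x y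
    rw [hω, hω]
    exact D_ome P h.hS hqT.le x y
  have hanti : ∀ x y, ω x y = - ω y x := by
    intro x y
    rw [hω, hω]
    exact ome_anti _ _
  have hDu1 : D u1 = c • u1 := by
    apply Subtype.ext
    rw [hD, D_vf P hz0 (h.hS T) hu1, h.hg]
    change vf m (c • (z : Ph 3)) = c • (u1 : Ph 3)
    rw [vf_smul hc, hu1]
  have hDu2 : D (Complex.I • z) = c • (Complex.I • z) := by
    rw [hD, D_I, h.hg, smul_comm]
  have hcos1 : Real.cos α1 ≠ 1 := by
    intro h3
    have := Real.sin_sq_add_cos_sq α1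
    rw [h3] at this
    exact h.hs1 (by nlinarith [sq_nonneg (Real.sin α1)])
  have hcos2 : Real.cos α2 ≠ 1 := by
    intro h3
    have := Real.sin_sq_add_cos_sq α2
    rw [h3] at this
    exact h.hs2 (by nlinarith [sq_nonneg (Real.sin α2)])
  obtain ⟨a1, a2⟩ := orth_fix (ω := fun x y => ω x y) (D := D) hc hω hDω hDu1 h.hp1 h.hr1 hcos1
  obtain ⟨a3, a4⟩ := orth_fix (ω := fun x y => ω x y) (D := D) hc hω hDω hDu1 h.hp2 h.hr2 hcos2
  obtain ⟨b1, b2⟩ := orth_fix (ω := fun x y => ω x y) (D := D) hc hω hDω hDu2 h.hp1 h.hr1 hcos1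
  obtain ⟨b3, b4⟩ := orth_fix (ω := fun x y => ω x y) (D := D) hc hω hDω hDu2 h.hp2 h.hr2 hcos2
  obtain ⟨d1, d2⟩ := orth_fix (ω := fun x y => ω x y) (D := D) hc hω hDω hη h.hp1 h.hr1 hcos1
  obtain ⟨d3, d4⟩ := orth_fix (ω := fun x y => ω x y) (D := D) hc hω hDω hη h.hp2 h.hr2 hcos2
  obtain ⟨g1, g2, g3, g4⟩ := orth_pair (ω := fun x y => ω x y) (D := D) hc hω hDω h.hp1 h.hr1
    h.hp2 h.hr2 h.hcc
  have k1 : ω u1 (Complex.I • z) = 0 := by
    rw [hω, hu1]
    exact dE_zero P h.hS hT hc h.hg hDu2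
  have k2 : ω u1 η = 0 := by
    rw [hω, hu1]
    exact dE_zero P h.hS hT hc h.hg hη
  set W1 := ω p1 r1 with hW1
  have hW1' : W1 ≠ 0 := by rw [hW1, hω]; exact h.hω1
  have hW2' : ω p2 r2 ≠ 0 := by rw [hω]; exact h.hω2
  have hself : ∀ x, ω x x = 0 := fun x => by have := hanti x x; linarith
  -- first correction
  set x := ω v r1 / W1 with hx
  set y := - ω v p1 / W1 with hy
  set v' := v - x • p1 - y • r1 with hv'
  have hDqp := (i2 h.hp1 h.hr1).1
  have hDqr := (i2 h.hp1 h.hr1).2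
  rw [h1, h1', one_smul, zero_smul, sub_zero] at hDqp
  rw [h1, h1', one_smul, zero_smul, zero_add] at hDqr
  have hDv' : Dq v' = c ^ q • v' := by
    rw [hv', map_sub, map_sub, map_smul, map_smul, hv, hDqp, hDqr, smul_sub, smul_sub,
      smul_comm (c ^ q) x, smul_comm (c ^ q) y]
  have hv'p1 : ω v' p1 = 0 := by
    have e1 : ω v' p1 = ω v p1 - x * ω p1 p1 - y * ω r1 p1 := by
      rw [hv', map_sub, map_sub, map_smul, map_smul]
      rfl
    rw [e1, hself, hanti r1 p1, ← hW1, hy]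
    field_simp
    ring
  have hv'r1 : ω v' r1 = 0 := by
    have e1 : ω v' r1 = ω v r1 - x * ω p1 r1 - y * ω r1 r1 := by
      rw [hv', map_sub, map_sub, map_smul, map_smul]
      rfl
    rw [e1, hself, ← hW1, hx]
    field_simp
    ring
  obtain ⟨l1, l2⟩ := orth_fix (ω := fun x y => ω x y) (D := Dq) hcq hω hDqω hDv'
    (i2 h.hp2 h.hr2).1 (i2 h.hp2 h.hr2).2 h2
  have hEv' : ω u1 v' = 0 := by
    rw [hω, hu1]
    exact dE_zero P h.hS hqT hcq i1 hDv'
  -- second correction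
  have hηL' : ω (Complex.I • z) η ≠ 0 := by rw [hω]; exact hηL
  set w := ω (Complex.I • z) v' / ω (Complex.I • z) η with hw
  set v'' := v' - w • η with hv''
  have hgen : ∀ s, ω s v'' = ω s v' - w * ω s η := by
    intro s
    rw [hv'', map_sub, map_smul, smul_eq_mul]
  have hLv'' : ω (Complex.I • z) v'' = 0 := by
    rw [hgen, hw, div_mul_cancel₀ _ hηL', sub_self]
  set B : cm m →ₗ[ℝ] cm m →ₗ[ℝ] ℝ := LinearMap.mk₂ ℝ (fun x y : cm m => ω x y)
    (fun x y z => by rw [map_add]; rfl) (fun c x y => by rw [map_smul]; rfl)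
    (fun x y z => by rw [map_add]) (fun c x y => by rw [map_smul]) with hB
  have hBω : ∀ x y, B x y = ω x y := fun x y => rfl
  obtain ⟨s, t, hst⟩ := la8 (finrank_cm hm) B (u1 := u1) (u2 := Complex.I • z) (p1 := p1) (r1 := r1)
    (p2 := p2) (r2 := r2) (v := v'')
    (fun x y => by rw [hBω, hBω]; exact hanti x y)
    (fun x hx => om_nd hm x fun y => by have := hx y; rwa [hBω, hω] at this)
    (fun a b hab => h.hind a b (by
      have this : ((a • u1 + b • (Complex.I • z) : cm m) : Ph 3) = ((0 : cm m) : Ph 3) :=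
        congrArg Subtype.val hab
      have e : ((a • u1 + b • (Complex.I • z) : cm m) : Ph 3) =
        a • (u1 : Ph 3) + b • (Complex.I • (z : Ph 3)) := rfl
      rw [e, hu1] at this
      exact this))
    k1 a1 a2 a3 a4 b1 b2 b3 b4 hW1' hW2' g1 g2 g3 g4
    (by rw [hBω, hgen, hEv', k2]; ring) (by rw [hBω]; exact hLv'')
    (by rw [hBω, hgen, hanti p1 v', hv'p1, hanti p1 η, d1]; ring)
    (by rw [hBω, hgen, hanti r1 v', hv'r1, hanti r1 η, d2]; ring)
    (by rw [hBω, hgen, hanti p2 v', l1, hanti p2 η, d3]; ring)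
    (by rw [hBω, hgen, hanti r2 v', l2, hanti r2 η, d4]; ring)
  refine ⟨s, t, w, x, y, ?_⟩
  rw [← hst, hv'', hv']
  abel

end Pool.Agent.D0H95.BF
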