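import Pool.Agent.D0H95.BF.Stm

/-!
Lyapunov-Schmidt reduction with a potential: the abstract bifurcation theorem.
-/

set_option autoImplicit false

open Filter Topology Set

namespace Pool.Agent.D0H95.BF

section LS

variable {E : Type} [NormedAddCommGroup E] [NormedSpace ℝ E] [FiniteDimensional ℝ E]

/-- The partial derivative in the second variable. -/
noncomputable def DZ (G : ℝ × E → E) (q : ℝ × E) : E →L[ℝ] E :=
  (fderiv ℝ G q).comp (ContinuousLinearMap.inr ℝ ℝ E)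

theorem DZ_apply (G : ℝ × E → E) (q : ℝ × E) (v : E) : DZ G q v = fderiv ℝ G q (0, v) := rfl

/-- A complement paired nondegenerately with `K`. -/
theorem exists_tau (ω : E →L[ℝ] E →L[ℝ] ℝ) (hnd : ∀ x, (∀ y, ω x y = 0) → x = 0)
    (K : Submodule ℝ E) :
    ∃ τ : (Fin (Module.finrank ℝ K) → ℝ) →L[ℝ] E, ∀ f, (∀ k : K, ω (τ f) k = 0) → f = 0 := by
  obtain ⟨π, hπ⟩ : ∃ π : E →ₗ[ℝ] K, ∀ w : K, π (w : E) = w := by
    obtain ⟨π, hπ⟩ := K.subtype.exists_leftInverse_of_injective (Submodule.ker_subtype K)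
    exact ⟨π, fun w => congrArg (fun L : K →ₗ[ℝ] K => L w) hπ⟩
  set ω' : E →ₗ[ℝ] (E →ₗ[ℝ] ℝ) :=
    (LinearMap.toContinuousLinearMap (𝕜 := ℝ) (E := E) (F' := ℝ)).symm.toLinearMap ∘ₗ
      (ω : E →ₗ[ℝ] E →L[ℝ] ℝ) with hω'
  have hω'app : ∀ x y, ω' x y = ω x y := fun x y => rfl
  have hfin : Module.finrank ℝ E = Module.finrank ℝ (E →ₗ[ℝ] ℝ) :=
    (Subspace.dual_finrank_eq (K := ℝ) (V := E)).symm
  have hfinK : Module.finrank ℝ (Fin (Module.finrank ℝ K) → ℝ) = Module.finrank ℝ (K →ₗ[ℝ] ℝ) := by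
    rw [Module.finrank_fin_fun]
    exact (Subspace.dual_finrank_eq (K := ℝ) (V := K)).symm
  have hωinj : Function.Injective ω' := by
    rw [← LinearMap.ker_eq_bot, LinearMap.ker_eq_bot']
    intro x hx
    refine hnd x fun y => ?_
    rw [← hω'app, hx]; rfl
  set Ω := ω'.linearEquivOfInjective hωinj hfin with hΩ
  have hΩω : ∀ x y, Ω x y = ω x y := fun x y => rfl
  set L : (Fin (Module.finrank ℝ K) → ℝ) ≃ₗ[ℝ] (K →ₗ[ℝ] ℝ) := LinearEquiv.ofFinrankEq _ _ hfinK with hL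
  set τ : (Fin (Module.finrank ℝ K) → ℝ) →ₗ[ℝ] E :=
    (Ω.symm.toLinearMap ∘ₗ (LinearMap.lcomp ℝ ℝ π)) ∘ₗ L.toLinearMap with hτ
  have hτω : ∀ f x, ω (τ f) x = L f (π x) := by
    intro f x
    rw [← hΩω]
    simp [hτ]
  refine ⟨LinearMap.toContinuousLinearMap τ, fun f hf => ?_⟩
  have h1 : L f = 0 := by
    ext k
    have := hf k
    rw [LinearMap.coe_toContinuousLinearMap', hτω, hπ] at this
    exact this
  exact (LinearEquiv.map_eq_zero_iff L).mp h1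

/-- The reduction. -/
theorem reduce (ω : E →L[ℝ] E →L[ℝ] ℝ)
    {G : ℝ × E → E} {z0 : E} (hG : ContDiffAt ℝ 3 G (0, z0)) (h0 : G (0, z0) = z0)
    (hAω : ∀ x y, ω (DZ G (0, z0) x) (DZ G (0, z0) y) = ω x y)
    {K : Type} [NormedAddCommGroup K] [NormedSpace ℝ K] [FiniteDimensional ℝ K]
    (j : K →L[ℝ] E) (hK : ∀ v, DZ G (0, z0) v = v ↔ ∃ k, j k = v)
    {N : Type} [NormedAddCommGroup N] [NormedSpace ℝ N] [FiniteDimensional ℝ N]
    (hN : Module.finrank ℝ N = Module.finrank ℝ K) (τ : N →L[ℝ] E)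
    (hτ : ∀ f, (∀ k : K, ω (τ f) (j k) = 0) → f = 0) (π : E →L[ℝ] K) (hπ : ∀ k : K, π (j k) = k) :
    ∃ (Z : K × ℝ → E) (μ : K × ℝ → N), ContDiffAt ℝ 3 Z 0 ∧ Z 0 = z0 ∧
      (∀ k : K, fderiv ℝ Z 0 (k, 0) = j k) ∧
      (∀ᶠ q in 𝓝 (0 : K × ℝ), G (q.2, Z q) - Z q + τ (μ q) = 0) ∧
      (∀ᶠ z in 𝓝 z0, G (0, z) = z → Z (π (z - z0), 0) = z) := by
  have : CompleteSpace K := FiniteDimensional.complete ℝ K
  have : CompleteSpace E := FiniteDimensional.complete ℝ E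
  have : CompleteSpace N := FiniteDimensional.complete ℝ N
  set G' := fderiv ℝ G (0, z0) with hG'
  have hGd : HasFDerivAt G G' (0, z0) := (hG.differentiableAt (by norm_num)).hasFDerivAt
  -- the square system
  set Ψ : ℝ × (E × N) → ℝ × (E × K) :=
    fun p => (p.1, (G (p.1, p.2.1) - p.2.1 + τ p.2.2, π (p.2.1 - z0))) with hΨ
  set p0 : ℝ × (E × N) := ((0:ℝ), (z0, 0)) with hp0
  have c1 : ContDiff ℝ 3 (fun p : ℝ × (E × N) => p.1) := contDiff_fst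
  have c2 : ContDiff ℝ 3 (fun p : ℝ × (E × N) => p.2.1) := contDiff_fst.comp contDiff_snd
  have c3 : ContDiff ℝ 3 (fun p : ℝ × (E × N) => p.2.2) := contDiff_snd.comp contDiff_snd
  have cG : ContDiffAt ℝ 3 (fun p : ℝ × (E × N) => G (p.1, p.2.1)) p0 :=
    ContDiffAt.comp p0 (g := G) (f := fun p : ℝ × (E × N) => (p.1, p.2.1)) hG
      (c1.prodMk c2).contDiffAt
  have hΨc : ContDiffAt ℝ 3 Ψ p0 := by
    refine ContDiffAt.prodMk c1.contDiffAt (ContDiffAt.prodMk ?_ ?_)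
    · exact (cG.sub c2.contDiffAt).add (τ.contDiff.comp c3).contDiffAt
    · exact (π.contDiff.comp (c2.sub contDiff_const)).contDiffAt
  set q1 : ℝ × (E × N) →L[ℝ] ℝ := ContinuousLinearMap.fst ℝ ℝ (E × N) with hq1
  set q2 : ℝ × (E × N) →L[ℝ] E := (ContinuousLinearMap.fst ℝ E N).comp
    (ContinuousLinearMap.snd ℝ ℝ (E × N)) with hq2
  set q3 : ℝ × (E × N) →L[ℝ] N := (ContinuousLinearMap.snd ℝ E N).comp
    (ContinuousLinearMap.snd ℝ ℝ (E × N)) with hq3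
  set Ψ' : ℝ × (E × N) →L[ℝ] ℝ × (E × K) :=
    q1.prod (((G'.comp (q1.prod q2)) - q2 + τ.comp q3).prod (π.comp q2)) with hΨ'
  have hΨ'app : ∀ s v w, Ψ' (s, (v, w)) = (s, (G' (s, v) - v + τ w, π v)) := fun s v w => rfl
  have hΨd : HasFDerivAt Ψ Ψ' p0 := by
    have e1 : HasFDerivAt (fun p : ℝ × (E × N) => p.1) q1 p0 := q1.hasFDerivAt
    have e2 : HasFDerivAt (fun p : ℝ × (E × N) => p.2.1) q2 p0 := q2.hasFDerivAt
    have e3 : HasFDerivAt (fun p : ℝ × (E × N) => p.2.2) q3 p0 := q3.hasFDerivAt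
    have e4 : HasFDerivAt (fun p : ℝ × (E × N) => G (p.1, p.2.1))
        (G'.comp (q1.prod q2)) p0 :=
      HasFDerivAt.comp p0 (g := G) (f := fun p : ℝ × (E × N) => (p.1, p.2.1)) hGd
        (e1.prodMk e2)
    have e5 : HasFDerivAt (fun p : ℝ × (E × N) => τ p.2.2) (τ.comp q3) p0 :=
      τ.hasFDerivAt.comp p0 e3
    have e6 : HasFDerivAt (fun p : ℝ × (E × N) => π (p.2.1 - z0)) (π.comp q2) p0 :=
      π.hasFDerivAt.comp p0 (e2.sub_const z0)
    exact e1.prodMk (((e4.sub e2).add e5).prodMk e6)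
  have hinj : Function.Injective (Ψ' : ℝ × (E × N) →ₗ[ℝ] ℝ × (E × K)) := by
    rw [← LinearMap.ker_eq_bot, LinearMap.ker_eq_bot']
    rintro ⟨s, v, w⟩ h
    have h' : (s, (G' (s, v) - v + τ w, π v)) = (0, ((0:E), (0 : K))) := h
    have h1 : s = 0 := congrArg Prod.fst h'
    have h2 : G' (s, v) - v + τ w = 0 := congrArg (fun p => p.2.1) h'
    have h3 : π v = 0 := congrArg (fun p => p.2.2) h'
    rw [h1] at h2
    have h4 : w = 0 := by
      refine hτ w fun k => ?_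
      have hk : DZ G (0, z0) (j k) = j k := (hK _).mpr ⟨k, rfl⟩
      have h5 : ω (G' (0, v) - v + τ w) (j k) = 0 := by rw [h2]; simp
      rw [map_add, map_sub, add_apply, sub_apply] at h5
      have h6 : ω (G' (0, v)) (j k) = ω v (j k) := by
        have := hAω v (j k)
        rw [hk] at this
        exact this
      rw [h6, sub_self, zero_add] at h5
      exact h5
    rw [h4, map_zero, add_zero, sub_eq_zero] at h2
    obtain ⟨k, h5⟩ := (hK v).mp h2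
    have h6 : v = 0 := by
      have := hπ k
      rw [h5, h3] at this
      rw [← h5, ← this, map_zero]
    rw [h1, h4, h6]
    rfl
  have hdim : Module.finrank ℝ (ℝ × (E × N)) = Module.finrank ℝ (ℝ × (E × K)) := by
    simp only [Module.finrank_prod, Module.finrank_self]
    omega
  set Φ : (ℝ × (E × N)) ≃L[ℝ] (ℝ × (E × K)) :=
    ((Ψ' : ℝ × (E × N) →ₗ[ℝ] ℝ × (E × K)).linearEquivOfInjective hinj
      hdim).toContinuousLinearEquiv with hΦ
  have hΦΨ : (Φ : ℝ × (E × N) →L[ℝ] ℝ × (E × K)) = Ψ' := by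
    ext p <;> rfl
  have hΨd2 : HasFDerivAt Ψ (Φ : ℝ × (E × N) →L[ℝ] ℝ × (E × K)) p0 := by
    rw [hΦΨ]; exact hΨd
  have h3ne : (3 : WithTop ℕ∞) ≠ 0 := by norm_num
  set I := hΨc.localInverse hΨd2 h3ne with hI
  have hI1 : ContDiffAt ℝ 3 I (Ψ p0) := hΨc.to_localInverse hΨd2 h3ne
  have hI2 : I (Ψ p0) = p0 := hΨc.localInverse_apply_image hΨd2 h3ne
  have hI3 : ∀ᶠ y in 𝓝 (Ψ p0), Ψ (I y) = y :=
    (hΨc.hasStrictFDerivAt' hΨd2 h3ne).eventually_right_inverse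
  have hI4 : ∀ᶠ x in 𝓝 p0, I (Ψ x) = x :=
    (hΨc.hasStrictFDerivAt' hΨd2 h3ne).eventually_left_inverse
  have hI5 : HasFDerivAt I (Φ.symm : ℝ × (E × K) →L[ℝ] ℝ × (E × N)) (Ψ p0) :=
    ((hΨc.hasStrictFDerivAt' hΨd2 h3ne).to_localInverse).hasFDerivAt
  have hΨp0 : Ψ p0 = 0 := by
    have : Ψ p0 = ((0:ℝ), (G (0, z0) - z0 + τ 0, π (z0 - z0))) := rfl
    rw [this, h0]
    simp
  rw [hΨp0] at hI1 hI2 hI3 hI5
  set ι : K × ℝ →L[ℝ] ℝ × (E × K) := (ContinuousLinearMap.snd ℝ K ℝ).prod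
    ((0 : K × ℝ →L[ℝ] E).prod (ContinuousLinearMap.fst ℝ K ℝ)) with hι
  have hιapp : ∀ q : K × ℝ, ι q = (q.2, ((0:E), q.1)) := fun q => rfl
  have hι0 : ι 0 = 0 := map_zero _
  have hIι : ContDiffAt ℝ 3 (fun q => I (ι q)) 0 := by
    refine ContDiffAt.comp (0 : K × ℝ) (g := I) (f := ι) ?_ ι.contDiff.contDiffAt
    rw [hι0]; exact hI1
  have hIιd : HasFDerivAt (fun q => I (ι q))
      ((Φ.symm : ℝ × (E × K) →L[ℝ] ℝ × (E × N)).comp ι) 0 := by
    refine HasFDerivAt.comp (0 : K × ℝ) (g := I) ?_ ι.hasFDerivAt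
    rw [hι0]; exact hI5
  refine ⟨fun q => (I (ι q)).2.1, fun q => (I (ι q)).2.2, ?_, ?_, ?_, ?_, ?_⟩
  · exact (contDiff_fst.comp contDiff_snd).contDiffAt.comp (0 : K × ℝ) hIι
  · simp only
    rw [hι0, hI2]
  · intro k
    have h1 : HasFDerivAt (fun q => (I (ι q)).2.1)
        (q2.comp ((Φ.symm : ℝ × (E × K) →L[ℝ] ℝ × (E × N)).comp ι)) 0 :=
      q2.hasFDerivAt.comp (0 : K × ℝ) hIιd
    rw [h1.fderiv]
    have h2 : Φ ((0:ℝ), (j k, (0 : N))) = ι (k, 0) := by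
      have h3 : Φ ((0:ℝ), (j k, (0 : N))) =
        ((0:ℝ), (G' (0, j k) - j k + τ 0, π (j k))) := rfl
      have h4 : G' (0, j k) = j k := (hK _).mpr ⟨k, rfl⟩
      rw [h3, h4, sub_self, map_zero, zero_add, hπ, hιapp]
    have h5 : (Φ.symm : ℝ × (E × K) →L[ℝ] ℝ × (E × N)) (ι (k, 0)) =
        ((0:ℝ), (j k, (0 : N))) := by
      rw [← h2]
      simp
    change q2 ((Φ.symm : ℝ × (E × K) →L[ℝ] ℝ × (E × N)) (ι (k, 0))) = j k
    rw [h5]
    rfl
  · have ht : Tendsto (fun q : K × ℝ => ι q) (𝓝 0) (𝓝 0) := by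
      have := ι.continuous.tendsto (0 : K × ℝ)
      rwa [hι0] at this
    filter_upwards [ht.eventually hI3] with q hq
    rw [hιapp] at hq
    have e1 : (I (ι q)).1 = q.2 := congrArg Prod.fst hq
    have e2 : G ((I (ι q)).1, (I (ι q)).2.1) - (I (ι q)).2.1 + τ (I (ι q)).2.2 = 0 :=
      congrArg (fun p => p.2.1) hq
    rw [e1] at e2
    exact e2
  · have ht : Tendsto (fun z : E => (((0:ℝ), (z, 0)) : ℝ × (E × N))) (𝓝 z0) (𝓝 p0) := by
      have : Continuous (fun z : E => (((0:ℝ), (z, 0)) : ℝ × (E × N))) := by fun_prop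
      exact this.tendsto z0
    filter_upwards [ht.eventually hI4] with z hz hzG
    have e1 : Ψ ((0:ℝ), (z, 0)) = ι (π (z - z0), 0) := by
      have : Ψ ((0:ℝ), (z, 0)) = ((0:ℝ), (G (0, z) - z + τ 0, π (z - z0))) := rfl
      rw [this, hzG, sub_self, map_zero, zero_add, hιapp]
    rw [e1] at hz
    rw [hz]

end LS

end Pool.Agent.D0H95.BF
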