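import Pool.Agent.D0H95.BF.Stm2

/-! Linear algebra of the equilateral triangle (copy of the module of helper25, without notation). -/

set_option autoImplicit false
set_option linter.unusedVariables false

open Filter Topology Set

namespace Pool.Agent.D0H95.BFT

open Pool.Agent.W821.TB Pool.Agent.D0H95.BF


theorem mul_conj_eq (z : ℂ) : z * (starRingEnd ℂ) z = ((‖z‖ : ℝ) : ℂ) ^ 2 := by
  rw [Complex.mul_conj, Complex.normSq_eq_norm_sq]
  push_cast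
  rfl

/-- derivative of the norm along a line -/
theorem norm_deriv {d δ : ℂ} (hd : d ≠ 0) :
    HasDerivAt (fun s : ℝ => ‖d + s * δ‖) ((d.re * δ.re + d.im * δ.im) / ‖d‖) 0 := by
  have h1 : (fun s : ℝ => ‖d + s * δ‖) =
      fun s : ℝ => Real.sqrt ((d.re + s * δ.re) ^ 2 + (d.im + s * δ.im) ^ 2) := by
    funext s
    rw [Complex.norm_eq_sqrt_sq_add_sq]
    simp
  have h2 : HasDerivAt (fun s : ℝ => (d.re + s * δ.re) ^ 2 + (d.im + s * δ.im) ^ 2)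
      (2 * (d.re * δ.re + d.im * δ.im)) 0 := by
    have a1 : HasDerivAt (fun s : ℝ => d.re + s * δ.re) δ.re 0 := by
      simpa using ((hasDerivAt_id (0 : ℝ)).mul_const δ.re).const_add d.re
    have a2 : HasDerivAt (fun s : ℝ => d.im + s * δ.im) δ.im 0 := by
      simpa using ((hasDerivAt_id (0 : ℝ)).mul_const δ.im).const_add d.im
    have := (a1.fun_pow 2).add (a2.fun_pow 2)
    convert! this using 1
    simp
    ring
  have h3 : (d.re + (0 : ℝ) * δ.re) ^ 2 + (d.im + (0 : ℝ) * δ.im) ^ 2 = ‖d‖ ^ 2 := by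
    rw [zero_mul, zero_mul, add_zero, add_zero, Complex.sq_norm, Complex.normSq_apply]
    ring
  have h4 : 0 < ‖d‖ := norm_pos_iff.2 hd
  have h5 := h2.sqrt (by rw [h3]; positivity)
  rw [h3, Real.sqrt_sq h4.le] at h5
  rw [h1]
  convert! h5 using 1
  field_simp

/-- derivative of the Newton kernel along a line -/
theorem kern_deriv (m : ℝ) {d δ : ℂ} (hd : d ≠ 0) :
    HasDerivAt (fun s : ℝ => ((m / ‖d + s * δ‖ ^ 3 : ℝ) : ℂ) * (d + s * δ))
      (m * (-(1 / 2) * δ / (‖d‖ : ℂ) ^ 3 - 3 / 2 * d ^ 2 * (starRingEnd ℂ) δ / (‖d‖ : ℂ) ^ 5)) 0 := by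
  have h4 : 0 < ‖d‖ := norm_pos_iff.2 hd
  have e0 : ‖d + ((0 : ℝ) : ℂ) * δ‖ = ‖d‖ := by simp
  have h1 := norm_deriv (δ := δ) hd
  have h2 : HasDerivAt (fun s : ℝ => m / ‖d + s * δ‖ ^ 3)
      (-3 * m * (d.re * δ.re + d.im * δ.im) / ‖d‖ ^ 5) 0 := by
    have := ((h1.fun_pow 3).fun_inv (by rw [e0]; positivity)).const_mul m
    convert! this using 1
    rw [e0]
    field_simp
    push_cast
    ring
  have h3 := h2.ofReal_comp
  have h5 : HasDerivAt (fun s : ℝ => d + s * δ) δ 0 := by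
    have a1 : HasDerivAt (fun s : ℝ => (s : ℂ)) 1 0 := Complex.ofRealCLM.hasDerivAt
    simpa using (a1.mul_const δ).const_add d
  have h6 := h3.mul h5
  convert! h6 using 1
  rw [e0]
  have hr : ((‖d‖ : ℝ) : ℂ) ≠ 0 := by exact_mod_cast h4.ne'
  have hr2 := mul_conj_eq d
  have hre : ((d.re * δ.re + d.im * δ.im : ℝ) : ℂ) = ((starRingEnd ℂ) d * δ + d * (starRingEnd ℂ) δ) / 2 := by
    apply Complex.ext <;> simp <;> ring
  have hc : ((-3 * m * (d.re * δ.re + d.im * δ.im) / ‖d‖ ^ 5 : ℝ) : ℂ) =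
      -3 * m * (((starRingEnd ℂ) d * δ + d * (starRingEnd ℂ) δ) / 2) / (‖d‖ : ℂ) ^ 5 := by
    rw [← hre]
    push_cast
    rfl
  rw [hc]
  push_cast
  rw [zero_mul, add_zero]
  field_simp
  linear_combination (3 * m * δ) * hr2

/-- the derivative of the Newton field -/
theorem fderiv_vf {n : ℕ} (m : Fin n → ℝ) {q w : Fin n → ℂ} (hq : ∀ i j, i ≠ j → q i ≠ q j)
    (ξ ξ' : Fin n → ℂ) :
    fderiv ℝ (vf m) (q, w) (ξ, ξ') = (ξ', fun i => ∑ j ∈ Finset.univ.erase i,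
      (m j : ℂ) * (-(1 / 2) * (ξ j - ξ i) / (‖q j - q i‖ : ℂ) ^ 3 -
        3 / 2 * (q j - q i) ^ 2 * (starRingEnd ℂ) (ξ j - ξ i) / (‖q j - q i‖ : ℂ) ^ 5)) := by
  have hd : DifferentiableAt ℝ (vf m) (q, w) :=
    (contDiffAt_vf (m := m) (z := (q, w)) hq).differentiableAt (by norm_num)
  have hline : HasDerivAt (fun s : ℝ => (q, w) + s • (ξ, ξ')) (ξ, ξ') 0 := by
    have := ((hasDerivAt_id (0 : ℝ)).smul_const (ξ, ξ')).const_add (q, w)
    convert! this using 1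
    rw [one_smul]
  have h1 : HasDerivAt (fun s : ℝ => vf m ((q, w) + s • (ξ, ξ')))
      (fderiv ℝ (vf m) (q, w) (ξ, ξ')) 0 := by
    have h2 : HasFDerivAt (vf m) (fderiv ℝ (vf m) (q, w)) ((q, w) + (0 : ℝ) • (ξ, ξ')) := by
      rw [zero_smul, add_zero]
      exact hd.hasFDerivAt
    exact h2.comp_hasDerivAt (0 : ℝ) hline
  refine h1.unique ?_
  have h3 : HasDerivAt (fun s : ℝ => w + s • ξ') ξ' 0 := by
    have := ((hasDerivAt_id (0 : ℝ)).smul_const ξ').const_add w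
    convert! this using 1
    rw [one_smul]
  have h4 : HasDerivAt (fun s : ℝ => acc m (q + s • ξ)) (fun i => ∑ j ∈ Finset.univ.erase i,
      (m j : ℂ) * (-(1 / 2) * (ξ j - ξ i) / (‖q j - q i‖ : ℂ) ^ 3 -
        3 / 2 * (q j - q i) ^ 2 * (starRingEnd ℂ) (ξ j - ξ i) / (‖q j - q i‖ : ℂ) ^ 5)) 0 := by
    rw [hasDerivAt_pi]
    intro i
    unfold acc
    refine HasDerivAt.fun_sum fun j hj => ?_
    have hne : q j - q i ≠ 0 := sub_ne_zero.2 (hq j i (Finset.ne_of_mem_erase hj))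
    have := kern_deriv (m j) (δ := ξ j - ξ i) hne
    have e1 : (fun s : ℝ => ((m j / ‖(q + s • ξ) j - (q + s • ξ) i‖ ^ 3 : ℝ) : ℂ) *
        ((q + s • ξ) j - (q + s • ξ) i)) =
        fun s : ℝ => ((m j / ‖(q j - q i) + s * (ξ j - ξ i)‖ ^ 3 : ℝ) : ℂ) *
          ((q j - q i) + s * (ξ j - ξ i)) := by
      funext s
      have e2 : (q + s • ξ) j - (q + s • ξ) i = (q j - q i) + s * (ξ j - ξ i) := by
        simp only [Pi.add_apply, Pi.smul_apply, Complex.real_smul]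
        ring
      rw [e2]
    rw [e1]
    exact this
  exact h3.prodMk h4

/-- the derivative of the Newton field at the equilateral triangle -/
theorem fderiv_tri (m : Fin 3 → ℝ) {a : Fin 3 → ℂ} (ha : ∀ i j, i ≠ j → ‖a i - a j‖ = 1)
    {ρ : ℂ} (hρ : ρ ≠ 0) (w ξ ξ' : Fin 3 → ℂ) (hξ : ∑ i, (m i : ℂ) * ξ i = 0) :
    fderiv ℝ (vf m) ((fun j => ρ * a j), w) (ξ, ξ') = (ξ', fun i =>
      (((m 0 + m 1 + m 2) / 2) * ξ i - 3 / 2 * (ρ ^ 2 / (‖ρ‖ : ℂ) ^ 2) *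
        ∑ j, (m j : ℂ) * ((a j - a i) ^ 2 * (starRingEnd ℂ) (ξ j - ξ i))) / (‖ρ‖ : ℂ) ^ 3) := by
  have hne : ∀ i j, i ≠ j → ρ * a i ≠ ρ * a j := by
    intro i j hij h
    have h1 := mul_left_cancel₀ hρ h
    have := ha i j hij
    rw [h1, sub_self, norm_zero] at this
    exact zero_ne_one this
  rw [fderiv_vf m hne]
  refine Prod.ext rfl ?_
  funext i
  have hr : ((‖ρ‖ : ℝ) : ℂ) ≠ 0 := by exact_mod_cast (norm_pos_iff.2 hρ).ne'
  have h1 : ∑ j ∈ Finset.univ.erase i,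
      (m j : ℂ) * (-(1 / 2) * (ξ j - ξ i) / (‖ρ * a j - ρ * a i‖ : ℂ) ^ 3 -
        3 / 2 * (ρ * a j - ρ * a i) ^ 2 * (starRingEnd ℂ) (ξ j - ξ i) / (‖ρ * a j - ρ * a i‖ : ℂ) ^ 5) =
      ∑ j ∈ Finset.univ.erase i,
      (m j : ℂ) * (-(1 / 2) * (ξ j - ξ i) / (‖ρ‖ : ℂ) ^ 3 -
        3 / 2 * (ρ ^ 2 * (a j - a i) ^ 2) * (starRingEnd ℂ) (ξ j - ξ i) / (‖ρ‖ : ℂ) ^ 5) := by
    refine Finset.sum_congr rfl (fun j hj => ?_)
    have e1 : ρ * a j - ρ * a i = ρ * (a j - a i) := by ring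
    have e2 : ‖ρ * (a j - a i)‖ = ‖ρ‖ := by
      rw [norm_mul, ha j i (Finset.ne_of_mem_erase hj), mul_one]
    rw [e1, e2, mul_pow]
  show ∑ j ∈ Finset.univ.erase i,
      (m j : ℂ) * (-(1 / 2) * (ξ j - ξ i) / (‖ρ * a j - ρ * a i‖ : ℂ) ^ 3 -
        3 / 2 * (ρ * a j - ρ * a i) ^ 2 * (starRingEnd ℂ) (ξ j - ξ i) / (‖ρ * a j - ρ * a i‖ : ℂ) ^ 5) = _
  rw [h1, Finset.sum_erase _ (by simp)]
  have h2 : ∑ j, (m j : ℂ) * (-(1 / 2) * (ξ j - ξ i) / (‖ρ‖ : ℂ) ^ 3 -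
        3 / 2 * (ρ ^ 2 * (a j - a i) ^ 2) * (starRingEnd ℂ) (ξ j - ξ i) / (‖ρ‖ : ℂ) ^ 5) =
      (-(1 / 2) * (∑ j, (m j : ℂ) * ξ j) + (∑ j, (m j : ℂ)) / 2 * ξ i -
        3 / 2 * (ρ ^ 2 / (‖ρ‖ : ℂ) ^ 2) *
          ∑ j, (m j : ℂ) * ((a j - a i) ^ 2 * (starRingEnd ℂ) (ξ j - ξ i))) / (‖ρ‖ : ℂ) ^ 3 := by
    simp only [Fin.sum_univ_three]
    field_simp
    ring
  rw [h2, hξ, Fin.sum_univ_three]
  ring

theorem acc_tri (m : Fin 3 → ℝ) {a : Fin 3 → ℂ} (ha : ∀ i j, i ≠ j → ‖a i - a j‖ = 1)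
    (hm : ∑ i, (m i : ℂ) * a i = 0) {ρ : ℂ} (hρ : ρ ≠ 0) (i : Fin 3) :
    acc m (fun j => ρ * a j) i = (((- ((m 0 + m 1 + m 2) / ‖ρ‖ ^ 3) : ℝ)) : ℂ) * (ρ * a i) := by
  have hr : ((‖ρ‖ : ℝ) : ℂ) ≠ 0 := by exact_mod_cast (norm_pos_iff.2 hρ).ne'
  unfold acc
  have h1 : ∑ j ∈ Finset.univ.erase i, ((m j / ‖ρ * a j - ρ * a i‖ ^ 3 : ℝ) : ℂ) *
      (ρ * a j - ρ * a i) = ∑ j ∈ Finset.univ.erase i, ((m j / ‖ρ‖ ^ 3 : ℝ) : ℂ) *
      (ρ * (a j - a i)) := by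
    refine Finset.sum_congr rfl (fun j hj => ?_)
    have e1 : ρ * a j - ρ * a i = ρ * (a j - a i) := by ring
    have e2 : ‖ρ * (a j - a i)‖ = ‖ρ‖ := by
      rw [norm_mul, ha j i (Finset.ne_of_mem_erase hj), mul_one]
    rw [e1, e2]
  rw [h1, Finset.sum_erase _ (by simp)]
  have h2 : ∑ j, ((m j / ‖ρ‖ ^ 3 : ℝ) : ℂ) * (ρ * (a j - a i)) =
      ρ / (‖ρ‖ : ℂ) ^ 3 * (∑ j, (m j : ℂ) * a j) - (∑ j, (m j : ℂ)) / (‖ρ‖ : ℂ) ^ 3 * (ρ * a i) := by
    simp only [Fin.sum_univ_three]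
    push_cast
    ring
  rw [h2, hm, Fin.sum_univ_three]
  push_cast
  ring

/-- the algebra of the three unit vectors -/
theorem units3 {e0 e1 e2 f0 f1 f2 : ℂ} (hs : e0 + e1 + e2 = 0) (ht : f0 + f1 + f2 = 0)
    (h0 : e0 * f0 = 1) (h1 : e1 * f1 = 1) (h2 : e2 * f2 = 1) :
    e0 ^ 2 = e1 * e2 ∧ e1 ^ 2 = e0 * e2 ∧ e2 ^ 2 = e0 * e1 := by
  have hp : e1 * e2 + e0 * e2 + e0 * e1 = 0 := by
    linear_combination (e0 * e1 * e2) * ht - e1 * e2 * h0 - e0 * e2 * h1 - e0 * e1 * h2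
  refine ⟨?_, ?_, ?_⟩
  · linear_combination e0 * hs - hp
  · linear_combination e1 * hs - hp
  · linear_combination e2 * hs - hp

theorem exists_theta (k : ℂ) : ∃ θ : ℂ, θ * (starRingEnd ℂ) θ = 1 ∧ (‖k‖ : ℂ) * θ ^ 2 = k := by
  refine ⟨Complex.exp ((k.arg / 2 : ℝ) * Complex.I), ?_, ?_⟩
  · rw [mul_conj_eq, Complex.norm_exp_ofReal_mul_I]
    simp
  · rw [← Complex.exp_nat_mul]
    have : ((2 : ℕ) : ℂ) * ((k.arg / 2 : ℝ) * Complex.I) = k.arg * Complex.I := by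
      push_cast
      ring
    rw [this]
    exact Complex.norm_mul_exp_arg_mul_I k

theorem t_TRI : S_TRI := by
  intro m hm a ha hma
  have hm0 : (m 0 : ℂ) ≠ 0 := by exact_mod_cast (hm 0).ne'
  have hm1 : (m 1 : ℂ) ≠ 0 := by exact_mod_cast (hm 1).ne'
  have hm2 : (m 2 : ℂ) ≠ 0 := by exact_mod_cast (hm 2).ne'
  have hM : 0 < m 0 + m 1 + m 2 := by linarith [hm 0, hm 1, hm 2]
  have hMC : ((m 0 : ℂ) + m 1 + m 2) ≠ 0 := by exact_mod_cast hM.ne'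
  -- the edges
  obtain ⟨e0, he0⟩ : ∃ e, e = a 2 - a 1 := ⟨_, rfl⟩
  obtain ⟨e1, he1⟩ : ∃ e, e = a 0 - a 2 := ⟨_, rfl⟩
  obtain ⟨e2, he2⟩ : ∃ e, e = a 1 - a 0 := ⟨_, rfl⟩
  obtain ⟨f0, hf0⟩ : ∃ f, f = (starRingEnd ℂ) e0 := ⟨_, rfl⟩
  obtain ⟨f1, hf1⟩ : ∃ f, f = (starRingEnd ℂ) e1 := ⟨_, rfl⟩
  obtain ⟨f2, hf2⟩ : ∃ f, f = (starRingEnd ℂ) e2 := ⟨_, rfl⟩
  have hs : e0 + e1 + e2 = 0 := by rw [he0, he1, he2]; ring
  have ht : f0 + f1 + f2 = 0 := by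
    rw [hf0, hf1, hf2, ← map_add, ← map_add, hs, map_zero]
  have h0 : e0 * f0 = 1 := by
    rw [hf0, mul_conj_eq, he0, ha 2 1 (by decide)]
    simp
  have h1 : e1 * f1 = 1 := by
    rw [hf1, mul_conj_eq, he1, ha 0 2 (by decide)]
    simp
  have h2 : e2 * f2 = 1 := by
    rw [hf2, mul_conj_eq, he2, ha 1 0 (by decide)]
    simp
  obtain ⟨q0, q1, q2⟩ := units3 hs ht h0 h1 h2
  have hf00 : f0 ≠ 0 := fun h => by rw [h, mul_zero] at h0; exact zero_ne_one h0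
  have hf10 : f1 ≠ 0 := fun h => by rw [h, mul_zero] at h1; exact zero_ne_one h1
  have hf20 : f2 ≠ 0 := fun h => by rw [h, mul_zero] at h2; exact zero_ne_one h2
  have hcf0 : (starRingEnd ℂ) f0 = e0 := by rw [hf0, Complex.conj_conj]
  have hcf1 : (starRingEnd ℂ) f1 = e1 := by rw [hf1, Complex.conj_conj]
  have hcf2 : (starRingEnd ℂ) f2 = e2 := by rw [hf2, Complex.conj_conj]
  -- the constant
  obtain ⟨k, hk⟩ : ∃ k, k = e0 * e1 * e2 * (m 0 * e0 + m 1 * e1 + m 2 * e2) := ⟨_, rfl⟩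
  obtain ⟨θ, hθ1, hθ2⟩ := exists_theta k
  have hθ0 : θ ≠ 0 := fun h => by rw [h, zero_mul] at hθ1; exact zero_ne_one hθ1
  have hk2 : ((‖k‖ : ℝ) : ℂ) ^ 2 = (m 0 + m 1 + m 2) ^ 2 - 3 * (m 0 * m 1 + m 1 * m 2 + m 2 * m 0) := by
    rw [← mul_conj_eq, hk]
    simp only [map_mul, map_add, Complex.conj_ofReal, ← hf0, ← hf1, ← hf2]
    have c01 : e0 * f1 + e1 * f0 = -1 := by
      linear_combination (f0 + f1) * hs - e2 * ht + h2 - h0 - h1
    have c12 : e1 * f2 + e2 * f1 = -1 := by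
      linear_combination (f1 + f2) * hs - e0 * ht + h0 - h1 - h2
    have c02 : e0 * f2 + e2 * f0 = -1 := by
      linear_combination (f0 + f2) * hs - e1 * ht + h1 - h0 - h2
    have c3 : e0 * e1 * e2 * (f0 * f1 * f2) = 1 := by
      calc e0 * e1 * e2 * (f0 * f1 * f2) = (e0 * f0) * (e1 * f1) * (e2 * f2) := by ring
        _ = 1 := by rw [h0, h1, h2]; ring
    have c4 : ((m 0 : ℂ) * e0 + m 1 * e1 + m 2 * e2) * (m 0 * f0 + m 1 * f1 + m 2 * f2) =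
        (m 0 + m 1 + m 2) ^ 2 - 3 * (m 0 * m 1 + m 1 * m 2 + m 2 * m 0) := by
      linear_combination (m 0 : ℂ) ^ 2 * h0 + (m 1 : ℂ) ^ 2 * h1 + (m 2 : ℂ) ^ 2 * h2 +
        m 0 * m 1 * c01 + m 1 * m 2 * c12 + m 0 * m 2 * c02
    calc _ = (e0 * e1 * e2 * (f0 * f1 * f2)) *
          (((m 0 : ℂ) * e0 + m 1 * e1 + m 2 * e2) * (m 0 * f0 + m 1 * f1 + m 2 * f2)) := by ring
      _ = _ := by rw [c3, c4, one_mul]
  let b : Fin 3 → ℂ := ![θ * f0 / m 0, θ * f1 / m 1, θ * f2 / m 2]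
  have hb0 : b 0 = θ * f0 / m 0 := rfl
  have hb1 : b 1 = θ * f1 / m 1 := rfl
  have hb2 : b 2 = θ * f2 / m 2 := rfl
  obtain ⟨κ, hκ⟩ : ∃ κ : ℝ, κ = 3 / 2 * ‖k‖ / (m 0 + m 1 + m 2) := ⟨_, rfl⟩
  have hmb : ∑ i, (m i : ℂ) * b i = 0 := by
    rw [Fin.sum_univ_three, hb0, hb1, hb2]
    field_simp
    linear_combination θ * ht
  have hab : ∑ i, (m i : ℂ) * ((starRingEnd ℂ) (a i) * b i) = 0 := by
    rw [Fin.sum_univ_three, hb0, hb1, hb2]
    have g0 : f0 = (starRingEnd ℂ) (a 2) - (starRingEnd ℂ) (a 1) := by rw [hf0, he0, map_sub]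
    have g1 : f1 = (starRingEnd ℂ) (a 0) - (starRingEnd ℂ) (a 2) := by rw [hf1, he1, map_sub]
    have g2 : f2 = (starRingEnd ℂ) (a 1) - (starRingEnd ℂ) (a 0) := by rw [hf2, he2, map_sub]
    rw [g0, g1, g2]
    field_simp
    ring
  have hba : ∑ i, (m i : ℂ) * ((starRingEnd ℂ) (b i) * a i) = 0 := by
    have := congrArg (starRingEnd ℂ) hab
    rw [map_sum, map_zero] at this
    rw [← this]
    refine Finset.sum_congr rfl (fun i _ => ?_)
    rw [map_mul, map_mul, Complex.conj_ofReal, Complex.conj_conj]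
    ring
  have hcb0 : (starRingEnd ℂ) (b 0) = (starRingEnd ℂ) θ * e0 / m 0 := by
    rw [hb0, map_div₀, map_mul, hcf0, Complex.conj_ofReal]
  have hcb1 : (starRingEnd ℂ) (b 1) = (starRingEnd ℂ) θ * e1 / m 1 := by
    rw [hb1, map_div₀, map_mul, hcf1, Complex.conj_ofReal]
  have hcb2 : (starRingEnd ℂ) (b 2) = (starRingEnd ℂ) θ * e2 / m 2 := by
    rw [hb2, map_div₀, map_mul, hcf2, Complex.conj_ofReal]
  have hNa : (∑ j, (m j : ℂ) * ((starRingEnd ℂ) (a j) * a j)) * (m 0 + m 1 + m 2) =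
      m 0 * m 1 + m 1 * m 2 + m 2 * m 0 := by
    have hma' : ∑ i, (m i : ℂ) * (starRingEnd ℂ) (a i) = 0 := by
      have := congrArg (starRingEnd ℂ) hma
      rw [map_sum, map_zero] at this
      rw [← this]
      refine Finset.sum_congr rfl (fun i _ => ?_)
      rw [map_mul, Complex.conj_ofReal]
    have g0 : (a 2 - a 1) * ((starRingEnd ℂ) (a 2) - (starRingEnd ℂ) (a 1)) = 1 := by
      rw [← map_sub, ← he0, ← hf0]; exact h0
    have g1 : (a 0 - a 2) * ((starRingEnd ℂ) (a 0) - (starRingEnd ℂ) (a 2)) = 1 := by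
      rw [← map_sub, ← he1, ← hf1]; exact h1
    have g2 : (a 1 - a 0) * ((starRingEnd ℂ) (a 1) - (starRingEnd ℂ) (a 0)) = 1 := by
      rw [← map_sub, ← he2, ← hf2]; exact h2
    rw [Fin.sum_univ_three] at hma hma' ⊢
    linear_combination (m 0 * m 1 : ℂ) * g2 + (m 1 * m 2 : ℂ) * g0 + (m 2 * m 0 : ℂ) * g1 +
      (m 0 * (starRingEnd ℂ) (a 0) + m 1 * (starRingEnd ℂ) (a 1) + m 2 * (starRingEnd ℂ) (a 2)) * hma
  have hσ : (0 : ℝ) < m 0 * m 1 + m 1 * m 2 + m 2 * m 0 := by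
    have := mul_pos (hm 0) (hm 1)
    have := mul_pos (hm 1) (hm 2)
    have := mul_pos (hm 2) (hm 0)
    linarith
  have hNa0 : (∑ j, (m j : ℂ) * ((starRingEnd ℂ) (a j) * a j)) ≠ 0 := by
    intro h
    rw [h, zero_mul] at hNa
    have : ((m 0 * m 1 + m 1 * m 2 + m 2 * m 0 : ℝ) : ℂ) = 0 := by push_cast; exact hNa.symm
    rw [Complex.ofReal_eq_zero] at this
    linarith
  have hNb : (∑ j, (m j : ℂ) * ((starRingEnd ℂ) (b j) * b j)) = 1 / m 0 + 1 / m 1 + 1 / m 2 := by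
    rw [Fin.sum_univ_three, hcb0, hcb1, hcb2, hb0, hb1, hb2]
    field_simp
    have z0 : (starRingEnd ℂ) θ * e0 * (θ * f0) = 1 := by
      calc _ = (θ * (starRingEnd ℂ) θ) * (e0 * f0) := by ring
        _ = 1 := by rw [hθ1, h0, one_mul]
    have z1 : (starRingEnd ℂ) θ * e1 * (θ * f1) = 1 := by
      calc _ = (θ * (starRingEnd ℂ) θ) * (e1 * f1) := by ring
        _ = 1 := by rw [hθ1, h1, one_mul]
    have z2 : (starRingEnd ℂ) θ * e2 * (θ * f2) = 1 := by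
      calc _ = (θ * (starRingEnd ℂ) θ) * (e2 * f2) := by ring
        _ = 1 := by rw [hθ1, h2, one_mul]
    linear_combination (m 1 * m 2 : ℂ) * z0 + (m 0 * m 2 : ℂ) * z1 + (m 0 * m 1 : ℂ) * z2
  have hinv : (0 : ℝ) < 1 / m 0 + 1 / m 1 + 1 / m 2 := by
    have := hm 0
    have := hm 1
    have := hm 2
    positivity
  have hNb0 : (∑ j, (m j : ℂ) * ((starRingEnd ℂ) (b j) * b j)) ≠ 0 := by
    rw [hNb]
    have : ((1 / m 0 + 1 / m 1 + 1 / m 2 : ℝ) : ℂ) ≠ 0 := by exact_mod_cast hinv.ne'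
    push_cast at this
    exact this
  -- the main identity for `b`
  have hid : ∀ (z : ℂ) (i : Fin 3), ∑ j, (m j : ℂ) * ((a j - a i) ^ 2 * (starRingEnd ℂ) (z * b j - z * b i)) =
      - ((‖k‖ : ℂ) * (starRingEnd ℂ) z * b i) := by
    intro z i
    have hθ3 : (starRingEnd ℂ) θ * k = (‖k‖ : ℂ) * θ := by
      linear_combination ((‖k‖ : ℂ) * θ) * hθ1 - (starRingEnd ℂ) θ * hθ2
    have g0 : a 2 - a 1 = e0 := he0.symm
    have g0' : a 1 - a 2 = - e0 := by rw [he0]; ring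
    have g1 : a 0 - a 2 = e1 := he1.symm
    have g1' : a 2 - a 0 = - e1 := by rw [he1]; ring
    have g2 : a 1 - a 0 = e2 := he2.symm
    have g2' : a 0 - a 1 = - e2 := by rw [he2]; ring
    fin_cases i
    · show ∑ j, (m j : ℂ) * ((a j - a 0) ^ 2 * (starRingEnd ℂ) (z * b j - z * b 0)) = - ((‖k‖ : ℂ) * (starRingEnd ℂ) z * b 0)
      have e : (‖k‖ : ℂ) * (starRingEnd ℂ) z * b 0 = (starRingEnd ℂ) z * ((starRingEnd ℂ) θ * k) * f0 / m 0 := by
        rw [hθ3, hb0]; ring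
      rw [e, hk, Fin.sum_univ_three]
      simp only [map_sub, map_mul, hcb0, hcb1, hcb2, sub_self, g2, g1']
      field_simp
      linear_combination ((starRingEnd ℂ) z * (starRingEnd ℂ) θ * m 0 * e1 * e2) * hs + ((starRingEnd ℂ) z * (starRingEnd ℂ) θ * m 1 * e2) * q1
        + ((starRingEnd ℂ) z * (starRingEnd ℂ) θ * m 2 * e1) * q2 +
        ((starRingEnd ℂ) z * (starRingEnd ℂ) θ * e1 * e2 * (m 0 * e0 + m 1 * e1 + m 2 * e2)) * h0
    · show ∑ j, (m j : ℂ) * ((a j - a 1) ^ 2 * (starRingEnd ℂ) (z * b j - z * b 1)) = - ((‖k‖ : ℂ) * (starRingEnd ℂ) z * b 1)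
      have e : (‖k‖ : ℂ) * (starRingEnd ℂ) z * b 1 = (starRingEnd ℂ) z * ((starRingEnd ℂ) θ * k) * f1 / m 1 := by
        rw [hθ3, hb1]; ring
      rw [e, hk, Fin.sum_univ_three]
      simp only [map_sub, map_mul, hcb0, hcb1, hcb2, sub_self, g0, g2']
      field_simp
      linear_combination ((starRingEnd ℂ) z * (starRingEnd ℂ) θ * m 1 * e0 * e2) * hs + ((starRingEnd ℂ) z * (starRingEnd ℂ) θ * m 0 * e2) * q0
        + ((starRingEnd ℂ) z * (starRingEnd ℂ) θ * m 2 * e0) * q2 +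
        ((starRingEnd ℂ) z * (starRingEnd ℂ) θ * e0 * e2 * (m 0 * e0 + m 1 * e1 + m 2 * e2)) * h1
    · show ∑ j, (m j : ℂ) * ((a j - a 2) ^ 2 * (starRingEnd ℂ) (z * b j - z * b 2)) = - ((‖k‖ : ℂ) * (starRingEnd ℂ) z * b 2)
      have e : (‖k‖ : ℂ) * (starRingEnd ℂ) z * b 2 = (starRingEnd ℂ) z * ((starRingEnd ℂ) θ * k) * f2 / m 2 := by
        rw [hθ3, hb2]; ring
      rw [e, hk, Fin.sum_univ_three]
      simp only [map_sub, map_mul, hcb0, hcb1, hcb2, sub_self, g0', g1]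
      field_simp
      linear_combination ((starRingEnd ℂ) z * (starRingEnd ℂ) θ * m 2 * e0 * e1) * hs + ((starRingEnd ℂ) z * (starRingEnd ℂ) θ * m 0 * e1) * q0
        + ((starRingEnd ℂ) z * (starRingEnd ℂ) θ * m 1 * e0) * q1 +
        ((starRingEnd ℂ) z * (starRingEnd ℂ) θ * e0 * e1 * (m 0 * e0 + m 1 * e1 + m 2 * e2)) * h2
  -- the main identity for `a`
  have hia : ∀ (z : ℂ) (i : Fin 3), ∑ j, (m j : ℂ) * ((a j - a i) ^ 2 * (starRingEnd ℂ) (z * a j - z * a i)) =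
      - ((m 0 + m 1 + m 2) * (starRingEnd ℂ) z * a i) := by
    intro z i
    have h3 : ∀ j, (m j : ℂ) * ((a j - a i) ^ 2 * (starRingEnd ℂ) (z * a j - z * a i)) =
        (m j : ℂ) * ((starRingEnd ℂ) z * (a j - a i)) := by
      intro j
      by_cases hij : j = i
      · rw [hij]; simp
      · have h4 : (a j - a i) * (starRingEnd ℂ) (a j - a i) = 1 := by
          rw [mul_conj_eq, ha j i hij]; simp
        have h5 : (starRingEnd ℂ) (z * a j - z * a i) = (starRingEnd ℂ) z * (starRingEnd ℂ) (a j - a i) := by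
          rw [← mul_sub, map_mul]
        rw [h5]
        linear_combination ((m j : ℂ) * (starRingEnd ℂ) z * (a j - a i)) * h4
    rw [Finset.sum_congr rfl (fun j _ => h3 j), Fin.sum_univ_three]
    rw [Fin.sum_univ_three] at hma
    linear_combination ((starRingEnd ℂ) z) * hma
  refine ⟨b, κ, ?_, hmb, hab, ?_, ?_, ?_, ?_, ?_, ?_⟩
  · intro i
    fin_cases i
    · exact div_ne_zero (mul_ne_zero hθ0 hf00) hm0
    · exact div_ne_zero (mul_ne_zero hθ0 hf10) hm1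
    · exact div_ne_zero (mul_ne_zero hθ0 hf20) hm2
  · rw [hκ]
    positivity
  · have hk2' : ‖k‖ ^ 2 = (m 0 + m 1 + m 2) ^ 2 - 3 * (m 0 * m 1 + m 1 * m 2 + m 2 * m 0) := by
      exact_mod_cast hk2
    rw [hκ, div_pow, mul_pow, hk2']
    field_simp
    ring
  · -- decomposition
    intro ξ hξ
    have key : ∀ η : Fin 3 → ℂ, ∑ i, (m i : ℂ) * η i = 0 →
        ∑ i, (m i : ℂ) * ((starRingEnd ℂ) (a i) * η i) = 0 → ∑ i, (m i : ℂ) * ((starRingEnd ℂ) (b i) * η i) = 0 →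
        ∀ i, η i = 0 := by
      intro η c1 c2 c3
      rw [Fin.sum_univ_three] at c1 c2 c3
      rw [hcb0, hcb1, hcb2] at c3
      have g0 : f0 = (starRingEnd ℂ) (a 2) - (starRingEnd ℂ) (a 1) := by rw [hf0, he0, map_sub]
      have g1 : f1 = (starRingEnd ℂ) (a 0) - (starRingEnd ℂ) (a 2) := by rw [hf1, he1, map_sub]
      have d1 : f1 * (m 0 * η 0) = f0 * (m 1 * η 1) := by
        rw [g0, g1]
        linear_combination c2 - (starRingEnd ℂ) (a 2) * c1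
      have hθc : (starRingEnd ℂ) θ ≠ 0 := fun h => by rw [h, mul_zero] at hθ1; exact zero_ne_one hθ1
      have d3 : e0 * η 0 + e1 * η 1 + e2 * η 2 = 0 := by
        have : (starRingEnd ℂ) θ * (e0 * η 0 + e1 * η 1 + e2 * η 2) = 0 := by
          field_simp at c3
          linear_combination c3
        rcases mul_eq_zero.1 this with h | h
        · exact absurd h hθc
        · exact h
      obtain ⟨c, hc⟩ : ∃ c, c = e0 * (m 0 * η 0) := ⟨_, rfl⟩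
      have y0 : m 0 * η 0 = c * f0 := by
        rw [hc]
        linear_combination (-(m 0 * η 0)) * h0
      have y1 : m 1 * η 1 = c * f1 := by
        rw [hc]
        linear_combination (-(m 1 * η 1)) * h0 - e0 * d1
      have y2 : m 2 * η 2 = c * f2 := by
        linear_combination c1 - y0 - y1 - c * ht
      have w0 : η 0 = c * f0 / m 0 := by rw [← y0]; field_simp
      have w1 : η 1 = c * f1 / m 1 := by rw [← y1]; field_simp
      have w2 : η 2 = c * f2 / m 2 := by rw [← y2]; field_simp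
      have hc0 : c = 0 := by
        rw [w0, w1, w2] at d3
        have : c * ((1 / m 0 + 1 / m 1 + 1 / m 2 : ℝ) : ℂ) = 0 := by
          push_cast
          have : c * (1 / (m 0 : ℂ) + 1 / m 1 + 1 / m 2) =
              e0 * (c * f0 / m 0) + e1 * (c * f1 / m 1) + e2 * (c * f2 / m 2) := by
            linear_combination (-(c / m 0)) * h0 - (c / m 1) * h1 - (c / m 2) * h2
          rw [this]
          exact d3
        rcases mul_eq_zero.1 this with h | h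
        · exact h
        · rw [Complex.ofReal_eq_zero] at h
          linarith
      intro i
      fin_cases i
      · show η 0 = 0
        rw [w0, hc0]; simp
      · show η 1 = 0
        rw [w1, hc0]; simp
      · show η 2 = 0
        rw [w2, hc0]; simp
    obtain ⟨α, hα⟩ : ∃ α, α = (∑ j, (m j : ℂ) * ((starRingEnd ℂ) (a j) * ξ j)) /
        (∑ j, (m j : ℂ) * ((starRingEnd ℂ) (a j) * a j)) := ⟨_, rfl⟩
    obtain ⟨β, hβ⟩ : ∃ β, β = (∑ j, (m j : ℂ) * ((starRingEnd ℂ) (b j) * ξ j)) /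
        (∑ j, (m j : ℂ) * ((starRingEnd ℂ) (b j) * b j)) := ⟨_, rfl⟩
    have hα' : α * (∑ j, (m j : ℂ) * ((starRingEnd ℂ) (a j) * a j)) = ∑ j, (m j : ℂ) * ((starRingEnd ℂ) (a j) * ξ j) := by
      rw [hα, div_mul_cancel₀ _ hNa0]
    have hβ' : β * (∑ j, (m j : ℂ) * ((starRingEnd ℂ) (b j) * b j)) = ∑ j, (m j : ℂ) * ((starRingEnd ℂ) (b j) * ξ j) := by
      rw [hβ, div_mul_cancel₀ _ hNb0]
    have hz := key (fun i => ξ i - α * a i - β * b i) (by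
      rw [Fin.sum_univ_three] at hξ hma hmb ⊢
      linear_combination hξ - α * hma - β * hmb) (by
      rw [Fin.sum_univ_three] at hab ⊢
      rw [Fin.sum_univ_three, Fin.sum_univ_three] at hα'
      linear_combination - β * hab - hα') (by
      rw [Fin.sum_univ_three] at hba ⊢
      rw [Fin.sum_univ_three, Fin.sum_univ_three] at hβ'
      linear_combination - α * hba - hβ')
    intro i
    rw [← hα, ← hβ]
    linear_combination hz i
  · intro ρ hρ i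
    exact acc_tri m ha hma hρ i
  · intro ρ hρ w z z'
    have hξ : ∑ i, (m i : ℂ) * (z * a i) = 0 := by
      rw [Fin.sum_univ_three] at hma ⊢
      linear_combination z * hma
    rw [fderiv_tri m ha hρ w (fun j => z * a j) _ hξ]
    refine Prod.ext rfl ?_
    funext i
    have hr : ((‖ρ‖ : ℝ) : ℂ) ≠ 0 := by exact_mod_cast (norm_pos_iff.2 hρ).ne'
    show (((m 0 + m 1 + m 2) / 2) * (z * a i) - 3 / 2 * (ρ ^ 2 / (‖ρ‖ : ℂ) ^ 2) *
        ∑ j, (m j : ℂ) * ((a j - a i) ^ 2 * (starRingEnd ℂ) (z * a j - z * a i))) / (‖ρ‖ : ℂ) ^ 3 = _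
    rw [hia]
    push_cast
    field_simp
    ring
  · intro ρ hρ w z z'
    have hξ : ∑ i, (m i : ℂ) * (z * b i) = 0 := by
      rw [Fin.sum_univ_three] at hmb ⊢
      linear_combination z * hmb
    rw [fderiv_tri m ha hρ w (fun j => z * b j) _ hξ]
    refine Prod.ext rfl ?_
    funext i
    have hr : ((‖ρ‖ : ℝ) : ℂ) ≠ 0 := by exact_mod_cast (norm_pos_iff.2 hρ).ne'
    show (((m 0 + m 1 + m 2) / 2) * (z * b i) - 3 / 2 * (ρ ^ 2 / (‖ρ‖ : ℂ) ^ 2) *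
        ∑ j, (m j : ℂ) * ((a j - a i) ^ 2 * (starRingEnd ℂ) (z * b j - z * b i))) / (‖ρ‖ : ℂ) ^ 3 = _
    rw [hid, hκ]
    push_cast
    field_simp
    ring

end Pool.Agent.D0H95.BFT
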