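import Pool.Agent.D0H95.BF.Core2
import Pool.Agent.D0H95.BF.Tri
import Pool.Agent.D0H25.BF.KEP

/-!
Elliptic Lagrange solutions: the family, the region, the decomposition.
-/

set_option autoImplicit false

namespace Pool.Agent.D0H95.BF

open Pool.Agent.W821.TB Pool.Agent.D0H95.NB Finset Filter Topology

/-- The embedding `(z, z') ↦ (z v, z' v)`. -/
noncomputable def io (v : Fin 3 → ℂ) : ℂ × ℂ →L[ℝ] Ph 3 :=
  LinearMap.toContinuousLinearMap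
    { toFun := fun w => ((fun j => w.1 * v j), (fun j => w.2 * v j))
      map_add' := by
        intro x y
        ext j <;> simp <;> ring
      map_smul' := by
        intro c x
        ext j <;> simp <;> ring }

theorem io_apply (v : Fin 3 → ℂ) (w : ℂ × ℂ) :
    io v w = ((fun j => w.1 * v j), (fun j => w.2 * v j)) := rfl

/-- The coefficient of `v`. -/
noncomputable def co (m : Fin 3 → ℝ) (v : Fin 3 → ℂ) : Ph 3 →L[ℝ] ℂ × ℂ :=
  LinearMap.toContinuousLinearMap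
    { toFun := fun ξ => ((∑ j, (m j : ℂ) * ((starRingEnd ℂ) (v j) * ξ.1 j)) /
          (∑ j, (m j : ℂ) * ((starRingEnd ℂ) (v j) * v j)),
        (∑ j, (m j : ℂ) * ((starRingEnd ℂ) (v j) * ξ.2 j)) /
          (∑ j, (m j : ℂ) * ((starRingEnd ℂ) (v j) * v j)))
      map_add' := by
        intro x y
        simp only [Fin.sum_univ_three, Prod.fst_add, Prod.snd_add, Pi.add_apply, Prod.mk_add_mk]
        ext
        · simp only; ring
        · simp only; ring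
      map_smul' := by
        intro c x
        simp only [Fin.sum_univ_three, Prod.smul_fst, Prod.smul_snd, Pi.smul_apply, Prod.smul_mk,
          RingHom.id_apply, Complex.real_smul]
        ext
        · simp only; ring
        · simp only; ring }

theorem co_apply (m : Fin 3 → ℝ) (v : Fin 3 → ℂ) (ξ : Ph 3) :
    co m v ξ = ((∑ j, (m j : ℂ) * ((starRingEnd ℂ) (v j) * ξ.1 j)) /
          (∑ j, (m j : ℂ) * ((starRingEnd ℂ) (v j) * v j)),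
        (∑ j, (m j : ℂ) * ((starRingEnd ℂ) (v j) * ξ.2 j)) /
          (∑ j, (m j : ℂ) * ((starRingEnd ℂ) (v j) * v j))) := rfl

/-- The data of the equilateral triangle. -/
structure LD (m : Fin 3 → ℝ) (a b : Fin 3 → ℂ) (κ ν A : ℝ) : Prop where
  hm : ∀ i, 0 < m i
  ha : ∀ i j, i ≠ j → ‖a i - a j‖ = 1
  ha0 : ∑ i, (m i : ℂ) * a i = 0
  hν : 0 < ν
  hA : 0 < A
  hM : ν ^ 2 * A ^ 3 = m 0 + m 1 + m 2
  hb : ∀ i, b i ≠ 0
  hb0 : ∑ i, (m i : ℂ) * b i = 0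
  hab : ∑ i, (m i : ℂ) * ((starRingEnd ℂ) (a i) * b i) = 0
  hκ0 : 0 ≤ κ
  hκ : κ ^ 2 = 9 / 4 * (1 - 3 * (m 0 * m 1 + m 1 * m 2 + m 2 * m 0) / (m 0 + m 1 + m 2) ^ 2)
  hdec : ∀ ξ : Fin 3 → ℂ, (∑ i, (m i : ℂ) * ξ i = 0) → ∀ i,
      ξ i = (∑ j, (m j : ℂ) * ((starRingEnd ℂ) (a j) * ξ j)) /
          (∑ j, (m j : ℂ) * ((starRingEnd ℂ) (a j) * a j)) * a i +
        (∑ j, (m j : ℂ) * ((starRingEnd ℂ) (b j) * ξ j)) /
          (∑ j, (m j : ℂ) * ((starRingEnd ℂ) (b j) * b j)) * b i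
  hacc : ∀ ρ : ℂ, ρ ≠ 0 → ∀ i, acc m (fun j => ρ * a j) i =
      (((- ((m 0 + m 1 + m 2) / ‖ρ‖ ^ 3) : ℝ)) : ℂ) * (ρ * a i)
  hfa : ∀ ρ : ℂ, ρ ≠ 0 → ∀ (w : Fin 3 → ℂ) (z z' : ℂ),
      fderiv ℝ (vf m) ((fun j => ρ * a j), w) ((fun j => z * a j), (fun j => z' * a j)) =
        ((fun j => z' * a j), (fun j => (((m 0 + m 1 + m 2) / ‖ρ‖ ^ 3 : ℝ) : ℂ) *
          (1 / 2 * z + 3 / 2 * (ρ ^ 2 / (‖ρ‖ : ℂ) ^ 2) * (starRingEnd ℂ) z) * a j))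
  hfb : ∀ ρ : ℂ, ρ ≠ 0 → ∀ (w : Fin 3 → ℂ) (z z' : ℂ),
      fderiv ℝ (vf m) ((fun j => ρ * a j), w) ((fun j => z * b j), (fun j => z' * b j)) =
        ((fun j => z' * b j), (fun j => (((m 0 + m 1 + m 2) / ‖ρ‖ ^ 3 : ℝ) : ℂ) *
          (1 / 2 * z + κ * (ρ ^ 2 / (‖ρ‖ : ℂ) ^ 2) * (starRingEnd ℂ) z) * b j))

theorem exists_LD {m : Fin 3 → ℝ} (hm : ∀ i, 0 < m i) {a : Fin 3 → ℂ}
    (ha : ∀ i j, i ≠ j → ‖a i - a j‖ = 1) (ha0 : ∑ i, (m i : ℂ) * a i = 0) {ν A : ℝ}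
    (hν : 0 < ν) (hA : 0 < A) (hM : ν ^ 2 * A ^ 3 = m 0 + m 1 + m 2) :
    ∃ (b : Fin 3 → ℂ) (κ : ℝ), LD m a b κ ν A := by
  obtain ⟨b, κ, h1, h2, h3, h4, h5, h6, h7, h8, h9⟩ := Pool.Agent.D0H95.BFT.t_TRI m hm a ha ha0
  exact ⟨b, κ, hm, ha, ha0, hν, hA, hM, h1, h2, h3, h4, h5, h6, h7, h8, h9⟩

theorem sum_ne {m : Fin 3 → ℝ} (hm : ∀ i, 0 < m i) {v : Fin 3 → ℂ} (hv : v 0 ≠ 0) :
    (∑ j, (m j : ℂ) * ((starRingEnd ℂ) (v j) * v j)) ≠ 0 := by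
  have h1 : (∑ j, (m j : ℂ) * ((starRingEnd ℂ) (v j) * v j)) = ((∑ j, m j * ‖v j‖ ^ 2 : ℝ) : ℂ) := by
    push_cast
    refine Finset.sum_congr rfl fun j _ => ?_
    rw [mul_comm ((starRingEnd ℂ) (v j)), Complex.mul_conj, Complex.normSq_eq_norm_sq]
    push_cast
    ring
  rw [h1]
  have h2 : 0 < ∑ j, m j * ‖v j‖ ^ 2 := by
    refine Finset.sum_pos' (fun j _ => by have := (hm j).le; positivity) ⟨0, Finset.mem_univ _, ?_⟩
    have h3 := hm 0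
    have h4 : 0 < ‖v 0‖ := norm_pos_iff.mpr hv
    positivity
  exact_mod_cast h2.ne'

variable {m : Fin 3 → ℝ} {a b : Fin 3 → ℂ} {κ ν A : ℝ}

theorem LD.a_ne (h : LD m a b κ ν A) : ∃ j, a j ≠ 0 := by
  by_contra hh
  push Not at hh
  have := h.ha 0 1 (by decide)
  rw [hh, hh, sub_zero, norm_zero] at this
  norm_num at this

theorem LD.Nb (h : LD m a b κ ν A) : (∑ j, (m j : ℂ) * ((starRingEnd ℂ) (b j) * b j)) ≠ 0 :=
  sum_ne h.hm (h.hb 0)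

theorem io_mem {m : Fin 3 → ℝ} {v : Fin 3 → ℂ} (hv : ∑ i, (m i : ℂ) * v i = 0) (w : ℂ × ℂ) :
    io v w ∈ cm m := by
  rw [mem_cm]
  have key : ∀ z : ℂ, ∑ i, (m i : ℂ) * (z * v i) = 0 := by
    intro z
    have : ∑ i, (m i : ℂ) * (z * v i) = z * ∑ i, (m i : ℂ) * v i := by
      rw [Finset.mul_sum]
      exact Finset.sum_congr rfl fun i _ => by ring
    rw [this, hv, mul_zero]
  exact ⟨key _, key _⟩

/-- The embedding into the centre of mass frame. -/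
noncomputable def ioc (m : Fin 3 → ℝ) (v : Fin 3 → ℂ) : ℂ × ℂ →L[ℝ] cm m := (pr m).comp (io v)

theorem ioc_coe {m : Fin 3 → ℝ} {v : Fin 3 → ℂ} (hv : ∑ i, (m i : ℂ) * v i = 0) (w : ℂ × ℂ) :
    ((ioc m v w : cm m) : Ph 3) = io v w := by
  have h1 := pr_apply (m := m) ⟨io v w, io_mem hv w⟩
  have h2 : ioc m v w = pr m (io v w) := rfl
  rw [h2, h1]

theorem LD.co_io (h : LD m a b κ ν A) (w : ℂ × ℂ) : co m b (io b w) = w := by
  rw [co_apply, io_apply]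
  have hN := h.Nb
  have key : ∀ z : ℂ, (∑ j, (m j : ℂ) * ((starRingEnd ℂ) (b j) * (z * b j))) /
      (∑ j, (m j : ℂ) * ((starRingEnd ℂ) (b j) * b j)) = z := by
    intro z
    rw [div_eq_iff hN, Finset.mul_sum]
    exact Finset.sum_congr rfl fun i _ => by ring
  ext
  · exact key _
  · exact key _

theorem LD.co_ioa (h : LD m a b κ ν A) (w : ℂ × ℂ) : co m b (io a w) = 0 := by
  rw [co_apply, io_apply]
  have h0 : ∑ i, (m i : ℂ) * ((starRingEnd ℂ) (b i) * a i) = 0 := by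
    have h1 := congrArg (starRingEnd ℂ) h.hab
    rw [map_sum, map_zero] at h1
    rw [← h1]
    refine Finset.sum_congr rfl fun i _ => ?_
    rw [map_mul, map_mul, Complex.conj_conj, Complex.conj_ofReal]
    ring
  have key : ∀ z : ℂ, (∑ j, (m j : ℂ) * ((starRingEnd ℂ) (b j) * (z * a j))) /
      (∑ j, (m j : ℂ) * ((starRingEnd ℂ) (b j) * b j)) = 0 := by
    intro z
    have : (∑ j, (m j : ℂ) * ((starRingEnd ℂ) (b j) * (z * a j))) =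
        z * ∑ i, (m i : ℂ) * ((starRingEnd ℂ) (b i) * a i) := by
      rw [Finset.mul_sum]
      exact Finset.sum_congr rfl fun i _ => by ring
    rw [this, h0, mul_zero, zero_div]
  ext
  · exact key _
  · exact key _

theorem LD.dec (h : LD m a b κ ν A) {ξ : Ph 3} (hξ : ξ ∈ cm m) :
    ξ = io a (co m a ξ) + io b (co m b ξ) := by
  rw [mem_cm] at hξ
  rw [io_apply, io_apply, co_apply, co_apply]
  refine Prod.ext ?_ ?_
  · funext i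
    exact h.hdec _ hξ.1 i
  · funext i
    exact h.hdec _ hξ.2 i

/-- The right hand side of the Jacobi equation in the direction `b`. -/
noncomputable def Fb (κ M : ℝ) (ρ : ℂ) (w : ℂ × ℂ) : ℂ × ℂ :=
  (w.2, ((M / ‖ρ‖ ^ 3 : ℝ) : ℂ) *
    (1 / 2 * w.1 + κ * (ρ ^ 2 / (‖ρ‖ : ℂ) ^ 2) * (starRingEnd ℂ) w.1))

theorem LD.fb (h : LD m a b κ ν A) {ρ : ℂ} (hρ : ρ ≠ 0) (ρ' : ℂ) (w : ℂ × ℂ) :
    fderiv ℝ (vf m) (io a (ρ, ρ')) (io b w) = io b (Fb κ (m 0 + m 1 + m 2) ρ w) := by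
  rw [io_apply, io_apply, io_apply]
  exact h.hfb ρ hρ _ w.1 w.2

theorem LD.fa (h : LD m a b κ ν A) {ρ : ℂ} (hρ : ρ ≠ 0) (ρ' : ℂ) (w : ℂ × ℂ) :
    ∃ w', fderiv ℝ (vf m) (io a (ρ, ρ')) (io a w) = io a w' := by
  refine ⟨(w.2, (((m 0 + m 1 + m 2) / ‖ρ‖ ^ 3 : ℝ) : ℂ) *
          (1 / 2 * w.1 + 3 / 2 * (ρ ^ 2 / (‖ρ‖ : ℂ) ^ 2) * (starRingEnd ℂ) w.1)), ?_⟩
  rw [io_apply, io_apply, io_apply]
  exact h.hfa ρ hρ _ w.1 w.2

/-- The `b`-part of the linearized field depends on the `b`-part only. -/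
theorem LD.co_fderiv (h : LD m a b κ ν A) {ρ : ℂ} (hρ : ρ ≠ 0) (ρ' : ℂ) {ξ : Ph 3}
    (hξ : ξ ∈ cm m) : co m b (fderiv ℝ (vf m) (io a (ρ, ρ')) ξ) =
      Fb κ (m 0 + m 1 + m 2) ρ (co m b ξ) := by
  obtain ⟨w', hw'⟩ := h.fa hρ ρ' (co m a ξ)
  conv_lhs => rw [h.dec hξ]
  rw [map_add, h.fb hρ, hw', map_add, h.co_ioa, h.co_io, zero_add]

theorem LD.vf_io (h : LD m a b κ ν A) {ρ : ℂ} (hρ : ρ ≠ 0) (ρ' : ℂ) :
    vf m (io a (ρ, ρ')) =
      io a (ρ', (((- ((m 0 + m 1 + m 2) / ‖ρ‖ ^ 3) : ℝ)) : ℂ) * ρ) := by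
  rw [io_apply, io_apply]
  unfold vf
  refine Prod.ext rfl ?_
  funext i
  simp only
  rw [h.hacc ρ hρ i]
  ring

/-! ### Kepler's equation -/

theorem kepler (hν : 0 < ν) (hA : 0 < A) {e : ℝ} (he : |e| < 1) :
    (∀ u, ‖ell A e u‖ = A * (1 - e * Real.cos u)) ∧
    ∃ u : ℝ → ℝ, u 0 = 0 ∧
    (∀ t, u t - e * Real.sin (u t) = ν * t) ∧
    (∀ t, HasDerivAt u (ν / (1 - e * Real.cos (u t))) t) ∧
    (∀ t, u (t + 2 * Real.pi / ν) = u t + 2 * Real.pi) ∧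
    (∀ t, HasDerivAt (fun t => ell A e (u t)) (ellv A ν e (u t)) t) ∧
    (∀ t, HasDerivAt (fun t => ellv A ν e (u t))
      (((- (ν ^ 2 * A ^ 3 / ‖ell A e (u t)‖ ^ 3) : ℝ) : ℂ) * ell A e (u t)) t) :=
  Pool.Agent.D0H25.BF.t_KEP ν A e hν hA he

theorem r_pos {e : ℝ} (he : |e| < 1) (u : ℝ) : 0 < 1 - e * Real.cos u := by
  have h1 : |e * Real.cos u| ≤ |e| := by
    rw [abs_mul]
    exact mul_le_of_le_one_right (abs_nonneg e) (Real.abs_cos_le_one u)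
  have h2 := le_abs_self (e * Real.cos u)
  linarith

theorem ell_ne (hν : 0 < ν) (hA : 0 < A) {e : ℝ} (he : |e| < 1) (u : ℝ) : ell A e u ≠ 0 := by
  rw [← norm_pos_iff, (kepler hν hA he).1 u]
  exact mul_pos hA (r_pos he u)

/-- The eccentric anomaly. -/
noncomputable def uK (ν A e : ℝ) : ℝ → ℝ :=
  if h : (0 < ν ∧ 0 < A) ∧ |e| < 1 then Classical.choose (kepler h.1.1 h.1.2 h.2).2 else fun _ => 0

theorem uK_spec (hν : 0 < ν) (hA : 0 < A) {e : ℝ} (he : |e| < 1) :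
    uK ν A e 0 = 0 ∧
    (∀ t, uK ν A e t - e * Real.sin (uK ν A e t) = ν * t) ∧
    (∀ t, HasDerivAt (uK ν A e) (ν / (1 - e * Real.cos (uK ν A e t))) t) ∧
    (∀ t, uK ν A e (t + 2 * Real.pi / ν) = uK ν A e t + 2 * Real.pi) ∧
    (∀ t, HasDerivAt (fun t => ell A e (uK ν A e t)) (ellv A ν e (uK ν A e t)) t) ∧
    (∀ t, HasDerivAt (fun t => ellv A ν e (uK ν A e t))
      (((- (ν ^ 2 * A ^ 3 / ‖ell A e (uK ν A e t)‖ ^ 3) : ℝ) : ℂ) * ell A e (uK ν A e t)) t) := by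
  have h : (0 < ν ∧ 0 < A) ∧ |e| < 1 := ⟨⟨hν, hA⟩, he⟩
  unfold uK
  rw [dif_pos h]
  exact Classical.choose_spec (kepler h.1.1 h.1.2 h.2).2

/-- The time as a function of the eccentric anomaly. -/
noncomputable def tK (ν e u : ℝ) : ℝ := (u - e * Real.sin u) / ν

theorem uK_tK (hν : 0 < ν) (hA : 0 < A) {e : ℝ} (he : |e| < 1) (u : ℝ) :
    uK ν A e (tK ν e u) = u := by
  have h1 := (uK_spec hν hA he).2.1 (tK ν e u)
  unfold tK at h1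
  rw [mul_div_cancel₀ _ hν.ne'] at h1
  set v := uK ν A e ((u - e * Real.sin u) / ν) with hv
  change v = u
  by_contra hne
  have h2 : v - u = e * (Real.sin v - Real.sin u) := by linarith
  have h3 : |Real.sin v - Real.sin u| ≤ |v - u| := by
    have := Real.abs_sin_sub_sin_le v u
    exact this
  have h4 : 0 < |v - u| := abs_pos.mpr (sub_ne_zero.mpr hne)
  have h5 : |v - u| = |e| * |Real.sin v - Real.sin u| := by rw [h2, abs_mul]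
  have h6 : |e| * |Real.sin v - Real.sin u| ≤ |e| * |v - u| :=
    mul_le_mul_of_nonneg_left h3 (abs_nonneg e)
  have h7 : |e| * |v - u| < 1 * |v - u| := mul_lt_mul_of_pos_right he h4
  linarith

end Pool.Agent.D0H95.BF
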