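import Pool.Agent.D0H95.BF.Lag1

/-!
Elliptic Lagrange solutions: the curve of initial conditions, the region.
-/

set_option autoImplicit false

namespace Pool.Agent.D0H95.BF

open Pool.Agent.W821.TB Pool.Agent.D0H95.NB Finset Filter Topology

variable {m : Fin 3 → ℝ} {a b : Fin 3 → ℂ} {κ ν A : ℝ}

/-- The homographic solution. -/
noncomputable def xe (a : Fin 3 → ℂ) (ν A e t : ℝ) : Ph 3 :=
  io a (ell A e (uK ν A e t), ellv A ν e (uK ν A e t))

theorem LD.a_inj (h : LD m a b κ ν A) {i j : Fin 3} (hij : i ≠ j) : a i ≠ a j := by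
  intro hh
  have := h.ha i j hij
  rw [hh, sub_self, norm_zero] at this
  norm_num at this

theorem LD.xe_sol (h : LD m a b κ ν A) {e : ℝ} (he : |e| < 1) :
    IsSol m Set.univ (xe a ν A e) := by
  intro t _
  have hne := ell_ne h.hν h.hA he (uK ν A e t)
  obtain ⟨-, -, -, -, k5, k6⟩ := uK_spec h.hν h.hA he
  refine ⟨⟨fun i j hij => ?_, ?_⟩, ?_⟩
  · change ell A e (uK ν A e t) * a i ≠ ell A e (uK ν A e t) * a j
    intro hh
    exact h.a_inj hij (mul_left_cancel₀ hne hh)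
  · have h1 := io_mem h.ha0 (ell A e (uK ν A e t), ellv A ν e (uK ν A e t))
    rw [mem_cm] at h1
    exact h1
  · have h2 := (k5 t).prodMk (k6 t)
    have h3 : HasDerivAt (xe a ν A e) (io a (ellv A ν e (uK ν A e t),
        (((- (ν ^ 2 * A ^ 3 / ‖ell A e (uK ν A e t)‖ ^ 3) : ℝ) : ℂ) * ell A e (uK ν A e t)))) t :=
      (io a).hasFDerivAt.comp_hasDerivAt t h2
    rw [h.hM] at h3
    have h4 := h.vf_io hne (ellv A ν e (uK ν A e t))
    rw [← h4] at h3
    exact h3.hasDerivWithinAt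

theorem LD.xe_per (h : LD m a b κ ν A) {e : ℝ} (he : |e| < 1) (t : ℝ) :
    xe a ν A e (t + 2 * Real.pi / ν) = xe a ν A e t := by
  obtain ⟨-, -, -, k4, -, -⟩ := uK_spec h.hν h.hA he
  unfold xe
  rw [k4]
  congr 1
  unfold ell ellv
  rw [Real.cos_add_two_pi, Real.sin_add_two_pi]

theorem norm_ellv (hν : 0 < ν) (hA : 0 < A) {e : ℝ} (he : |e| ≤ 1 / 2) (u : ℝ) :
    ‖ellv A ν e u‖ ≤ 4 * (A * ν) := by
  have he1 : |e| < 1 := by linarith
  have hr := r_pos he1 u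
  have hr2 : 1 / 2 ≤ 1 - e * Real.cos u := by
    have h1 : |e * Real.cos u| ≤ |e| := by
      rw [abs_mul]
      exact mul_le_of_le_one_right (abs_nonneg e) (Real.abs_cos_le_one u)
    have h2 := le_abs_self (e * Real.cos u)
    linarith
  unfold ellv
  rw [norm_mul, Complex.norm_real, Real.norm_eq_abs, abs_of_pos (by positivity)]
  have h1 : A * ν / (1 - e * Real.cos u) ≤ 2 * (A * ν) := by
    rw [div_le_iff₀ hr]
    have : 0 < A * ν := by positivity
    nlinarith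
  have h2 : ‖(((- Real.sin u : ℝ) : ℂ) + ((Real.sqrt (1 - e ^ 2) * Real.cos u : ℝ) : ℂ) *
      Complex.I)‖ ≤ 2 := by
    refine (norm_add_le _ _).trans ?_
    rw [norm_mul, Complex.norm_I, mul_one, Complex.norm_real, Complex.norm_real,
      Real.norm_eq_abs, Real.norm_eq_abs, abs_neg, abs_mul]
    have h3 := Real.abs_sin_le_one u
    have h4 := Real.abs_cos_le_one u
    have h5 : |Real.sqrt (1 - e ^ 2)| ≤ 1 := by
      rw [abs_of_nonneg (Real.sqrt_nonneg _)]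
      exact Real.sqrt_le_one.mpr (by nlinarith [sq_nonneg e])
    have h6 : |Real.sqrt (1 - e ^ 2)| * |Real.cos u| ≤ 1 * 1 :=
      mul_le_mul h5 h4 (abs_nonneg _) zero_le_one
    linarith
  calc A * ν / (1 - e * Real.cos u) * _ ≤ 2 * (A * ν) * 2 :=
        mul_le_mul h1 h2 (norm_nonneg _) (by positivity)
    _ = 4 * (A * ν) := by ring

/-- The bound for the region. -/
noncomputable def RR (a : Fin 3 → ℂ) (ν A : ℝ) : ℝ :=
  (∑ j, ‖a j‖ ^ 2) * ((3 / 2 * A) ^ 2 + (4 * (A * ν)) ^ 2) + 1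

theorem LD.region (h : LD m a b κ ν A) {e : ℝ} (he : |e| ≤ 1 / 2) (u : ℝ) :
    io a (ell A e u, ellv A ν e u) ∈ Rg (RR a ν A) (A ^ 2 / 8) := by
  have he1 : |e| < 1 := by linarith
  have hA := h.hA
  have hν := h.hν
  have hr := r_pos he1 u
  have h1 : |e * Real.cos u| ≤ 1 / 2 := by
    rw [abs_mul]
    exact (mul_le_of_le_one_right (abs_nonneg e) (Real.abs_cos_le_one u)).trans he
  have h2 := abs_le.mp h1
  have hn := (kepler hν hA he1).1 u
  have hv := norm_ellv hν hA he u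
  refine ⟨?_, fun i j hij => ?_⟩
  · have e1 : NS (io a (ell A e u, ellv A ν e u)) =
        (∑ j, ‖a j‖ ^ 2) * (‖ell A e u‖ ^ 2 + ‖ellv A ν e u‖ ^ 2) := by
      rw [io_apply]
      unfold NS
      rw [Finset.sum_mul]
      refine Finset.sum_congr rfl fun j _ => ?_
      simp only [norm_mul]
      ring
    rw [e1, hn]
    have h3 : 0 ≤ ∑ j, ‖a j‖ ^ 2 := Finset.sum_nonneg fun j _ => by positivity
    have h4 : (A * (1 - e * Real.cos u)) ^ 2 ≤ (3 / 2 * A) ^ 2 := by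
      refine pow_le_pow_left₀ (by positivity) ?_ 2
      nlinarith
    have h5 : ‖ellv A ν e u‖ ^ 2 ≤ (4 * (A * ν)) ^ 2 := pow_le_pow_left₀ (norm_nonneg _) hv 2
    have h6 := mul_le_mul_of_nonneg_left (add_le_add h4 h5) h3
    unfold RR
    linarith
  · have e1 : (io a (ell A e u, ellv A ν e u)).1 j - (io a (ell A e u, ellv A ν e u)).1 i =
        ell A e u * (a j - a i) := by
      rw [io_apply]
      simp only
      ring
    rw [e1, norm_mul, h.ha j i (Ne.symm hij), mul_one, hn]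
    have h4 : (1 / 2 * A) ^ 2 ≤ (A * (1 - e * Real.cos u)) ^ 2 := by
      refine pow_le_pow_left₀ (by positivity) ?_ 2
      nlinarith
    have h5 : 0 < A ^ 2 := by positivity
    nlinarith

/-- The curve of initial conditions. -/
noncomputable def gam (m : Fin 3 → ℝ) (a : Fin 3 → ℂ) (ν A e : ℝ) : cm m :=
  ioc m a (ell A e 0, ellv A ν e 0)

theorem ell_cd {N : ℕ} {e : ℝ} (he : |e| < 1) (u : ℝ) :
    ContDiffAt ℝ N (fun p : ℝ × ℝ => ell A p.1 p.2) (e, u) := by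
  have h1 : ContDiffAt ℝ N (fun p : ℝ × ℝ => Real.sqrt (1 - p.1 ^ 2)) (e, u) := by
    refine ContDiffAt.sqrt (by fun_prop) ?_
    have : e ^ 2 < 1 := by
      rw [← sq_abs]
      nlinarith [abs_nonneg e]
    simp only
    linarith
  unfold ell
  have h2 : ContDiffAt ℝ N (fun p : ℝ × ℝ => ((Real.cos p.2 - p.1 : ℝ) : ℂ)) (e, u) := by
    have h3 : ContDiffAt ℝ N (fun p : ℝ × ℝ => Real.cos p.2 - p.1) (e, u) := by fun_prop
    exact Complex.ofRealCLM.contDiff.contDiffAt.comp (e, u) h3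
  have h3 : ContDiffAt ℝ N (fun p : ℝ × ℝ => ((Real.sqrt (1 - p.1 ^ 2) * Real.sin p.2 : ℝ) : ℂ))
      (e, u) := by
    have h3 : ContDiffAt ℝ N (fun p : ℝ × ℝ => Real.sqrt (1 - p.1 ^ 2) * Real.sin p.2) (e, u) :=
      h1.mul (by fun_prop)
    exact Complex.ofRealCLM.contDiff.contDiffAt.comp (e, u) h3
  exact contDiffAt_const.mul (h2.add (h3.mul contDiffAt_const))

theorem ellv_cd {N : ℕ} {e : ℝ} (he : |e| < 1) (u : ℝ) :
    ContDiffAt ℝ N (fun p : ℝ × ℝ => ellv A ν p.1 p.2) (e, u) := by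
  have h1 : ContDiffAt ℝ N (fun p : ℝ × ℝ => Real.sqrt (1 - p.1 ^ 2)) (e, u) := by
    refine ContDiffAt.sqrt (by fun_prop) ?_
    have : e ^ 2 < 1 := by
      rw [← sq_abs]
      nlinarith [abs_nonneg e]
    simp only
    linarith
  unfold ellv
  have h2 : ContDiffAt ℝ N (fun p : ℝ × ℝ => ((A * ν / (1 - p.1 * Real.cos p.2) : ℝ) : ℂ))
      (e, u) := by
    have h3 : ContDiffAt ℝ N (fun p : ℝ × ℝ => A * ν / (1 - p.1 * Real.cos p.2)) (e, u) :=
      contDiffAt_const.div (by fun_prop) (r_pos he u).ne'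
    exact Complex.ofRealCLM.contDiff.contDiffAt.comp (e, u) h3
  have h4 : ContDiffAt ℝ N (fun p : ℝ × ℝ => ((- Real.sin p.2 : ℝ) : ℂ)) (e, u) := by
    have h3 : ContDiffAt ℝ N (fun p : ℝ × ℝ => - Real.sin p.2) (e, u) := by fun_prop
    exact Complex.ofRealCLM.contDiff.contDiffAt.comp (e, u) h3
  have h3 : ContDiffAt ℝ N (fun p : ℝ × ℝ => ((Real.sqrt (1 - p.1 ^ 2) * Real.cos p.2 : ℝ) : ℂ))
      (e, u) := by
    have h3 : ContDiffAt ℝ N (fun p : ℝ × ℝ => Real.sqrt (1 - p.1 ^ 2) * Real.cos p.2) (e, u) :=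
      h1.mul (by fun_prop)
    exact Complex.ofRealCLM.contDiff.contDiffAt.comp (e, u) h3
  exact h2.mul (h4.add (h3.mul contDiffAt_const))

theorem gam_cd {N : ℕ} {e : ℝ} (he : |e| < 1) : ContDiffAt ℝ N (gam m a ν A) e := by
  have h1 : ContDiffAt ℝ N (fun e : ℝ => ((e, (0:ℝ)) : ℝ × ℝ)) e := by fun_prop
  have h2 : ContDiffAt ℝ N (fun e : ℝ => ell A e 0) e :=
    ContDiffAt.comp e (g := fun p : ℝ × ℝ => ell A p.1 p.2) (f := fun e : ℝ => (e, (0:ℝ)))
      (ell_cd he 0) h1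
  have h3 : ContDiffAt ℝ N (fun e : ℝ => ellv A ν e 0) e :=
    ContDiffAt.comp e (g := fun p : ℝ × ℝ => ellv A ν p.1 p.2) (f := fun e : ℝ => (e, (0:ℝ)))
      (ellv_cd he 0) h1
  exact (ioc m a).contDiff.contDiffAt.comp e (h2.prodMk h3)

/-- A region for all small eccentricities. -/
theorem LD.pk (h : LD m a b κ ν A) : ∃ P : Pk m, ∀ e, |e| ≤ 1 / 2 →
    (∀ t, ((P.g t (gam m a ν A e) : cm m) : Ph 3) = xe a ν A e t) ∧
    (∀ t, ((P.g t (gam m a ν A e) : cm m) : Ph 3) ∈ P.S) ∧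
    P.g (2 * Real.pi / ν) (gam m a ν A e) = gam m a ν A e := by
  have hA := h.hA
  have hR : 0 < RR a ν A := by
    unfold RR
    have h3 : 0 ≤ ∑ j, ‖a j‖ ^ 2 := Finset.sum_nonneg fun j _ => by positivity
    positivity
  obtain ⟨P, hPR, hPδ⟩ := exists_pk m (R := RR a ν A) (δ := A ^ 2 / 8) hR (by positivity)
  refine ⟨P, fun e he => ?_⟩
  have he1 : |e| < 1 := by linarith
  have hx := h.xe_sol he1
  have hS : ∀ t, xe a ν A e t ∈ P.S := by
    intro t
    unfold Pk.S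
    rw [hPR, hPδ]
    exact h.region he _
  have hg0 : (⟨xe a ν A e 0, sol_cm hx 0⟩ : cm m) = gam m a ν A e := by
    apply Subtype.ext
    unfold gam
    rw [ioc_coe h.ha0]
    change xe a ν A e 0 = _
    unfold xe
    rw [(uK_spec h.hν h.hA he1).1]
  have hg := P.of_sol hx hS
  rw [hg0] at hg
  refine ⟨hg, fun t => by rw [hg]; exact hS t, ?_⟩
  apply Subtype.ext
  rw [hg]
  have h1 := h.xe_per he1 0
  rw [zero_add] at h1
  rw [h1, ← hg0]

end Pool.Agent.D0H95.BF
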