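import Pool.Agent.D0H95.BF.Lag2
import Pool.Agent.D0H95.BF.Eigc

/-!
Elliptic Lagrange solutions: the Jacobi fields in the second direction.
-/

set_option autoImplicit false

namespace Pool.Agent.D0H95.BF

open Pool.Agent.W821.TB Pool.Agent.D0H95.NB Finset Filter Topology

variable {m : Fin 3 → ℝ} {a b : Fin 3 → ℂ} {κ ν A : ℝ}

/-- The properties of the region. -/
def Good (P : Pk m) (a : Fin 3 → ℂ) (ν A : ℝ) : Prop := ∀ e, |e| ≤ 1 / 2 →
    (∀ t, ((P.g t (gam m a ν A e) : cm m) : Ph 3) = xe a ν A e t) ∧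
    (∀ t, ((P.g t (gam m a ν A e) : cm m) : Ph 3) ∈ P.S) ∧
    P.g (2 * Real.pi / ν) (gam m a ν A e) = gam m a ν A e

/-- The coefficient of the Jacobi field with initial value `v b`. -/
noncomputable def wb (P : Pk m) (a b : Fin 3 → ℂ) (ν A e : ℝ) (v : ℂ × ℂ) (t : ℝ) : ℂ × ℂ :=
  co m b ((fderiv ℝ (P.g t) (gam m a ν A e) (ioc m b v) : cm m) : Ph 3)

theorem wb_zero (h : LD m a b κ ν A) (P : Pk m) (e : ℝ) (v : ℂ × ℂ) :
    wb P a b ν A e v 0 = v := by
  unfold wb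
  rw [P.D_zero, ioc_coe h.hb0, h.co_io]

theorem wb_deriv (h : LD m a b κ ν A) {P : Pk m} (hP : Good P a ν A) {e : ℝ} (he : |e| ≤ 1 / 2)
    (v : ℂ × ℂ) (t : ℝ) : HasDerivAt (wb P a b ν A e v)
      (Fb κ (m 0 + m 1 + m 2) (ell A e (uK ν A e t)) (wb P a b ν A e v t)) t := by
  have he1 : |e| < 1 := by linarith
  obtain ⟨h1, h2, h3⟩ := hP e he
  have h4 := jac_at P (h2 t) (ioc m b v)
  have h5 : HasDerivAt (wb P a b ν A e v) (co m b (fderiv ℝ (vf m)
      ((P.g t (gam m a ν A e) : cm m) : Ph 3)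
      ((fderiv ℝ (P.g t) (gam m a ν A e) (ioc m b v) : cm m) : Ph 3))) t :=
    (co m b).hasFDerivAt.comp_hasDerivAt t h4
  rw [h1 t] at h5
  unfold xe at h5
  rw [h.co_fderiv (ell_ne h.hν h.hA he1 _) _ (fderiv ℝ (P.g t) (gam m a ν A e) (ioc m b v)).2] at h5
  exact h5

/-- Solutions of the equation in the direction `b` are Jacobi fields. -/
theorem jac_b (h : LD m a b κ ν A) {P : Pk m} (hP : Good P a ν A) {e : ℝ} (he : |e| ≤ 1 / 2)
    {w : ℝ → ℂ × ℂ} (hw : ∀ t, HasDerivAt w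
      (Fb κ (m 0 + m 1 + m 2) (ell A e (uK ν A e t)) (w t)) t) {t : ℝ} (ht : 0 ≤ t) :
    fderiv ℝ (P.g t) (gam m a ν A e) (ioc m b (w 0)) = ioc m b (w t) := by
  have he1 : |e| < 1 := by linarith
  obtain ⟨h1, h2, h3⟩ := hP e he
  apply Subtype.ext
  rw [ioc_coe h.hb0]
  refine (jac_uniq h.hm P h2 (ξ := fun t => io b (w t)) (fun t => io_mem h.hb0 _) (fun t => ?_)
    (ioc_coe h.hb0 (w 0)) ht).symm
  rw [h1 t]
  unfold xe
  rw [h.fb (ell_ne h.hν h.hA he1 _)]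
  exact (io b).hasFDerivAt.comp_hasDerivAt t (hw t)

theorem wb_jac (h : LD m a b κ ν A) {P : Pk m} (hP : Good P a ν A) {e : ℝ} (he : |e| ≤ 1 / 2)
    (v : ℂ × ℂ) {t : ℝ} (ht : 0 ≤ t) :
    fderiv ℝ (P.g t) (gam m a ν A e) (ioc m b v) = ioc m b (wb P a b ν A e v t) := by
  have h1 := jac_b h hP he (w := wb P a b ν A e v) (wb_deriv h hP he v) ht
  rwa [wb_zero h] at h1

/-- The reduced period map. -/
noncomputable def Mb (P : Pk m) (a b : Fin 3 → ℂ) (ν A e : ℝ) : ℂ × ℂ →L[ℝ] ℂ × ℂ :=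
  ((co m b).comp (inc m)).comp
    ((fderiv ℝ (P.g (2 * Real.pi / ν)) (gam m a ν A e)).comp (ioc m b))

theorem Mb_apply (P : Pk m) (e : ℝ) (v : ℂ × ℂ) :
    Mb P a b ν A e v = wb P a b ν A e v (2 * Real.pi / ν) := rfl

theorem Tpos (h : LD m a b κ ν A) : 0 < 2 * Real.pi / ν := by
  have := h.hν
  have := Real.pi_pos
  positivity

theorem Mb_jac (h : LD m a b κ ν A) {P : Pk m} (hP : Good P a ν A) {e : ℝ} (he : |e| ≤ 1 / 2)
    (v : ℂ × ℂ) : fderiv ℝ (P.g (2 * Real.pi / ν)) (gam m a ν A e) (ioc m b v) =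
      ioc m b (Mb P a b ν A e v) := by
  rw [Mb_apply]
  exact wb_jac h hP he v (Tpos h).le

theorem wb_per (h : LD m a b κ ν A) {P : Pk m} (hP : Good P a ν A) {e : ℝ} (he : |e| ≤ 1 / 2)
    (v : ℂ × ℂ) (t : ℝ) : wb P a b ν A e v (t + 2 * Real.pi / ν) =
      wb P a b ν A e (Mb P a b ν A e v) t := by
  unfold wb
  rw [P.D_add, (hP e he).2.2, Mb_jac h hP he]

theorem wb_add (P : Pk m) (e : ℝ) (x y : ℂ × ℂ) (c d : ℝ) (t : ℝ) :
    wb P a b ν A e (c • x + d • y) t = c • wb P a b ν A e x t + d • wb P a b ν A e y t := by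
  unfold wb
  rw [map_add, map_smul, map_smul, map_add, map_smul, map_smul]
  exact (map_add (co m b) _ _).trans (by
    rw [Submodule.coe_smul_of_tower, Submodule.coe_smul_of_tower, map_smul, map_smul])

theorem Mb_cd (P : Pk m) {N : ℕ} {e : ℝ} (he : |e| < 1) : ContDiffAt ℝ N (Mb P a b ν A) e := by
  have h1 : ContDiff ℝ (N + 1 : ℕ) (P.g (2 * Real.pi / ν)) := cdN_t P (Nat.succ_ne_zero N) _
  have h2 : ContDiff ℝ N (fderiv ℝ (P.g (2 * Real.pi / ν))) := h1.fderiv_right (by norm_cast)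
  have h3 : ContDiffAt ℝ N (fun e => fderiv ℝ (P.g (2 * Real.pi / ν)) (gam m a ν A e)) e :=
    h2.contDiffAt.comp e (gam_cd he)
  exact contDiffAt_const.clm_comp (h3.clm_comp contDiffAt_const)

/-! ### The circular solution -/

/-- The fields of the circular solution. -/
noncomputable def W0 (κ l ν A : ℝ) (c : ℂ) (t : ℝ) : ℂ × ℂ :=
  (A / 2 * (c * κ * Complex.exp ((1 + l) * (ν * t) * Complex.I) -
      (starRingEnd ℂ) c * (l ^ 2 + 2 * l + 3 / 2) * Complex.exp ((1 - l) * (ν * t) * Complex.I)),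
    A * ν / 2 * Complex.I * (c * κ * (1 + l) * Complex.exp ((1 + l) * (ν * t) * Complex.I) -
      (starRingEnd ℂ) c * (l ^ 2 + 2 * l + 3 / 2) * (1 - l) *
        Complex.exp ((1 - l) * (ν * t) * Complex.I)))

theorem ell_circ (A u : ℝ) : ell A 0 u = A * Complex.exp (u * Complex.I) := by
  unfold ell
  rw [Complex.exp_mul_I]
  simp

theorem uK_zero (hν : 0 < ν) (hA : 0 < A) (t : ℝ) : uK ν A 0 t = ν * t := by
  have := (uK_spec hν hA (e := 0) (by simp)).2.1 t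
  rw [zero_mul, sub_zero] at this
  exact this

theorem exp_deriv (k ν t : ℝ) : HasDerivAt (fun t : ℝ => Complex.exp (k * (ν * t) * Complex.I))
    (k * ν * Complex.I * Complex.exp (k * (ν * t) * Complex.I)) t := by
  have h1 : HasDerivAt (fun t : ℝ => (t : ℂ)) 1 t := Complex.ofRealCLM.hasDerivAt
  have h2 : HasDerivAt (fun t : ℝ => (k : ℂ) * (ν * t) * Complex.I) (k * ν * Complex.I) t := by
    have := ((h1.const_mul (ν : ℂ)).const_mul (k : ℂ)).mul_const Complex.I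
    simpa using this
  have h3 := h2.cexp
  refine h3.congr_deriv ?_
  ring

theorem W0_deriv (h : LD m a b κ ν A) {l : ℝ} (hl : l ^ 4 - l ^ 2 + 9 / 4 - κ ^ 2 = 0) (c : ℂ)
    (t : ℝ) : HasDerivAt (W0 κ l ν A c)
      (Fb κ (m 0 + m 1 + m 2) (ell A 0 (uK ν A 0 t)) (W0 κ l ν A c t)) t := by
  have hν := h.hν
  have hA := h.hA
  have e1 := exp_deriv (1 + l) ν t
  have e2 := exp_deriv (1 - l) ν t
  push_cast at e1 e2
  have d1 := ((e1.const_mul (c * κ)).sub
    (e2.const_mul ((starRingEnd ℂ) c * (l ^ 2 + 2 * l + 3 / 2)))).const_mul ((A : ℂ) / 2)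
  have d2 := ((e1.const_mul (c * κ * (1 + l))).sub
    (e2.const_mul ((starRingEnd ℂ) c * (l ^ 2 + 2 * l + 3 / 2) * (1 - l)))).const_mul
      ((A : ℂ) * ν / 2 * Complex.I)
  have d3 := d1.prodMk d2
  unfold W0
  refine d3.congr_deriv ?_
  rw [uK_zero hν hA, ell_circ]
  unfold Fb
  have hn : ‖(A : ℂ) * Complex.exp (((ν * t : ℝ) : ℂ) * Complex.I)‖ = A := by
    rw [norm_mul, norm_expI, mul_one, Complex.norm_real, Real.norm_eq_abs, abs_of_pos hA]
  rw [hn, ← h.hM]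
  have hAc : (A : ℂ) ≠ 0 := by exact_mod_cast hA.ne'
  have hνc : (ν : ℂ) ≠ 0 := by exact_mod_cast hν.ne'
  set E1 := Complex.exp ((1 + l) * (ν * t) * Complex.I) with hE1
  set E2 := Complex.exp ((1 - l) * (ν * t) * Complex.I) with hE2
  -- conjugates
  have hr1 : (starRingEnd ℂ) E1 = Complex.exp (-((1 + l) * (ν * t) * Complex.I)) := by
    rw [hE1, ← Complex.exp_conj]
    congr 1
    simp
  have hr2 : (starRingEnd ℂ) E2 = Complex.exp (-((1 - l) * (ν * t) * Complex.I)) := by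
    rw [hE2, ← Complex.exp_conj]
    congr 1
    simp
  have hE : Complex.exp (((ν * t : ℝ) : ℂ) * Complex.I) ^ 2 = E1 * E2 := by
    rw [hE1, hE2, ← Complex.exp_nat_mul, ← Complex.exp_add]
    congr 1
    push_cast
    ring
  have h11 : E1 * (starRingEnd ℂ) E1 = 1 := by
    rw [hr1, hE1, ← Complex.exp_add, add_neg_cancel, Complex.exp_zero]
  have h22 : E2 * (starRingEnd ℂ) E2 = 1 := by
    rw [hr2, hE2, ← Complex.exp_add, add_neg_cancel, Complex.exp_zero]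
  have hlc : (κ : ℂ) ^ 2 = (l : ℂ) ^ 4 - (l : ℂ) ^ 2 + 9 / 4 := by
    have h1 : κ ^ 2 = l ^ 4 - l ^ 2 + 9 / 4 := by linarith
    have h2 : ((κ ^ 2 : ℝ) : ℂ) = ((l ^ 4 - l ^ 2 + 9 / 4 : ℝ) : ℂ) := by rw [h1]
    push_cast at h2
    exact h2
  refine Prod.ext ?_ ?_
  · simp only
    ring
  · simp only
    have hq : ((A : ℂ) * Complex.exp (((ν * t : ℝ) : ℂ) * Complex.I)) ^ 2 / ((A : ℂ)) ^ 2 =
        E1 * E2 := by
      rw [mul_pow, hE]
      field_simp
    have hM' : ((ν ^ 2 * A ^ 3 / A ^ 3 : ℝ) : ℂ) = (ν : ℂ) ^ 2 := by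
      rw [mul_div_cancel_right₀ _ (by positivity)]
      push_cast
      rfl
    rw [hq, hM']
    have hconj : (starRingEnd ℂ) ((A : ℂ) / 2 * (c * κ * E1 -
        (starRingEnd ℂ) c * (l ^ 2 + 2 * l + 3 / 2) * E2)) =
        (A : ℂ) / 2 * ((starRingEnd ℂ) c * κ * (starRingEnd ℂ) E1 -
          c * (l ^ 2 + 2 * l + 3 / 2) * (starRingEnd ℂ) E2) := by
      simp only [map_mul, map_sub, map_div₀, map_add, map_pow, Complex.conj_ofReal,
        Complex.conj_conj, map_ofNat]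
    rw [hconj]
    linear_combination (A * ν ^ 2 / 2 * (c * κ * (1 + l) ^ 2 * E1 -
      (starRingEnd ℂ) c * (l ^ 2 + 2 * l + 3 / 2) * (1 - l) ^ 2 * E2)) * Complex.I_sq -
      (ν ^ 2 * A / 2 * κ ^ 2 * (starRingEnd ℂ) c * E2) * h11 +
      (ν ^ 2 * A / 2 * κ * c * (l ^ 2 + 2 * l + 3 / 2) * E1) * h22 -
      (ν ^ 2 * A / 2 * (starRingEnd ℂ) c * E2) * hlc

theorem W0_lin (l ν A κ : ℝ) (c : ℂ) (t : ℝ) :
    W0 κ l ν A c t = c.re • W0 κ l ν A 1 t - c.im • W0 κ l ν A (-Complex.I) t := by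
  suffices key : ∀ x y : ℝ, W0 κ l ν A ((x : ℂ) + y * Complex.I) t =
      x • W0 κ l ν A 1 t - y • W0 κ l ν A (-Complex.I) t by
    conv_lhs => rw [← Complex.re_add_im c]
    exact key _ _
  intro x y
  have hcc : (starRingEnd ℂ) ((x : ℂ) + y * Complex.I) = x - y * Complex.I := by
    apply Complex.ext <;> simp
  unfold W0
  rw [hcc]
  refine Prod.ext ?_ ?_
  · simp only [Prod.fst_sub, Prod.smul_fst, Complex.real_smul, map_one, map_neg, Complex.conj_I]
    ring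
  · simp only [Prod.snd_sub, Prod.smul_snd, Complex.real_smul, map_one, map_neg, Complex.conj_I]
    ring

theorem W0_per (l κ : ℝ) (hν : 0 < ν) (c : ℂ) (t : ℝ) :
    W0 κ l ν A c (t + 2 * Real.pi / ν) =
      W0 κ l ν A (c * Complex.exp (2 * Real.pi * l * Complex.I)) t := by
  have hνc : (ν : ℂ) ≠ 0 := by exact_mod_cast hν.ne'
  have e1 : Complex.exp ((1 + l) * (ν * ((t + 2 * Real.pi / ν : ℝ) : ℂ)) * Complex.I) =
      Complex.exp (2 * Real.pi * l * Complex.I) *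
        Complex.exp ((1 + l) * (ν * t) * Complex.I) := by
    have : ((1 + l) * (ν * ((t + 2 * Real.pi / ν : ℝ) : ℂ)) * Complex.I) =
        2 * Real.pi * l * Complex.I + (1 + l) * (ν * t) * Complex.I + 2 * Real.pi * Complex.I := by
      push_cast
      field_simp
      ring
    rw [this, Complex.exp_add, Complex.exp_two_pi_mul_I, mul_one, Complex.exp_add]
  have hcj : (starRingEnd ℂ) (Complex.exp (2 * Real.pi * l * Complex.I)) =
      Complex.exp (-(2 * Real.pi * l * Complex.I)) := by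
    rw [← Complex.exp_conj]
    congr 1
    have h1 : (2 * Real.pi * l * Complex.I : ℂ) = ((2 * Real.pi * l : ℝ) : ℂ) * Complex.I := by
      push_cast
      ring
    rw [h1, map_mul, Complex.conj_ofReal, Complex.conj_I]
    ring
  have e2 : Complex.exp ((1 - l) * (ν * ((t + 2 * Real.pi / ν : ℝ) : ℂ)) * Complex.I) =
      (starRingEnd ℂ) (Complex.exp (2 * Real.pi * l * Complex.I)) *
        Complex.exp ((1 - l) * (ν * t) * Complex.I) := by
    have : ((1 - l) * (ν * ((t + 2 * Real.pi / ν : ℝ) : ℂ)) * Complex.I) =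
        -(2 * Real.pi * l * Complex.I) + (1 - l) * (ν * t) * Complex.I +
          2 * Real.pi * Complex.I := by
      push_cast
      field_simp
      ring
    rw [this, Complex.exp_add, Complex.exp_two_pi_mul_I, mul_one, Complex.exp_add, hcj]
  unfold W0
  rw [e1, e2, map_mul]
  refine Prod.ext ?_ ?_ <;> simp only <;> ring

end Pool.Agent.D0H95.BF
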