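import Pool.Agent.D0H95.BF.Stm2

/-!
More statements for the elliptic Lagrange solutions (helper95, MP_5027f4_mp slot 4).
-/

set_option autoImplicit false

open Filter Topology Set
open Pool.Agent.W821.TB Pool.Agent.D0H95.NB

namespace Pool.Agent.D0H95.BF

/-- The transformed field. -/
noncomputable def zt (A e : ℝ) (Z : ℝ → ℂ) (u : ℝ) : ℂ := Z u / ell A e u

/-- Its derivative. -/
noncomputable def zt' (ν A e : ℝ) (Z V : ℝ → ℂ) (u : ℝ) : ℂ :=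
  V u * ((1 - e * Real.cos u : ℝ) : ℂ) / (ν * ell A e u) -
    (((e * Real.sin u : ℝ) : ℂ) + (Real.sqrt (1 - e ^ 2) : ℂ) * Complex.I) /
      ((1 - e * Real.cos u : ℝ) : ℂ) * zt A e Z u

/-- Module ZET. `r = 1 - e cos u`, `p = √(1 - e²)`, `q = e sin u + i p`, `ρ = ell A e u`.

Proof. `ρ' = ρ q / r` (since `q conj q = r (1 + e cos u)`, `ρ conj ρ = A² r²`), so `ζ = Z / ρ` has the
derivative `V r / (ν ρ) - (q / r) ζ`. `r ζ' = V r² / (ν ρ) - q ζ`; with `W = V r / (ν ρ) = ζ' + (q / r) ζ`,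
`r' = e sin u`: derivative `(1/2) ζ + κ conj ζ + W (2 r' - q) - q ζ' - e cos u ζ` (because
`ρ / (A² r²) = 1 / conj ρ`), `2 r' - q = e sin u - i p = conj q`; this is
`(1/2) ζ + κ conj ζ + ζ' (conj q - q) + (q conj q / r - e cos u) ζ`, the claim. -/
def S_ZET : Prop := ∀ (κ ν A e : ℝ), 0 < ν → 0 < A → |e| < 1 → ∀ Z V : ℝ → ℂ,
  (∀ u, HasDerivAt Z ((((1 - e * Real.cos u) / ν : ℝ) : ℂ) * V u) u) →
  (∀ u, HasDerivAt V (((ν / (1 - e * Real.cos u) ^ 2 : ℝ) : ℂ) *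
    (1 / 2 * Z u + κ * (ell A e u ^ 2 / (‖ell A e u‖ : ℂ) ^ 2) * (starRingEnd ℂ) (Z u))) u) →
  ∀ u, HasDerivAt (zt A e Z) (zt' ν A e Z V u) u ∧
    HasDerivAt (fun u => ((1 - e * Real.cos u : ℝ) : ℂ) * zt' ν A e Z V u)
      (3 / 2 * zt A e Z u + κ * (starRingEnd ℂ) (zt A e Z u) -
        2 * Real.sqrt (1 - e ^ 2) * Complex.I * zt' ν A e Z V u) u

/-- Module UNI.

Proof. Each `(0, u)` has a neighbourhood on which `F` is Lipschitz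
(`ContDiffAt.exists_lipschitzOnWith`); `IsCompact.induction_on` with the property
`∃ C δ, 0 < δ ∧ ∀ e, |e| < δ → ∀ u ∈ s, ‖F (e, u) - F (0, u)‖ ≤ C * |e|`. -/
def S_UNI : Prop := ∀ F : ℝ × ℝ → ℂ, (∀ u, ContDiffAt ℝ 1 F (0, u)) →
  ∃ C δ : ℝ, 0 < δ ∧ ∀ e, |e| < δ → ∀ u ∈ Icc (0:ℝ) (2 * Real.pi), ‖F (e, u) - F (0, u)‖ ≤ C * |e|

/-- Module TAY.

Proof. `α' 0 = 0` since `α e - α 0 = O(e²)`. Suppose `α'' 0 = 0`; then `|α' e| ≤ η |e|` for small `e`, so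
`|α e - α 0| ≤ η e²`, a contradiction for `η < |c| / 2`. So `α'' 0 ≠ 0` and `α' e ≠ 0` for `e ≠ 0` near `0`
(`HasDerivAt.eventually_ne`). -/
def S_TAY : Prop := ∀ (α : ℝ → ℝ) (c C : ℝ), ContDiffAt ℝ 2 α 0 → c ≠ 0 →
  (∀ᶠ e in 𝓝 (0:ℝ), |α e - α 0 - c * e ^ 2| ≤ C * |e| ^ 3) →
  ∀ᶠ e in 𝓝[≠] (0:ℝ), deriv α e ≠ 0

end Pool.Agent.D0H95.BF
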