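import Pool.Agent.D0H95.BF.Lag3
import Pool.Agent.D0H95.BF.Stm3
import Pool.Agent.D0H25.BF.CIRC

/-!
Elliptic Lagrange solutions: the transformed fields.
-/

set_option autoImplicit false

namespace Pool.Agent.D0H95.BF

open Pool.Agent.W821.TB Pool.Agent.D0H95.NB Finset Filter Topology

variable {m : Fin 3 → ℝ} {a b : Fin 3 → ℂ} {κ ν A : ℝ}

/-- The field and its velocity as functions of the eccentric anomaly. -/
noncomputable def Zf (P : Pk m) (a b : Fin 3 → ℂ) (ν A e : ℝ) (v : ℂ × ℂ) (u : ℝ) : ℂ :=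
  (wb P a b ν A e v (tK ν e u)).1

noncomputable def Vf (P : Pk m) (a b : Fin 3 → ℂ) (ν A e : ℝ) (v : ℂ × ℂ) (u : ℝ) : ℂ :=
  (wb P a b ν A e v (tK ν e u)).2

theorem tK_deriv (ν e u : ℝ) :
    HasDerivAt (tK ν e) ((1 - e * Real.cos u) / ν) u := by
  unfold tK
  exact ((hasDerivAt_id u).sub ((Real.hasDerivAt_sin u).const_mul e)).div_const ν

theorem Zf_deriv (h : LD m a b κ ν A) {P : Pk m} (hP : Good P a ν A) {e : ℝ} (he : |e| ≤ 1 / 2)
    (v : ℂ × ℂ) (u : ℝ) :
    HasDerivAt (Zf P a b ν A e v)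
      ((((1 - e * Real.cos u) / ν : ℝ) : ℂ) * Vf P a b ν A e v u) u ∧
    HasDerivAt (Vf P a b ν A e v) (((ν / (1 - e * Real.cos u) ^ 2 : ℝ) : ℂ) *
      (1 / 2 * Zf P a b ν A e v u + κ * (ell A e u ^ 2 / (‖ell A e u‖ : ℂ) ^ 2) *
        (starRingEnd ℂ) (Zf P a b ν A e v u))) u := by
  have he1 : |e| < 1 := by linarith
  have hν := h.hν
  have hA := h.hA
  have h1 := wb_deriv h hP he v (tK ν e u)
  rw [uK_tK hν hA he1] at h1
  have h2 := tK_deriv ν e u
  have h3 : HasDerivAt (fun u => wb P a b ν A e v (tK ν e u))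
      (((1 - e * Real.cos u) / ν) •
        Fb κ (m 0 + m 1 + m 2) (ell A e u) (wb P a b ν A e v (tK ν e u))) u :=
    HasDerivAt.scomp u h1 h2
  have hr := r_pos he1 u
  have hn := (kepler hν hA he1).1 u
  constructor
  · have h4 : HasDerivAt (fun u => (wb P a b ν A e v (tK ν e u)).1) _ u :=
      (ContinuousLinearMap.fst ℝ ℂ ℂ).hasFDerivAt.comp_hasDerivAt u h3
    exact h4
  · have h4 : HasDerivAt (fun u => (wb P a b ν A e v (tK ν e u)).2) _ u :=
      (ContinuousLinearMap.snd ℝ ℂ ℂ).hasFDerivAt.comp_hasDerivAt u h3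
    refine h4.congr_deriv ?_
    change (((1 - e * Real.cos u) / ν : ℝ) : ℝ) • (((((m 0 + m 1 + m 2) / ‖ell A e u‖ ^ 3 : ℝ) : ℂ)) *
      (1 / 2 * Zf P a b ν A e v u + κ * (ell A e u ^ 2 / (‖ell A e u‖ : ℂ) ^ 2) *
        (starRingEnd ℂ) (Zf P a b ν A e v u))) = _
    rw [Complex.real_smul, ← mul_assoc, ← Complex.ofReal_mul]
    congr 2
    rw [← h.hM, hn]
    field_simp

/-- The complexified transformed fields. -/
noncomputable def XA (P : Pk m) (a b : Fin 3 → ℂ) (ν A e : ℝ) (p r : ℂ × ℂ) (u : ℝ) : ℂ :=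
  zt A e (Zf P a b ν A e p) u + Complex.I * zt A e (Zf P a b ν A e r) u

noncomputable def XA' (P : Pk m) (a b : Fin 3 → ℂ) (ν A e : ℝ) (p r : ℂ × ℂ) (u : ℝ) : ℂ :=
  zt' ν A e (Zf P a b ν A e p) (Vf P a b ν A e p) u +
    Complex.I * zt' ν A e (Zf P a b ν A e r) (Vf P a b ν A e r) u

noncomputable def XB (P : Pk m) (a b : Fin 3 → ℂ) (ν A e : ℝ) (p r : ℂ × ℂ) (u : ℝ) : ℂ :=
  (starRingEnd ℂ) (zt A e (Zf P a b ν A e p) u) +
    Complex.I * (starRingEnd ℂ) (zt A e (Zf P a b ν A e r) u)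

noncomputable def XB' (P : Pk m) (a b : Fin 3 → ℂ) (ν A e : ℝ) (p r : ℂ × ℂ) (u : ℝ) : ℂ :=
  (starRingEnd ℂ) (zt' ν A e (Zf P a b ν A e p) (Vf P a b ν A e p) u) +
    Complex.I * (starRingEnd ℂ) (zt' ν A e (Zf P a b ν A e r) (Vf P a b ν A e r) u)

theorem conj_hd {f : ℝ → ℂ} {f' : ℂ} {u : ℝ} (h : HasDerivAt f f' u) :
    HasDerivAt (fun u => (starRingEnd ℂ) (f u)) ((starRingEnd ℂ) f') u := by
  have := (Complex.conjCLE.toContinuousLinearMap.hasFDerivAt (x := f u)).comp_hasDerivAt u h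
  exact this

theorem cx (hZET : S_ZET) (h : LD m a b κ ν A) {P : Pk m} (hP : Good P a ν A) {e : ℝ}
    (he : |e| ≤ 1 / 2) (p r : ℂ × ℂ) (u : ℝ) :
    HasDerivAt (XA P a b ν A e p r) (XA' P a b ν A e p r u) u ∧
    HasDerivAt (XB P a b ν A e p r) (XB' P a b ν A e p r u) u ∧
    HasDerivAt (fun u => ((1 - e * Real.cos u : ℝ) : ℂ) * XA' P a b ν A e p r u)
      (3 / 2 * XA P a b ν A e p r u + κ * XB P a b ν A e p r u -
        2 * Real.sqrt (1 - e ^ 2) * Complex.I * XA' P a b ν A e p r u) u ∧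
    HasDerivAt (fun u => ((1 - e * Real.cos u : ℝ) : ℂ) * XB' P a b ν A e p r u)
      (3 / 2 * XB P a b ν A e p r u + κ * XA P a b ν A e p r u +
        2 * Real.sqrt (1 - e ^ 2) * Complex.I * XB' P a b ν A e p r u) u := by
  have he1 : |e| < 1 := by linarith
  obtain ⟨k1, k2⟩ := hZET κ ν A e h.hν h.hA he1 (Zf P a b ν A e p) (Vf P a b ν A e p)
    (fun u => (Zf_deriv h hP he p u).1) (fun u => (Zf_deriv h hP he p u).2) u
  obtain ⟨k3, k4⟩ := hZET κ ν A e h.hν h.hA he1 (Zf P a b ν A e r) (Vf P a b ν A e r)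
    (fun u => (Zf_deriv h hP he r u).1) (fun u => (Zf_deriv h hP he r u).2) u
  refine ⟨k1.add (k3.const_mul _), (conj_hd k1).add ((conj_hd k3).const_mul _), ?_, ?_⟩
  · have h1 := k2.add (k4.const_mul Complex.I)
    have h2 : (fun u => ((1 - e * Real.cos u : ℝ) : ℂ) * XA' P a b ν A e p r u) =
        (fun u => ((1 - e * Real.cos u : ℝ) : ℂ) *
          zt' ν A e (Zf P a b ν A e p) (Vf P a b ν A e p) u) +
        fun u => Complex.I * (((1 - e * Real.cos u : ℝ) : ℂ) *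
          zt' ν A e (Zf P a b ν A e r) (Vf P a b ν A e r) u) := by
      funext u
      unfold XA'
      simp only [Pi.add_apply]
      ring
    rw [h2]
    refine h1.congr_deriv ?_
    unfold XA XA' XB
    ring
  · have h1 := (conj_hd k2).add ((conj_hd k4).const_mul Complex.I)
    have h2 : (fun u => ((1 - e * Real.cos u : ℝ) : ℂ) * XB' P a b ν A e p r u) =
        (fun u => (starRingEnd ℂ) (((1 - e * Real.cos u : ℝ) : ℂ) *
          zt' ν A e (Zf P a b ν A e p) (Vf P a b ν A e p) u)) +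
        fun u => Complex.I * (starRingEnd ℂ) (((1 - e * Real.cos u : ℝ) : ℂ) *
          zt' ν A e (Zf P a b ν A e r) (Vf P a b ν A e r) u) := by
      funext u
      unfold XB'
      simp only [Pi.add_apply, map_mul, Complex.conj_ofReal]
      ring
    rw [h2]
    refine h1.congr_deriv ?_
    unfold XA XB XB'
    simp only [map_add, map_sub, map_mul, Complex.conj_ofReal, Complex.conj_I, map_div₀, map_ofNat,
      Complex.conj_conj]
    ring

theorem tK_per (hν : 0 < ν) (e u : ℝ) : tK ν e (u + 2 * Real.pi) = tK ν e u + 2 * Real.pi / ν := by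
  unfold tK
  rw [Real.sin_add_two_pi]
  field_simp
  ring

theorem ell_per (e u : ℝ) : ell A e (u + 2 * Real.pi) = ell A e u := by
  unfold ell
  rw [Real.cos_add_two_pi, Real.sin_add_two_pi]

theorem cx_per (h : LD m a b κ ν A) {P : Pk m} (hP : Good P a ν A) {e : ℝ}
    (he : |e| ≤ 1 / 2) {p r : ℂ × ℂ} {α : ℝ}
    (hp : Mb P a b ν A e p = Real.cos α • p - Real.sin α • r)
    (hr : Mb P a b ν A e r = Real.sin α • p + Real.cos α • r) (u : ℝ) :
    XA P a b ν A e p r (u + 2 * Real.pi) = Complex.exp (α * Complex.I) * XA P a b ν A e p r u ∧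
    XB P a b ν A e p r (u + 2 * Real.pi) = Complex.exp (α * Complex.I) * XB P a b ν A e p r u := by
  have hcos : Complex.exp (α * Complex.I) = (Real.cos α : ℂ) + (Real.sin α : ℂ) * Complex.I := by
    rw [Complex.exp_mul_I]
    push_cast
    rfl
  have e1 : zt A e (Zf P a b ν A e p) (u + 2 * Real.pi) =
      Real.cos α * zt A e (Zf P a b ν A e p) u - Real.sin α * zt A e (Zf P a b ν A e r) u := by
    unfold zt Zf
    rw [ell_per, tK_per h.hν, wb_per h hP he, hp, sub_aux (Real.cos α) (Real.sin α) p r, wb_add]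
    simp only [Prod.fst_add, Prod.smul_fst, Complex.real_smul]
    push_cast
    ring
  have e2 : zt A e (Zf P a b ν A e r) (u + 2 * Real.pi) =
      Real.sin α * zt A e (Zf P a b ν A e p) u + Real.cos α * zt A e (Zf P a b ν A e r) u := by
    unfold zt Zf
    rw [ell_per, tK_per h.hν, wb_per h hP he, hr, wb_add]
    simp only [Prod.fst_add, Prod.smul_fst, Complex.real_smul]
    ring
  rw [hcos]
  constructor
  · unfold XA
    rw [e1, e2]
    linear_combination (-(Real.sin α : ℂ) * zt A e (Zf P a b ν A e r) u) * Complex.I_sq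
  · unfold XB
    rw [e1, e2, map_sub, map_add, map_mul, map_mul, map_mul, map_mul, Complex.conj_ofReal,
      Complex.conj_ofReal]
    linear_combination (-(Real.sin α : ℂ) * (starRingEnd ℂ) (zt A e (Zf P a b ν A e r) u)) *
      Complex.I_sq

/-! ### The circular solution: simplicity -/

theorem wb_circ (h : LD m a b κ ν A) {P : Pk m} (hP : Good P a ν A) {l : ℝ}
    (hl : l ^ 4 - l ^ 2 + 9 / 4 - κ ^ 2 = 0) (c : ℂ) {t : ℝ} (ht : 0 ≤ t) :
    wb P a b ν A 0 (W0 κ l ν A c 0) t = W0 κ l ν A c t := by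
  have h1 := jac_b h hP (e := 0) (by norm_num) (w := W0 κ l ν A c)
    (fun t => W0_deriv h hl c t) ht
  unfold wb
  rw [h1, ioc_coe h.hb0, h.co_io]

theorem Mb_circ (h : LD m a b κ ν A) {P : Pk m} (hP : Good P a ν A) {l : ℝ}
    (hl : l ^ 4 - l ^ 2 + 9 / 4 - κ ^ 2 = 0) (c : ℂ) :
    Mb P a b ν A 0 (W0 κ l ν A c 0) =
      W0 κ l ν A (c * Complex.exp (2 * Real.pi * l * Complex.I)) 0 := by
  rw [Mb_apply, wb_circ h hP hl c (Tpos h).le]
  have := W0_per (A := A) l κ h.hν c 0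
  rw [zero_add] at this
  exact this

theorem circ_simple (hZET : S_ZET) (h : LD m a b κ ν A) {P : Pk m} (hP : Good P a ν A) {l : ℝ}
    (h0 : 0 < l) (h1 : l < 1) (h2 : 4 * l ^ 2 ≠ 1) (h3 : 2 * l ^ 2 ≠ 1)
    (hl : l ^ 4 - l ^ 2 + 9 / 4 - κ ^ 2 = 0) {x y : ℂ × ℂ}
    (hx : Mb P a b ν A 0 x = Real.cos (2 * Real.pi * l) • x - Real.sin (2 * Real.pi * l) • y)
    (hy : Mb P a b ν A 0 y = Real.sin (2 * Real.pi * l) • x + Real.cos (2 * Real.pi * l) • y) :
    ∃ c d : ℝ, x = c • W0 κ l ν A 1 0 - d • W0 κ l ν A (-Complex.I) 0 ∧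
      y = d • W0 κ l ν A 1 0 + c • W0 κ l ν A (-Complex.I) 0 := by
  have hν := h.hν
  have hA := h.hA
  have hAc : (A : ℂ) ≠ 0 := by exact_mod_cast hA.ne'
  have he0 : |(0:ℝ)| ≤ 1 / 2 := by norm_num
  have hone : ∀ u : ℝ, ((1 - 0 * Real.cos u : ℝ) : ℂ) = 1 := by
    intro u; push_cast; ring
  have hsq : ((Real.sqrt (1 - (0:ℝ) ^ 2) : ℝ) : ℂ) = 1 := by norm_num
  have hper := fun u => cx_per h hP he0 hx hy u
  have hexp : (((2 * Real.pi * l : ℝ) : ℂ) * Complex.I) = 2 * Real.pi * l * Complex.I := by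
    push_cast; ring
  obtain ⟨c, hc⟩ := Pool.Agent.D0H25.BF.t_CIRC κ l (XA P a b ν A 0 x y) (XA' P a b ν A 0 x y)
    (XB P a b ν A 0 x y) (XB' P a b ν A 0 x y) h0 h1 h2 h3 hl (fun u => by
      obtain ⟨k1, k2, k3, k4⟩ := cx hZET h hP he0 x y u
      simp only [hone, one_mul, hsq, mul_one] at k3 k4
      obtain ⟨k5, k6⟩ := hper u
      rw [hexp] at k5 k6
      exact ⟨k1, k2, k3, k4, k5, k6⟩)
  -- the first components
  have hell : ∀ u : ℝ, ell A 0 u = A * Complex.exp (u * Complex.I) := fun u => ell_circ A u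
  have hellne : ∀ u : ℝ, ell A 0 u ≠ 0 := fun u => ell_ne hν hA (by norm_num) u
  have hcj : ∀ u : ℝ, (starRingEnd ℂ) (Complex.exp (l * u * Complex.I)) =
      Complex.exp (-(l * u * Complex.I)) := by
    intro u
    rw [← Complex.exp_conj]
    congr 1
    rw [map_mul, map_mul, Complex.conj_ofReal, Complex.conj_ofReal, Complex.conj_I]
    ring
  have hs : (starRingEnd ℂ) ((l : ℂ) ^ 2 + 2 * l + 3 / 2) = (l : ℂ) ^ 2 + 2 * l + 3 / 2 := by
    simp only [map_add, map_mul, map_pow, Complex.conj_ofReal, map_div₀, map_ofNat]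
  have hzx : ∀ u : ℝ, zt A 0 (Zf P a b ν A 0 x) u = 1 / 2 * (c * κ * Complex.exp (l * u * Complex.I) -
      (starRingEnd ℂ) c * (l ^ 2 + 2 * l + 3 / 2) * Complex.exp (-(l * u * Complex.I))) := by
    intro u
    obtain ⟨k1, k2⟩ := hc u
    have k3 := congrArg (starRingEnd ℂ) k2
    unfold XA at k1
    unfold XB at k3
    rw [map_mul, map_mul, map_neg, hcj, hs, map_add, map_mul, Complex.conj_conj, Complex.conj_conj,
      Complex.conj_I] at k3
    linear_combination 1 / 2 * k1 + 1 / 2 * k3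
  have hzy : ∀ u : ℝ, zt A 0 (Zf P a b ν A 0 y) u = 1 / 2 * ((-Complex.I * c) * κ *
      Complex.exp (l * u * Complex.I) - (starRingEnd ℂ) (-Complex.I * c) *
        (l ^ 2 + 2 * l + 3 / 2) * Complex.exp (-(l * u * Complex.I))) := by
    intro u
    obtain ⟨k1, k2⟩ := hc u
    have k3 := congrArg (starRingEnd ℂ) k2
    unfold XA at k1
    unfold XB at k3
    rw [map_mul, map_mul, map_neg, hcj, hs, map_add, map_mul, Complex.conj_conj, Complex.conj_conj,
      Complex.conj_I] at k3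
    rw [map_mul, map_neg, Complex.conj_I]
    linear_combination (-Complex.I / 2) * k1 + (Complex.I / 2) * k3 +
      (zt A 0 (Zf P a b ν A 0 y) u) * Complex.I_sq
  have hW : ∀ (v : ℂ × ℂ) (c : ℂ), (∀ u : ℝ, zt A 0 (Zf P a b ν A 0 v) u =
      1 / 2 * (c * κ * Complex.exp (l * u * Complex.I) -
      (starRingEnd ℂ) c * (l ^ 2 + 2 * l + 3 / 2) * Complex.exp (-(l * u * Complex.I)))) →
      v = W0 κ l ν A c 0 := by
    intro v c hv
    have h5 : ∀ t : ℝ, (wb P a b ν A 0 v t).1 = (W0 κ l ν A c t).1 := by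
      intro t
      have h6 := hv (ν * t)
      unfold zt Zf at h6
      have h7 : tK ν 0 (ν * t) = t := by
        unfold tK
        rw [zero_mul, sub_zero, mul_div_cancel_left₀ _ hν.ne']
      rw [h7, div_eq_iff (hellne _), hell] at h6
      rw [h6]
      unfold W0
      simp only
      have e1 : Complex.exp (((ν * t : ℝ) : ℂ) * Complex.I) * Complex.exp (l * ((ν * t : ℝ) : ℂ) * Complex.I) =
          Complex.exp ((1 + l) * (ν * t) * Complex.I) := by
        rw [← Complex.exp_add]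
        congr 1
        push_cast
        ring
      have e2 : Complex.exp (((ν * t : ℝ) : ℂ) * Complex.I) *
          Complex.exp (-(l * ((ν * t : ℝ) : ℂ) * Complex.I)) =
          Complex.exp ((1 - l) * (ν * t) * Complex.I) := by
        rw [← Complex.exp_add]
        congr 1
        push_cast
        ring
      rw [← e1, ← e2]
      ring
    have h8 : (wb P a b ν A 0 v 0).2 = (W0 κ l ν A c 0).2 := by
      have d1 : HasDerivAt (fun t => (wb P a b ν A 0 v t).1) _ 0 :=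
        (ContinuousLinearMap.fst ℝ ℂ ℂ).hasFDerivAt.comp_hasDerivAt 0 (wb_deriv h hP he0 v 0)
      have d2 : HasDerivAt (fun t => (W0 κ l ν A c t).1) _ 0 :=
        (ContinuousLinearMap.fst ℝ ℂ ℂ).hasFDerivAt.comp_hasDerivAt 0 (W0_deriv h hl c 0)
      have h9 : (fun t => (wb P a b ν A 0 v t).1) = fun t => (W0 κ l ν A c t).1 := funext h5
      rw [h9] at d1
      exact d1.unique d2
    have h10 := wb_zero h P 0 v
    rw [← h10]
    exact Prod.ext (h5 0) h8
  have hxW := hW x c hzx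
  have hyW := hW y (-Complex.I * c) hzy
  refine ⟨c.re, c.im, ?_, ?_⟩
  · rw [hxW, W0_lin]
  · rw [hyW, W0_lin]
    have e1 : (-Complex.I * c).re = c.im := by simp
    have e2 : (-Complex.I * c).im = -c.re := by simp
    rw [e1, e2, neg_smul, sub_neg_eq_add]

end Pool.Agent.D0H95.BF
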