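import Pool.Agent.D0H95.BF.Lag4

/-!
Elliptic Lagrange solutions: continuation of the pairs and their second order expansion.
-/

set_option autoImplicit false

namespace Pool.Agent.D0H95.BF

open Pool.Agent.W821.TB Pool.Agent.D0H95.NB Finset Filter Topology

variable {m : Fin 3 → ℝ} {a b : Fin 3 → ℂ} {κ ν A : ℝ}

theorem ome_io (m : Fin 3 → ℝ) (b : Fin 3 → ℂ) (x y : ℂ × ℂ) :
    ome m (io b x) (io b y) = (∑ j, m j * ‖b j‖ ^ 2) * (ip x.1 y.2 - ip y.1 x.2) := by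
  rw [io_apply, io_apply]
  unfold ome
  rw [Finset.sum_mul]
  refine Finset.sum_congr rfl fun j _ => ?_
  simp only [ip_eq, Complex.sq_norm, Complex.normSq_apply, Complex.mul_re, Complex.mul_im]
  ring

theorem om_circ (h : LD m a b κ ν A) {l : ℝ} (h0 : 0 < l) (h3 : 2 * l ^ 2 ≠ 1)
    (hl : l ^ 4 - l ^ 2 + 9 / 4 - κ ^ 2 = 0) :
    ome m (io b (W0 κ l ν A 1 0)) (io b (W0 κ l ν A (-Complex.I) 0)) ≠ 0 := by
  have hν := h.hν
  have hA := h.hA
  rw [ome_io]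
  have hN : 0 < ∑ j, m j * ‖b j‖ ^ 2 := by
    refine Finset.sum_pos (fun j _ => ?_) Finset.univ_nonempty
    have h3 := h.hm j
    have h4 : 0 < ‖b j‖ := norm_pos_iff.mpr (h.hb j)
    positivity
  have e1 : (W0 κ l ν A 1 0).1 = ((A / 2 * (κ - (l ^ 2 + 2 * l + 3 / 2)) : ℝ) : ℂ) := by
    unfold W0
    simp only [Complex.ofReal_zero, mul_zero, zero_mul, Complex.exp_zero, map_one]
    push_cast
    ring
  have e2 : (W0 κ l ν A 1 0).2 = ((A * ν / 2 * (κ * (1 + l) - (l ^ 2 + 2 * l + 3 / 2) * (1 - l)) : ℝ) : ℂ)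
      * Complex.I := by
    unfold W0
    simp only [Complex.ofReal_zero, mul_zero, zero_mul, Complex.exp_zero, map_one]
    push_cast
    ring
  have e3 : (W0 κ l ν A (-Complex.I) 0).1 = ((- (A / 2 * (κ + (l ^ 2 + 2 * l + 3 / 2))) : ℝ) : ℂ) *
      Complex.I := by
    unfold W0
    simp only [Complex.ofReal_zero, mul_zero, zero_mul, Complex.exp_zero, map_neg, Complex.conj_I]
    push_cast
    ring
  have e4 : (W0 κ l ν A (-Complex.I) 0).2 =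
      ((A * ν / 2 * (κ * (1 + l) + (l ^ 2 + 2 * l + 3 / 2) * (1 - l)) : ℝ) : ℂ) := by
    unfold W0
    simp only [Complex.ofReal_zero, mul_zero, zero_mul, Complex.exp_zero, map_neg, Complex.conj_I]
    push_cast
    linear_combination (-(A * ν / 2 * (κ * (1 + l) + (l ^ 2 + 2 * l + 3 / 2) * (1 - l)) : ℂ)) *
      Complex.I_sq
  rw [e1, e2, e3, e4]
  have e5 : ip ((A / 2 * (κ - (l ^ 2 + 2 * l + 3 / 2)) : ℝ) : ℂ)
        ((A * ν / 2 * (κ * (1 + l) + (l ^ 2 + 2 * l + 3 / 2) * (1 - l)) : ℝ) : ℂ) -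
      ip (((- (A / 2 * (κ + (l ^ 2 + 2 * l + 3 / 2))) : ℝ) : ℂ) * Complex.I)
        (((A * ν / 2 * (κ * (1 + l) - (l ^ 2 + 2 * l + 3 / 2) * (1 - l)) : ℝ) : ℂ) * Complex.I) =
      A ^ 2 * ν / 2 * ((l ^ 2 + 2 * l + 3 / 2) * l * (2 * l ^ 2 - 1)) := by
    simp only [ip_eq, Complex.mul_re, Complex.mul_im, Complex.ofReal_re, Complex.ofReal_im,
      Complex.I_re, Complex.I_im]
    linear_combination (-(A ^ 2 * ν / 2 * (1 + l))) * hl
  rw [e5]
  have hs : 0 < l ^ 2 + 2 * l + 3 / 2 := by positivity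
  have h5 : 2 * l ^ 2 - 1 ≠ 0 := sub_ne_zero.mpr h3
  exact mul_ne_zero hN.ne' (mul_ne_zero (by positivity) (mul_ne_zero (by positivity) h5))

theorem cos_exp (α : ℝ) : Complex.exp (α * Complex.I) =
    (Real.cos α : ℂ) + (Real.sin α : ℂ) * Complex.I := by
  rw [Complex.exp_mul_I]
  push_cast
  rfl

/-- Continuation of the pairs from the circular solution. -/
theorem eig_b (hEIG : S_EIG) (hZET : S_ZET) (h : LD m a b κ ν A) {P : Pk m} (hP : Good P a ν A)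
    {l : ℝ} (h0 : 0 < l) (h1 : l < 1) (h2 : 4 * l ^ 2 ≠ 1) (h3 : 2 * l ^ 2 ≠ 1)
    (hl : l ^ 4 - l ^ 2 + 9 / 4 - κ ^ 2 = 0) :
    ∃ (p r : ℝ → ℂ × ℂ) (α : ℝ → ℝ), p 0 = W0 κ l ν A 1 0 ∧ r 0 = W0 κ l ν A (-Complex.I) 0 ∧
      α 0 = 2 * Real.pi * l ∧ ContDiffAt ℝ 2 p 0 ∧ ContDiffAt ℝ 2 r 0 ∧ ContDiffAt ℝ 2 α 0 ∧
      ∀ᶠ e in 𝓝 (0:ℝ),
        Mb P a b ν A e (p e) = Real.cos (α e) • p e - Real.sin (α e) • r e ∧
        Mb P a b ν A e (r e) = Real.sin (α e) • p e + Real.cos (α e) • r e := by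
  obtain ⟨ω, hω⟩ := exists_om m
  set ωb : ℂ × ℂ →L[ℝ] ℂ × ℂ →L[ℝ] ℝ :=
    ((ContinuousLinearMap.compL ℝ (ℂ × ℂ) (cm m) ℝ).flip (ioc m b)).comp (ω.comp (ioc m b)) with hωb
  have hωb' : ∀ x y, ωb x y = ome m (io b x) (io b y) := by
    intro x y
    change ω (ioc m b x) (ioc m b y) = _
    rw [hω, ioc_coe h.hb0, ioc_coe h.hb0]
  have hexp : (((2 * Real.pi * l : ℝ) : ℂ) * Complex.I) = 2 * Real.pi * l * Complex.I := by
    push_cast; ring
  have hce := cos_exp (2 * Real.pi * l)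
  rw [hexp] at hce
  have hball : ∀ᶠ e in 𝓝 (0:ℝ), |e| ≤ 1 / 2 := by
    filter_upwards [Metric.closedBall_mem_nhds (0:ℝ) (by norm_num : (0:ℝ) < 1 / 2)] with e he
    rwa [Metric.mem_closedBall, Real.dist_eq, sub_zero] at he
  obtain ⟨p, r, α, e1, e2, e3, e4, e5, e6, e7⟩ := hEIG (ℂ × ℂ) ωb (Mb P a b ν A)
    (W0 κ l ν A 1 0) (W0 κ l ν A (-Complex.I) 0) (2 * Real.pi * l) 2 (by norm_num)
    (by intro x y; rw [hωb', hωb']; exact ome_anti _ _)
    (by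
      filter_upwards [hball] with e he x y
      have k1 := D_ome P (hP e he).2.1 (Tpos h).le (ioc m b x) (ioc m b y)
      rw [Mb_jac h hP he, Mb_jac h hP he, ioc_coe h.hb0, ioc_coe h.hb0, ioc_coe h.hb0,
        ioc_coe h.hb0] at k1
      rw [hωb', hωb', k1])
    (Mb_cd P (by norm_num))
    (by
      have k1 : ∀ C S : ℝ, ((C : ℂ) + (S : ℂ) * Complex.I).re = C := by intro C S; simp
      have k2 : ∀ C S : ℝ, ((C : ℂ) + (S : ℂ) * Complex.I).im = S := by intro C S; simp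
      rw [Mb_circ h hP hl, one_mul, hce, W0_lin, k1, k2])
    (by
      rw [Mb_circ h hP hl, hce, W0_lin]
      have k1 : ∀ C S : ℝ, (-Complex.I * ((C : ℂ) + (S : ℂ) * Complex.I)).re = S := by
        intro C S; simp
      have k2 : ∀ C S : ℝ, (-Complex.I * ((C : ℂ) + (S : ℂ) * Complex.I)).im = -C := by
        intro C S; simp
      rw [k1, k2, neg_smul, sub_neg_eq_add])
    (by rw [hωb']; exact om_circ h h0 h3 hl)
    (fun x y hx hy => circ_simple hZET h hP h0 h1 h2 h3 hl hx hy)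
  exact ⟨p, r, α, e1, e2, e3, by exact_mod_cast e4, by exact_mod_cast e5, by exact_mod_cast e6, e7⟩

/-! ### Joint smoothness -/

theorem joint_cd (P : Pk m) :
    ContDiff ℝ 1 (fun q : ℝ × cm m × cm m => fderiv ℝ (P.g q.1) q.2.1 q.2.2) := by
  set Φ : ℝ × cm m → cm m := fun p => P.g p.1 p.2 with hΦ
  have hΦ2 : ContDiff ℝ 2 Φ := cdN P (N := 2) (by norm_num)
  have hD : ContDiff ℝ 1 (fderiv ℝ Φ) := hΦ2.fderiv_right (by norm_num)
  have h1 : (fun q : ℝ × cm m × cm m => fderiv ℝ (P.g q.1) q.2.1 q.2.2) =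
      fun q => fderiv ℝ Φ (q.1, q.2.1) (0, q.2.2) := by
    funext q
    have hin : HasFDerivAt (fun z : cm m => (q.1, z)) (ContinuousLinearMap.inr ℝ ℝ (cm m)) q.2.1 := by
      have := (ContinuousLinearMap.inr ℝ ℝ (cm m)).hasFDerivAt (x := q.2.1)
      have h4 := this.add_const ((q.1, (0 : cm m)) : ℝ × cm m)
      have h5 : (fun k : cm m => ContinuousLinearMap.inr ℝ ℝ (cm m) k + (q.1, 0)) =
          fun k => (q.1, k) := by
        funext k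
        simp
      rw [h5] at h4
      exact h4
    have hG : HasFDerivAt Φ (fderiv ℝ Φ (q.1, q.2.1)) (q.1, q.2.1) :=
      (hΦ2.differentiable (by norm_num) _).hasFDerivAt
    have h6 : HasFDerivAt (P.g q.1)
        ((fderiv ℝ Φ (q.1, q.2.1)).comp (ContinuousLinearMap.inr ℝ ℝ (cm m))) q.2.1 :=
      HasFDerivAt.comp q.2.1 (g := Φ) (f := fun z : cm m => (q.1, z)) hG hin
    rw [h6.fderiv]
    rfl
  rw [h1]
  have h2 : ContDiff ℝ 1 (fun q : ℝ × cm m × cm m => fderiv ℝ Φ (q.1, q.2.1)) :=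
    hD.comp (contDiff_fst.prodMk (contDiff_fst.comp contDiff_snd))
  exact h2.clm_apply (contDiff_const.prodMk (contDiff_snd.comp contDiff_snd))

theorem zt_cd (h : LD m a b κ ν A) (P : Pk m) {p : ℝ → ℂ × ℂ} (hp : ContDiffAt ℝ 2 p 0) (u : ℝ) :
    ContDiffAt ℝ 1 (fun q : ℝ × ℝ => zt A q.1 (Zf P a b ν A q.1 (p q.1)) q.2) (0, u) := by
  have h1 : ContDiffAt ℝ 1 (fun q : ℝ × ℝ => p q.1) (0, u) := by
    have hp1 : ContDiffAt ℝ 1 p ((fun q : ℝ × ℝ => q.1) (0, u)) := hp.of_le (by norm_num)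
    exact ContDiffAt.comp (0, u) (g := p) (f := fun q : ℝ × ℝ => q.1) hp1 contDiffAt_fst
  have h2 : ContDiffAt ℝ 1 (fun q : ℝ × ℝ => gam m a ν A q.1) (0, u) := by
    have hp1 : ContDiffAt ℝ 1 (gam m a ν A) ((fun q : ℝ × ℝ => q.1) (0, u)) := by
      exact_mod_cast gam_cd (N := 1) (e := 0) (by norm_num)
    exact ContDiffAt.comp (0, u) (g := gam m a ν A) (f := fun q : ℝ × ℝ => q.1) hp1 contDiffAt_fst
  have h3 : ContDiffAt ℝ 1 (fun q : ℝ × ℝ => tK ν q.1 q.2) (0, u) := by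
    unfold tK
    fun_prop
  have h4 : ContDiffAt ℝ 1 (fun q : ℝ × ℝ => ((tK ν q.1 q.2, gam m a ν A q.1,
      ioc m b (p q.1)) : ℝ × cm m × cm m)) (0, u) :=
    h3.prodMk (h2.prodMk ((ioc m b).contDiff.contDiffAt.comp (0, u) h1))
  have h5 : ContDiffAt ℝ 1 (fun q : ℝ × ℝ => fderiv ℝ (P.g (tK ν q.1 q.2)) (gam m a ν A q.1)
      (ioc m b (p q.1))) (0, u) :=
    ContDiffAt.comp (0, u) (g := fun q : ℝ × cm m × cm m => fderiv ℝ (P.g q.1) q.2.1 q.2.2)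
      (f := fun q : ℝ × ℝ => ((tK ν q.1 q.2, gam m a ν A q.1,
      ioc m b (p q.1)) : ℝ × cm m × cm m)) (joint_cd P).contDiffAt h4
  have h6 : ContDiffAt ℝ 1 (fun q : ℝ × ℝ => Zf P a b ν A q.1 (p q.1) q.2) (0, u) := by
    have h7 := ((co m b).comp (inc m)).contDiff.contDiffAt.comp (0, u) h5
    exact contDiff_fst.contDiffAt.comp (0, u) h7
  unfold zt
  have h8 : ContDiffAt ℝ 1 (fun q : ℝ × ℝ => ell A q.1 q.2) (0, u) := by
    exact_mod_cast ell_cd (N := 1) (e := 0) (by norm_num) u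
  have h9 : ContDiffAt ℝ 1 (fun q : ℝ × ℝ => (ell A q.1 q.2)⁻¹) (0, u) :=
    h8.inv (ell_ne h.hν h.hA (by norm_num) u)
  have h10 := h6.mul h9
  have h11 : (fun q : ℝ × ℝ => Zf P a b ν A q.1 (p q.1) q.2 / ell A q.1 q.2) =
      fun q : ℝ × ℝ => Zf P a b ν A q.1 (p q.1) q.2 * (ell A q.1 q.2)⁻¹ := by
    funext q
    rw [div_eq_mul_inv]
  rw [h11]
  exact h10

end Pool.Agent.D0H95.BF
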