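import Pool.Agent.D0H95.BF.Lag5

/-!
Elliptic Lagrange solutions: second order expansion of the multipliers.
-/

set_option autoImplicit false

namespace Pool.Agent.D0H95.BF

open Pool.Agent.W821.TB Pool.Agent.D0H95.NB Finset Filter Topology

variable {m : Fin 3 → ℝ} {a b : Fin 3 → ℂ} {κ ν A : ℝ}

theorem zt_circ (h : LD m a b κ ν A) {P : Pk m} (hP : Good P a ν A) {l : ℝ}
    (hl : l ^ 4 - l ^ 2 + 9 / 4 - κ ^ 2 = 0) (c : ℂ) {u : ℝ} (hu : 0 ≤ u) :
    zt A 0 (Zf P a b ν A 0 (W0 κ l ν A c 0)) u = 1 / 2 * (c * κ * Complex.exp (l * u * Complex.I) -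
      (starRingEnd ℂ) c * (l ^ 2 + 2 * l + 3 / 2) * Complex.exp (-(l * u * Complex.I))) := by
  have hν := h.hν
  have hA := h.hA
  have hνc : (ν : ℂ) ≠ 0 := by exact_mod_cast hν.ne'
  unfold zt Zf
  have h7 : tK ν 0 u = u / ν := by
    unfold tK
    rw [zero_mul, sub_zero]
  rw [h7, wb_circ h hP hl c (by positivity), div_eq_iff (ell_ne hν hA (by norm_num) u), ell_circ]
  unfold W0
  simp only
  have e1 : Complex.exp ((u : ℂ) * Complex.I) * Complex.exp (l * (u : ℂ) * Complex.I) =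
      Complex.exp ((1 + l) * (ν * ((u / ν : ℝ) : ℂ)) * Complex.I) := by
    rw [← Complex.exp_add]
    congr 1
    push_cast
    field_simp
  have e2 : Complex.exp ((u : ℂ) * Complex.I) * Complex.exp (-(l * (u : ℂ) * Complex.I)) =
      Complex.exp ((1 - l) * (ν * ((u / ν : ℝ) : ℂ)) * Complex.I) := by
    rw [← Complex.exp_add]
    congr 1
    push_cast
    field_simp
    ring
  rw [← e1, ← e2]
  ring

theorem X_circ (h : LD m a b κ ν A) {P : Pk m} (hP : Good P a ν A) {l : ℝ}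
    (hl : l ^ 4 - l ^ 2 + 9 / 4 - κ ^ 2 = 0) {u : ℝ} (hu : 0 ≤ u) :
    XA P a b ν A 0 (W0 κ l ν A 1 0) (W0 κ l ν A (-Complex.I) 0) u =
      κ * Complex.exp (l * u * Complex.I) ∧
    XB P a b ν A 0 (W0 κ l ν A 1 0) (W0 κ l ν A (-Complex.I) 0) u =
      -((l ^ 2 + 2 * l + 3 / 2) * Complex.exp (l * u * Complex.I)) := by
  have hcj : (starRingEnd ℂ) (Complex.exp (l * u * Complex.I)) =
      Complex.exp (-(l * u * Complex.I)) := by
    rw [← Complex.exp_conj]
    congr 1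
    rw [map_mul, map_mul, Complex.conj_ofReal, Complex.conj_ofReal, Complex.conj_I]
    ring
  have hcj' : (starRingEnd ℂ) (Complex.exp (-(l * u * Complex.I))) =
      Complex.exp (l * u * Complex.I) := by
    rw [← hcj, Complex.conj_conj]
  unfold XA XB
  rw [zt_circ h hP hl 1 hu, zt_circ h hP hl (-Complex.I) hu]
  constructor
  · simp only [map_one, map_neg, Complex.conj_I]
    linear_combination (-(1 / 2 * (κ * Complex.exp (l * u * Complex.I) +
      (l ^ 2 + 2 * l + 3 / 2) * Complex.exp (-(l * u * Complex.I))) : ℂ)) * Complex.I_sq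
  · simp only [map_one, map_neg, Complex.conj_I, map_mul, map_sub, map_add, map_div₀, map_pow,
      map_ofNat, Complex.conj_ofReal, hcj, hcj']
    linear_combination ((1 / 2 * (κ * Complex.exp (-(l * u * Complex.I)) +
      (l ^ 2 + 2 * l + 3 / 2) * Complex.exp (l * u * Complex.I)) : ℂ)) * Complex.I_sq

theorem alpha_exp (hPERT : S_PERT) (hUNI : S_UNI) (hTAY : S_TAY) (hZET : S_ZET)
    (h : LD m a b κ ν A) {P : Pk m} (hP : Good P a ν A)
    {l : ℝ} (h0 : 0 < l) (h1 : l < 1) (h2 : 4 * l ^ 2 ≠ 1) (h3 : 2 * l ^ 2 ≠ 1)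
    (hl : l ^ 4 - l ^ 2 + 9 / 4 - κ ^ 2 = 0) {p r : ℝ → ℂ × ℂ} {α : ℝ → ℝ}
    (hp0 : p 0 = W0 κ l ν A 1 0) (hr0 : r 0 = W0 κ l ν A (-Complex.I) 0)
    (hα0 : α 0 = 2 * Real.pi * l) (hp : ContDiffAt ℝ 2 p 0) (hr : ContDiffAt ℝ 2 r 0)
    (hα : ContDiffAt ℝ 2 α 0)
    (hrel : ∀ᶠ e in 𝓝 (0:ℝ),
        Mb P a b ν A e (p e) = Real.cos (α e) • p e - Real.sin (α e) • r e ∧
        Mb P a b ν A e (r e) = Real.sin (α e) • p e + Real.cos (α e) • r e) :
    ∀ᶠ e in 𝓝[≠] (0:ℝ), deriv α e ≠ 0 := by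
  have hpi := Real.pi_pos
  have h2pi : (0:ℝ) < 2 * Real.pi := by positivity
  -- uniform estimates
  have hA1 : ∀ u, ContDiffAt ℝ 1 (fun q : ℝ × ℝ => XA P a b ν A q.1 (p q.1) (r q.1) q.2) (0, u) :=
    fun u => (zt_cd h P hp u).add (contDiffAt_const.mul (zt_cd h P hr u))
  have hB1 : ∀ u, ContDiffAt ℝ 1 (fun q : ℝ × ℝ => XB P a b ν A q.1 (p q.1) (r q.1) q.2) (0, u) := by
    intro u
    have k1 := Complex.conjCLE.contDiff.contDiffAt.comp (0, u) (zt_cd h P hp u)
    have k2 := Complex.conjCLE.contDiff.contDiffAt.comp (0, u) (zt_cd h P hr u)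
    exact k1.add (contDiffAt_const.mul k2)
  obtain ⟨C1, δ1, hδ1, hC1⟩ := hUNI _ hA1
  obtain ⟨C2, δ2, hδ2, hC2⟩ := hUNI _ hB1
  simp only at hC1 hC2
  -- the angle
  have hαd : DifferentiableAt ℝ α 0 := hα.differentiableAt (by norm_num)
  obtain ⟨C3, hC3⟩ := hαd.isBigO_sub.bound
  obtain ⟨δ3, hδ3, hC3'⟩ := Metric.eventually_nhds_iff_ball.mp hC3
  obtain ⟨δ4, hδ4, hrel'⟩ := Metric.eventually_nhds_iff_ball.mp hrel
  set δ := min (min δ1 δ2) (min (min δ3 δ4) (1 / 2)) with hδ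
  have hδ0 : 0 < δ := by positivity
  have d1 : δ ≤ δ1 := (min_le_left _ _).trans (min_le_left _ _)
  have d2 : δ ≤ δ2 := (min_le_left _ _).trans (min_le_right _ _)
  have d3 : δ ≤ δ3 := (min_le_right _ _).trans ((min_le_left _ _).trans (min_le_left _ _))
  have d4 : δ ≤ δ4 := (min_le_right _ _).trans ((min_le_left _ _).trans (min_le_right _ _))
  have d5 : δ ≤ 1 / 2 := (min_le_right _ _).trans (min_le_right _ _)
  set C := max (max C1 C2) (|C3| / (2 * Real.pi)) with hC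
  have c1 : C1 ≤ C := (le_max_left _ _).trans (le_max_left _ _)
  have c2 : C2 ≤ C := (le_max_right _ _).trans (le_max_left _ _)
  have c3 : |C3| / (2 * Real.pi) ≤ C := le_max_right _ _
  obtain ⟨C', hC'⟩ := hPERT κ l δ C (fun e => α e / (2 * Real.pi))
    (fun e u => XA P a b ν A e (p e) (r e) u) (fun e u => XA' P a b ν A e (p e) (r e) u)
    (fun e u => XB P a b ν A e (p e) (r e) u) (fun e u => XB' P a b ν A e (p e) (r e) u)
    h0 h1 h2 h3 hl hδ0 (by linarith) (by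
      intro e he u
      have he2 : |e| ≤ 1 / 2 := he.le.trans d5
      obtain ⟨k1, k2, k3, k4⟩ := cx hZET h hP he2 (p e) (r e) u
      have hb : e ∈ Metric.ball (0:ℝ) δ4 := by
        rw [Metric.mem_ball, Real.dist_eq, sub_zero]
        exact lt_of_lt_of_le he d4
      obtain ⟨k5, k6⟩ := cx_per h hP he2 (hrel' e hb).1 (hrel' e hb).2 u
      have hex : (2 * Real.pi * ((α e / (2 * Real.pi) : ℝ) : ℂ) * Complex.I : ℂ) =
          (α e : ℂ) * Complex.I := by
        have : ((α e / (2 * Real.pi) : ℝ) : ℂ) = (α e : ℂ) / (2 * Real.pi) := by push_cast; rfl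
        rw [this]
        have hpc : (Real.pi : ℂ) ≠ 0 := by exact_mod_cast hpi.ne'
        field_simp
      refine ⟨k1, k2, k3, k4, ?_, ?_⟩
      · rw [hex]; exact k5
      · rw [hex]; exact k6) (by
      intro e he
      refine ⟨?_, fun u hu => ⟨?_, ?_⟩⟩
      · have hb : e ∈ Metric.ball (0:ℝ) δ3 := by
          rw [Metric.mem_ball, Real.dist_eq, sub_zero]
          exact lt_of_lt_of_le he d3
        have k1 := hC3' e hb
        rw [Real.norm_eq_abs, Real.norm_eq_abs, sub_zero, hα0] at k1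
        have k2 : α e / (2 * Real.pi) - l = (α e - 2 * Real.pi * l) / (2 * Real.pi) := by
          field_simp
        rw [k2, abs_div, abs_of_pos h2pi]
        calc |α e - 2 * Real.pi * l| / (2 * Real.pi) ≤ (|C3| * |e|) / (2 * Real.pi) := by
              refine div_le_div_of_nonneg_right (k1.trans ?_) h2pi.le
              exact mul_le_mul_of_nonneg_right (le_abs_self C3) (abs_nonneg e)
          _ = |C3| / (2 * Real.pi) * |e| := by ring
          _ ≤ C * |e| := mul_le_mul_of_nonneg_right c3 (abs_nonneg e)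
      · have k1 := hC1 e (lt_of_lt_of_le he d1) u hu
        rw [hp0, hr0, (X_circ h hP hl hu.1).1] at k1
        exact k1.trans (mul_le_mul_of_nonneg_right c1 (abs_nonneg e))
      · have k1 := hC2 e (lt_of_lt_of_le he d2) u hu
        rw [hp0, hr0, (X_circ h hP hl hu.1).2, sub_neg_eq_add] at k1
        exact k1.trans (mul_le_mul_of_nonneg_right c2 (abs_nonneg e)))
  set K := l * (6 * l ^ 2 - 7) * (l ^ 2 - 1) / (4 * (4 * l ^ 2 - 1) * (2 * l ^ 2 - 1)) with hK
  have hl2 : l ^ 2 < 1 := by nlinarith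
  have hK0 : K ≠ 0 := by
    rw [hK]
    refine div_ne_zero (mul_ne_zero (mul_ne_zero h0.ne' ?_) ?_) (mul_ne_zero (mul_ne_zero
      (by norm_num) (sub_ne_zero.mpr h2)) (sub_ne_zero.mpr h3))
    · intro hh; nlinarith
    · intro hh; nlinarith
  refine hTAY α (2 * Real.pi * K) (2 * Real.pi * C') hα (by positivity) ?_
  filter_upwards [hC'] with e he
  have k1 : α e - α 0 - 2 * Real.pi * K * e ^ 2 =
      2 * Real.pi * (α e / (2 * Real.pi) - l - K * e ^ 2) := by
    rw [hα0]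
    field_simp
  rw [k1, abs_mul, abs_of_pos h2pi]
  have k2 := mul_le_mul_of_nonneg_left he h2pi.le
  rw [mul_assoc (2 * Real.pi) C']
  exact k2

end Pool.Agent.D0H95.BF
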