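import Pool.Agent.D0H95.BF.Lag6

/-!
Elliptic Lagrange solutions of small eccentricity are not Lyapunov stable.
-/

set_option autoImplicit false

namespace Pool.Agent.D0H95.BF

open Pool.Agent.W821.TB Pool.Agent.D0H95.NB Finset Filter Topology

variable {m : Fin 3 → ℝ} {a b : Fin 3 → ℂ} {κ ν A : ℝ}

theorem LD.not_rel (h : LD m a b κ ν A) {e : ℝ} (he : |e| < 1) (hne : e ≠ 0) :
    ¬ IsRelEq (xe a ν A e) := by
  intro hr
  have hA := h.hA
  have hν := h.hν
  have h1 := hr (tK ν e Real.pi) 0 1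
  have key : ∀ t, ‖(xe a ν A e t).1 0 - (xe a ν A e t).1 1‖ = ‖ell A e (uK ν A e t)‖ := by
    intro t
    have e1 : (xe a ν A e t).1 0 - (xe a ν A e t).1 1 = ell A e (uK ν A e t) * (a 0 - a 1) := by
      unfold xe
      rw [io_apply]
      simp only
      ring
    rw [e1, norm_mul, h.ha 0 1 (by decide), mul_one]
  rw [key, key, uK_tK hν hA he, (uK_spec hν hA he).1, (kepler hν hA he).1, (kepler hν hA he).1,
    Real.cos_pi, Real.cos_zero] at h1
  have h2 := mul_left_cancel₀ hA.ne' h1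
  exact hne (by linarith)

theorem ang_io (m : Fin 3 → ℝ) (a : Fin 3 → ℂ) (w : ℂ × ℂ) :
    ang m (io a w) = (∑ j, m j * ‖a j‖ ^ 2) * ((starRingEnd ℂ) w.1 * w.2).im := by
  rw [io_apply]
  unfold ang
  rw [Finset.sum_mul]
  refine Finset.sum_congr rfl fun j _ => ?_
  simp only [Complex.sq_norm, Complex.normSq_apply, Complex.mul_re, Complex.mul_im,
    Complex.conj_re, Complex.conj_im]
  ring

theorem LD.ang_gam (h : LD m a b κ ν A) {e : ℝ} (he : |e| < 1) :
    ang m (gam m a ν A e : Ph 3) =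
      (∑ j, m j * ‖a j‖ ^ 2) * (A ^ 2 * ν * Real.sqrt (1 - e ^ 2)) := by
  have hr := r_pos he 0
  rw [Real.cos_zero, mul_one] at hr
  unfold gam
  rw [ioc_coe h.ha0, ang_io]
  congr 1
  have e1 : ell A e 0 = ((A * (1 - e) : ℝ) : ℂ) := by
    unfold ell
    rw [Real.cos_zero, Real.sin_zero]
    push_cast
    ring
  have e2 : ellv A ν e 0 = ((A * ν / (1 - e) * Real.sqrt (1 - e ^ 2) : ℝ) : ℂ) * Complex.I := by
    unfold ellv
    rw [Real.cos_zero, Real.sin_zero]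
    push_cast
    ring
  rw [e1, e2]
  simp only [Complex.conj_ofReal, Complex.mul_im, Complex.ofReal_re, Complex.ofReal_im,
    Complex.I_re, Complex.I_im, Complex.mul_re]
  field_simp
  ring

theorem LD.dL (h : LD m a b κ ν A) {e : ℝ} (he : |e| < 1) (hne : e ≠ 0) :
    ome m (Complex.I • (gam m a ν A e : Ph 3)) ((deriv (gam m a ν A) e : cm m) : Ph 3) ≠ 0 := by
  have hA := h.hA
  have hν := h.hν
  have hγc : ContDiffAt ℝ 1 (gam m a ν A) e := by exact_mod_cast gam_cd (N := 1) he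
  have hd1 : HasDerivAt (gam m a ν A) (deriv (gam m a ν A) e) e :=
    (hγc.differentiableAt one_ne_zero).hasDerivAt
  have hd2 : HasDerivAt (fun l => ((gam m a ν A l : cm m) : Ph 3))
      ((deriv (gam m a ν A) e : cm m) : Ph 3) e :=
    (inc m).hasFDerivAt.comp_hasDerivAt e hd1
  have hd3 : HasFDerivAt (ang m) (fderiv ℝ (ang m) (gam m a ν A e : Ph 3))
      ((fun l => ((gam m a ν A l : cm m) : Ph 3)) e) :=
    (contDiff_ang.differentiable one_ne_zero _).hasFDerivAt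
  have hd4 := hd3.comp_hasDerivAt e hd2
  rw [fderiv_ang] at hd4
  have hlt : e ^ 2 < 1 := by
    rw [← sq_abs]
    nlinarith [abs_nonneg e]
  have hsq : 0 < Real.sqrt (1 - e ^ 2) := Real.sqrt_pos.mpr (by linarith)
  have hd5 : HasDerivAt (fun e : ℝ => (∑ j, m j * ‖a j‖ ^ 2) * (A ^ 2 * ν * Real.sqrt (1 - e ^ 2)))
      ((∑ j, m j * ‖a j‖ ^ 2) * (A ^ 2 * ν * (-(2 * e) / (2 * Real.sqrt (1 - e ^ 2))))) e := by
    have k1 : HasDerivAt (fun e : ℝ => 1 - e ^ 2) (-(2 * e)) e := by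
      have := (hasDerivAt_pow 2 e).const_sub 1
      simpa using this
    exact ((k1.sqrt (by linarith)).const_mul _).const_mul _
  have hd6 : (ang m ∘ fun l => ((gam m a ν A l : cm m) : Ph 3)) =ᶠ[𝓝 e]
      fun e : ℝ => (∑ j, m j * ‖a j‖ ^ 2) * (A ^ 2 * ν * Real.sqrt (1 - e ^ 2)) := by
    have hb : ∀ᶠ l in 𝓝 e, |l| < 1 := continuous_abs.continuousAt.eventually_lt_const he
    filter_upwards [hb] with l hl
    exact h.ang_gam hl
  rw [(hd4.congr_of_eventuallyEq hd6.symm).unique hd5]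
  obtain ⟨j0, hj0⟩ := h.a_ne
  have hN : 0 < ∑ j, m j * ‖a j‖ ^ 2 := by
    refine Finset.sum_pos' (fun j _ => by have := (h.hm j).le; positivity)
      ⟨j0, Finset.mem_univ _, ?_⟩
    have h3 := h.hm j0
    have h4 : 0 < ‖a j0‖ := norm_pos_iff.mpr hj0
    positivity
  refine mul_ne_zero hN.ne' (mul_ne_zero (by positivity) (div_ne_zero ?_ (by positivity)))
  intro hh
  exact hne (by linarith)

theorem sin_ne {l : ℝ} (h0 : 0 < l) (h1 : l < 1) (h2 : 4 * l ^ 2 ≠ 1) :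
    Real.sin (2 * Real.pi * l) ≠ 0 := by
  intro hs
  obtain ⟨n, hn⟩ := Real.sin_eq_zero_iff.mp hs
  have hpi := Real.pi_pos
  have h3 : (n : ℝ) = 2 * l := by
    have : (n : ℝ) * Real.pi = (2 * l) * Real.pi := by rw [hn]; ring
    exact mul_right_cancel₀ hpi.ne' this
  have h4 : 0 < n := by
    have : (0:ℝ) < n := by rw [h3]; linarith
    exact_mod_cast this
  have h5 : n < 2 := by
    have : (n:ℝ) < 2 := by rw [h3]; linarith
    exact_mod_cast this
  have h6 : n = 1 := by omega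
  rw [h6] at h3
  apply h2
  have : l = 1 / 2 := by push_cast at h3; linarith
  rw [this]; norm_num

theorem cos_ne {l1 l2 : ℝ} (h0 : 0 < l1) (h1 : l1 < 1) (h0' : 0 < l2) (h1' : l2 < 1)
    (hne : l1 ≠ l2) (hsum : l1 ^ 2 + l2 ^ 2 = 1) :
    Real.cos (2 * Real.pi * l1) ≠ Real.cos (2 * Real.pi * l2) := by
  intro hs
  have hpi := Real.pi_pos
  obtain ⟨k, hk⟩ := Real.cos_eq_cos_iff.mp hs
  rcases hk with hk | hk
  · have h3 : l2 = k + l1 := by
      have : (2 * Real.pi) * l2 = (2 * Real.pi) * (k + l1) := by rw [hk]; ring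
      exact mul_left_cancel₀ (by positivity) this
    have h4 : (-1 : ℝ) < k := by linarith
    have h5 : (k : ℝ) < 1 := by linarith
    have h6 : (-1 : ℤ) < k := by exact_mod_cast h4
    have h7 : k < 1 := by exact_mod_cast h5
    have h8 : k = 0 := by omega
    rw [h8] at h3
    apply hne
    push_cast at h3
    linarith
  · have h3 : l2 = k - l1 := by
      have : (2 * Real.pi) * l2 = (2 * Real.pi) * (k - l1) := by rw [hk]; ring
      exact mul_left_cancel₀ (by positivity) this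
    have h4 : (0 : ℝ) < k := by linarith
    have h5 : (k : ℝ) < 2 := by linarith
    have h6 : (0 : ℤ) < k := by exact_mod_cast h4
    have h7 : k < 2 := by exact_mod_cast h5
    have h8 : k = 1 := by omega
    rw [h8] at h3
    push_cast at h3
    have h9 : l1 * l2 = 0 := by nlinarith
    rcases mul_eq_zero.mp h9 with h | h <;> linarith

/-- The conclusion for one value of the data. -/
theorem LD.unstable (hBU : S_BU) (hNT : S_NT) (hEIG : S_EIG) (hPERT : S_PERT) (hUNI : S_UNI)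
    (hTAY : S_TAY) (hZET : S_ZET) (h : LD m a b κ ν A) {l1 l2 : ℝ} (h0 : 0 < l1) (h1 : l1 < 1)
    (h2 : 4 * l1 ^ 2 ≠ 1) (h3 : 2 * l1 ^ 2 ≠ 1) (hl : l1 ^ 4 - l1 ^ 2 + 9 / 4 - κ ^ 2 = 0)
    (h0' : 0 < l2) (h1' : l2 < 1)
    (h2' : 4 * l2 ^ 2 ≠ 1) (h3' : 2 * l2 ^ 2 ≠ 1) (hl' : l2 ^ 4 - l2 ^ 2 + 9 / 4 - κ ^ 2 = 0)
    (hsum : l1 ^ 2 + l2 ^ 2 = 1) :
    ∀ᶠ e in 𝓝[≠] (0:ℝ), ¬ LyapunovStable m (Set.range (xe a ν A e)) := by
  obtain ⟨P, hP⟩ := h.pk
  have hP' : Good P a ν A := hP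
  obtain ⟨p1, r1, α1, e1, e2, e3, e4, e5, e6, e7⟩ := eig_b hEIG hZET h hP' h0 h1 h2 h3 hl
  obtain ⟨p2, r2, α2, f1, f2, f3, f4, f5, f6, f7⟩ := eig_b hEIG hZET h hP' h0' h1' h2' h3' hl'
  have hder := alpha_exp hPERT hUNI hTAY hZET h hP' h0 h1 h2 h3 hl e1 e2 e3 e4 e5 e6 e7
  obtain ⟨ω, hω⟩ := exists_om m
  have hne12 : l1 ≠ l2 := by
    rintro rfl
    exact h3 (by linarith)
  -- near zero
  have hωc : ∀ {p r : ℝ → ℂ × ℂ}, ContDiffAt ℝ 2 p 0 → ContDiffAt ℝ 2 r 0 →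
      ome m (io b (p 0)) (io b (r 0)) ≠ 0 → ∀ᶠ e in 𝓝 (0:ℝ),
      ome m ((ioc m b (p e) : cm m) : Ph 3) ((ioc m b (r e) : cm m) : Ph 3) ≠ 0 := by
    intro p r hp hr hne
    have k1 : ContinuousAt (fun e => ω (ioc m b (p e)) (ioc m b (r e))) 0 := by
      have k2 : ContinuousAt (fun e => ioc m b (p e)) 0 :=
        (ioc m b).continuous.continuousAt.comp hp.continuousAt
      have k3 : ContinuousAt (fun e => ioc m b (r e)) 0 :=
        (ioc m b).continuous.continuousAt.comp hr.continuousAt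
      exact (ω.continuous.continuousAt.comp k2).clm_apply k3
    have k4 : (fun e => ω (ioc m b (p e)) (ioc m b (r e))) = fun e =>
        ome m ((ioc m b (p e) : cm m) : Ph 3) ((ioc m b (r e) : cm m) : Ph 3) :=
      funext fun e => hω _ _
    rw [k4] at k1
    refine k1.eventually_ne ?_
    rw [ioc_coe h.hb0, ioc_coe h.hb0]
    exact hne
  have hw1 := hωc e4 e5 (by rw [e1, e2]; exact om_circ h h0 h3 hl)
  have hw2 := hωc f4 f5 (by rw [f1, f2]; exact om_circ h h0' h3' hl')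
  have hs1 : ∀ᶠ e in 𝓝 (0:ℝ), Real.sin (α1 e) ≠ 0 :=
    (Real.continuous_sin.continuousAt.comp e6.continuousAt).eventually_ne (by
      change Real.sin (α1 0) ≠ 0
      rw [e3]; exact sin_ne h0 h1 h2)
  have hs2 : ∀ᶠ e in 𝓝 (0:ℝ), Real.sin (α2 e) ≠ 0 :=
    (Real.continuous_sin.continuousAt.comp f6.continuousAt).eventually_ne (by
      change Real.sin (α2 0) ≠ 0
      rw [f3]; exact sin_ne h0' h1' h2')
  have hcc : ∀ᶠ e in 𝓝 (0:ℝ), Real.cos (α1 e) ≠ Real.cos (α2 e) := by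
    have k1 : ContinuousAt (fun e => Real.cos (α1 e) - Real.cos (α2 e)) 0 :=
      (Real.continuous_cos.continuousAt.comp e6.continuousAt).sub
        (Real.continuous_cos.continuousAt.comp f6.continuousAt)
    filter_upwards [k1.eventually_ne (by
      rw [e3, f3]
      exact sub_ne_zero.mpr (cos_ne h0 h1 h0' h1' hne12 hsum))] with e he
    exact sub_ne_zero.mp he
  have hball : ∀ᶠ e in 𝓝 (0:ℝ), |e| < 1 / 2 := by
    filter_upwards [Metric.ball_mem_nhds (0:ℝ) (by norm_num : (0:ℝ) < 1 / 2)] with e he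
    rwa [Metric.mem_ball, Real.dist_eq, sub_zero] at he
  have hcdj : ∀ {g : ℝ → ℂ × ℂ} {e : ℝ}, ContDiffAt ℝ 2 g e →
      ContDiffAt ℝ 1 (fun e => ioc m b (g e)) e := by
    intro g e hg
    have k1 : ContDiffAt ℝ 1 g e := hg.of_le (by norm_num)
    exact (ioc m b).contDiff.contDiffAt.comp e k1
  have hrelj : ∀ {p r : ℝ → ℂ × ℂ} {α : ℝ → ℝ} {e : ℝ}, |e| < 1 / 2 → (∀ᶠ e in 𝓝 e,
        Mb P a b ν A e (p e) = Real.cos (α e) • p e - Real.sin (α e) • r e ∧
        Mb P a b ν A e (r e) = Real.sin (α e) • p e + Real.cos (α e) • r e) →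
      ∀ᶠ l in 𝓝 e,
      fderiv ℝ (P.g (2 * Real.pi / ν)) (gam m a ν A l) (ioc m b (p l)) =
        (1:ℂ) • (Real.cos (α l) • ioc m b (p l) - Real.sin (α l) • ioc m b (r l)) ∧
      fderiv ℝ (P.g (2 * Real.pi / ν)) (gam m a ν A l) (ioc m b (r l)) =
        (1:ℂ) • (Real.sin (α l) • ioc m b (p l) + Real.cos (α l) • ioc m b (r l)) := by
    intro p r α e he hrel
    have hb : ∀ᶠ l in 𝓝 e, |l| < 1 / 2 := continuous_abs.continuousAt.eventually_lt_const he
    filter_upwards [hrel, hb] with l hl1 hl2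
    rw [Mb_jac h hP' hl2.le, Mb_jac h hP' hl2.le, hl1.1, hl1.2, one_smul, one_smul, map_sub,
      map_smul, map_smul, map_add, map_smul, map_smul]
    exact ⟨rfl, rfl⟩
  have hnz : ∀ᶠ e in 𝓝[≠] (0:ℝ), e ≠ 0 := self_mem_nhdsWithin
  filter_upwards [hder, hnz, nhdsWithin_le_nhds hball, nhdsWithin_le_nhds hw1,
    nhdsWithin_le_nhds hw2, nhdsWithin_le_nhds hs1, nhdsWithin_le_nhds hs2,
    nhdsWithin_le_nhds hcc, nhdsWithin_le_nhds (e4.eventually (by norm_num)),
    nhdsWithin_le_nhds (e5.eventually (by norm_num)),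
    nhdsWithin_le_nhds (e6.eventually (by norm_num)),
    nhdsWithin_le_nhds (f4.eventually (by norm_num)),
    nhdsWithin_le_nhds (f5.eventually (by norm_num)),
    nhdsWithin_le_nhds (f6.eventually (by norm_num)),
    nhdsWithin_le_nhds e7.eventually_nhds, nhdsWithin_le_nhds f7.eventually_nhds]
    with e g1 g2 g3 g4 g5 g6 g7 g8 g9 g10 g11 g12 g13 g14 g15 g16
  intro hst
  have he1 : |e| < 1 := by linarith
  have hb : ∀ᶠ l in 𝓝 e, |l| < 1 / 2 := continuous_abs.continuousAt.eventually_lt_const g3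
  have hcore := core hBU hNT h.hm (h.xe_sol he1) (h.not_rel he1 g2) hst (P := P) (Tpos h)
    (c := 1) (by simp) (γ := gam m a ν A) (p1 := fun l => ioc m b (p1 l))
    (r1 := fun l => ioc m b (r1 l)) (p2 := fun l => ioc m b (p2 l))
    (r2 := fun l => ioc m b (r2 l)) (α1 := α1) (α2 := α2) (l0 := e) (hP e g3.le).1
    (by
      filter_upwards [hb] with l hl
      refine ⟨?_, (hP l hl.le).2.1, ?_⟩
      · exact_mod_cast gam_cd (N := 1) (e := l) (by linarith)
      · rw [one_smul]; exact (hP l hl.le).2.2)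
    (h.dL he1 g2) (hcdj g9) (hcdj g10) (g11.of_le (by norm_num)) (hcdj g12) (hcdj g13)
    (g14.of_le (by norm_num)) (hrelj g3 g15) (hrelj g3 g16) g4 g5 g6 g7 g8
  apply g1
  have hconst : α1 =ᶠ[𝓝 e] fun _ => α1 e := hcore.mono fun l hl => hl.1
  rw [hconst.deriv_eq, deriv_const]

end Pool.Agent.D0H95.BF
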