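import Pool.Agent.D0H95.BF.Lag7

/-!
Elliptic Lagrange solutions: scaling and the final statement.
-/

set_option autoImplicit false

namespace Pool.Agent.D0H95.BF

open Pool.Agent.W821.TB Pool.Agent.D0H95.NB Finset Filter Topology

/-- The scaling of the phase space. -/
noncomputable def sg (μ : ℝ) (z : Ph 3) : Ph 3 := (μ ^ 2 • z.1, μ⁻¹ • z.2)

theorem sg_cont (μ : ℝ) : Continuous (sg μ) := by
  unfold sg
  fun_prop

theorem sg_inv {μ : ℝ} (hμ : μ ≠ 0) (z : Ph 3) : sg μ (sg μ⁻¹ z) = z := by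
  unfold sg
  refine Prod.ext ?_ ?_
  · simp only [smul_smul]
    rw [← mul_pow, mul_inv_cancel₀ hμ, one_pow, one_smul]
  · simp only [smul_smul]
    rw [mul_inv_cancel₀ (inv_ne_zero hμ), one_smul]

theorem sg_inv' {μ : ℝ} (hμ : μ ≠ 0) (z : Ph 3) : sg μ⁻¹ (sg μ z) = z := by
  have := sg_inv (inv_ne_zero hμ) z
  rwa [inv_inv] at this

theorem acc_sg {m : Fin 3 → ℝ} {μ : ℝ} (hμ : 0 < μ) (q : Fin 3 → ℂ) (i : Fin 3) :
    acc m (μ ^ 2 • q) i = ((μ⁻¹ ^ 4 : ℝ) : ℂ) * acc m q i := by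
  unfold acc
  rw [Finset.mul_sum]
  refine Finset.sum_congr rfl fun j _ => ?_
  have e1 : (μ ^ 2 • q) j - (μ ^ 2 • q) i = ((μ ^ 2 : ℝ) : ℂ) * (q j - q i) := by
    simp only [Pi.smul_apply, Complex.real_smul]
    ring
  rw [e1, norm_mul, Complex.norm_real, Real.norm_eq_abs, abs_of_pos (by positivity)]
  by_cases h0 : q j - q i = 0
  · rw [h0]; simp
  · have hn : 0 < ‖q j - q i‖ := norm_pos_iff.mpr h0
    rw [← mul_assoc, ← mul_assoc, ← Complex.ofReal_mul, ← Complex.ofReal_mul]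
    congr 2
    field_simp

theorem sg_sol {m : Fin 3 → ℝ} {μ : ℝ} (hμ : 0 < μ) {J : Set ℝ} (hJ : ∀ t ∈ J, μ⁻¹ ^ 3 * t ∈ J)
    {x : ℝ → Ph 3} (hx : IsSol m J x) : IsSol m J (fun t => sg μ (x (μ⁻¹ ^ 3 * t))) := by
  intro t ht
  obtain ⟨h1, h2⟩ := hx _ (hJ t ht)
  refine ⟨⟨fun a b hab => ?_, ?_, ?_⟩, ?_⟩
  · change (μ ^ 2 • (x (μ⁻¹ ^ 3 * t)).1) a ≠ (μ ^ 2 • (x (μ⁻¹ ^ 3 * t)).1) b
    simp only [Pi.smul_apply]
    intro h3
    exact h1.1 a b hab (smul_right_injective ℂ (by positivity : μ ^ 2 ≠ 0) h3)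
  · change ∑ a, (m a : ℂ) * (μ ^ 2 • (x (μ⁻¹ ^ 3 * t)).1) a = 0
    have : ∑ a, (m a : ℂ) * (μ ^ 2 • (x (μ⁻¹ ^ 3 * t)).1) a =
        ((μ ^ 2 : ℝ) : ℂ) * ∑ a, (m a : ℂ) * (x (μ⁻¹ ^ 3 * t)).1 a := by
      rw [Finset.mul_sum]
      refine Finset.sum_congr rfl fun j _ => ?_
      simp only [Pi.smul_apply, Complex.real_smul]
      ring
    rw [this, h1.2.1, mul_zero]
  · change ∑ a, (m a : ℂ) * (μ⁻¹ • (x (μ⁻¹ ^ 3 * t)).2) a = 0
    have : ∑ a, (m a : ℂ) * (μ⁻¹ • (x (μ⁻¹ ^ 3 * t)).2) a =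
        ((μ⁻¹ : ℝ) : ℂ) * ∑ a, (m a : ℂ) * (x (μ⁻¹ ^ 3 * t)).2 a := by
      rw [Finset.mul_sum]
      refine Finset.sum_congr rfl fun j _ => ?_
      simp only [Pi.smul_apply, Complex.real_smul]
      ring
    rw [this, h1.2.2, mul_zero]
  · have h3 : HasDerivWithinAt (fun t : ℝ => μ⁻¹ ^ 3 * t) (μ⁻¹ ^ 3) J t := by
      have h4 := ((hasDerivAt_id t).const_mul (μ⁻¹ ^ 3)).hasDerivWithinAt (s := J)
      rw [mul_one] at h4
      exact h4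
    have h4 : HasDerivWithinAt (fun t => x (μ⁻¹ ^ 3 * t))
        (μ⁻¹ ^ 3 • ((x (μ⁻¹ ^ 3 * t)).2, acc m (x (μ⁻¹ ^ 3 * t)).1)) J t :=
      HasDerivWithinAt.scomp t h2 h3 (fun t ht => hJ t ht)
    have h5 : HasDerivWithinAt (fun t => (x (μ⁻¹ ^ 3 * t)).1) (μ⁻¹ ^ 3 • (x (μ⁻¹ ^ 3 * t)).2) J t :=
      (ContinuousLinearMap.fst ℝ (Fin 3 → ℂ) (Fin 3 → ℂ)).hasFDerivAt.comp_hasDerivWithinAt t h4
    have h6 : HasDerivWithinAt (fun t => (x (μ⁻¹ ^ 3 * t)).2)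
        (μ⁻¹ ^ 3 • acc m (x (μ⁻¹ ^ 3 * t)).1) J t :=
      (ContinuousLinearMap.snd ℝ (Fin 3 → ℂ) (Fin 3 → ℂ)).hasFDerivAt.comp_hasDerivWithinAt t h4
    have h7 := (h5.const_smul (μ ^ 2)).prodMk (h6.const_smul μ⁻¹)
    refine h7.congr_deriv ?_
    refine Prod.ext ?_ ?_
    · change μ ^ 2 • (μ⁻¹ ^ 3 • (x (μ⁻¹ ^ 3 * t)).2) = μ⁻¹ • (x (μ⁻¹ ^ 3 * t)).2
      rw [smul_smul]
      congr 1
      field_simp
    · funext i
      change (μ⁻¹ • (μ⁻¹ ^ 3 • acc m (x (μ⁻¹ ^ 3 * t)).1)) i =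
        acc m (μ ^ 2 • (x (μ⁻¹ ^ 3 * t)).1) i
      rw [acc_sg hμ]
      simp only [Pi.smul_apply, Complex.real_smul]
      push_cast
      ring

theorem sg_stable {m : Fin 3 → ℝ} {μ : ℝ} (hμ : 0 < μ) {γ : Set (Ph 3)}
    (h : LyapunovStable m (sg μ '' γ)) : LyapunovStable m γ := by
  have hμ0 : μ ≠ 0 := hμ.ne'
  intro U₁ hU₁ hγ
  obtain ⟨U₂, hU₂, hγ₂, hst⟩ := h (sg μ⁻¹ ⁻¹' U₁) (hU₁.preimage (sg_cont _)) (by
    rintro _ ⟨z, hz, rfl⟩
    change sg μ⁻¹ (sg μ z) ∈ U₁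
    rw [sg_inv' hμ0]
    exact hγ hz)
  refine ⟨sg μ ⁻¹' U₂, hU₂.preimage (sg_cont _), fun z hz => hγ₂ ⟨z, hz, rfl⟩, ?_⟩
  intro y hy hy0 t ht
  have h1 : IsSol m (Set.Ici 0) (fun t => sg μ (y (μ⁻¹ ^ 3 * t))) :=
    sg_sol hμ (fun t ht => by
      have : (0:ℝ) ≤ t := ht
      exact Set.mem_Ici.mpr (by positivity)) hy
  have h2 := hst _ h1 (by
    change sg μ (y (μ⁻¹ ^ 3 * 0)) ∈ U₂
    rw [mul_zero]
    exact hy0) (μ ^ 3 * t) (by positivity)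
  change sg μ⁻¹ (sg μ (y (μ⁻¹ ^ 3 * (μ ^ 3 * t)))) ∈ U₁ at h2
  rw [sg_inv' hμ0] at h2
  have h3 : μ⁻¹ ^ 3 * (μ ^ 3 * t) = t := by field_simp
  rwa [h3] at h2

theorem kep_inj {e : ℝ} (he : |e| < 1) {u v : ℝ} (h : u - e * Real.sin u = v - e * Real.sin v) :
    u = v := by
  by_contra hne
  have h2 : v - u = e * (Real.sin v - Real.sin u) := by linarith
  have h3 : |Real.sin v - Real.sin u| ≤ |v - u| := Real.abs_sin_sub_sin_le v u
  have h4 : 0 < |v - u| := abs_pos.mpr (sub_ne_zero.mpr (Ne.symm hne))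
  have h5 : |v - u| = |e| * |Real.sin v - Real.sin u| := by rw [h2, abs_mul]
  have h6 : |e| * |Real.sin v - Real.sin u| ≤ |e| * |v - u| :=
    mul_le_mul_of_nonneg_left h3 (abs_nonneg e)
  have h7 : |e| * |v - u| < 1 * |v - u| := mul_lt_mul_of_pos_right he h4
  linarith

theorem xe_scale {a : Fin 3 → ℂ} {ν A μ e : ℝ} (hν : 0 < ν) (hA : 0 < A) (hμ : 0 < μ)
    (he : |e| < 1) (t : ℝ) :
    xe a (μ⁻¹ ^ 3 * ν) (μ ^ 2 * A) e t = sg μ (xe a ν A e (μ⁻¹ ^ 3 * t)) := by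
  have hν' : 0 < μ⁻¹ ^ 3 * ν := by positivity
  have hA' : 0 < μ ^ 2 * A := by positivity
  have hu : uK (μ⁻¹ ^ 3 * ν) (μ ^ 2 * A) e t = uK ν A e (μ⁻¹ ^ 3 * t) := by
    refine kep_inj he ?_
    rw [(uK_spec hν' hA' he).2.1, (uK_spec hν hA he).2.1]
    ring
  unfold xe sg
  rw [hu, io_apply, io_apply]
  refine Prod.ext ?_ ?_
  · funext i
    simp only [Pi.smul_apply, Complex.real_smul]
    unfold ell
    push_cast
    ring
  · funext i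
    simp only [Pi.smul_apply, Complex.real_smul]
    unfold ellv
    have e1 : μ ^ 2 * A * (μ⁻¹ ^ 3 * ν) / (1 - e * Real.cos (uK ν A e (μ⁻¹ ^ 3 * t))) =
        μ⁻¹ * (A * ν / (1 - e * Real.cos (uK ν A e (μ⁻¹ ^ 3 * t)))) := by
      have : μ ^ 2 * A * (μ⁻¹ ^ 3 * ν) = μ⁻¹ * (A * ν) := by field_simp
      rw [this, mul_div_assoc]
    rw [e1]
    push_cast
    ring

theorem xe_unscale {m : Fin 3 → ℝ} {a : Fin 3 → ℂ} {ν A μ e : ℝ} (hν : 0 < ν) (hA : 0 < A)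
    (hμ : 0 < μ) (he : |e| < 1)
    (h : LyapunovStable m (Set.range (xe a (μ⁻¹ ^ 3 * ν) (μ ^ 2 * A) e))) :
    LyapunovStable m (Set.range (xe a ν A e)) := by
  refine sg_stable hμ ?_
  have h1 : sg μ '' Set.range (xe a ν A e) = Set.range (xe a (μ⁻¹ ^ 3 * ν) (μ ^ 2 * A) e) := by
    ext z
    constructor
    · rintro ⟨_, ⟨t, rfl⟩, rfl⟩
      refine ⟨μ ^ 3 * t, ?_⟩
      rw [xe_scale hν hA hμ he]
      congr 2
      field_simp
    · rintro ⟨t, rfl⟩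
      exact ⟨_, ⟨μ⁻¹ ^ 3 * t, rfl⟩, (xe_scale hν hA hμ he t).symm⟩
  rw [h1]
  exact h

/-- **Elliptic Lagrange orbits are not Lyapunov stable.** -/
theorem lagrange (hBU : S_BU) (hNT : S_NT) (hEIG : S_EIG) (hPERT : S_PERT) (hUNI : S_UNI)
    (hTAY : S_TAY) (hZET : S_ZET) {m : Fin 3 → ℝ} (hm : ∀ i, 0 < m i)
    (hR : 27 * (m 0 * m 1 + m 1 * m 2 + m 2 * m 0) < (m 0 + m 1 + m 2) ^ 2)
    (hR' : 36 * (m 0 * m 1 + m 1 * m 2 + m 2 * m 0) ≠ (m 0 + m 1 + m 2) ^ 2)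
    {a : Fin 3 → ℂ} (ha : ∀ i j, i ≠ j → ‖a i - a j‖ = 1) (ha0 : ∑ i, (m i : ℂ) * a i = 0) :
    ∃ e₀ : ℝ, 0 < e₀ ∧ e₀ < 1 ∧ ∀ A : ℝ, 0 < A → ∀ e : ℝ, 0 < |e| → |e| < e₀ →
      ¬ LyapunovStable m (Set.range (xe a (Real.sqrt ((m 0 + m 1 + m 2) / A ^ 3)) A e)) := by
  set M := m 0 + m 1 + m 2 with hM
  set σ := m 0 * m 1 + m 1 * m 2 + m 2 * m 0 with hσ
  have h0 := hm 0
  have h1 := hm 1
  have h2 := hm 2
  have hM0 : 0 < M := by positivity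
  have hσ0 : 0 < σ := by positivity
  have hν0 : 0 < Real.sqrt M := Real.sqrt_pos.mpr hM0
  obtain ⟨b, κ, hLD⟩ := exists_LD hm ha ha0 (ν := Real.sqrt M) (A := 1) hν0 one_pos
    (by rw [Real.sq_sqrt hM0.le]; ring)
  set β := 27 * σ / M ^ 2 with hβ
  have hβ0 : 0 < β := by positivity
  have hβ1 : β < 1 := by
    rw [hβ, div_lt_one (by positivity)]
    exact hR
  have hβ2 : β ≠ 3 / 4 := by
    intro hh
    apply hR'
    rw [hβ, div_eq_iff (by positivity)] at hh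
    linarith
  have hκ : κ ^ 2 = 9 / 4 - β / 4 := by
    rw [hLD.hκ, hβ]
    ring
  set D := Real.sqrt (1 - β) with hD
  have hD2 : D ^ 2 = 1 - β := Real.sq_sqrt (by linarith)
  have hD0 : 0 < D := Real.sqrt_pos.mpr (by linarith)
  have hD1 : D < 1 := by
    nlinarith
  set l1 := Real.sqrt ((1 - D) / 2) with hl1
  set l2 := Real.sqrt ((1 + D) / 2) with hl2
  have q1 : l1 ^ 2 = (1 - D) / 2 := Real.sq_sqrt (by linarith)
  have q2 : l2 ^ 2 = (1 + D) / 2 := Real.sq_sqrt (by linarith)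
  have p1 : 0 < l1 := Real.sqrt_pos.mpr (by linarith)
  have p2 : 0 < l2 := Real.sqrt_pos.mpr (by linarith)
  have r1 : l1 < 1 := by nlinarith
  have r2 : l2 < 1 := by nlinarith
  have hun := hLD.unstable hBU hNT hEIG hPERT hUNI hTAY hZET (l1 := l1) (l2 := l2) p1 r1
    (by
      intro hh
      apply hβ2
      have : D = 1 / 2 := by linarith
      rw [this] at hD2
      linarith)
    (by intro hh; rw [q1] at hh; linarith)
    (by
      have : l1 ^ 4 = (l1 ^ 2) ^ 2 := by ring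
      rw [this, q1, hκ]
      linear_combination (1 / 4) * hD2)
    p2 r2
    (by
      intro hh
      have : D = -(1 / 2) := by linarith
      linarith)
    (by intro hh; rw [q2] at hh; linarith)
    (by
      have : l2 ^ 4 = (l2 ^ 2) ^ 2 := by ring
      rw [this, q2, hκ]
      linear_combination (1 / 4) * hD2)
    (by rw [q1, q2]; ring)
  rw [eventually_nhdsWithin_iff] at hun
  obtain ⟨ε, hε, hball⟩ := Metric.eventually_nhds_iff_ball.mp hun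
  refine ⟨min ε (1 / 2), lt_min hε (by norm_num), lt_of_le_of_lt (min_le_right _ _) (by norm_num),
    fun A hA e he0 he => ?_⟩
  have he1 : |e| < ε := lt_of_lt_of_le he (min_le_left _ _)
  have he2 : |e| < 1 := by
    have := lt_of_lt_of_le he (min_le_right _ _)
    linarith
  have key := hball e (by rwa [Metric.mem_ball, Real.dist_eq, sub_zero]) (abs_pos.mp he0)
  intro hst
  apply key
  set μ := Real.sqrt A with hμ
  have hμ0 : 0 < μ := Real.sqrt_pos.mpr hA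
  have hμ2 : μ ^ 2 = A := Real.sq_sqrt hA.le
  have e1 : μ⁻¹ ^ 3 * Real.sqrt M = Real.sqrt (M / A ^ 3) := by
    rw [Real.sqrt_div hM0.le]
    have : Real.sqrt (A ^ 3) = μ ^ 3 := by
      rw [← hμ2]
      have h3 : (μ ^ 2) ^ 3 = (μ ^ 3) ^ 2 := by ring
      rw [h3, Real.sqrt_sq (by positivity)]
    rw [this]
    field_simp
  refine xe_unscale (μ := μ) hν0 one_pos hμ0 he2 ?_
  rw [e1, mul_one, hμ2]
  exact hst

/-- The data of the solution. -/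
theorem xe_data {m : Fin 3 → ℝ} (hm : ∀ i, 0 < m i) {a : Fin 3 → ℂ}
    (ha : ∀ i j, i ≠ j → ‖a i - a j‖ = 1) (ha0 : ∑ i, (m i : ℂ) * a i = 0) {A : ℝ} (hA : 0 < A)
    {e : ℝ} (he : |e| < 1) :
    IsSol m Set.univ (xe a (Real.sqrt ((m 0 + m 1 + m 2) / A ^ 3)) A e) ∧
    xe a (Real.sqrt ((m 0 + m 1 + m 2) / A ^ 3)) A e 0 =
      ((fun i => ((A * (1 - e) : ℝ) : ℂ) * a i),
        (fun i => ((Real.sqrt ((m 0 + m 1 + m 2) * (1 + e) / (A * (1 - e))) : ℝ) : ℂ) *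
          Complex.I * a i)) ∧
    (∀ t, xe a (Real.sqrt ((m 0 + m 1 + m 2) / A ^ 3)) A e
      (t + 2 * Real.pi * Real.sqrt (A ^ 3 / (m 0 + m 1 + m 2))) =
      xe a (Real.sqrt ((m 0 + m 1 + m 2) / A ^ 3)) A e t) ∧
    (∀ t, ∃ ρ v : ℂ, xe a (Real.sqrt ((m 0 + m 1 + m 2) / A ^ 3)) A e t =
      ((fun i => ρ * a i), (fun i => v * a i))) := by
  have h0 := hm 0
  have h1 := hm 1
  have h2 := hm 2
  set M := m 0 + m 1 + m 2 with hM
  have hM0 : 0 < M := by positivity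
  set ν := Real.sqrt (M / A ^ 3) with hν
  have hν0 : 0 < ν := Real.sqrt_pos.mpr (by positivity)
  have hν2 : ν ^ 2 = M / A ^ 3 := Real.sq_sqrt (by positivity)
  obtain ⟨b, κ, hLD⟩ := exists_LD hm ha ha0 (ν := ν) (A := A) hν0 hA
    (by rw [hν2]; field_simp; exact hM.symm ▸ rfl)
  have he' := abs_lt.mp he
  refine ⟨hLD.xe_sol he, ?_, ?_, ?_⟩
  · unfold xe
    rw [(uK_spec hν0 hA he).1, io_apply]
    have e1 : ell A e 0 = ((A * (1 - e) : ℝ) : ℂ) := by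
      unfold ell
      rw [Real.cos_zero, Real.sin_zero]
      push_cast
      ring
    have e2 : ellv A ν e 0 = ((A * ν / (1 - e) * Real.sqrt (1 - e ^ 2) : ℝ) : ℂ) * Complex.I := by
      unfold ellv
      rw [Real.cos_zero, Real.sin_zero]
      push_cast
      ring
    have h1e : 0 < 1 - e := by linarith
    have e3 : A * ν / (1 - e) * Real.sqrt (1 - e ^ 2) =
        Real.sqrt (M * (1 + e) / (A * (1 - e))) := by
      symm
      rw [Real.sqrt_eq_iff_mul_self_eq (by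
          have : 0 < 1 + e := by linarith
          positivity) (by positivity)]
      have h3 : Real.sqrt (1 - e ^ 2) * Real.sqrt (1 - e ^ 2) = 1 - e ^ 2 :=
        Real.mul_self_sqrt (by nlinarith)
      have h4 : A * ν / (1 - e) * Real.sqrt (1 - e ^ 2) * (A * ν / (1 - e) * Real.sqrt (1 - e ^ 2)) =
          A ^ 2 * ν ^ 2 / (1 - e) ^ 2 * (Real.sqrt (1 - e ^ 2) * Real.sqrt (1 - e ^ 2)) := by
        have h5 := h1e.ne'
        field_simp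
      rw [h4, h3, hν2]
      field_simp
      ring
    rw [e1, e2, e3]
  · intro t
    have e1 : 2 * Real.pi * Real.sqrt (A ^ 3 / M) = 2 * Real.pi / ν := by
      rw [hν, Real.sqrt_div (by positivity), Real.sqrt_div hM0.le]
      have : 0 < Real.sqrt (A ^ 3) := Real.sqrt_pos.mpr (by positivity)
      have : 0 < Real.sqrt M := Real.sqrt_pos.mpr hM0
      field_simp
    rw [e1]
    exact hLD.xe_per he t
  · intro t
    exact ⟨ell A e (uK ν A e t), ellv A ν e (uK ν A e t), rfl⟩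

end Pool.Agent.D0H95.BF
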