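import Pool.Agent.D0H95.BF.Lag7

/-!
Elliptic Lagrange solutions: regions for all eccentricities below a given one; the lemmas of `Lag2`, `Lag3`
and `Lag4` for one eccentricity.
-/

set_option autoImplicit false

namespace Pool.Agent.D0H95.BF

open Pool.Agent.W821.TB Pool.Agent.D0H95.NB Finset Filter Topology

variable {m : Fin 3 → ℝ} {a b : Fin 3 → ℂ} {κ ν A : ℝ}

/-- The properties of the region for one eccentricity. -/
def GoodAt (P : Pk m) (a : Fin 3 → ℂ) (ν A e : ℝ) : Prop :=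
    (∀ t, ((P.g t (gam m a ν A e) : cm m) : Ph 3) = xe a ν A e t) ∧
    (∀ t, ((P.g t (gam m a ν A e) : cm m) : Ph 3) ∈ P.S) ∧
    P.g (2 * Real.pi / ν) (gam m a ν A e) = gam m a ν A e

theorem r_ge {E e : ℝ} (he : |e| ≤ E) (u : ℝ) : 1 - E ≤ 1 - e * Real.cos u := by
  have h1 : |e * Real.cos u| ≤ |e| := by
    rw [abs_mul]
    exact mul_le_of_le_one_right (abs_nonneg e) (Real.abs_cos_le_one u)
  have h2 := le_abs_self (e * Real.cos u)
  linarith

theorem norm_ellvG (hν : 0 < ν) (hA : 0 < A) {E e : ℝ} (hE : E < 1) (he : |e| ≤ E) (u : ℝ) :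
    ‖ellv A ν e u‖ ≤ 2 * (A * ν) / (1 - E) := by
  have he1 : |e| < 1 := lt_of_le_of_lt he hE
  have hr := r_pos he1 u
  have hr2 := r_ge he u
  have hE1 : 0 < 1 - E := by linarith
  unfold ellv
  rw [norm_mul, Complex.norm_real, Real.norm_eq_abs, abs_of_pos (by positivity)]
  have h1 : A * ν / (1 - e * Real.cos u) ≤ A * ν / (1 - E) := by
    have : 0 < A * ν := by positivity
    exact div_le_div_of_nonneg_left this.le hE1 hr2
  have h2 : ‖(((- Real.sin u : ℝ) : ℂ) + ((Real.sqrt (1 - e ^ 2) * Real.cos u : ℝ) : ℂ) *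
      Complex.I)‖ ≤ 2 := by
    refine (norm_add_le _ _).trans ?_
    rw [norm_mul, Complex.norm_I, mul_one, Complex.norm_real, Complex.norm_real,
      Real.norm_eq_abs, Real.norm_eq_abs, abs_neg, abs_mul]
    have h3 := Real.abs_sin_le_one u
    have h4 := Real.abs_cos_le_one u
    have h5 : |Real.sqrt (1 - e ^ 2)| ≤ 1 := by
      rw [abs_of_nonneg (Real.sqrt_nonneg _)]
      exact Real.sqrt_le_one.mpr (by nlinarith [sq_nonneg e])
    have h6 : |Real.sqrt (1 - e ^ 2)| * |Real.cos u| ≤ 1 * 1 :=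
      mul_le_mul h5 h4 (abs_nonneg _) zero_le_one
    linarith
  calc A * ν / (1 - e * Real.cos u) * _ ≤ A * ν / (1 - E) * 2 :=
        mul_le_mul h1 h2 (norm_nonneg _) (by positivity)
    _ = 2 * (A * ν) / (1 - E) := by ring

/-- The bound for the region. -/
noncomputable def RG (a : Fin 3 → ℂ) (ν A E : ℝ) : ℝ :=
  (∑ j, ‖a j‖ ^ 2) * ((2 * A) ^ 2 + (2 * (A * ν) / (1 - E)) ^ 2) + 1

theorem LD.regionG (h : LD m a b κ ν A) {E e : ℝ} (hE : E < 1) (he : |e| ≤ E) (u : ℝ) :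
    io a (ell A e u, ellv A ν e u) ∈ Rg (RG a ν A E) (A ^ 2 * (1 - E) ^ 2 / 2) := by
  have he1 : |e| < 1 := lt_of_le_of_lt he hE
  have hA := h.hA
  have hν := h.hν
  have hr := r_pos he1 u
  have hE1 : 0 < 1 - E := by linarith
  have hr2 := r_ge he u
  have h1 : |e * Real.cos u| ≤ 1 := by
    rw [abs_mul]
    exact (mul_le_of_le_one_right (abs_nonneg e) (Real.abs_cos_le_one u)).trans he1.le
  have h2 := abs_le.mp h1
  have hn := (kepler hν hA he1).1 u
  have hv := norm_ellvG hν hA hE he u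
  refine ⟨?_, fun i j hij => ?_⟩
  · have e1 : NS (io a (ell A e u, ellv A ν e u)) =
        (∑ j, ‖a j‖ ^ 2) * (‖ell A e u‖ ^ 2 + ‖ellv A ν e u‖ ^ 2) := by
      rw [io_apply]
      unfold NS
      rw [Finset.sum_mul]
      refine Finset.sum_congr rfl fun j _ => ?_
      simp only [norm_mul]
      ring
    rw [e1, hn]
    have h3 : 0 ≤ ∑ j, ‖a j‖ ^ 2 := Finset.sum_nonneg fun j _ => by positivity
    have h4 : (A * (1 - e * Real.cos u)) ^ 2 ≤ (2 * A) ^ 2 := by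
      refine pow_le_pow_left₀ (by positivity) ?_ 2
      nlinarith
    have h5 : ‖ellv A ν e u‖ ^ 2 ≤ (2 * (A * ν) / (1 - E)) ^ 2 :=
      pow_le_pow_left₀ (norm_nonneg _) hv 2
    have h6 := mul_le_mul_of_nonneg_left (add_le_add h4 h5) h3
    unfold RG
    linarith
  · have e1 : (io a (ell A e u, ellv A ν e u)).1 j - (io a (ell A e u, ellv A ν e u)).1 i =
        ell A e u * (a j - a i) := by
      rw [io_apply]
      simp only
      ring
    rw [e1, norm_mul, h.ha j i (Ne.symm hij), mul_one, hn]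
    have h4 : ((1 - E) * A) ^ 2 ≤ (A * (1 - e * Real.cos u)) ^ 2 := by
      refine pow_le_pow_left₀ (by positivity) ?_ 2
      nlinarith
    have h5 : 0 < A ^ 2 * (1 - E) ^ 2 := by positivity
    nlinarith

/-- A region for all eccentricities at most `E`. -/
theorem LD.pkG (h : LD m a b κ ν A) {E : ℝ} (hE : E < 1) :
    ∃ P : Pk m, ∀ e, |e| ≤ E → GoodAt P a ν A e := by
  have hA := h.hA
  have hE1 : 0 < 1 - E := by linarith
  have hR : 0 < RG a ν A E := by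
    unfold RG
    have h3 : 0 ≤ ∑ j, ‖a j‖ ^ 2 := Finset.sum_nonneg fun j _ => by positivity
    positivity
  obtain ⟨P, hPR, hPδ⟩ := exists_pk m (R := RG a ν A E) (δ := A ^ 2 * (1 - E) ^ 2 / 2) hR
    (by positivity)
  refine ⟨P, fun e he => ?_⟩
  have he1 : |e| < 1 := lt_of_le_of_lt he hE
  have hx := h.xe_sol he1
  have hS : ∀ t, xe a ν A e t ∈ P.S := by
    intro t
    unfold Pk.S
    rw [hPR, hPδ]
    exact h.regionG hE he _
  have hg0 : (⟨xe a ν A e 0, sol_cm hx 0⟩ : cm m) = gam m a ν A e := by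
    apply Subtype.ext
    unfold gam
    rw [ioc_coe h.ha0]
    change xe a ν A e 0 = _
    unfold xe
    rw [(uK_spec h.hν h.hA he1).1]
  have hg := P.of_sol hx hS
  rw [hg0] at hg
  refine ⟨hg, fun t => by rw [hg]; exact hS t, ?_⟩
  apply Subtype.ext
  rw [hg]
  have h1 := h.xe_per he1 0
  rw [zero_add] at h1
  rw [h1, ← hg0]

theorem wb_derivG (h : LD m a b κ ν A) {P : Pk m} {e : ℝ} (he1 : |e| < 1)
    (hP : GoodAt P a ν A e) (v : ℂ × ℂ) (t : ℝ) : HasDerivAt (wb P a b ν A e v)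
      (Fb κ (m 0 + m 1 + m 2) (ell A e (uK ν A e t)) (wb P a b ν A e v t)) t := by
  obtain ⟨h1, h2, h3⟩ := hP
  have h4 := jac_at P (h2 t) (ioc m b v)
  have h5 : HasDerivAt (wb P a b ν A e v) (co m b (fderiv ℝ (vf m)
      ((P.g t (gam m a ν A e) : cm m) : Ph 3)
      ((fderiv ℝ (P.g t) (gam m a ν A e) (ioc m b v) : cm m) : Ph 3))) t :=
    (co m b).hasFDerivAt.comp_hasDerivAt t h4
  rw [h1 t] at h5
  unfold xe at h5
  rw [h.co_fderiv (ell_ne h.hν h.hA he1 _) _ (fderiv ℝ (P.g t) (gam m a ν A e) (ioc m b v)).2] at h5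
  exact h5

theorem jac_bG (h : LD m a b κ ν A) {P : Pk m} {e : ℝ} (he1 : |e| < 1)
    (hP : GoodAt P a ν A e) {w : ℝ → ℂ × ℂ} (hw : ∀ t, HasDerivAt w
      (Fb κ (m 0 + m 1 + m 2) (ell A e (uK ν A e t)) (w t)) t) {t : ℝ} (ht : 0 ≤ t) :
    fderiv ℝ (P.g t) (gam m a ν A e) (ioc m b (w 0)) = ioc m b (w t) := by
  obtain ⟨h1, h2, h3⟩ := hP
  apply Subtype.ext
  rw [ioc_coe h.hb0]
  refine (jac_uniq h.hm P h2 (ξ := fun t => io b (w t)) (fun t => io_mem h.hb0 _) (fun t => ?_)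
    (ioc_coe h.hb0 (w 0)) ht).symm
  rw [h1 t]
  unfold xe
  rw [h.fb (ell_ne h.hν h.hA he1 _)]
  exact (io b).hasFDerivAt.comp_hasDerivAt t (hw t)

theorem wb_jacG (h : LD m a b κ ν A) {P : Pk m} {e : ℝ} (he1 : |e| < 1)
    (hP : GoodAt P a ν A e) (v : ℂ × ℂ) {t : ℝ} (ht : 0 ≤ t) :
    fderiv ℝ (P.g t) (gam m a ν A e) (ioc m b v) = ioc m b (wb P a b ν A e v t) := by
  have h1 := jac_bG h he1 hP (w := wb P a b ν A e v) (wb_derivG h he1 hP v) ht
  rwa [wb_zero h] at h1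

theorem Mb_jacG (h : LD m a b κ ν A) {P : Pk m} {e : ℝ} (he1 : |e| < 1)
    (hP : GoodAt P a ν A e) (v : ℂ × ℂ) :
    fderiv ℝ (P.g (2 * Real.pi / ν)) (gam m a ν A e) (ioc m b v) =
      ioc m b (Mb P a b ν A e v) := by
  rw [Mb_apply]
  exact wb_jacG h he1 hP v (Tpos h).le

theorem wb_perG (h : LD m a b κ ν A) {P : Pk m} {e : ℝ} (he1 : |e| < 1)
    (hP : GoodAt P a ν A e) (v : ℂ × ℂ) (t : ℝ) : wb P a b ν A e v (t + 2 * Real.pi / ν) =
      wb P a b ν A e (Mb P a b ν A e v) t := by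
  unfold wb
  rw [P.D_add, hP.2.2, Mb_jacG h he1 hP]

theorem Zf_derivG (h : LD m a b κ ν A) {P : Pk m} {e : ℝ} (he1 : |e| < 1)
    (hP : GoodAt P a ν A e) (v : ℂ × ℂ) (u : ℝ) :
    HasDerivAt (Zf P a b ν A e v)
      ((((1 - e * Real.cos u) / ν : ℝ) : ℂ) * Vf P a b ν A e v u) u ∧
    HasDerivAt (Vf P a b ν A e v) (((ν / (1 - e * Real.cos u) ^ 2 : ℝ) : ℂ) *
      (1 / 2 * Zf P a b ν A e v u + κ * (ell A e u ^ 2 / (‖ell A e u‖ : ℂ) ^ 2) *
        (starRingEnd ℂ) (Zf P a b ν A e v u))) u := by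
  have hν := h.hν
  have hA := h.hA
  have h1 := wb_derivG h he1 hP v (tK ν e u)
  rw [uK_tK hν hA he1] at h1
  have h2 := tK_deriv ν e u
  have h3 : HasDerivAt (fun u => wb P a b ν A e v (tK ν e u))
      (((1 - e * Real.cos u) / ν) •
        Fb κ (m 0 + m 1 + m 2) (ell A e u) (wb P a b ν A e v (tK ν e u))) u :=
    HasDerivAt.scomp u h1 h2
  have hr := r_pos he1 u
  have hn := (kepler hν hA he1).1 u
  constructor
  · have h4 : HasDerivAt (fun u => (wb P a b ν A e v (tK ν e u)).1) _ u :=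
      (ContinuousLinearMap.fst ℝ ℂ ℂ).hasFDerivAt.comp_hasDerivAt u h3
    exact h4
  · have h4 : HasDerivAt (fun u => (wb P a b ν A e v (tK ν e u)).2) _ u :=
      (ContinuousLinearMap.snd ℝ ℂ ℂ).hasFDerivAt.comp_hasDerivAt u h3
    refine h4.congr_deriv ?_
    change (((1 - e * Real.cos u) / ν : ℝ) : ℝ) • (((((m 0 + m 1 + m 2) / ‖ell A e u‖ ^ 3 : ℝ) : ℂ)) *
      (1 / 2 * Zf P a b ν A e v u + κ * (ell A e u ^ 2 / (‖ell A e u‖ : ℂ) ^ 2) *
        (starRingEnd ℂ) (Zf P a b ν A e v u))) = _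
    rw [Complex.real_smul, ← mul_assoc, ← Complex.ofReal_mul]
    congr 2
    rw [← h.hM, hn]
    field_simp

end Pool.Agent.D0H95.BF
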