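import Pool.Agent.D0H95.BF.LagG

/-!
Elliptic Lagrange solutions: elliptic pairs live in the second direction.
-/

set_option autoImplicit false

namespace Pool.Agent.D0H95.BF

open Pool.Agent.W821.TB Pool.Agent.D0H95.NB Finset Filter Topology

variable {m : Fin 3 → ℝ} {a b : Fin 3 → ℂ} {κ ν A : ℝ}

/-- The `b`-part of a Jacobi field. -/
theorem co_D (h : LD m a b κ ν A) {P : Pk m} {e : ℝ} (he1 : |e| < 1)
    (hP : GoodAt P a ν A e) (v : cm m) :
    co m b ((fderiv ℝ (P.g (2 * Real.pi / ν)) (gam m a ν A e) v : cm m) : Ph 3) =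
      Mb P a b ν A e (co m b (v : Ph 3)) := by
  obtain ⟨h1, h2, h3⟩ := hP
  have hd : ∀ t, HasDerivAt (fun t => co m b ((fderiv ℝ (P.g t) (gam m a ν A e) v : cm m) : Ph 3))
      (Fb κ (m 0 + m 1 + m 2) (ell A e (uK ν A e t))
        (co m b ((fderiv ℝ (P.g t) (gam m a ν A e) v : cm m) : Ph 3))) t := by
    intro t
    have h4 := jac_at P (h2 t) v
    have h5 : HasDerivAt (fun t => co m b ((fderiv ℝ (P.g t) (gam m a ν A e) v : cm m) : Ph 3))
        (co m b (fderiv ℝ (vf m) ((P.g t (gam m a ν A e) : cm m) : Ph 3)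
        ((fderiv ℝ (P.g t) (gam m a ν A e) v : cm m) : Ph 3))) t :=
      (co m b).hasFDerivAt.comp_hasDerivAt t h4
    rw [h1 t] at h5
    unfold xe at h5
    rw [h.co_fderiv (ell_ne h.hν h.hA he1 _) _ (fderiv ℝ (P.g t) (gam m a ν A e) v).2] at h5
    exact h5
  have h4 := jac_bG h he1 ⟨h1, h2, h3⟩ (w := fun t =>
    co m b ((fderiv ℝ (P.g t) (gam m a ν A e) v : cm m) : Ph 3)) hd (Tpos h).le
  simp only [P.D_zero] at h4
  rw [Mb_apply]
  unfold wb
  rw [h4, ioc_coe h.hb0, h.co_io]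

theorem ell_at0 (A e : ℝ) : ell A e 0 = ((A * (1 - e) : ℝ) : ℂ) := by
  unfold ell
  rw [Real.cos_zero, Real.sin_zero]
  push_cast
  ring

theorem ellv_at0 (A ν e : ℝ) :
    ellv A ν e 0 = ((A * ν / (1 - e) * Real.sqrt (1 - e ^ 2) : ℝ) : ℂ) * Complex.I := by
  unfold ellv
  rw [Real.cos_zero, Real.sin_zero]
  push_cast
  ring

/-- Vectors of the `a`-part which are orthogonal to both symmetry directions. -/
theorem apart (h : LD m a b κ ν A) {e : ℝ} (he1 : |e| < 1) (hne : e ≠ 0) {w : ℂ × ℂ}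
    (h1 : ome m (vf m (gam m a ν A e : Ph 3)) (io a w) = 0)
    (h2 : ome m (Complex.I • (gam m a ν A e : Ph 3)) (io a w) = 0) :
    ∃ s t : ℝ, io a w = s • vf m (gam m a ν A e : Ph 3) +
      t • (Complex.I • (gam m a ν A e : Ph 3)) := by
  have hA := h.hA
  have hν := h.hν
  have h1e : 0 < 1 - e := by have := (abs_lt.mp he1).2; linarith
  have h1e' : 0 < 1 + e := by have := (abs_lt.mp he1).1; linarith
  obtain ⟨j0, hj0⟩ := h.a_ne
  have hN : 0 < ∑ j, m j * ‖a j‖ ^ 2 := by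
    refine Finset.sum_pos' (fun j _ => by have := (h.hm j).le; positivity)
      ⟨j0, Finset.mem_univ _, ?_⟩
    have h3 := h.hm j0
    have h4 : 0 < ‖a j0‖ := norm_pos_iff.mpr hj0
    positivity
  set x0 := A * (1 - e) with hx0
  set y0 := A * ν / (1 - e) * Real.sqrt (1 - e ^ 2) with hy0
  have hx0p : 0 < x0 := by positivity
  have hx0c : (x0 : ℂ) ≠ 0 := by exact_mod_cast hx0p.ne'
  set g := (m 0 + m 1 + m 2) / x0 ^ 3 * x0 with hg
  have e1 : vf m (gam m a ν A e : Ph 3) = io a ((y0 : ℂ) * Complex.I, ((-g : ℝ) : ℂ)) := by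
    unfold gam
    rw [ioc_coe h.ha0, ell_at0, ellv_at0, ← hx0, ← hy0, h.vf_io hx0c, Complex.norm_real,
      Real.norm_eq_abs, abs_of_pos hx0p, hg]
    congr 2
    push_cast
    ring
  have e2 : Complex.I • (gam m a ν A e : Ph 3) = io a ((x0 : ℂ) * Complex.I, ((-y0 : ℝ) : ℂ)) := by
    unfold gam
    rw [ioc_coe h.ha0, ell_at0, ellv_at0, ← hx0, ← hy0, io_apply, io_apply]
    refine Prod.ext ?_ ?_
    · funext j
      simp only [Prod.smul_fst, Pi.smul_apply, smul_eq_mul]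
      ring
    · funext j
      simp only [Prod.smul_snd, Pi.smul_apply, smul_eq_mul]
      push_cast
      linear_combination (y0 * a j) * Complex.I_sq
  rw [e1, ome_io] at h1
  rw [e2, ome_io] at h2
  have h1' := (mul_eq_zero.mp h1).resolve_left hN.ne'
  have h2' := (mul_eq_zero.mp h2).resolve_left hN.ne'
  simp only [ip_eq, Complex.mul_re, Complex.mul_im, Complex.ofReal_re, Complex.ofReal_im,
    Complex.I_re, Complex.I_im] at h1' h2'
  have hsq : Real.sqrt (1 - e ^ 2) * Real.sqrt (1 - e ^ 2) = (1 - e) * (1 + e) := by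
    rw [Real.mul_self_sqrt (by nlinarith)]
    ring
  have hΔ : g * x0 - y0 * y0 = -(e * (A ^ 2 * ν ^ 2 / (1 - e))) := by
    have k1 : y0 * y0 = A ^ 2 * ν ^ 2 / (1 - e) ^ 2 * ((1 - e) * (1 + e)) := by
      rw [← hsq, hy0]
      field_simp
    have k2 : g * x0 = ν ^ 2 * A ^ 3 / x0 := by
      rw [hg, ← h.hM]
      field_simp
    rw [k1, k2, hx0]
    field_simp
    ring
  have hΔ0 : g * x0 - y0 * y0 ≠ 0 := by
    rw [hΔ, neg_ne_zero]
    exact mul_ne_zero hne (by positivity)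
  have r1 : w.1.re = 0 := by
    have : (g * x0 - y0 * y0) * w.1.re = 0 := by linear_combination x0 * h1' - y0 * h2'
    exact (mul_eq_zero.mp this).resolve_left hΔ0
  have r2 : w.2.im = 0 := by
    have : (g * x0 - y0 * y0) * w.2.im = 0 := by linear_combination g * h2' - y0 * h1'
    exact (mul_eq_zero.mp this).resolve_left hΔ0
  obtain ⟨s, t, hs, ht⟩ : ∃ s t : ℝ, s * y0 + t * x0 = w.1.im ∧ -(s * g) - t * y0 = w.2.re := by
    have k1 : ∀ x : ℝ, x = (g * x0 - y0 * y0) * x / (g * x0 - y0 * y0) := by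
      intro x
      rw [mul_div_cancel_left₀ _ hΔ0]
    refine ⟨(-(y0 * w.1.im) - x0 * w.2.re) / (g * x0 - y0 * y0),
      (g * w.1.im + y0 * w.2.re) / (g * x0 - y0 * y0), ?_, ?_⟩
    · conv_rhs => rw [k1 w.1.im]
      ring
    · conv_rhs => rw [k1 w.2.re]
      ring
  refine ⟨s, t, ?_⟩
  rw [e1, e2, ← map_smul, ← map_smul, ← map_add]
  congr 1
  refine Prod.ext ?_ ?_
  · simp only [Prod.fst_add, Prod.smul_fst]
    apply Complex.ext
    · simp [r1]
    · simp only [Complex.add_im, Complex.real_smul, Complex.mul_im, Complex.mul_re,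
        Complex.ofReal_re, Complex.ofReal_im, Complex.I_re, Complex.I_im]
      linear_combination -hs
  · simp only [Prod.snd_add, Prod.smul_snd]
    apply Complex.ext
    · simp only [Complex.add_re, Complex.real_smul, Complex.mul_re,
        Complex.ofReal_re, Complex.ofReal_im]
      linear_combination -ht
    · simp [r2]

theorem EP0.bpart (h : LD m a b κ ν A) {P : Pk m} {e : ℝ} (he1 : |e| < 1) (hne : e ≠ 0)
    (hP : GoodAt P a ν A e) {p1 r1 p2 r2 : cm m} {α1 α2 : ℝ}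
    (hE : EP0 P (2 * Real.pi / ν) 1 (gam m a ν A e) p1 r1 p2 r2 α1 α2) :
    co m b (p1 : Ph 3) ≠ 0 := by
  intro h0
  obtain ⟨ω, hω⟩ := exists_om m
  have hc : ‖(1:ℂ)‖ = 1 := by simp
  obtain ⟨u1, hu1⟩ : ∃ u1 : cm m, (u1 : Ph 3) = vf m (gam m a ν A e : Ph 3) :=
    ⟨⟨_, vf_mem (gam m a ν A e).2⟩, rfl⟩
  have hDu1 := hE.u1_fix hc hu1
  have hDu2 := hE.u2_fix
  obtain ⟨o1, o2, -, -⟩ := hE.orth (Tpos h) hc hω hDu1
  obtain ⟨o3, o4, -, -⟩ := hE.orth (Tpos h) hc hω hDu2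
  have hp := hE.hp1
  have hr := hE.hr1
  rw [one_smul] at hp hr
  have hs := hE.hs1
  have hr0 : co m b (r1 : Ph 3) = 0 := by
    have k1 := co_D h he1 hP p1
    rw [hp, h0, map_zero] at k1
    have k2 : co m b ((Real.cos α1 • p1 - Real.sin α1 • r1 : cm m) : Ph 3) =
        Real.cos α1 • co m b (p1 : Ph 3) - Real.sin α1 • co m b (r1 : Ph 3) := by
      have : ((Real.cos α1 • p1 - Real.sin α1 • r1 : cm m) : Ph 3) =
          Real.cos α1 • (p1 : Ph 3) - Real.sin α1 • (r1 : Ph 3) := rfl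
      rw [this, map_sub, map_smul, map_smul]
    rw [k2, h0, smul_zero, zero_sub, neg_eq_zero] at k1
    exact (smul_eq_zero.mp k1).resolve_left hs
  have hfix : ∀ v : cm m, co m b (v : Ph 3) = 0 → ω u1 v = 0 → ω (Complex.I • gam m a ν A e) v = 0 →
      fderiv ℝ (P.g (2 * Real.pi / ν)) (gam m a ν A e) v = v := by
    intro v hv k1 k2
    have k3 := h.dec v.2
    rw [hv, map_zero, add_zero] at k3
    rw [hω, hu1, k3] at k1
    rw [hω, k3] at k2
    obtain ⟨s, t, k4⟩ := apart h he1 hne k1 k2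
    rw [← k3] at k4
    have k5 : v = s • u1 + t • (Complex.I • gam m a ν A e) := by
      apply Subtype.ext
      rw [k4, ← hu1]
      rfl
    rw [k5, map_add, map_smul, map_smul, hDu1, hDu2, one_smul, one_smul]
  have f1 := hfix p1 h0 o1 o3
  have f2 := hfix r1 hr0 o2 o4
  rw [f1] at hp
  rw [f2] at hr
  have hcos := cos_ne_one hs
  have q3 : (2 * (1 - Real.cos α1)) • p1 = 0 := by
    have e : (2 * (1 - Real.cos α1)) • p1 =
        (1 - Real.cos α1) • (p1 - (Real.cos α1 • p1 - Real.sin α1 • r1)) -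
        Real.sin α1 • (r1 - (Real.sin α1 • p1 + Real.cos α1 • r1)) +
          (1 - (Real.sin α1 ^ 2 + Real.cos α1 ^ 2)) • p1 := by module
    rw [e, ← hp, ← hr, sub_self, sub_self, Real.sin_sq_add_cos_sq, sub_self]
    simp
  exact hE.hn1 ((smul_eq_zero.mp q3).resolve_left (fun hh => hcos (by linarith)))

end Pool.Agent.D0H95.BF
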