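import Pool.Agent.D0H95.BF.LagH
import Pool.Agent.D0H95.BF.Spec

/-!
Elliptic Lagrange solutions: stability makes the multipliers locally constant.
-/

set_option autoImplicit false

namespace Pool.Agent.D0H95.BF

open Pool.Agent.W821.TB Pool.Agent.D0H95.NB Finset Filter Topology

variable {m : Fin 3 → ℝ} {a b : Fin 3 → ℂ} {κ ν A : ℝ}

/-- An elliptic pair of a real operator. -/
def VP {E : Type} [NormedAddCommGroup E] [NormedSpace ℝ E] (M : E →L[ℝ] E) (α : ℝ) : Prop :=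
  ∃ q s : E, q ≠ 0 ∧ M q = Real.cos α • q - Real.sin α • s ∧ M s = Real.sin α • q + Real.cos α • s

/-- The `b`-parts of a pair. -/
theorem vp_of (h : LD m a b κ ν A) {P : Pk m} {e : ℝ} (he1 : |e| < 1)
    (hP : GoodAt P a ν A e) {p r : cm m} {α : ℝ} (h0 : co m b (p : Ph 3) ≠ 0)
    (hp : fderiv ℝ (P.g (2 * Real.pi / ν)) (gam m a ν A e) p =
      (1:ℂ) • (Real.cos α • p - Real.sin α • r))
    (hr : fderiv ℝ (P.g (2 * Real.pi / ν)) (gam m a ν A e) r =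
      (1:ℂ) • (Real.sin α • p + Real.cos α • r)) : VP (Mb P a b ν A e) α := by
  rw [one_smul] at hp hr
  refine ⟨co m b (p : Ph 3), co m b (r : Ph 3), h0, ?_, ?_⟩
  · rw [← co_D h he1 hP p, hp]
    have : ((Real.cos α • p - Real.sin α • r : cm m) : Ph 3) =
        Real.cos α • (p : Ph 3) - Real.sin α • (r : Ph 3) := rfl
    rw [this, map_sub, map_smul, map_smul]
  · rw [← co_D h he1 hP r, hr]
    have : ((Real.sin α • p + Real.cos α • r : cm m) : Ph 3) =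
        Real.sin α • (p : Ph 3) + Real.cos α • (r : Ph 3) := rfl
    rw [this, map_add, map_smul, map_smul]

theorem near_const (hBU : S_BU) (hNT : S_NT) (hEIG : S_EIG) (h : LD m a b κ ν A) {P : Pk m}
    {E : ℝ} (hE1 : E < 1) (hPG : ∀ e, |e| ≤ E → GoodAt P a ν A e) {e1 : ℝ} (he : |e1| < E)
    (hne : e1 ≠ 0) (hst : LyapunovStable m (Set.range (xe a ν A e1))) {α1 α2 : ℝ}
    (hs1 : Real.sin α1 ≠ 0) (hs2 : Real.sin α2 ≠ 0) (hcc : Real.cos α1 ≠ Real.cos α2)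
    (h1 : Pair m (xe a ν A e1) (2 * Real.pi / ν) 1 α1)
    (h2 : Pair m (xe a ν A e1) (2 * Real.pi / ν) 1 α2) :
    ∀ᶠ e in 𝓝 e1, VP (Mb P a b ν A e) α1 ∧ VP (Mb P a b ν A e) α2 := by
  have he1 : |e1| < 1 := he.trans hE1
  have hm := h.hm
  have hT := Tpos h
  have hc : ‖(1:ℂ)‖ = 1 := by simp
  have hG := hPG e1 he.le
  set z0 := gam m a ν A e1 with hz0
  have hgx : (fun t => ((P.g t z0 : cm m) : Ph 3)) = xe a ν A e1 := funext hG.1
  obtain ⟨p1, r1, hn1, hp1, hr1⟩ := pair_vec hm hG.2.1 hT (c := 1) (by rw [hgx]; exact h1)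
  obtain ⟨p2, r2, hn2, hp2, hr2⟩ := pair_vec hm hG.2.1 hT (c := 1) (by rw [hgx]; exact h2)
  have hx := h.xe_sol he1
  have hre := h.not_rel he1 hne
  have hz0x : (z0 : Ph 3) = xe a ν A e1 0 := by
    rw [← hG.1 0, P.hg.zero]
  have hE0 : EP0 P (2 * Real.pi / ν) 1 z0 p1 r1 p2 r2 α1 α2 :=
    ⟨hG.2.1, by rw [one_smul]; exact hG.2.2, hp1, hr1, hp2, hr2, hn1, hn2, hs1, hs2, hcc,
      by rw [hz0x]; exact indep (by norm_num) hm hx hre⟩
  have hEP := hE0.toEP hm hT hc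
  have hb1 := hE0.bpart h he1 hne hG
  have hb2 := hE0.swap.bpart h he1 hne hG
  have hev : ∀ᶠ e in 𝓝 e1, |e| < E := continuous_abs.continuousAt.eventually_lt_const he
  have hSev : ∀ᶠ l in 𝓝 e1, ∀ t, ((P.g t (gam m a ν A l) : cm m) : Ph 3) ∈ P.S :=
    hev.mono fun l hl => (hPG l hl.le).2.1
  have hγc : ContDiffAt ℝ (1 : ℕ) (gam m a ν A) e1 := gam_cd he1
  obtain ⟨P1, R1, A1, a1, a2, a3, a4, a5, a6, a7⟩ := eig_cont hEIG hm (N := 1) le_rfl hT hc
    (γ := gam m a ν A) (l0 := e1) hγc hSev hEP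
  obtain ⟨P2, R2, A2, b1, b2, b3, b4, b5, b6, b7⟩ := eig_cont hEIG hm (N := 1) le_rfl hT hc
    (γ := gam m a ν A) (l0 := e1) hγc hSev hEP.swap
  have hcore := core hBU hNT hm hx hre hst (P := P) hT hc (γ := gam m a ν A) (p1 := P1)
    (r1 := R1) (p2 := P2) (r2 := R2) (α1 := A1) (α2 := A2) (l0 := e1) hG.1
    (by
      filter_upwards [hev] with l hl
      refine ⟨by exact_mod_cast gam_cd (N := 1) (hl.trans hE1), (hPG l hl.le).2.1, ?_⟩
      rw [one_smul]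
      exact (hPG l hl.le).2.2)
    (h.dL he1 hne) (by exact_mod_cast a4) (by exact_mod_cast a5)
    (by exact_mod_cast a6) (by exact_mod_cast b4) (by exact_mod_cast b5) (by exact_mod_cast b6)
    a7 b7 (by rw [a1, a2]; exact hEP.hω1) (by rw [b1, b2]; exact hEP.hω2) (by rw [a3]; exact hs1)
    (by rw [b3]; exact hs2) (by rw [a3, b3]; exact hcc)
  have hco : ∀ {Q : ℝ → cm m} {p : cm m}, ContDiffAt ℝ (1 : ℕ) Q e1 → Q e1 = p →
      co m b (p : Ph 3) ≠ 0 → ∀ᶠ l in 𝓝 e1, co m b ((Q l : cm m) : Ph 3) ≠ 0 := by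
    intro Q p hQ hQe hp
    have k1 : ContinuousAt (fun l => co m b ((Q l : cm m) : Ph 3)) e1 :=
      ((co m b).comp (inc m)).continuous.continuousAt.comp hQ.continuousAt
    exact k1.eventually_ne (by rw [hQe]; exact hp)
  filter_upwards [hcore, a7, b7, hev, hco a4 a1 hb1, hco b4 b1 hb2] with l k1 k2 k3 k4 k5 k6
  obtain ⟨c1, c2⟩ := k1
  rw [a3] at c1
  rw [b3] at c2
  rw [c1] at k2
  rw [c2] at k3
  exact ⟨vp_of h (k4.trans hE1) (hPG l k4.le) k5 k2.1 k2.2,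
    vp_of h (k4.trans hE1) (hPG l k4.le) k6 k3.1 k3.2⟩

end Pool.Agent.D0H95.BF
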