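import Pool.Agent.D0H95.BF.Stm3

/-!
Statements for the elliptic Lagrange solutions of all eccentricities (helper95, MP_5027f4_mp).
-/

set_option autoImplicit false

open Filter Topology Set
open Pool.Agent.W821.TB Pool.Agent.D0H95.NB

namespace Pool.Agent.D0H95.BF

/-- Module ANA: the period map of the linear equation `ζ' = η / r`,
`η' = 3/2 ζ + κ conj ζ - 2 i √(1-e²) η / r`, `r = 1 - e cos u`, is real analytic in `e`.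

Proof. `I = Icc 0 (2π)`, `X = C(I, ℂ × ℂ)`, `𝔼 = ℂ × ℂ →L[ℝ] ℂ × ℂ`. For `B ∈ C(I, 𝔼)` let
`(V_B f)(u) = ∫_0^u B(s) f(s) ds`; `B ↦ V_B` is a continuous linear map `C(I, 𝔼) → (X →L[ℝ] X)`
(`LinearMap.mkContinuous₂`). By induction `‖(V_B^n f)(u)‖ ≤ (‖B‖ u)^n / n! ‖f‖`, so `‖V_B^n‖ < 1` for some
`n`, `1 - V_B^n` is a unit and so is `1 - V_B` (it commutes with the other factor,
`Commute.isUnit_mul_iff`). `Ring.inverse` is analytic at units (`analyticAt_inverse`). The function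
`e ↦ B(e) ∈ C(I, 𝔼)`, `B(e)(u)(ζ, η) = (η / r, 3/2 ζ + κ conj ζ - 2 i √(1-e²) η / r)`, is analytic on
`(-1, 1)`: `B(e) = const A₀ + R(e) • A₁ + √(1-e²) R(e) • A₂` with `R(e) = Ring.inverse (1 - e cos)` in the
Banach algebra `C(I, ℝ)`. Put `N e w = ((1 - V_{B(e)})⁻¹ (const w)) (2π)`. If `(ζ, η)` solves the equation
then its restriction `f` to `I` satisfies `(1 - V_{B(e)}) f = const (ζ 0, η 0)`. -/
def S_ANA : Prop := ∀ κ : ℝ, ∃ N : ℝ → (ℂ × ℂ →L[ℝ] ℂ × ℂ), AnalyticOnNhd ℝ N (Ioo (-1) 1) ∧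
  ∀ e : ℝ, |e| < 1 → ∀ ζ η : ℝ → ℂ,
    (∀ u, HasDerivAt ζ (η u / ((1 - e * Real.cos u : ℝ) : ℂ)) u) →
    (∀ u, HasDerivAt η (3 / 2 * ζ u + κ * (starRingEnd ℂ) (ζ u) -
      2 * Real.sqrt (1 - e ^ 2) * Complex.I * (η u / ((1 - e * Real.cos u : ℝ) : ℂ))) u) →
    N e (ζ 0, η 0) = (ζ (2 * Real.pi), η (2 * Real.pi))

/-- Nonzero quasi-periodic solutions of the circular problem. -/
def CS (κ α : ℝ) : Prop := ∃ X X' Y Y' : ℝ → ℂ,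
  (∀ u, HasDerivAt X (X' u) u ∧ HasDerivAt Y (Y' u) u ∧
    HasDerivAt X' (3 / 2 * X u + κ * Y u - 2 * Complex.I * X' u) u ∧
    HasDerivAt Y' (3 / 2 * Y u + κ * X u + 2 * Complex.I * Y' u) u ∧
    X (u + 2 * Real.pi) = Complex.exp (α * Complex.I) * X u ∧
    Y (u + 2 * Real.pi) = Complex.exp (α * Complex.I) * Y u) ∧
  ∃ u, X u ≠ 0 ∨ Y u ≠ 0

/-- Module CIR2.

Proof. `β = 9 - 4 κ² > 0`. Let `s ∈ ℂ`, `s² = 1 - β`, `l₁² = (1 - s)/2`, `l₂² = (1 + s)/2` (complex `l₁, l₂`);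
so `l₁² + l₂² = 1`, `l₁² l₂² = β/4 = 9/4 - κ²`. Both `X` and `Y` satisfy `(D⁴ + D² + β/4) g = 0`, i.e.
`(D - i l₁)(D + i l₁)(D - i l₂)(D + i l₂) g = 0`. If `(D - μ) g = 0`, `g (u + 2π) = exp (i α) g u` and `g ≠ 0`
then `exp (2π μ) = exp (i α)`, `cos α = cosh (2π μ)`. So `cos α ∈ {cos (2π l₁), cos (2π l₂)}` (complex
cosines) for `α = α₁, α₂`, and as `cos α₁ ≠ cos α₂` both values are attained. If `β > 1` then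
`l₂² = conj (l₁²)`, `cos (2π l₂) = conj (cos (2π l₁))`, which is impossible for two different real numbers;
if `β = 1` both values are equal. So `β < 1`, `l₁, l₂` may be taken real in `(0, 1)`, and `4 l² ≠ 1` since
`cos α ≠ -1`. -/
def S_CIR2 : Prop := ∀ κ α₁ α₂ : ℝ, κ ^ 2 < 9 / 4 → Real.sin α₁ ≠ 0 → Real.sin α₂ ≠ 0 →
  Real.cos α₁ ≠ Real.cos α₂ → CS κ α₁ → CS κ α₂ → ∃ l₁ l₂ : ℝ, 0 < l₁ ∧ l₁ < 1 ∧ 0 < l₂ ∧ l₂ < 1 ∧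
    4 * l₁ ^ 2 ≠ 1 ∧ 4 * l₂ ^ 2 ≠ 1 ∧ 2 * l₁ ^ 2 ≠ 1 ∧ 2 * l₂ ^ 2 ≠ 1 ∧ l₁ ^ 2 + l₂ ^ 2 = 1 ∧
    l₁ ^ 4 - l₁ ^ 2 + 9 / 4 - κ ^ 2 = 0 ∧ l₂ ^ 4 - l₂ ^ 2 + 9 / 4 - κ ^ 2 = 0 ∧
    Real.cos α₁ = Real.cos (2 * Real.pi * l₁) ∧ Real.cos α₂ = Real.cos (2 * Real.pi * l₂)

end Pool.Agent.D0H95.BF
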