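import Pool.Agent.D0H95.BF.LagI
import Pool.Agent.D0H95.BF.Stm4

/-!
Elliptic Lagrange solutions: analytic dependence of the multipliers on the eccentricity.
-/

set_option autoImplicit false

namespace Pool.Agent.D0H95.BF

open Pool.Agent.W821.TB Pool.Agent.D0H95.NB Finset Filter Topology

variable {m : Fin 3 → ℝ} {a b : Fin 3 → ℂ} {κ ν A : ℝ}

/-- The coordinates in which the period map is analytic. -/
noncomputable def VC (ν A e : ℝ) (q : ℂ × ℂ) : ℂ × ℂ :=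
  (q.1 / ell A e 0, ((1 - e : ℝ) : ℂ) * (q.2 * ((1 - e : ℝ) : ℂ) / (ν * ell A e 0) -
    ((Real.sqrt (1 - e ^ 2) : ℂ) * Complex.I) / ((1 - e : ℝ) : ℂ) * (q.1 / ell A e 0)))

theorem VC_lin (ν A e : ℝ) (x y : ℂ × ℂ) (c d : ℝ) :
    VC ν A e (c • x + d • y) = c • VC ν A e x + d • VC ν A e y := by
  unfold VC
  refine Prod.ext ?_ ?_
  · simp only [Prod.fst_add, Prod.smul_fst, Complex.real_smul]
    ring
  · simp only [Prod.fst_add, Prod.smul_fst, Prod.snd_add, Prod.smul_snd, Complex.real_smul]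
    ring

/-- The inverse transformation. -/
noncomputable def VI (ν A e : ℝ) (x : ℂ × ℂ) : ℂ × ℂ :=
  (x.1 * ell A e 0, (x.2 + (Real.sqrt (1 - e ^ 2) : ℂ) * Complex.I * x.1) *
    (ν * ell A e 0) / ((1 - e : ℝ) : ℂ) ^ 2)

theorem VC_VI (hν : 0 < ν) (hA : 0 < A) {e : ℝ} (he1 : |e| < 1) (x : ℂ × ℂ) :
    VC ν A e (VI ν A e x) = x := by
  have h1 : ell A e 0 ≠ 0 := ell_ne hν hA he1 0
  have h2 : ((1 - e : ℝ) : ℂ) ≠ 0 := by
    have : 0 < 1 - e := by have := (abs_lt.mp he1).2; linarith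
    exact_mod_cast this.ne'
  have h3 : (ν : ℂ) ≠ 0 := by exact_mod_cast hν.ne'
  unfold VC VI
  refine Prod.ext ?_ ?_
  · simp only
    field_simp
  · simp only
    field_simp
    ring

theorem VI_VC (hν : 0 < ν) (hA : 0 < A) {e : ℝ} (he1 : |e| < 1) (x : ℂ × ℂ) :
    VI ν A e (VC ν A e x) = x := by
  have h1 : ell A e 0 ≠ 0 := ell_ne hν hA he1 0
  have h2 : ((1 - e : ℝ) : ℂ) ≠ 0 := by
    have : 0 < 1 - e := by have := (abs_lt.mp he1).2; linarith
    exact_mod_cast this.ne'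
  have h3 : (ν : ℂ) ≠ 0 := by exact_mod_cast hν.ne'
  unfold VC VI
  refine Prod.ext ?_ ?_
  · simp only
    field_simp
  · simp only
    field_simp
    ring

theorem N_VC (hZET : S_ZET) (h : LD m a b κ ν A) {P : Pk m} {e : ℝ} (he1 : |e| < 1)
    (hP : GoodAt P a ν A e) {N : ℝ → (ℂ × ℂ →L[ℝ] ℂ × ℂ)}
    (hN : ∀ e : ℝ, |e| < 1 → ∀ ζ η : ℝ → ℂ,
    (∀ u, HasDerivAt ζ (η u / ((1 - e * Real.cos u : ℝ) : ℂ)) u) →
    (∀ u, HasDerivAt η (3 / 2 * ζ u + κ * (starRingEnd ℂ) (ζ u) -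
      2 * Real.sqrt (1 - e ^ 2) * Complex.I * (η u / ((1 - e * Real.cos u : ℝ) : ℂ))) u) →
    N e (ζ 0, η 0) = (ζ (2 * Real.pi), η (2 * Real.pi))) (q : ℂ × ℂ) :
    N e (VC ν A e q) = VC ν A e (Mb P a b ν A e q) := by
  have hν := h.hν
  have hA := h.hA
  have hr : ∀ u : ℝ, ((1 - e * Real.cos u : ℝ) : ℂ) ≠ 0 := fun u => by
    exact_mod_cast (r_pos he1 u).ne'
  have htK0 : tK ν e 0 = 0 := by
    unfold tK
    simp
  have hZ0 : ∀ v : ℂ × ℂ, Zf P a b ν A e v 0 = v.1 := by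
    intro v
    unfold Zf
    rw [htK0, wb_zero h]
  have hV0 : ∀ v : ℂ × ℂ, Vf P a b ν A e v 0 = v.2 := by
    intro v
    unfold Vf
    rw [htK0, wb_zero h]
  have hZp : ∀ v : ℂ × ℂ, Zf P a b ν A e v (2 * Real.pi) = (Mb P a b ν A e v).1 := by
    intro v
    unfold Zf
    have := tK_per hν e 0
    rw [zero_add, htK0] at this
    rw [this, wb_perG h he1 hP, wb_zero h]
  have hVp : ∀ v : ℂ × ℂ, Vf P a b ν A e v (2 * Real.pi) = (Mb P a b ν A e v).2 := by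
    intro v
    unfold Vf
    have := tK_per hν e 0
    rw [zero_add, htK0] at this
    rw [this, wb_perG h he1 hP, wb_zero h]
  have hel : ell A e (2 * Real.pi) = ell A e 0 := by
    have := ell_per (A := A) e 0
    rwa [zero_add] at this
  have hkey := fun u => hZET κ ν A e hν hA he1 (Zf P a b ν A e q) (Vf P a b ν A e q)
    (fun u => (Zf_derivG h he1 hP q u).1) (fun u => (Zf_derivG h he1 hP q u).2) u
  have h1 := hN e he1 (zt A e (Zf P a b ν A e q))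
    (fun u => ((1 - e * Real.cos u : ℝ) : ℂ) *
      zt' ν A e (Zf P a b ν A e q) (Vf P a b ν A e q) u)
    (fun u => by
      refine (hkey u).1.congr_deriv ?_
      rw [mul_div_cancel_left₀ _ (hr u)])
    (fun u => by
      refine (hkey u).2.congr_deriv ?_
      rw [mul_div_cancel_left₀ _ (hr u)])
  have e1 : ∀ v : ℂ × ℂ, VC ν A e v = (v.1 / ell A e 0, ((1 - e * Real.cos 0 : ℝ) : ℂ) *
      (v.2 * ((1 - e * Real.cos 0 : ℝ) : ℂ) / (ν * ell A e 0) -
      (((e * Real.sin 0 : ℝ) : ℂ) + (Real.sqrt (1 - e ^ 2) : ℂ) * Complex.I) /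
      ((1 - e * Real.cos 0 : ℝ) : ℂ) * (v.1 / ell A e 0))) := by
    intro v
    unfold VC
    rw [Real.cos_zero, Real.sin_zero, mul_one, mul_zero, Complex.ofReal_zero, zero_add]
  rw [e1, e1]
  unfold zt' zt at h1
  simp only [hZ0, hV0, hZp, hVp, hel, Real.cos_two_pi, Real.sin_two_pi] at h1
  simp only [Real.cos_zero, Real.sin_zero] at h1 ⊢
  exact h1

theorem vp_mb (hZET : S_ZET) (h : LD m a b κ ν A) {P : Pk m} {e : ℝ} (he1 : |e| < 1)
    (hP : GoodAt P a ν A e) {N : ℝ → (ℂ × ℂ →L[ℝ] ℂ × ℂ)}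
    (hN : ∀ e : ℝ, |e| < 1 → ∀ ζ η : ℝ → ℂ,
    (∀ u, HasDerivAt ζ (η u / ((1 - e * Real.cos u : ℝ) : ℂ)) u) →
    (∀ u, HasDerivAt η (3 / 2 * ζ u + κ * (starRingEnd ℂ) (ζ u) -
      2 * Real.sqrt (1 - e ^ 2) * Complex.I * (η u / ((1 - e * Real.cos u : ℝ) : ℂ))) u) →
    N e (ζ 0, η 0) = (ζ (2 * Real.pi), η (2 * Real.pi))) (α : ℝ) :
    VP (Mb P a b ν A e) α ↔ VP (N e) α := by
  have hν := h.hν
  have hA := h.hA
  have key := N_VC hZET h he1 hP hN
  have hz : VC ν A e 0 = 0 := by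
    have := VC_lin ν A e 0 0 0 0
    simpa using this
  constructor
  · rintro ⟨q, s, h0, h1, h2⟩
    refine ⟨VC ν A e q, VC ν A e s, ?_, ?_, ?_⟩
    · intro hh
      apply h0
      have k1 := VI_VC hν hA he1 q
      rw [hh, ← hz, VI_VC hν hA he1] at k1
      exact k1.symm
    · rw [key, h1, sub_aux (Real.cos α) (Real.sin α) q s, VC_lin]
      exact (sub_aux _ _ _ _).symm
    · rw [key, h2, VC_lin]
  · rintro ⟨q, s, h0, h1, h2⟩
    have key' : ∀ v, Mb P a b ν A e (VI ν A e v) = VI ν A e (N e v) := by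
      intro v
      have k1 := key (VI ν A e v)
      rw [VC_VI hν hA he1] at k1
      rw [k1, VI_VC hν hA he1]
    have hinj : ∀ x y : ℂ × ℂ, VC ν A e x = VC ν A e y → x = y := by
      intro x y hxy
      rw [← VI_VC hν hA he1 x, hxy, VI_VC hν hA he1]
    refine ⟨VI ν A e q, VI ν A e s, ?_, ?_, ?_⟩
    · intro hh
      apply h0
      have k1 := VC_VI hν hA he1 q
      rw [hh, hz] at k1
      exact k1.symm
    · rw [key', h1]
      apply hinj
      rw [sub_aux (Real.cos α) (Real.sin α) (VI ν A e q) (VI ν A e s), VC_lin, VC_VI hν hA he1,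
        VC_VI hν hA he1, VC_VI hν hA he1]
      exact sub_aux _ _ _ _
    · rw [key', h2]
      apply hinj
      rw [VC_lin, VC_VI hν hA he1, VC_VI hν hA he1, VC_VI hν hA he1]

end Pool.Agent.D0H95.BF
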