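import Pool.Agent.D0H95.BF.LagI

/-!
Elliptic pairs of an analytic family of operators.
-/

set_option autoImplicit false

namespace Pool.Agent.D0H95.BF

open Pool.Agent.W821.TB Pool.Agent.D0H95.NB Finset Filter Topology

/-- The quadratic polynomial of a pair. -/
noncomputable def KK (M : ℂ × ℂ →L[ℝ] ℂ × ℂ) (c : ℝ) : ℂ × ℂ →L[ℝ] ℂ × ℂ :=
  M * M - (2 * c) • M + 1

theorem KK_apply (M : ℂ × ℂ →L[ℝ] ℂ × ℂ) (c : ℝ) (v : ℂ × ℂ) :
    KK M c v = M (M v) - (2 * c) • M v + v := rfl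

theorem vp_ker {M : ℂ × ℂ →L[ℝ] ℂ × ℂ} {α : ℝ} (h : VP M α) :
    ∃ v, v ≠ 0 ∧ KK M (Real.cos α) v = 0 := by
  obtain ⟨q, s, h0, h1, h2⟩ := h
  refine ⟨q, h0, ?_⟩
  rw [KK_apply, h1, map_sub, map_smul, map_smul, h1, h2]
  have e : Real.cos α • (Real.cos α • q - Real.sin α • s) -
        Real.sin α • (Real.sin α • q + Real.cos α • s) -
        (2 * Real.cos α) • (Real.cos α • q - Real.sin α • s) + q =
        (1 - (Real.sin α ^ 2 + Real.cos α ^ 2)) • q := by module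
  rw [e, Real.sin_sq_add_cos_sq, sub_self, zero_smul]

theorem ker_vp {M : ℂ × ℂ →L[ℝ] ℂ × ℂ} {α : ℝ} (hs : Real.sin α ≠ 0) {v : ℂ × ℂ} (h0 : v ≠ 0)
    (h : KK M (Real.cos α) v = 0) : VP M α := by
  rw [KK_apply] at h
  set C := Real.cos α with hC
  set S := Real.sin α with hS
  have hCS : S ^ 2 + C ^ 2 = 1 := Real.sin_sq_add_cos_sq α
  have h1 : M (M v) = (2 * C) • M v - v := by
    have : M (M v) - (2 * C) • M v + v - v = 0 - v := by rw [h]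
    rw [add_sub_cancel_right, zero_sub] at this
    rw [sub_eq_iff_eq_add] at this
    rw [this]
    abel
  refine ⟨v, S⁻¹ • (C • v - M v), h0, ?_, ?_⟩
  · rw [smul_smul, mul_inv_cancel₀ hs, one_smul]
    abel
  · rw [map_smul, map_sub, map_smul, h1]
    have e1 : S • v = S⁻¹ • ((S ^ 2) • v) := by
      rw [smul_smul]
      congr 1
      field_simp
    have e2 : S ^ 2 = 1 - C ^ 2 := by linarith
    rw [e1, e2, smul_comm C S⁻¹, ← smul_add]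
    congr 1
    module

theorem an_det {K : ℝ → (ℂ × ℂ →L[ℝ] ℂ × ℂ)} {U : Set ℝ} (hK : AnalyticOnNhd ℝ K U) :
    AnalyticOnNhd ℝ (fun e => LinearMap.det ((K e : ℂ × ℂ →L[ℝ] ℂ × ℂ) : ℂ × ℂ →ₗ[ℝ] ℂ × ℂ)) U := by
  set bs := Module.finBasis ℝ (ℂ × ℂ) with hbs
  have h1 : (fun e => LinearMap.det ((K e : ℂ × ℂ →L[ℝ] ℂ × ℂ) : ℂ × ℂ →ₗ[ℝ] ℂ × ℂ)) =
      fun e => ∑ σ : Equiv.Perm (Fin (Module.finrank ℝ (ℂ × ℂ))), (Equiv.Perm.sign σ : ℝ) *
        ∏ i, (bs.coord (σ i)) (K e (bs i)) := by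
    funext e
    rw [← LinearMap.det_toMatrix bs, Matrix.det_apply]
    refine Finset.sum_congr rfl fun σ _ => ?_
    have : ((Equiv.Perm.sign σ : ℤˣ) : ℝ) = (((Equiv.Perm.sign σ : ℤˣ) : ℤ) : ℝ) := rfl
    rw [this, Units.smul_def, zsmul_eq_mul]
    congr 1
    refine Finset.prod_congr rfl fun i _ => ?_
    rw [LinearMap.toMatrix_apply]
    rfl
  rw [h1]
  refine Finset.analyticOnNhd_fun_sum _ fun σ _ => ?_
  refine analyticOnNhd_const.mul ?_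
  refine Finset.analyticOnNhd_fun_prod _ fun i _ => ?_
  have h2 : (fun e => (bs.coord (σ i)) (K e (bs i))) = fun e =>
      ((LinearMap.toContinuousLinearMap (bs.coord (σ i))).comp
        (ContinuousLinearMap.apply ℝ (ℂ × ℂ) (bs i))) (K e) := by
    funext e
    rfl
  rw [h2]
  exact (ContinuousLinearMap.comp_analyticOnNhd _ hK)

/-- The pairs propagate to all eccentricities. -/
theorem vp_all {N : ℝ → (ℂ × ℂ →L[ℝ] ℂ × ℂ)} (hN : AnalyticOnNhd ℝ N (Set.Ioo (-1) 1)) {α e1 : ℝ}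
    (hs : Real.sin α ≠ 0) (he1 : |e1| < 1) (h : ∀ᶠ e in 𝓝 e1, VP (N e) α) {e : ℝ} (he : |e| < 1) :
    VP (N e) α := by
  set K : ℝ → (ℂ × ℂ →L[ℝ] ℂ × ℂ) := fun e => KK (N e) (Real.cos α) with hK
  have hKa : AnalyticOnNhd ℝ K (Set.Ioo (-1) 1) := by
    have h1 : K = fun e => N e * N e - (2 * Real.cos α) • N e + 1 := rfl
    rw [h1]
    exact ((hN.mul hN).sub ((analyticOnNhd_const (v := 2 * Real.cos α)).smul hN)).add
      analyticOnNhd_const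
  have hd := an_det hKa
  have hz : Set.EqOn (fun e => LinearMap.det ((K e : ℂ × ℂ →L[ℝ] ℂ × ℂ) : ℂ × ℂ →ₗ[ℝ] ℂ × ℂ)) 0
      (Set.Ioo (-1) 1) := by
    refine hd.eqOn_zero_of_preconnected_of_eventuallyEq_zero isPreconnected_Ioo
      (abs_lt.mp he1) ?_
    filter_upwards [h] with l hl
    obtain ⟨v, hv0, hv⟩ := vp_ker hl
    by_contra hne
    have k1 : IsUnit (LinearMap.det ((K l : ℂ × ℂ →L[ℝ] ℂ × ℂ) : ℂ × ℂ →ₗ[ℝ] ℂ × ℂ)) :=
      isUnit_iff_ne_zero.mpr hne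
    have k2 := LinearMap.ker_eq_bot.mp
      ((LinearMap.isUnit_iff_ker_eq_bot _).mp ((LinearMap.isUnit_iff_isUnit_det _).mpr k1))
    exact hv0 (k2 (by rw [map_zero]; exact hv))
  have h3 := hz (abs_lt.mp he)
  simp only [Pi.zero_apply] at h3
  have h4 := LinearMap.bot_lt_ker_of_det_eq_zero h3
  obtain ⟨v, hv, hv0⟩ := (Submodule.ne_bot_iff _).mp h4.ne'
  exact ker_vp hs hv0 hv

end Pool.Agent.D0H95.BF
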