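import Pool.Agent.D0H95.BF.LagJ
import Pool.Agent.D0H95.BF.LagJ2

/-!
Elliptic Lagrange solutions of all eccentricities.
-/

set_option autoImplicit false

namespace Pool.Agent.D0H95.BF

open Pool.Agent.W821.TB Pool.Agent.D0H95.NB Finset Filter Topology

/-- Three pairs with different cosines need six dimensions. -/
theorem three_pairs {E : Type} [NormedAddCommGroup E] [NormedSpace ℝ E] [FiniteDimensional ℝ E]
    (hE : Module.finrank ℝ E < 6) {M : E →L[ℝ] E} {α β γ : ℝ} (hα : Real.sin α ≠ 0)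
    (hβ : Real.sin β ≠ 0) (hγ : Real.sin γ ≠ 0) (h1 : VP M α) (h2 : VP M β) (h3 : VP M γ)
    (h12 : Real.cos α ≠ Real.cos β) (h13 : Real.cos α ≠ Real.cos γ)
    (h23 : Real.cos β ≠ Real.cos γ) : False := by
  obtain ⟨p1, r1, n1, a1, b1⟩ := h1
  obtain ⟨p2, r2, n2, a2, b2⟩ := h2
  obtain ⟨p3, r3, n3, a3, b3⟩ := h3
  -- the polynomial identity
  have hq : ∀ (p r : E) (θ : ℝ), M p = Real.cos θ • p - Real.sin θ • r →
      M r = Real.sin θ • p + Real.cos θ • r → ∀ x y : ℝ,
      M (M (x • p + y • r)) + (x • p + y • r) = (2 * Real.cos θ) • M (x • p + y • r) := by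
    intro p r θ hp hr x y
    have e1 : M (x • p + y • r) = x • (Real.cos θ • p - Real.sin θ • r) +
        y • (Real.sin θ • p + Real.cos θ • r) := by
      rw [map_add, map_smul, map_smul, hp, hr]
    have e2 : M (M (x • p + y • r)) =
        x • (Real.cos θ • (Real.cos θ • p - Real.sin θ • r) -
          Real.sin θ • (Real.sin θ • p + Real.cos θ • r)) +
        y • (Real.sin θ • (Real.cos θ • p - Real.sin θ • r) +
          Real.cos θ • (Real.sin θ • p + Real.cos θ • r)) := by
      rw [e1, map_add, map_smul, map_smul, map_sub, map_add, map_smul, map_smul, map_smul,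
        map_smul, hp, hr]
    rw [e2, e1]
    have hs : Real.sin θ ^ 2 = 1 - Real.cos θ ^ 2 := by
      have := Real.sin_sq_add_cos_sq θ
      linarith
    have e3 : x • (Real.cos θ • (Real.cos θ • p - Real.sin θ • r) -
          Real.sin θ • (Real.sin θ • p + Real.cos θ • r)) +
        y • (Real.sin θ • (Real.cos θ • p - Real.sin θ • r) +
          Real.cos θ • (Real.sin θ • p + Real.cos θ • r)) + (x • p + y • r) -
        (2 * Real.cos θ) • (x • (Real.cos θ • p - Real.sin θ • r) +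
        y • (Real.sin θ • p + Real.cos θ • r)) =
        (1 - Real.cos θ ^ 2 - Real.sin θ ^ 2) • (x • p + y • r) := by module
    rw [hs, sub_self, zero_smul] at e3
    exact sub_eq_zero.mp e3
  have hli : LinearIndependent ℝ ![p1, r1, p2, r2, p3, r3] := by
    rw [Fintype.linearIndependent_iff]
    intro g hg
    rw [Fin.sum_univ_six] at hg
    simp only [Matrix.cons_val_zero, Matrix.cons_val_one, Matrix.cons_val] at hg
    set x1 := g 0 • p1 + g 1 • r1 with hx1
    set x2 := g 2 • p2 + g 3 • r2 with hx2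
    set x3 := g 4 • p3 + g 5 • r3 with hx3
    have hsum : x1 + x2 + x3 = 0 := by
      rw [← hg, hx1, hx2, hx3]
      abel
    have q1 := hq p1 r1 α a1 b1 (g 0) (g 1)
    have q2 := hq p2 r2 β a2 b2 (g 2) (g 3)
    have q3 := hq p3 r3 γ a3 b3 (g 4) (g 5)
    rw [← hx1] at q1
    rw [← hx2] at q2
    rw [← hx3] at q3
    -- first step
    have s0 : M x1 + M x2 + M x3 = 0 := by rw [← map_add, ← map_add, hsum, map_zero]
    have s1 : M (M x1) + M (M x2) + M (M x3) = 0 := by rw [← map_add, ← map_add, s0, map_zero]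
    have t0 : (2 * Real.cos α) • M x1 + (2 * Real.cos β) • M x2 + (2 * Real.cos γ) • M x3 = 0 := by
      rw [← q1, ← q2, ← q3]
      have e : M (M x1) + x1 + (M (M x2) + x2) + (M (M x3) + x3) =
          (M (M x1) + M (M x2) + M (M x3)) + (x1 + x2 + x3) := by abel
      rw [e, s1, hsum, add_zero]
    have t1 : (2 * Real.cos α) • M (M x1) + (2 * Real.cos β) • M (M x2) +
        (2 * Real.cos γ) • M (M x3) = 0 := by
      have := congrArg M t0
      rwa [map_add, map_add, map_smul, map_smul, map_smul, map_zero] at this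
    have t2 : (2 * Real.cos α) • M (M (M x1)) + (2 * Real.cos β) • M (M (M x2)) +
        (2 * Real.cos γ) • M (M (M x3)) = 0 := by
      have := congrArg M t1
      rwa [map_add, map_add, map_smul, map_smul, map_smul, map_zero] at this
    have u1 : M (M (M x1)) + M x1 = (2 * Real.cos α) • M (M x1) := by
      have := congrArg M q1
      rwa [map_add, map_smul] at this
    have u2 : M (M (M x2)) + M x2 = (2 * Real.cos β) • M (M x2) := by
      have := congrArg M q2
      rwa [map_add, map_smul] at this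
    have u3 : M (M (M x3)) + M x3 = (2 * Real.cos γ) • M (M x3) := by
      have := congrArg M q3
      rwa [map_add, map_smul] at this
    have v0 : (2 * Real.cos α) • ((2 * Real.cos α) • M (M x1)) +
        (2 * Real.cos β) • ((2 * Real.cos β) • M (M x2)) +
        (2 * Real.cos γ) • ((2 * Real.cos γ) • M (M x3)) = 0 := by
      rw [← u1, ← u2, ← u3, smul_add, smul_add, smul_add]
      have e : (2 * Real.cos α) • M (M (M x1)) + (2 * Real.cos α) • M x1 +
          ((2 * Real.cos β) • M (M (M x2)) + (2 * Real.cos β) • M x2) +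
          ((2 * Real.cos γ) • M (M (M x3)) + (2 * Real.cos γ) • M x3) =
          ((2 * Real.cos α) • M (M (M x1)) + (2 * Real.cos β) • M (M (M x2)) +
          (2 * Real.cos γ) • M (M (M x3))) +
          ((2 * Real.cos α) • M x1 + (2 * Real.cos β) • M x2 + (2 * Real.cos γ) • M x3) := by abel
      rw [e, t2, t0, add_zero]
    -- Vandermonde
    have vd : ∀ (a b c : ℝ) (X Y Z : E), a ≠ b → a ≠ c → X + Y + Z = 0 →
        (2 * a) • X + (2 * b) • Y + (2 * c) • Z = 0 →
        (2 * a) • ((2 * a) • X) + (2 * b) • ((2 * b) • Y) + (2 * c) • ((2 * c) • Z) = 0 →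
        X = 0 := by
      intro a b c X Y Z hab hac k0 k1 k2
      have e : (4 * ((a - b) * (a - c))) • X =
          ((2 * a) • ((2 * a) • X) + (2 * b) • ((2 * b) • Y) + (2 * c) • ((2 * c) • Z)) -
          (2 * (b + c)) • ((2 * a) • X + (2 * b) • Y + (2 * c) • Z) +
          (4 * (b * c)) • (X + Y + Z) := by module
      rw [k0, k1, k2, smul_zero, smul_zero, sub_zero, add_zero] at e
      refine (smul_eq_zero.mp e).resolve_left ?_
      exact mul_ne_zero (by norm_num) (mul_ne_zero (sub_ne_zero.mpr hab) (sub_ne_zero.mpr hac))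
    have w1 : M (M x1) = 0 := vd _ _ _ _ _ _ h12 h13 s1 t1 v0
    have w2 : M (M x2) = 0 := by
      refine vd _ _ _ (M (M x2)) (M (M x3)) (M (M x1)) h23 h12.symm ?_ ?_ ?_
      · rw [← s1]; abel
      · rw [← t1]; abel
      · rw [← v0]; abel
    have w3 : M (M x3) = 0 := by
      refine vd _ _ _ (M (M x3)) (M (M x1)) (M (M x2)) h13.symm h23.symm ?_ ?_ ?_
      · rw [← s1]; abel
      · rw [← t1]; abel
      · rw [← v0]; abel
    have z0 : ∀ (p r : E) (θ : ℝ), Real.sin θ ≠ 0 → p ≠ 0 → M p = Real.cos θ • p - Real.sin θ • r →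
        M r = Real.sin θ • p + Real.cos θ • r → ∀ x y : ℝ, M (M (x • p + y • r)) = 0 →
        x = 0 ∧ y = 0 := by
      intro p r θ hs hp0 hp hr x y h0
      have h4 : M (x • p + y • r) = (x * Real.cos θ + y * Real.sin θ) • p +
          (y * Real.cos θ - x * Real.sin θ) • r := by
        rw [map_add, map_smul, map_smul, hp, hr]
        module
      have h5 : ∀ x y : ℝ, M (x • p + y • r) = 0 → x = 0 ∧ y = 0 := by
        intro x y h6
        have h7 : M (x • p + y • r) = (x * Real.cos θ + y * Real.sin θ) • p +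
            (y * Real.cos θ - x * Real.sin θ) • r := by
          rw [map_add, map_smul, map_smul, hp, hr]
          module
        rw [h6] at h7
        obtain ⟨h8, h9⟩ := pair_ind (M : E →ₗ[ℝ] E) hs hp hr hp0 h7.symm
        have hcs := Real.sin_sq_add_cos_sq θ
        constructor
        · linear_combination Real.cos θ * h8 - Real.sin θ * h9 - x * hcs
        · linear_combination Real.sin θ * h8 + Real.cos θ * h9 - y * hcs
      rw [h4] at h0
      obtain ⟨h8, h9⟩ := h5 _ _ h0
      have hcs := Real.sin_sq_add_cos_sq θ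
      constructor
      · linear_combination Real.cos θ * h8 - Real.sin θ * h9 - x * hcs
      · linear_combination Real.sin θ * h8 + Real.cos θ * h9 - y * hcs
    obtain ⟨g0, g1⟩ := z0 p1 r1 α hα n1 a1 b1 _ _ w1
    obtain ⟨g2, g3⟩ := z0 p2 r2 β hβ n2 a2 b2 _ _ w2
    obtain ⟨g4, g5⟩ := z0 p3 r3 γ hγ n3 a3 b3 _ _ w3
    intro i
    fin_cases i
    · exact g0
    · exact g1
    · exact g2
    · exact g3
    · exact g4
    · exact g5
  have h6 := hli.fintype_card_le_finrank
  simp at h6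
  omega

variable {m : Fin 3 → ℝ} {a b : Fin 3 → ℂ} {κ ν A : ℝ}

/-- Quasi-periodic solutions of the circular problem. -/
theorem vp_cs (hZET : S_ZET) (h : LD m a b κ ν A) {P : Pk m} (hP : Good P a ν A) {α : ℝ}
    (hv : VP (Mb P a b ν A 0) α) : CS κ α := by
  obtain ⟨q, s, h0, h1, h2⟩ := hv
  have hν := h.hν
  have hA := h.hA
  have he0 : |(0:ℝ)| ≤ 1 / 2 := by norm_num
  have hone : ∀ u : ℝ, ((1 - 0 * Real.cos u : ℝ) : ℂ) = 1 := by
    intro u; push_cast; ring
  have hsq : ((Real.sqrt (1 - (0:ℝ) ^ 2) : ℝ) : ℂ) = 1 := by norm_num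
  refine ⟨XA P a b ν A 0 q s, XA' P a b ν A 0 q s, XB P a b ν A 0 q s, XB' P a b ν A 0 q s,
    fun u => ?_, ?_⟩
  · obtain ⟨k1, k2, k3, k4⟩ := cx hZET h hP he0 q s u
    simp only [hone, one_mul, hsq, mul_one] at k3 k4
    obtain ⟨k5, k6⟩ := cx_per h hP he0 h1 h2 u
    exact ⟨k1, k2, k3, k4, k5, k6⟩
  · by_contra hh
    push Not at hh
    have hz : ∀ u, zt A 0 (Zf P a b ν A 0 q) u = 0 := by
      intro u
      obtain ⟨k1, k2⟩ := hh u
      unfold XA at k1
      unfold XB at k2
      have k3 := congrArg (starRingEnd ℂ) k2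
      rw [map_add, map_mul, Complex.conj_conj, Complex.conj_conj, Complex.conj_I, map_zero] at k3
      linear_combination 1 / 2 * k1 + 1 / 2 * k3
    have hZ : ∀ u, Zf P a b ν A 0 q u = 0 := by
      intro u
      have k1 := hz u
      unfold zt at k1
      exact (div_eq_zero_iff.mp k1).resolve_right (ell_ne hν hA (by norm_num) u)
    have hV : Vf P a b ν A 0 q 0 = 0 := by
      have k1 := (Zf_deriv h hP he0 q 0).1
      have k2 : Zf P a b ν A 0 q = fun _ => 0 := funext hZ
      rw [k2] at k1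
      have k3 := k1.unique (hasDerivAt_const (0:ℝ) (0:ℂ))
      refine (mul_eq_zero.mp k3).resolve_left ?_
      have : (1 - 0 * Real.cos 0) / ν ≠ 0 := by
        rw [zero_mul, sub_zero]
        positivity
      exact_mod_cast this
    apply h0
    have htK0 : tK ν 0 0 = 0 := by
      unfold tK
      simp
    have k1 := hZ 0
    unfold Zf at k1
    unfold Vf at hV
    rw [htK0, wb_zero h] at k1 hV
    exact Prod.ext k1 hV

/-- **Elliptic Lagrange solutions with two elliptic pairs are not Lyapunov stable.** -/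
theorem LD.all_unstable (hBU : S_BU) (hNT : S_NT) (hEIG : S_EIG) (hPERT : S_PERT) (hUNI : S_UNI)
    (hTAY : S_TAY) (hZET : S_ZET) (hANA : S_ANA) (hCIR : S_CIR2) (h : LD m a b κ ν A) {e1 : ℝ}
    (he1 : |e1| < 1) (hne : e1 ≠ 0) {β1 β2 : ℝ}
    (hs1 : Real.sin β1 ≠ 0) (hs2 : Real.sin β2 ≠ 0) (hcc : Real.cos β1 ≠ Real.cos β2)
    (h1 : Pair m (xe a ν A e1) (2 * Real.pi / ν) 1 β1)
    (h2 : Pair m (xe a ν A e1) (2 * Real.pi / ν) 1 β2) :
    ¬ LyapunovStable m (Set.range (xe a ν A e1)) := by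
  intro hst
  set E := (|e1| + 1) / 2 with hEdef
  have hE1 : E < 1 := by rw [hEdef]; linarith
  have hE2 : 1 / 2 ≤ E := by rw [hEdef]; linarith [abs_nonneg e1]
  have he : |e1| < E := by rw [hEdef]; linarith
  obtain ⟨P, hPG⟩ := h.pkG hE1
  have hP : Good P a ν A := fun e he => hPG e (he.trans hE2)
  have hnc := near_const hBU hNT hEIG h hE1 hPG he hne hst hs1 hs2 hcc h1 h2
  obtain ⟨N, hNa, hN⟩ := hANA κ
  have hev : ∀ᶠ e in 𝓝 e1, |e| < E := continuous_abs.continuousAt.eventually_lt_const he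
  have hN1 : ∀ᶠ e in 𝓝 e1, VP (N e) β1 := by
    filter_upwards [hnc, hev] with e k1 k2
    exact (vp_mb hZET h (k2.trans hE1) (hPG e k2.le) hN β1).mp k1.1
  have hN2 : ∀ᶠ e in 𝓝 e1, VP (N e) β2 := by
    filter_upwards [hnc, hev] with e k1 k2
    exact (vp_mb hZET h (k2.trans hE1) (hPG e k2.le) hN β2).mp k1.2
  have hM1 : ∀ e, |e| ≤ E → VP (Mb P a b ν A e) β1 := fun e k =>
    (vp_mb hZET h (lt_of_le_of_lt k hE1) (hPG e k) hN β1).mpr
      (vp_all hNa hs1 he1 hN1 (lt_of_le_of_lt k hE1))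
  have hM2 : ∀ e, |e| ≤ E → VP (Mb P a b ν A e) β2 := fun e k =>
    (vp_mb hZET h (lt_of_le_of_lt k hE1) (hPG e k) hN β2).mpr
      (vp_all hNa hs2 he1 hN2 (lt_of_le_of_lt k hE1))
  have h0E : |(0:ℝ)| ≤ E := by rw [abs_zero]; linarith
  have hκ : κ ^ 2 < 9 / 4 := by
    rw [h.hκ]
    have k0 := h.hm 0
    have k1 := h.hm 1
    have k2 := h.hm 2
    have : 0 < 3 * (m 0 * m 1 + m 1 * m 2 + m 2 * m 0) / (m 0 + m 1 + m 2) ^ 2 := by positivity
    linarith
  obtain ⟨l1, l2, c1, c2, c3, c4, c5, c6, c7, c8, c9, c10, c11, c12, c13⟩ :=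
    hCIR κ β1 β2 hκ hs1 hs2 hcc (vp_cs hZET h hP (hM1 0 h0E)) (vp_cs hZET h hP (hM2 0 h0E))
  obtain ⟨p, r, α, e1', e2', e3', e4', e5', e6', e7'⟩ := eig_b hEIG hZET h hP c1 c2 c5 c7 c10
  have hder := alpha_exp hPERT hUNI hTAY hZET h hP c1 c2 c5 c7 c10 e1' e2' e3' e4' e5' e6' e7'
  -- near zero
  have hpne : ∀ᶠ e in 𝓝 (0:ℝ), p e ≠ 0 := by
    refine e4'.continuousAt.eventually_ne ?_
    rw [e1']
    intro hh
    have k1 := om_circ h c1 c7 c10
    rw [hh, map_zero] at k1
    apply k1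
    have h2 := ome_smul_left (m := m) 0 (0 : Ph 3) (io b (W0 κ l1 ν A (-Complex.I) 0))
    rw [zero_smul, zero_mul] at h2
    exact h2
  have hsα : ∀ᶠ e in 𝓝 (0:ℝ), Real.sin (α e) ≠ 0 :=
    (Real.continuous_sin.continuousAt.comp e6'.continuousAt).eventually_ne (by
      change Real.sin (α 0) ≠ 0
      rw [e3']; exact sin_ne c1 c2 c5)
  have hcα : ∀ᶠ e in 𝓝 (0:ℝ), Real.cos (α e) ≠ Real.cos β2 := by
    refine (Real.continuous_cos.continuousAt.comp e6'.continuousAt).eventually_ne ?_
    change Real.cos (α 0) ≠ Real.cos β2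
    rw [e3', ← c12]
    exact hcc
  have hball : ∀ᶠ e in 𝓝 (0:ℝ), |e| < E := by
    refine continuous_abs.continuousAt.eventually_lt_const ?_
    rw [abs_zero]
    linarith
  have hconst : ∀ᶠ e in 𝓝 (0:ℝ), Real.cos (α e) = Real.cos β1 := by
    filter_upwards [hpne, hsα, hcα, hball, e7'] with e k1 k2 k3 k4 k5
    by_contra hne1
    refine three_pairs (E := ℂ × ℂ) ?_ (M := Mb P a b ν A e) k2 hs1 hs2 ⟨p e, r e, k1, k5.1, k5.2⟩
      (hM1 e k4.le) (hM2 e k4.le) hne1 k3 hcc
    have : Module.finrank ℝ (ℂ × ℂ) = 4 := by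
      rw [Module.finrank_prod, Complex.finrank_real_complex]
    omega
  have hfin : ∀ᶠ e in 𝓝[≠] (0:ℝ), False := by
    filter_upwards [hder, nhdsWithin_le_nhds hconst.eventually_nhds, nhdsWithin_le_nhds hsα,
      nhdsWithin_le_nhds (e6'.eventually (by norm_num))] with e k1 k2 k3 k4
    have hd : HasDerivAt α (deriv α e) e := (k4.differentiableAt (by norm_num)).hasDerivAt
    have hd2 : HasDerivAt (fun e => Real.cos (α e)) (-Real.sin (α e) * deriv α e) e := hd.cos
    have hd3 : HasDerivAt (fun e => Real.cos (α e)) 0 e :=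
      (hasDerivAt_const e (Real.cos β1)).congr_of_eventuallyEq k2
    have k5 := hd2.unique hd3
    rcases mul_eq_zero.mp k5 with k6 | k6
    · exact k3 (neg_eq_zero.mp k6)
    · exact k1 k6
  exact hfin.exists.elim fun _ h => h

end Pool.Agent.D0H95.BF
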