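import Pool.Agent.D0H95.BF.LagK
import Pool.Agent.D0H95.BF.Stm5

/-!
Elliptic Lagrange solutions: the homographic plane is invariant; strict estimate of the period map;
orbits near a stable orbit.
-/

set_option autoImplicit false

namespace Pool.Agent.D0H95.BF

open Pool.Agent.W821.TB Pool.Agent.D0H95.NB Finset Filter Topology

variable {m : Fin 3 → ℝ} {a b : Fin 3 → ℂ} {κ ν A : ℝ}

/-- Lyapunov stability, also for the solutions which are not defined for all times. -/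
def StabS (m : Fin 3 → ℝ) (γ : Set (Ph 3)) : Prop :=
  ∀ U₁ : Set (Ph 3), IsOpen U₁ → γ ⊆ U₁ → ∃ U₂ : Set (Ph 3), IsOpen U₂ ∧ γ ⊆ U₂ ∧
    ∀ (τ : ℝ) (y : ℝ → Ph 3), IsSol m (Set.Ico 0 τ) y → y 0 ∈ U₂ → ∀ t ∈ Set.Ico 0 τ, y t ∈ U₁

theorem StabS.weak {γ : Set (Ph 3)} (h : StabS m γ) : LyapunovStable m γ := by
  intro U₁ hU hγ
  obtain ⟨U₂, h1, h2, h3⟩ := h U₁ hU hγ
  refine ⟨U₂, h1, h2, fun y hy hy0 t ht => ?_⟩
  refine h3 (t + 1) y (fun s hs => ?_) hy0 t ⟨ht, by linarith⟩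
  obtain ⟨k1, k2⟩ := hy s hs.1
  exact ⟨k1, k2.mono (fun r hr => hr.1)⟩

/-- The modified flow stays near a stable orbit. -/
theorem stay {γ : Set (Ph 3)} (hst : StabS m γ) (hγc : IsCompact γ) (P : Pk m) (hγ : γ ⊆ P.S)
    {U₁ : Set (Ph 3)} (hU : IsOpen U₁) (hU1 : γ ⊆ U₁) :
    ∃ U₂ : Set (Ph 3), IsOpen U₂ ∧ γ ⊆ U₂ ∧ ∀ z : cm m, (z : Ph 3) ∈ U₂ → ∀ t : ℝ, 0 ≤ t →
      ((P.g t z : cm m) : Ph 3) ∈ U₁ := by
  obtain ⟨V, hV, hγV, hVS, -⟩ := exists_open_between_and_isCompact_closure hγc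
    (isOpen_Rg P.R P.δ) hγ
  obtain ⟨U₂, h1, h2, h3⟩ := hst (U₁ ∩ V) (hU.inter hV) (Set.subset_inter hU1 hγV)
  have hcont : ∀ z : cm m, Continuous (fun t => ((P.g t z : cm m) : Ph 3)) := by
    intro z
    have h4 : Continuous (fun t : ℝ => ((t, z) : ℝ × cm m)) := by fun_prop
    exact (inc m).continuous.comp (P.cd.continuous.comp h4)
  refine ⟨U₂ ∩ V, h1.inter hV, Set.subset_inter h2 hγV, fun z hz => ?_⟩
  -- solutions as long as in the region
  have hsol : ∀ τ : ℝ, (∀ t ∈ Set.Ico 0 τ, ((P.g t z : cm m) : Ph 3) ∈ P.S) →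
      ∀ t ∈ Set.Ico 0 τ, ((P.g t z : cm m) : Ph 3) ∈ U₁ ∩ V := by
    intro τ hτ
    refine h3 τ (fun t => ((P.g t z : cm m) : Ph 3)) (fun t ht => ?_) ?_
    · exact ⟨⟨Rg_ne P.hδ (hτ t ht), (P.g t z).2⟩, (P.deriv_coe (hτ t ht)).hasDerivWithinAt⟩
    · simp only [P.hg.zero]
      exact hz.1
  have hall : ∀ t : ℝ, 0 ≤ t → ((P.g t z : cm m) : Ph 3) ∈ P.S := by
    by_contra hh
    push Not at hh
    set B : Set ℝ := {t | 0 ≤ t ∧ ((P.g t z : cm m) : Ph 3) ∉ P.S} with hB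
    have hBc : IsClosed B :=
      isClosed_Ici.inter (((isOpen_Rg P.R P.δ).preimage (hcont z)).isClosed_compl)
    have hBn : B.Nonempty := by
      obtain ⟨t, ht, hn⟩ := hh
      exact ⟨t, ht, hn⟩
    have hBb : BddBelow B := ⟨0, fun t ht => ht.1⟩
    have hmem := hBc.csInf_mem hBn hBb
    set τ := sInf B with hτ
    have hlt : ∀ t ∈ Set.Ico 0 τ, ((P.g t z : cm m) : Ph 3) ∈ P.S := by
      intro t ht
      by_contra hn
      exact absurd (csInf_le hBb (show t ∈ B from ⟨ht.1, hn⟩)) (not_le.mpr ht.2)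
    have hτ0 : 0 < τ := by
      rcases lt_or_eq_of_le hmem.1 with h | h
      · exact h
      · exfalso
        apply hmem.2
        rw [← h, P.hg.zero]
        exact hVS (subset_closure hz.2)
    have hcl : ((P.g τ z : cm m) : Ph 3) ∈ closure V := by
      have h4 : Tendsto (fun t => ((P.g t z : cm m) : Ph 3)) (𝓝[<] τ)
          (𝓝 ((P.g τ z : cm m) : Ph 3)) := ((hcont z).tendsto τ).mono_left nhdsWithin_le_nhds
      refine mem_closure_of_tendsto h4 ?_
      filter_upwards [Ioo_mem_nhdsLT hτ0] with t ht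
      exact (hsol τ hlt t ⟨ht.1.le, ht.2⟩).2
    exact hmem.2 (hVS hcl)
  intro t ht
  exact (hsol (t + 1) (fun s hs => hall s hs.1) t ⟨ht, by linarith⟩).1

theorem LD.Na (h : LD m a b κ ν A) : (∑ j, (m j : ℂ) * ((starRingEnd ℂ) (a j) * a j)) ≠ 0 := by
  have h1 : (∑ j, (m j : ℂ) * ((starRingEnd ℂ) (a j) * a j)) = ((∑ j, m j * ‖a j‖ ^ 2 : ℝ) : ℂ) := by
    push_cast
    refine Finset.sum_congr rfl fun j _ => ?_
    rw [mul_comm ((starRingEnd ℂ) (a j)), Complex.mul_conj, Complex.normSq_eq_norm_sq]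
    push_cast
    ring
  rw [h1]
  obtain ⟨j0, hj0⟩ := h.a_ne
  have hN : 0 < ∑ j, m j * ‖a j‖ ^ 2 := by
    refine Finset.sum_pos' (fun j _ => by have := (h.hm j).le; positivity)
      ⟨j0, Finset.mem_univ _, ?_⟩
    have h3 := h.hm j0
    have h4 : 0 < ‖a j0‖ := norm_pos_iff.mpr hj0
    positivity
  exact_mod_cast hN.ne'

theorem LD.coa_ioa (h : LD m a b κ ν A) (w : ℂ × ℂ) : co m a (io a w) = w := by
  rw [co_apply, io_apply]
  have hN := h.Na
  have key : ∀ z : ℂ, (∑ j, (m j : ℂ) * ((starRingEnd ℂ) (a j) * (z * a j))) /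
      (∑ j, (m j : ℂ) * ((starRingEnd ℂ) (a j) * a j)) = z := by
    intro z
    rw [div_eq_iff hN, Finset.mul_sum]
    exact Finset.sum_congr rfl fun i _ => by ring
  ext
  · exact key _
  · exact key _

theorem LD.coa_iob (h : LD m a b κ ν A) (w : ℂ × ℂ) : co m a (io b w) = 0 := by
  rw [co_apply, io_apply]
  have h0 := h.hab
  have key : ∀ z : ℂ, (∑ j, (m j : ℂ) * ((starRingEnd ℂ) (a j) * (z * b j))) /
      (∑ j, (m j : ℂ) * ((starRingEnd ℂ) (a j) * a j)) = 0 := by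
    intro z
    have : (∑ j, (m j : ℂ) * ((starRingEnd ℂ) (a j) * (z * b j))) =
        z * ∑ i, (m i : ℂ) * ((starRingEnd ℂ) (a i) * b i) := by
      rw [Finset.mul_sum]
      exact Finset.sum_congr rfl fun i _ => by ring
    rw [this, h0, mul_zero, zero_div]
  ext
  · exact key _
  · exact key _

/-- The part without `b`. -/
theorem co_sub (h : LD m a b κ ν A) (z : cm m) :
    co m b ((z - ioc m b (co m b (z : Ph 3)) : cm m) : Ph 3) = 0 := by
  have h1 : ((z - ioc m b (co m b (z : Ph 3)) : cm m) : Ph 3) =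
      (z : Ph 3) - ((ioc m b (co m b (z : Ph 3)) : cm m) : Ph 3) := rfl
  rw [h1, map_sub, ioc_coe h.hb0, h.co_io, sub_self]

theorem co_XX (h : LD m a b κ ν A) (P : Pk m) {z : cm m} (hz : co m b (z : Ph 3) = 0) :
    co m b ((XX m P.R P.δ z : cm m) : Ph 3) = 0 := by
  rw [XX_coe]
  have h1 := h.dec z.2
  rw [hz, map_zero, add_zero] at h1
  set w := co m a (z : Ph 3) with hw
  by_cases h0 : w.1 = 0
  · have h2 : (z : Ph 3).1 0 = (z : Ph 3).1 1 := by
      rw [h1, io_apply]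
      simp only
      rw [h0]
      ring
    have h3 := (chi_zero_near (R := P.R) P.hδ (by decide : (0 : Fin 3) ≠ 1) h2).self_of_nhds
    rw [h3, zero_smul, map_zero]
  · rw [map_smul]
    have h2 : vf m (z : Ph 3) = io a (w.2, (((- ((m 0 + m 1 + m 2) / ‖w.1‖ ^ 3) : ℝ)) : ℂ) * w.1) := by
      rw [h1]
      exact h.vf_io h0 w.2
    rw [h2, h.co_ioa, smul_zero]

/-- The homographic plane is invariant. -/
theorem inv_a (h : LD m a b κ ν A) (P : Pk m) {z : cm m} (hz : co m b (z : Ph 3) = 0) {t : ℝ}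
    (ht : 0 ≤ t) : co m b ((P.g t z : cm m) : Ph 3) = 0 := by
  set L := (co m b).comp (inc m) with hL
  set C : ℝ := ‖L‖ * (P.K * ‖ioc m b‖) with hC
  have key : ∀ y : cm m, ‖L (XX m P.R P.δ y)‖ ≤ C * ‖L y‖ := by
    intro y
    have h1 : L (XX m P.R P.δ (y - ioc m b (L y))) = 0 := co_XX h P (co_sub h y)
    have h2 : L (XX m P.R P.δ y) = L (XX m P.R P.δ y - XX m P.R P.δ (y - ioc m b (L y))) := by
      rw [map_sub, h1, sub_zero]
    rw [h2]
    have h3 := P.hK.dist_le_mul y (y - ioc m b (L y))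
    rw [dist_eq_norm, dist_eq_norm, sub_sub_cancel] at h3
    calc ‖L (XX m P.R P.δ y - XX m P.R P.δ (y - ioc m b (L y)))‖
        ≤ ‖L‖ * ‖XX m P.R P.δ y - XX m P.R P.δ (y - ioc m b (L y))‖ := L.le_opNorm _
      _ ≤ ‖L‖ * (P.K * (‖ioc m b‖ * ‖L y‖)) := by
          refine mul_le_mul_of_nonneg_left (h3.trans ?_) (by positivity)
          exact mul_le_mul_of_nonneg_left ((ioc m b).le_opNorm _) P.K.2
      _ = C * ‖L y‖ := by rw [hC]; ring
  have hd : ∀ s : ℝ, HasDerivAt (fun s => L (P.g s z)) (L (XX m P.R P.δ (P.g s z))) s := fun s =>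
    L.hasFDerivAt.comp_hasDerivAt s (P.hg.deriv z s)
  have h1 := norm_le_gronwallBound_of_norm_deriv_right_le (f := fun s => L (P.g s z))
    (f' := fun s => L (XX m P.R P.δ (P.g s z))) (δ := 0) (K := C) (ε := 0) (a := 0) (b := t)
    (fun s _ => (hd s).continuousAt.continuousWithinAt) (fun s _ => (hd s).hasDerivWithinAt)
    (by
      simp only [P.hg.zero]
      have : L z = 0 := hz
      rw [this, norm_zero])
    (fun s _ => by rw [add_zero]; exact key _) t ⟨ht, le_rfl⟩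
  rw [sub_zero] at h1
  have h2 : gronwallBound 0 C 0 t = 0 := by
    by_cases hC0 : C = 0
    · rw [hC0, gronwallBound_K0]; simp
    · rw [gronwallBound_of_K_ne_0 hC0]; simp
  rw [h2] at h1
  exact norm_le_zero_iff.mp h1

/-- The `b`-part of the period map near the orbit. -/
theorem strict_b (h : LD m a b κ ν A) (P : Pk m) {e : ℝ} {ε : ℝ} (hε : 0 < ε) :
    ∃ ρ : ℝ, 0 < ρ ∧ ∀ t : ℝ, |t - 2 * Real.pi / ν| < ρ → ∀ z : cm m,
      ‖z - gam m a ν A e‖ < ρ →
      ‖co m b ((P.g t z : cm m) : Ph 3) - Mb P a b ν A e (co m b (z : Ph 3))‖ ≤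
        ε * ‖co m b (z : Ph 3)‖ := by
  set z0 := gam m a ν A e with hz0
  set T := 2 * Real.pi / ν with hT
  have hT0 : 0 < T := Tpos h
  set L := (co m b).comp (inc m) with hL
  set Φ : ℝ × cm m → cm m := fun p => P.g p.1 p.2 with hΦ
  have hz0b : L z0 = 0 := by
    change co m b ((gam m a ν A e : cm m) : Ph 3) = 0
    unfold gam
    rw [ioc_coe h.ha0, h.co_ioa]
  have hsd : HasStrictFDerivAt Φ (fderiv ℝ Φ (T, z0)) (T, z0) :=
    P.cd.contDiffAt.hasStrictFDerivAt one_ne_zero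
  set C : ℝ := ‖L‖ * ‖ioc m b‖ + 1 with hC
  have hC0 : 0 < C := by positivity
  have h1 := hsd.isLittleO.def (div_pos hε hC0)
  rw [Metric.eventually_nhds_iff_ball] at h1
  obtain ⟨ρ, hρ, h2⟩ := h1
  -- the projection is continuous
  set Q : cm m → cm m := fun z => z - ioc m b (L z) with hQ
  have hQc : Continuous Q := by
    rw [hQ]
    fun_prop
  have hQ0 : Q z0 = z0 := by
    rw [hQ]
    simp only
    rw [hz0b, map_zero, sub_zero]
  have hev : ∀ᶠ z in 𝓝 z0, ‖Q z - z0‖ < ρ := by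
    have h3 : Tendsto Q (𝓝 z0) (𝓝 z0) := by
      have := hQc.tendsto z0
      rwa [hQ0] at this
    have h4 := h3.eventually (Metric.ball_mem_nhds z0 hρ)
    filter_upwards [h4] with z hz
    rwa [dist_eq_norm] at hz
  obtain ⟨ρ', hρ', h3⟩ := Metric.eventually_nhds_iff_ball.mp hev
  refine ⟨min (min ρ ρ') T, by positivity, fun t ht z hz => ?_⟩
  have ht1 : |t - T| < ρ := lt_of_lt_of_le ht ((min_le_left _ _).trans (min_le_left _ _))
  have ht2 : |t - T| < T := lt_of_lt_of_le ht (min_le_right _ _)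
  have ht0 : 0 ≤ t := by
    have := (abs_lt.mp ht2).1
    linarith
  have hz1 : ‖z - z0‖ < ρ := lt_of_lt_of_le hz ((min_le_left _ _).trans (min_le_left _ _))
  have hz2 : ‖Q z - z0‖ < ρ := h3 z (by
    rw [Metric.mem_ball, dist_eq_norm]
    exact lt_of_lt_of_le hz ((min_le_left _ _).trans (min_le_right _ _)))
  have h4 := h2 ((t, z), (t, Q z)) (by
    rw [Metric.mem_ball, Prod.dist_eq, Prod.dist_eq, Prod.dist_eq]
    simp only
    rw [Real.dist_eq, dist_eq_norm, dist_eq_norm]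
    exact max_lt (max_lt ht1 hz1) (max_lt ht1 hz2))
  simp only at h4
  have e1 : ((t, z) : ℝ × cm m) - (t, Q z) = (0, ioc m b (L z)) := by
    rw [Prod.mk_sub_mk, sub_self, hQ]
    simp only [sub_sub_cancel]
  rw [e1] at h4
  have e2 : fderiv ℝ Φ (T, z0) (0, ioc m b (L z)) = fderiv ℝ (P.g T) z0 (ioc m b (L z)) := by
    have hin : HasFDerivAt (fun z : cm m => (T, z)) (ContinuousLinearMap.inr ℝ ℝ (cm m)) z0 := by
      have := (ContinuousLinearMap.inr ℝ ℝ (cm m)).hasFDerivAt (x := z0)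
      have h4 := this.add_const ((T, (0 : cm m)) : ℝ × cm m)
      have h5 : (fun k : cm m => ContinuousLinearMap.inr ℝ ℝ (cm m) k + (T, 0)) =
          fun k => (T, k) := by
        funext k
        simp
      rw [h5] at h4
      exact h4
    have h6 : HasFDerivAt (P.g T)
        ((fderiv ℝ Φ (T, z0)).comp (ContinuousLinearMap.inr ℝ ℝ (cm m))) z0 :=
      HasFDerivAt.comp z0 (g := Φ) (f := fun z : cm m => (T, z)) hsd.hasFDerivAt hin
    rw [h6.fderiv]
    rfl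
  rw [e2] at h4
  have e3 : ‖((0 : ℝ), ioc m b (L z))‖ = ‖ioc m b (L z)‖ := by
    rw [Prod.norm_def]
    simp
  rw [e3] at h4
  have e4 : L (P.g t (Q z)) = 0 := inv_a h P (co_sub h z) ht0
  have e5 : L (P.g t z) - Mb P a b ν A e (L z) =
      L (Φ (t, z) - Φ (t, Q z) - fderiv ℝ (P.g T) z0 (ioc m b (L z))) := by
    rw [map_sub, map_sub]
    change _ = L (P.g t z) - L (P.g t (Q z)) - _
    rw [e4, sub_zero]
    rfl
  change ‖L (P.g t z) - Mb P a b ν A e (L z)‖ ≤ ε * ‖L z‖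
  rw [e5]
  calc ‖L (Φ (t, z) - Φ (t, Q z) - fderiv ℝ (P.g T) z0 (ioc m b (L z)))‖
      ≤ ‖L‖ * ‖Φ (t, z) - Φ (t, Q z) - fderiv ℝ (P.g T) z0 (ioc m b (L z))‖ := L.le_opNorm _
    _ ≤ ‖L‖ * (ε / C * (‖ioc m b‖ * ‖L z‖)) := by
        refine mul_le_mul_of_nonneg_left (h4.trans ?_) (by positivity)
        exact mul_le_mul_of_nonneg_left ((ioc m b).le_opNorm _) (by positivity)
    _ = ε * ‖L z‖ * ((‖L‖ * ‖ioc m b‖) / C) := by ring
    _ ≤ ε * ‖L z‖ * 1 := by
        refine mul_le_mul_of_nonneg_left ?_ (by positivity)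
        rw [div_le_one hC0, hC]
        linarith
    _ = ε * ‖L z‖ := mul_one _

end Pool.Agent.D0H95.BF
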