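import Pool.Agent.D0H95.BF.LagL

/-!
Elliptic Lagrange solutions with a multiplier outside of the unit circle are not stable.
-/

set_option autoImplicit false

namespace Pool.Agent.D0H95.BF

open Pool.Agent.W821.TB Pool.Agent.D0H95.NB Finset Filter Topology

theorem chain {X : Type} (I : X → Prop) (Q : X → X → Prop) (x0 : X) (h0 : I x0)
    (hs : ∀ x, I x → ∃ y, I y ∧ Q x y) :
    ∃ f : ℕ → X, f 0 = x0 ∧ ∀ n, I (f n) ∧ Q (f n) (f (n + 1)) := by
  choose! g hg using hs
  set f : ℕ → X := fun n => g^[n] x0 with hf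
  have hfs : ∀ n, f (n + 1) = g (f n) := by
    intro n
    rw [hf]
    simp only
    rw [Function.iterate_succ_apply']
  have hI : ∀ n, I (f n) := by
    intro n
    induction n with
    | zero => exact h0
    | succ n ih => rw [hfs]; exact (hg _ ih).1
  refine ⟨f, rfl, fun n => ⟨hI n, ?_⟩⟩
  rw [hfs]
  exact (hg _ (hI n)).2

variable {m : Fin 3 → ℝ} {a b : Fin 3 → ℂ} {κ ν A : ℝ}

theorem sin_u_pos (hν : 0 < ν) (hA : 0 < A) {e : ℝ} (he1 : |e| < 1) {s : ℝ} (hs : 0 < s)
    (hu : |uK ν A e s| < Real.pi) : 0 < Real.sin (uK ν A e s) := by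
  have h1 := (uK_spec hν hA he1).2.1 s
  have h2 : 0 < ν * s := by positivity
  refine Real.sin_pos_of_pos_of_lt_pi ?_ (abs_lt.mp hu).2
  by_contra hh
  push Not at hh
  have h3 : |e * Real.sin (uK ν A e s)| ≤ |uK ν A e s| := by
    rw [abs_mul]
    calc |e| * |Real.sin (uK ν A e s)| ≤ 1 * |uK ν A e s| :=
          mul_le_mul he1.le Real.abs_sin_le_abs (abs_nonneg _) zero_le_one
      _ = |uK ν A e s| := one_mul _
  rw [abs_of_nonpos hh] at h3
  have h4 := (abs_le.mp h3).1
  linarith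

theorem sin_u_neg (hν : 0 < ν) (hA : 0 < A) {e : ℝ} (he1 : |e| < 1) {s : ℝ} (hs : s < 0)
    (hu : |uK ν A e s| < Real.pi) : Real.sin (uK ν A e s) < 0 := by
  have h1 := (uK_spec hν hA he1).2.1 s
  have h2 : ν * s < 0 := mul_neg_of_pos_of_neg hν hs
  refine Real.sin_neg_of_neg_of_neg_pi_lt ?_ (abs_lt.mp hu).1
  by_contra hh
  push Not at hh
  have h3 : |e * Real.sin (uK ν A e s)| ≤ |uK ν A e s| := by
    rw [abs_mul]
    calc |e| * |Real.sin (uK ν A e s)| ≤ 1 * |uK ν A e s| :=
          mul_le_mul he1.le Real.abs_sin_le_abs (abs_nonneg _) zero_le_one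
      _ = |uK ν A e s| := one_mul _
  rw [abs_of_nonneg hh] at h3
  have h4 := (abs_le.mp h3).2
  linarith

theorem hyp_unstable (hCONE : S_CONE) (h : LD m a b κ ν A) {e : ℝ} (he1 : |e| < 1) {P : Pk m}
    (hP : GoodAt P a ν A e) (hH : HypData (Mb P a b ν A e)) :
    ¬ StabS m (Set.range (xe a ν A e)) := by
  intro hst
  have hν := h.hν
  have hA := h.hA
  obtain ⟨hP1, hP2, hP3⟩ := hP
  obtain ⟨v0, hv0, ε, hε, hcone⟩ := hCONE _ hH
  obtain ⟨ρ, hρ, hstr⟩ := strict_b h P (e := e) hε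
  set z0 := gam m a ν A e with hz0
  set T := 2 * Real.pi / ν with hT
  have hT0 : 0 < T := Tpos h
  set L := (co m b).comp (inc m) with hL
  set S := (co m a).comp (inc m) with hS
  set sec : cm m → ℝ := fun z => (S z).1.im with hsec
  have hsecc : Continuous sec := by
    rw [hsec]
    have h1 : Continuous (fun z => (S z).1) := continuous_fst.comp S.continuous
    exact Complex.continuous_im.comp h1
  have hΦc : Continuous (fun p : ℝ × cm m => P.g p.1 p.2) := P.cd.continuous
  have hlt2 : e ^ 2 < 1 := by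
    rw [← sq_abs]
    nlinarith [abs_nonneg e]
  have hsq : 0 < Real.sqrt (1 - e ^ 2) := Real.sqrt_pos.mpr (by linarith)
  -- the reference solution
  have hSg : ∀ t, S (P.g t z0) = (ell A e (uK ν A e t), ellv A ν e (uK ν A e t)) := by
    intro t
    change co m a ((P.g t z0 : cm m) : Ph 3) = _
    rw [hP1 t]
    unfold xe
    rw [h.coa_ioa]
  have him : ∀ u, (ell A e u).im = A * Real.sqrt (1 - e ^ 2) * Real.sin u := by
    intro u
    unfold ell
    simp only [Complex.mul_im, Complex.add_im, Complex.ofReal_re, Complex.ofReal_im, Complex.I_re,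
      Complex.I_im, Complex.add_re, Complex.mul_re]
    ring
  have hre : ∀ u, (ell A e u).re = A * (Real.cos u - e) := by
    intro u
    unfold ell
    simp only [Complex.mul_im, Complex.add_im, Complex.ofReal_re, Complex.ofReal_im, Complex.I_re,
      Complex.I_im, Complex.add_re, Complex.mul_re]
    ring
  have hsecg : ∀ t, sec (P.g t z0) = A * Real.sqrt (1 - e ^ 2) * Real.sin (uK ν A e t) := by
    intro t
    change (S (P.g t z0)).1.im = _
    rw [hSg]
    exact him _
  have hg0 : P.g 0 z0 = z0 := P.hg.zero z0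
  have hu0 : uK ν A e 0 = 0 := (uK_spec hν hA he1).1
  -- isolation
  set r₁ := A / (‖S‖ + 1) with hr₁
  have hr₁0 : 0 < r₁ := by positivity
  have iso : ∀ t, ‖P.g t z0 - z0‖ ≤ r₁ → sec (P.g t z0) = 0 → P.g t z0 = z0 := by
    intro t ht hs
    rw [hsecg] at hs
    have h1 : Real.sin (uK ν A e t) = 0 := by
      rcases mul_eq_zero.mp hs with h | h
      · exact absurd h (by positivity)
      · exact h
    have h2 : Real.cos (uK ν A e t) ^ 2 = 1 := by
      have := Real.sin_sq_add_cos_sq (uK ν A e t)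
      rw [h1] at this
      linarith
    have h3 : Real.cos (uK ν A e t) ≠ -1 := by
      intro hc
      have h4 : ‖S (P.g t z0 - z0)‖ ≤ ‖S‖ * r₁ :=
        (S.le_opNorm _).trans (mul_le_mul_of_nonneg_left ht (by positivity))
      have h5 : S (P.g t z0 - z0) = S (P.g t z0) - S (P.g 0 z0) := by
        rw [map_sub, hg0]
      rw [h5, hSg, hSg, hu0] at h4
      have h6 : ‖ell A e (uK ν A e t) - ell A e 0‖ ≤ ‖S‖ * r₁ :=
        (norm_fst_le ((ell A e (uK ν A e t), ellv A ν e (uK ν A e t)) -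
          (ell A e 0, ellv A ν e 0))).trans h4
      have h7 := (Complex.abs_re_le_norm _).trans h6
      rw [Complex.sub_re, hre, hre, hc, Real.cos_zero] at h7
      have h8 : A * (-1 - e) - A * (1 - e) = -(2 * A) := by ring
      rw [h8, abs_neg, abs_of_pos (by positivity)] at h7
      have h9 : ‖S‖ * r₁ ≤ A := by
        rw [hr₁, mul_div_assoc', div_le_iff₀ (by positivity)]
        nlinarith [norm_nonneg S]
      linarith
    have h4 : Real.cos (uK ν A e t) = 1 := by
      have h5 : (Real.cos (uK ν A e t) - 1) * (Real.cos (uK ν A e t) + 1) = 0 := by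
        linear_combination h2
      rcases mul_eq_zero.mp h5 with h6 | h6
      · linarith
      · exact absurd (by linarith) h3
    apply Subtype.ext
    rw [hP1 t, ← hg0, hP1 0]
    unfold xe
    rw [hu0]
    unfold ell ellv
    rw [h1, h4, Real.cos_zero, Real.sin_zero]
  -- continuity at the period
  have hc1 : ∀ᶠ p in 𝓝 ((T, z0) : ℝ × cm m), ‖P.g p.1 p.2 - z0‖ < r₁ := by
    have h1 : Tendsto (fun p : ℝ × cm m => P.g p.1 p.2) (𝓝 (T, z0)) (𝓝 z0) := by
      have := hΦc.tendsto (T, z0)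
      simp only at this
      rwa [hP3] at this
    filter_upwards [h1.eventually (Metric.ball_mem_nhds z0 hr₁0)] with p hp
    rwa [dist_eq_norm] at hp
  obtain ⟨ρ2, hρ2, hc2⟩ := Metric.eventually_nhds_iff_ball.mp hc1
  -- the time window
  have hc3 : ∀ᶠ s in 𝓝 (0:ℝ), |uK ν A e s| < Real.pi := by
    have h1 : ContinuousAt (fun s => |uK ν A e s|) 0 :=
      ((uK_spec hν hA he1).2.2.1 0).continuousAt.abs
    refine h1.eventually_lt_const ?_
    change |uK ν A e 0| < Real.pi
    rw [hu0, abs_zero]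
    exact Real.pi_pos
  obtain ⟨η0, hη0, hc4⟩ := Metric.eventually_nhds_iff_ball.mp hc3
  set η := min (min ρ ρ2) (min η0 T) / 2 with hη
  have hη1 : 0 < η := by positivity
  have hηm : η < min (min ρ ρ2) (min η0 T) := by
    rw [hη]
    have : 0 < min (min ρ ρ2) (min η0 T) := by positivity
    linarith
  have hηρ : η < ρ := lt_of_lt_of_le hηm ((min_le_left _ _).trans (min_le_left _ _))
  have hηρ2 : η < ρ2 := lt_of_lt_of_le hηm ((min_le_left _ _).trans (min_le_right _ _))
  have hηη0 : η < η0 := lt_of_lt_of_le hηm ((min_le_right _ _).trans (min_le_left _ _))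
  have hηT : η < T := lt_of_lt_of_le hηm ((min_le_right _ _).trans (min_le_right _ _))
  have hgper : ∀ s, P.g (T + s) z0 = P.g s z0 := by
    intro s
    rw [add_comm, P.add, hP3]
  have hpos : 0 < sec (P.g (T + η) z0) := by
    rw [hgper, hsecg]
    have := sin_u_pos hν hA he1 hη1 (hc4 η (by
      rw [Metric.mem_ball, Real.dist_eq, sub_zero, abs_of_pos hη1]; exact hηη0))
    positivity
  have hneg : sec (P.g (T - η) z0) < 0 := by
    rw [sub_eq_add_neg, hgper, hsecg]
    have := sin_u_neg hν hA he1 (neg_lt_zero.mpr hη1) (hc4 (-η) (by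
      rw [Metric.mem_ball, Real.dist_eq, sub_zero, abs_neg, abs_of_pos hη1]; exact hηη0))
    exact mul_neg_of_pos_of_neg (by positivity) this
  have hgc : ∀ t : ℝ, Continuous (fun z : cm m => sec (P.g t z)) := by
    intro t
    have h1 : Continuous (fun z : cm m => ((t, z) : ℝ × cm m)) := by fun_prop
    exact hsecc.comp (hΦc.comp h1)
  have hc5 : ∀ᶠ z in 𝓝 z0, 0 < sec (P.g (T + η) z) ∧ sec (P.g (T - η) z) < 0 :=
    ((hgc (T + η)).continuousAt.eventually_const_lt hpos).and
      ((hgc (T - η)).continuousAt.eventually_lt_const hneg)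
  obtain ⟨r2, hr2, hc6⟩ := Metric.eventually_nhds_iff_ball.mp hc5
  set r := min (min ρ ρ2) r2 with hr
  have hr0 : 0 < r := by positivity
  have hrρ : r ≤ ρ := (min_le_left _ _).trans (min_le_left _ _)
  have hrρ2 : r ≤ ρ2 := (min_le_left _ _).trans (min_le_right _ _)
  have hrr2 : r ≤ r2 := min_le_right _ _
  -- the neighbourhood
  set K : Set (Ph 3) := {w | ‖pr m w - z0‖ ≤ r₁ ∧ sec (pr m w) = 0 ∧ r ≤ ‖pr m w - z0‖} with hK
  have hKc : IsClosed K := by
    have h1 : Continuous (fun w : Ph 3 => ‖pr m w - z0‖) := by fun_prop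
    have h2 : Continuous (fun w : Ph 3 => sec (pr m w)) := hsecc.comp (pr m).continuous
    have h3 : K = {w | ‖pr m w - z0‖ ≤ r₁} ∩ ({w | sec (pr m w) = 0} ∩ {w | r ≤ ‖pr m w - z0‖}) :=
      rfl
    rw [h3]
    exact (isClosed_le h1 continuous_const).inter ((isClosed_eq h2 continuous_const).inter
      (isClosed_le continuous_const h1))
  have hOK : Set.range (xe a ν A e) ⊆ Kᶜ := by
    rintro _ ⟨t, rfl⟩ ⟨k1, k2, k3⟩
    rw [← hP1 t, pr_apply] at k1 k2 k3
    rw [iso t k1 k2, sub_self, norm_zero] at k3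
    linarith
  have hxc : Continuous (xe a ν A e) := by
    have h1 : xe a ν A e = fun t => ((P.g t z0 : cm m) : Ph 3) := funext fun t => (hP1 t).symm
    rw [h1]
    have h2 : Continuous (fun t : ℝ => ((t, z0) : ℝ × cm m)) := by fun_prop
    exact (inc m).continuous.comp (hΦc.comp h2)
  have hcomp : IsCompact (Set.range (xe a ν A e)) := by
    have h1 : Function.Periodic (xe a ν A e) T := h.xe_per he1
    rw [← h1.image_Icc hT0 0]
    exact isCompact_Icc.image hxc
  obtain ⟨U₂, hU2, hγ2, hstay⟩ := stay hst hcomp P (by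
    rintro _ ⟨t, rfl⟩
    rw [← hP1 t]
    exact hP2 t) hKc.isOpen_compl hOK
  have hz0U : (z0 : Ph 3) ∈ U₂ := by
    apply hγ2
    refine ⟨0, ?_⟩
    rw [← hP1 0, hg0]
  have hLz0 : L z0 = 0 := by
    change co m b ((gam m a ν A e : cm m) : Ph 3) = 0
    unfold gam
    rw [ioc_coe h.ha0, h.co_ioa]
  -- the starting point
  obtain ⟨s, hs0, hsU, hsr⟩ : ∃ s : ℝ, s ≠ 0 ∧ ((z0 + ioc m b (s • v0) : cm m) : Ph 3) ∈ U₂ ∧
      ‖ioc m b (s • v0)‖ < r := by
    have h1 : Continuous (fun s : ℝ => ((z0 + ioc m b (s • v0) : cm m) : Ph 3)) := by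
      have : Continuous (fun s : ℝ => z0 + ioc m b (s • v0)) := by fun_prop
      exact (inc m).continuous.comp this
    have h2 : Continuous (fun s : ℝ => ‖ioc m b (s • v0)‖) := by fun_prop
    have h3 : ∀ᶠ s in 𝓝 (0:ℝ), ((z0 + ioc m b (s • v0) : cm m) : Ph 3) ∈ U₂ := by
      refine h1.continuousAt.eventually (hU2.mem_nhds ?_)
      change ((z0 + ioc m b ((0:ℝ) • v0) : cm m) : Ph 3) ∈ U₂
      rw [zero_smul, map_zero, add_zero]
      exact hz0U
    have h4 : ∀ᶠ s in 𝓝 (0:ℝ), ‖ioc m b (s • v0)‖ < r := by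
      refine h2.continuousAt.eventually_lt_const ?_
      change ‖ioc m b ((0:ℝ) • v0)‖ < r
      rw [zero_smul, map_zero, norm_zero]
      exact hr0
    have h5 : ∀ᶠ s in 𝓝[≠] (0:ℝ), s ≠ 0 ∧ ((z0 + ioc m b (s • v0) : cm m) : Ph 3) ∈ U₂ ∧
        ‖ioc m b (s • v0)‖ < r := by
      filter_upwards [self_mem_nhdsWithin, nhdsWithin_le_nhds h3, nhdsWithin_le_nhds h4]
        with s k1 k2 k3
      exact ⟨k1, k2, k3⟩
    exact h5.exists
  set y0 : cm m := z0 + ioc m b (s • v0) with hy0
  have hLy0 : L y0 = s • v0 := by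
    rw [hy0, map_add, hLz0, zero_add]
    change co m b ((ioc m b (s • v0) : cm m) : Ph 3) = _
    rw [ioc_coe h.hb0, h.co_io]
  have hSy0 : sec y0 = 0 := by
    have h1 : S y0 = S z0 := by
      rw [hy0, map_add]
      have : S (ioc m b (s • v0)) = 0 := by
        change co m a ((ioc m b (s • v0) : cm m) : Ph 3) = _
        rw [ioc_coe h.hb0, h.coa_iob]
      rw [this, add_zero]
    change (S y0).1.im = 0
    rw [h1, ← hg0]
    have := hsecg 0
    rw [hu0, Real.sin_zero, mul_zero] at this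
    exact this
  -- the chain
  obtain ⟨f, hf0, hf⟩ := chain (fun z : cm m => ‖z - z0‖ < r ∧ sec z = 0 ∧ ∃ t : ℝ, 0 ≤ t ∧ z = P.g t y0)
    (fun z z' => ‖L z' - Mb P a b ν A e (L z)‖ ≤ ε * ‖L z‖) y0
    ⟨by rw [hy0, add_sub_cancel_left]; exact hsr, hSy0, 0, le_rfl, (P.hg.zero y0).symm⟩ (by
      rintro z ⟨k1, k2, t, ht, k3⟩
      obtain ⟨c1, c2⟩ := hc6 z (by
        rw [Metric.mem_ball, dist_eq_norm]; exact lt_of_lt_of_le k1 hrr2)
      have hivt : (0:ℝ) ∈ (fun t => sec (P.g t z)) '' Set.Icc (T - η) (T + η) := by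
        refine intermediate_value_Icc (by linarith) ?_ ⟨c2.le, c1.le⟩
        have h1 : Continuous (fun t : ℝ => ((t, z) : ℝ × cm m)) := by fun_prop
        exact (hsecc.comp (hΦc.comp h1)).continuousOn
      obtain ⟨t', ht', hst'⟩ := hivt
      have htT : |t' - T| ≤ η := abs_le.mpr ⟨by linarith [ht'.1], by linarith [ht'.2]⟩
      have ht'0 : 0 ≤ t' := by linarith [ht'.1]
      have hz' : P.g t' z = P.g (t' + t) y0 := by rw [P.add, ← k3]
      have h1 : ‖P.g t' z - z0‖ < r₁ := hc2 (t', z) (by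
        rw [Metric.mem_ball, Prod.dist_eq]
        simp only
        rw [Real.dist_eq, dist_eq_norm]
        exact max_lt (lt_of_le_of_lt htT hηρ2) (lt_of_lt_of_le k1 hrρ2))
      have h2 := hstay y0 hsU (t' + t) (by linarith)
      rw [← hz'] at h2
      have h3 : ‖P.g t' z - z0‖ < r := by
        by_contra hh
        push Not at hh
        apply h2
        refine ⟨?_, ?_, ?_⟩
        · rw [pr_apply]; exact h1.le
        · rw [pr_apply]; exact hst'
        · rw [pr_apply]; exact hh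
      refine ⟨P.g t' z, ⟨h3, hst', t' + t, by linarith, hz'⟩, ?_⟩
      exact hstr t' (lt_of_le_of_lt htT hηρ) z (lt_of_lt_of_le k1 hrρ))
  obtain ⟨n, hn⟩ := hcone (fun n => L (f n)) ⟨s, hs0, by rw [hf0, hLy0]⟩
    (fun n => (hf n).2) (‖L‖ * r)
  have h1 : L (f n) = L (f n - z0) := by rw [map_sub, hLz0, sub_zero]
  have hn' : ‖L‖ * r < ‖L (f n)‖ := hn
  rw [h1] at hn'
  have h2 : ‖L (f n - z0)‖ ≤ ‖L‖ * r :=
    (L.le_opNorm _).trans (mul_le_mul_of_nonneg_left (hf n).1.1.le (by positivity))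
  linarith

end Pool.Agent.D0H95.BF
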