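import Pool.Agent.D0H95.BF.LagM
import Pool.Agent.D0H95.BF.Stm6

/-!
Elliptic Lagrange solutions: nondegenerate ones are unstable, nondegeneracy is generic.
-/

set_option autoImplicit false

namespace Pool.Agent.D0H95.BF

open Pool.Agent.W821.TB Pool.Agent.D0H95.NB Finset Filter Topology

variable {m : Fin 3 → ℝ} {a b : Fin 3 → ℂ} {κ ν A : ℝ}

theorem mb_symp (h : LD m a b κ ν A) {P : Pk m} {e : ℝ} (he1 : |e| < 1)
    (hP : GoodAt P a ν A e) (x y : ℂ × ℂ) :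
    ((starRingEnd ℂ) (Mb P a b ν A e x).1 * (Mb P a b ν A e y).2).re -
      ((starRingEnd ℂ) (Mb P a b ν A e y).1 * (Mb P a b ν A e x).2).re =
    ((starRingEnd ℂ) x.1 * y.2).re - ((starRingEnd ℂ) y.1 * x.2).re := by
  have k1 := D_ome P hP.2.1 (Tpos h).le (ioc m b x) (ioc m b y)
  rw [Mb_jacG h he1 hP, Mb_jacG h he1 hP, ioc_coe h.hb0, ioc_coe h.hb0, ioc_coe h.hb0,
    ioc_coe h.hb0, ome_io, ome_io] at k1
  have hN : 0 < ∑ j, m j * ‖b j‖ ^ 2 := by
    refine Finset.sum_pos (fun j _ => ?_) Finset.univ_nonempty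
    have h3 := h.hm j
    have h4 : 0 < ‖b j‖ := norm_pos_iff.mpr (h.hb j)
    positivity
  have k2 := mul_left_cancel₀ hN.ne' k1
  simp only [ip_eq] at k2
  simp only [Complex.mul_re, Complex.conj_re, Complex.conj_im]
  linarith

/-- The transformation as a linear equivalence. -/
noncomputable def VE (hν : 0 < ν) (hA : 0 < A) {e : ℝ} (he1 : |e| < 1) :
    (ℂ × ℂ) ≃ₗ[ℝ] (ℂ × ℂ) where
  toFun := VC ν A e
  map_add' := by
    intro x y
    have := VC_lin ν A e x y 1 1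
    simpa using this
  map_smul' := by
    intro c x
    have := VC_lin ν A e x 0 c 0
    simpa using this
  invFun := VI ν A e
  left_inv := VI_VC hν hA he1
  right_inv := VC_VI hν hA he1

theorem nd_eq (hZET : S_ZET) (h : LD m a b κ ν A) {P : Pk m} {e : ℝ} (he1 : |e| < 1)
    (hP : GoodAt P a ν A e) {N : ℝ → (ℂ × ℂ →L[ℝ] ℂ × ℂ)}
    (hN : ∀ e : ℝ, |e| < 1 → ∀ ζ η : ℝ → ℂ,
    (∀ u, HasDerivAt ζ (η u / ((1 - e * Real.cos u : ℝ) : ℂ)) u) →
    (∀ u, HasDerivAt η (3 / 2 * ζ u + κ * (starRingEnd ℂ) (ζ u) -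
      2 * Real.sqrt (1 - e ^ 2) * Complex.I * (η u / ((1 - e * Real.cos u : ℝ) : ℂ))) u) →
    N e (ζ 0, η 0) = (ζ (2 * Real.pi), η (2 * Real.pi))) :
    nd (Mb P a b ν A e) = nd (N e) := by
  have key := N_VC hZET h he1 hP hN
  set V := VE h.hν h.hA he1 with hV
  have e1 : ((N e : ℂ × ℂ →L[ℝ] ℂ × ℂ) : ℂ × ℂ →ₗ[ℝ] ℂ × ℂ) =
      V.conj ((Mb P a b ν A e : ℂ × ℂ →L[ℝ] ℂ × ℂ) : ℂ × ℂ →ₗ[ℝ] ℂ × ℂ) := by
    refine LinearMap.ext fun x => ?_
    rw [LinearEquiv.conj_apply]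
    have h1 := key (V.symm x)
    have h2 : VC ν A e (V.symm x) = x := V.apply_symm_apply x
    rw [h2] at h1
    exact h1
  have e2 : (((N e).comp (N e) : ℂ × ℂ →L[ℝ] ℂ × ℂ) : ℂ × ℂ →ₗ[ℝ] ℂ × ℂ) =
      V.conj (((Mb P a b ν A e).comp (Mb P a b ν A e) : ℂ × ℂ →L[ℝ] ℂ × ℂ) :
        ℂ × ℂ →ₗ[ℝ] ℂ × ℂ) := by
    have h1 : (((N e).comp (N e) : ℂ × ℂ →L[ℝ] ℂ × ℂ) : ℂ × ℂ →ₗ[ℝ] ℂ × ℂ) =
        ((N e : ℂ × ℂ →L[ℝ] ℂ × ℂ) : ℂ × ℂ →ₗ[ℝ] ℂ × ℂ).comp
          ((N e : ℂ × ℂ →L[ℝ] ℂ × ℂ) : ℂ × ℂ →ₗ[ℝ] ℂ × ℂ) := rfl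
    rw [h1, e1, ← LinearEquiv.conj_comp]
    rfl
  have t1 : tr (N e) = tr (Mb P a b ν A e) := by
    unfold tr
    rw [e1, LinearMap.trace_conj']
  have t2 : tr ((N e).comp (N e)) = tr ((Mb P a b ν A e).comp (Mb P a b ν A e)) := by
    unfold tr
    rw [e2, LinearMap.trace_conj']
  unfold nd b2
  rw [t1, t2]

/-- The trace as a continuous linear map. -/
noncomputable def trL : (ℂ × ℂ →L[ℝ] ℂ × ℂ) →L[ℝ] ℝ :=
  LinearMap.toContinuousLinearMap
    { toFun := tr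
      map_add' := fun x y => by
        unfold tr
        exact map_add _ _ _
      map_smul' := fun c x => by
        unfold tr
        exact map_smul _ _ _ }

theorem trL_apply (M : ℂ × ℂ →L[ℝ] ℂ × ℂ) : trL M = tr M := rfl

theorem nd_analytic {N : ℝ → (ℂ × ℂ →L[ℝ] ℂ × ℂ)} {U : Set ℝ} (hN : AnalyticOnNhd ℝ N U) :
    AnalyticOnNhd ℝ (fun e => nd (N e)) U := by
  have h1 : AnalyticOnNhd ℝ (fun e => tr (N e)) U := ContinuousLinearMap.comp_analyticOnNhd trL hN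
  have h2 : AnalyticOnNhd ℝ (fun e => tr ((N e).comp (N e))) U :=
    ContinuousLinearMap.comp_analyticOnNhd trL (hN.mul hN)
  have h3 : AnalyticOnNhd ℝ (fun e => b2 (N e)) U := by
    have : (fun e => b2 (N e)) = fun e => (tr (N e) * tr (N e) - tr ((N e).comp (N e))) * (1 / 2) := by
      funext e
      unfold b2
      ring
    rw [this]
    exact ((h1.mul h1).sub h2).mul analyticOnNhd_const
  have h4 : (fun e => nd (N e)) = fun e => (tr (N e) * tr (N e) - 4 * b2 (N e) + 8) *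
      ((b2 (N e) + 2) * (b2 (N e) + 2) - 4 * (tr (N e) * tr (N e))) := by
    funext e
    unfold nd
    ring
  rw [h4]
  exact (((h1.mul h1).sub (analyticOnNhd_const.mul h3)).add analyticOnNhd_const).mul
    (((h3.add analyticOnNhd_const).mul (h3.add analyticOnNhd_const)).sub
      (analyticOnNhd_const.mul (h1.mul h1)))

/-- The zeros of an analytic function. -/
theorem zeros_finite {F : ℝ → ℝ} (hF : AnalyticOnNhd ℝ F (Set.Ioo (-1) 1)) (h0 : F 0 ≠ 0) {E : ℝ}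
    (hE : E < 1) : ({e | e ∈ Set.Ioo (-1 : ℝ) 1 ∧ F e = 0} ∩ Set.Icc (-E) E).Finite := by
  by_contra hinf
  have hinf' : ({e | e ∈ Set.Ioo (-1 : ℝ) 1 ∧ F e = 0} ∩ Set.Icc (-E) E).Infinite := hinf
  obtain ⟨z, hz, hacc⟩ := hinf'.exists_accPt_of_subset_isCompact isCompact_Icc
    Set.inter_subset_right
  have hzU : z ∈ Set.Ioo (-1 : ℝ) 1 := ⟨by linarith [hz.1], by linarith [hz.2]⟩
  have hfr : ∃ᶠ e in 𝓝[≠] z, F e = 0 :=
    (accPt_iff_frequently_nhdsNE.mp hacc).mono fun e he => he.1.2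
  exact h0 (hF.eqOn_zero_of_preconnected_of_frequently_eq_zero isPreconnected_Ioo hzU hfr
    ⟨by norm_num, by norm_num⟩)

/-- Nondegenerate elliptic Lagrange solutions are not stable. -/
theorem nd_unstable (hBU : S_BU) (hNT : S_NT) (hEIG : S_EIG) (hPERT : S_PERT) (hUNI : S_UNI)
    (hTAY : S_TAY) (hZET : S_ZET) (hANA : S_ANA) (hCIR : S_CIR2) (hCONE : S_CONE)
    (hDICH : S_DICH) (h : LD m a b κ ν A) {e : ℝ}
    (he1 : |e| < 1) (hne : e ≠ 0) {P : Pk m} (hP : GoodAt P a ν A e)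
    (hnd : nd (Mb P a b ν A e) ≠ 0) : ¬ StabS m (Set.range (xe a ν A e)) := by
  rcases hDICH (Mb P a b ν A e) (mb_symp h he1 hP) hnd with hH | hE
  · exact hyp_unstable hCONE h he1 hP hH
  · obtain ⟨α, β, hα, hβ, hαβ, ⟨q1, s1, n1, c1, d1⟩, ⟨q2, s2, n2, c2, d2⟩⟩ := hE
    intro hst
    have hgx : (fun t => ((P.g t (gam m a ν A e) : cm m) : Ph 3)) = xe a ν A e := funext hP.1
    have hpair : ∀ {q s : ℂ × ℂ} {α : ℝ}, q ≠ 0 →
        Mb P a b ν A e q = Real.cos α • q - Real.sin α • s →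
        Mb P a b ν A e s = Real.sin α • q + Real.cos α • s →
        Pair m (xe a ν A e) (2 * Real.pi / ν) 1 α := by
      intro q s α hq hp hr
      rw [← hgx]
      refine vec_pair hP.2.1 (by simp) (by rw [one_smul]; exact hP.2.2) (p := ioc m b q)
        (r := ioc m b s) ?_ ?_ ?_
      · intro h0
        apply hq
        have h1 : co m b ((ioc m b q : cm m) : Ph 3) = q := by rw [ioc_coe h.hb0, h.co_io]
        rw [h0] at h1
        rw [← h1]
        exact map_zero (co m b)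
      · rw [Mb_jacG h he1 hP, hp, one_smul, map_sub, map_smul, map_smul]
      · rw [Mb_jacG h he1 hP, hr, one_smul, map_add, map_smul, map_smul]
    exact h.all_unstable hBU hNT hEIG hPERT hUNI hTAY hZET hANA hCIR he1 hne hα hβ hαβ
      (hpair n1 c1 d1) (hpair n2 c2 d2) hst.weak

/-- A complex multiplier. -/
def Mul (m : Fin 3 → ℝ) (x : ℝ → Ph 3) (T : ℝ) (μ : ℂ) : Prop :=
  ∃ ξ η : ℝ → Ph 3, IsJac m x ξ ∧ IsJac m x η ∧ (ξ 0 ≠ 0 ∨ η 0 ≠ 0) ∧
    (∀ t, ξ (t + T) = μ.re • ξ t - μ.im • η t) ∧ (∀ t, η (t + T) = μ.im • ξ t + μ.re • η t)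

/-- The `b`-part of a multiplier. -/
theorem mul_b (h : LD m a b κ ν A) {e : ℝ} (he1 : |e| < 1) (hne : e ≠ 0) {P : Pk m}
    (hP : GoodAt P a ν A e) {μ : ℂ} (hμ : μ ≠ 1)
    (hM : Mul m (xe a ν A e) (2 * Real.pi / ν) μ) :
    ∃ q s : ℂ × ℂ, (q ≠ 0 ∨ s ≠ 0) ∧ Mb P a b ν A e q = μ.re • q - μ.im • s ∧
      Mb P a b ν A e s = μ.im • q + μ.re • s := by
  obtain ⟨ξ, η, hξ, hη, h0, h1, h2⟩ := hM
  obtain ⟨ω, hω⟩ := exists_om m
  have hT := Tpos h
  set T := 2 * Real.pi / ν with hTdef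
  set z0 := gam m a ν A e with hz0
  set D := fderiv ℝ (P.g T) z0 with hD
  have hgx : ∀ t, ((P.g t z0 : cm m) : Ph 3) = xe a ν A e t := hP.1
  set p : cm m := ⟨ξ 0, (hξ 0).1⟩ with hp
  set r : cm m := ⟨η 0, (hη 0).1⟩ with hr
  have hDp : D p = μ.re • p - μ.im • r := by
    apply Subtype.ext
    rw [← jac_uniq h.hm P hP.2.1 (fun t => (hξ t).1) (fun t => by rw [hgx]; exact (hξ t).2) rfl
      hT.le]
    have h3 := h1 0
    rw [zero_add] at h3
    rw [h3]
    rfl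
  have hDr : D r = μ.im • p + μ.re • r := by
    apply Subtype.ext
    rw [← jac_uniq h.hm P hP.2.1 (fun t => (hη t).1) (fun t => by rw [hgx]; exact (hη t).2) rfl
      hT.le]
    have h3 := h2 0
    rw [zero_add] at h3
    rw [h3]
    rfl
  have hpr : ∀ (x y : cm m) (c d : ℝ), co m b ((c • x - d • y : cm m) : Ph 3) =
      c • co m b (x : Ph 3) - d • co m b (y : Ph 3) := by
    intro x y c d
    have : ((c • x - d • y : cm m) : Ph 3) = c • (x : Ph 3) - d • (y : Ph 3) := rfl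
    rw [this, map_sub, map_smul, map_smul]
  have hpr' : ∀ (x y : cm m) (c d : ℝ), co m b ((c • x + d • y : cm m) : Ph 3) =
      c • co m b (x : Ph 3) + d • co m b (y : Ph 3) := by
    intro x y c d
    have : ((c • x + d • y : cm m) : Ph 3) = c • (x : Ph 3) + d • (y : Ph 3) := rfl
    rw [this, map_add, map_smul, map_smul]
  refine ⟨co m b (p : Ph 3), co m b (r : Ph 3), ?_, ?_, ?_⟩
  · by_contra hh
    push Not at hh
    obtain ⟨hbp, hbr⟩ := hh
    obtain ⟨u1, hu1⟩ : ∃ u1 : cm m, (u1 : Ph 3) = vf m (z0 : Ph 3) := ⟨⟨_, vf_mem z0.2⟩, rfl⟩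
    have hzS : (z0 : Ph 3) ∈ P.S := by
      have := hP.2.1 0
      rwa [P.hg.zero] at this
    have hDu1 : D u1 = u1 := by
      apply Subtype.ext
      rw [hD, D_vf P hzS (hP.2.1 T) hu1, hP.2.2, hu1]
    have hDu2 : D (Complex.I • z0) = Complex.I • z0 := by
      rw [hD, D_I, hP.2.2]
    have hDω : ∀ x y, ω (D x) (D y) = ω x y := by
      intro x y
      rw [hω, hω]
      exact D_ome P hP.2.1 hT.le x y
    have hμ2 : (1 - μ.re) ^ 2 + μ.im ^ 2 ≠ 0 := by
      intro hh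
      apply hμ
      apply Complex.ext
      · have : (1 - μ.re) ^ 2 = 0 := by nlinarith [sq_nonneg (1 - μ.re), sq_nonneg μ.im]
        have := pow_eq_zero_iff (two_ne_zero) |>.mp this
        rw [Complex.one_re]
        linarith
      · have : μ.im ^ 2 = 0 := by nlinarith [sq_nonneg (1 - μ.re), sq_nonneg μ.im]
        rw [Complex.one_im]
        exact pow_eq_zero_iff (two_ne_zero) |>.mp this
    have horth : ∀ u : cm m, D u = u → ω u p = 0 ∧ ω u r = 0 := by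
      intro u hu
      have k1 := hDω u p
      have k2 := hDω u r
      rw [hu, hDp, map_sub, map_smul, map_smul, smul_eq_mul, smul_eq_mul] at k1
      rw [hu, hDr, map_add, map_smul, map_smul, smul_eq_mul, smul_eq_mul] at k2
      constructor
      · have : ((1 - μ.re) ^ 2 + μ.im ^ 2) * ω u p = 0 := by
          linear_combination (-(1 - μ.re)) * k1 + μ.im * k2
        exact (mul_eq_zero.mp this).resolve_left hμ2
      · have : ((1 - μ.re) ^ 2 + μ.im ^ 2) * ω u r = 0 := by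
          linear_combination (-(1 - μ.re)) * k2 - μ.im * k1
        exact (mul_eq_zero.mp this).resolve_left hμ2
    obtain ⟨o1, o2⟩ := horth u1 hDu1
    obtain ⟨o3, o4⟩ := horth _ hDu2
    have hfix : ∀ v : cm m, co m b (v : Ph 3) = 0 → ω u1 v = 0 → ω (Complex.I • z0) v = 0 →
        D v = v := by
      intro v hv k1 k2
      have k3 := h.dec v.2
      rw [hv, map_zero, add_zero] at k3
      rw [hω, hu1, k3] at k1
      rw [hω, k3] at k2
      obtain ⟨s, t, k4⟩ := apart h he1 hne k1 k2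
      rw [← k3] at k4
      have k5 : v = s • u1 + t • (Complex.I • z0) := by
        apply Subtype.ext
        rw [k4, ← hu1]
        rfl
      rw [k5, map_add, map_smul, map_smul, hDu1, hDu2]
    have f1 := hfix p hbp o1 o3
    have f2 := hfix r hbr o2 o4
    rw [f1] at hDp
    rw [f2] at hDr
    have q1 : ((1 - μ.re) ^ 2 + μ.im ^ 2) • p = 0 := by
      have e1 : ((1 - μ.re) ^ 2 + μ.im ^ 2) • p =
          (1 - μ.re) • (p - (μ.re • p - μ.im • r)) - μ.im • (r - (μ.im • p + μ.re • r)) := by module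
      rw [e1, ← hDp, ← hDr, sub_self, sub_self, smul_zero, smul_zero, sub_zero]
    have q2 : ((1 - μ.re) ^ 2 + μ.im ^ 2) • r = 0 := by
      have e1 : ((1 - μ.re) ^ 2 + μ.im ^ 2) • r =
          (1 - μ.re) • (r - (μ.im • p + μ.re • r)) + μ.im • (p - (μ.re • p - μ.im • r)) := by module
      rw [e1, ← hDp, ← hDr, sub_self, sub_self, smul_zero, smul_zero, add_zero]
    have q3 := (smul_eq_zero.mp q1).resolve_left hμ2
    have q4 := (smul_eq_zero.mp q2).resolve_left hμ2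
    rcases h0 with h0 | h0
    · exact h0 (congrArg Subtype.val q3)
    · exact h0 (congrArg Subtype.val q4)
  · rw [← co_D h he1 hP p]
    change co m b ((D p : cm m) : Ph 3) = _
    rw [hDp, hpr]
  · rw [← co_D h he1 hP r]
    change co m b ((D r : cm m) : Ph 3) = _
    rw [hDr, hpr']

end Pool.Agent.D0H95.BF
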