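import Pool.Agent.D0H95.BF.LagO

/-!
Elliptic Lagrange solutions: all masses outside three surfaces, all eccentricities outside a discrete set.
-/

set_option autoImplicit false

namespace Pool.Agent.D0H95.BF

open Pool.Agent.W821.TB Pool.Agent.D0H95.NB Finset Filter Topology

theorem lagrange_nondeg (hBU : S_BU) (hNT : S_NT) (hEIG : S_EIG) (hPERT : S_PERT) (hUNI : S_UNI)
    (hTAY : S_TAY) (hZET : S_ZET) (hANA : S_ANA) (hCIR : S_CIR2) (hCONE : S_CONE)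
    (hDICH : S_DICH) (hFOUR : S_FOUR) {m : Fin 3 → ℝ} (hm : ∀ i, 0 < m i) {a : Fin 3 → ℂ}
    (ha : ∀ i j, i ≠ j → ‖a i - a j‖ = 1) (ha0 : ∑ i, (m i : ℂ) * a i = 0) {ν A : ℝ}
    (hν : 0 < ν) (hA : 0 < A) (hM : ν ^ 2 * A ^ 3 = m 0 + m 1 + m 2) {e : ℝ}
    (he0 : e ≠ 0) (he1 : |e| < 1) {μ : Fin 4 → ℂ} (hinj : Function.Injective μ)
    (hμ : ∀ j, μ j ≠ 1 ∧ μ j ≠ -1) (hMul : ∀ j, Mul m (xe a ν A e) (2 * Real.pi / ν) (μ j)) :
    ¬ StabS m (Set.range (xe a ν A e)) := by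
  obtain ⟨b, κ, h⟩ := exists_LD hm ha ha0 hν hA hM
  obtain ⟨P, hP⟩ := h.pkG he1
  have hG := hP e le_rfl
  exact nd_unstable hBU hNT hEIG hPERT hUNI hTAY hZET hANA hCIR hCONE hDICH h he1 he0 hG
    (hFOUR (Mb P a b ν A e) (mb_symp h he1 hG) μ hinj hμ fun j =>
      mul_b h he1 he0 hG (hμ j).1 (hMul j))

theorem lagrange_gen (hBU : S_BU) (hNT : S_NT) (hEIG : S_EIG) (hPERT : S_PERT) (hUNI : S_UNI)
    (hTAY : S_TAY) (hZET : S_ZET) (hANA : S_ANA) (hCIR : S_CIR2) (hCONE : S_CONE)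
    (hDICH : S_DICH) (hNDG : S_NDG) {m : Fin 3 → ℝ} (hm : ∀ i, 0 < m i)
    (hne : ¬ (m 0 = m 1 ∧ m 1 = m 2))
    (h27 : 27 * (m 0 * m 1 + m 1 * m 2 + m 2 * m 0) ≠ (m 0 + m 1 + m 2) ^ 2)
    (h36 : 36 * (m 0 * m 1 + m 1 * m 2 + m 2 * m 0) ≠ (m 0 + m 1 + m 2) ^ 2) :
    ∃ D : Set ℝ, (∀ E : ℝ, E < 1 → (D ∩ Set.Icc (-E) E).Finite) ∧
      ∀ a : Fin 3 → ℂ, (∀ i j, i ≠ j → ‖a i - a j‖ = 1) → (∑ i, (m i : ℂ) * a i = 0) →
      ∀ ν A : ℝ, 0 < ν → 0 < A → ν ^ 2 * A ^ 3 = m 0 + m 1 + m 2 →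
      ∀ e : ℝ, e ≠ 0 → |e| < 1 → e ∉ D → ¬ StabS m (Set.range (xe a ν A e)) := by
  have h0 := hm 0
  have h1 := hm 1
  have h2 := hm 2
  set M := m 0 + m 1 + m 2 with hM
  set σ := m 0 * m 1 + m 1 * m 2 + m 2 * m 0 with hσ
  have hM0 : 0 < M := by positivity
  have hσ0 : 0 < σ := by positivity
  have hid : M ^ 2 - 3 * σ = ((m 0 - m 1) ^ 2 + (m 1 - m 2) ^ 2 + (m 2 - m 0) ^ 2) / 2 := by
    rw [hM, hσ]; ring
  have hge : 3 * σ / M ^ 2 ≤ 1 := by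
    rw [div_le_one (by positivity)]
    nlinarith [sq_nonneg (m 0 - m 1), sq_nonneg (m 1 - m 2), sq_nonneg (m 2 - m 0)]
  set κ0 := Real.sqrt (9 / 4 * (1 - 3 * σ / M ^ 2)) with hκ0
  have hκ2 : κ0 ^ 2 = 9 / 4 * (1 - 3 * σ / M ^ 2) := Real.sq_sqrt (by linarith)
  have hfrac : 0 < 3 * σ / M ^ 2 := by positivity
  obtain ⟨N, hNa, hN⟩ := hANA κ0
  have hF0 : nd (N 0) ≠ 0 := by
    refine hNDG κ0 ?_ ?_ ?_ ?_ (N 0) ?_
    · rw [hκ2]; linarith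
    · intro hz
      rw [hz] at hκ2
      have k1 : 3 * σ / M ^ 2 = 1 := by linarith
      rw [div_eq_iff (by positivity)] at k1
      have k2 : (m 0 - m 1) ^ 2 + (m 1 - m 2) ^ 2 + (m 2 - m 0) ^ 2 = 0 := by linarith
      apply hne
      constructor
      · nlinarith [sq_nonneg (m 0 - m 1), sq_nonneg (m 1 - m 2), sq_nonneg (m 2 - m 0)]
      · nlinarith [sq_nonneg (m 0 - m 1), sq_nonneg (m 1 - m 2), sq_nonneg (m 2 - m 0)]
    · intro hz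
      rw [hκ2] at hz
      have k1 : 3 * σ / M ^ 2 = 1 / 9 := by linarith
      rw [div_eq_iff (by positivity)] at k1
      apply h27
      linarith
    · intro hz
      rw [hκ2] at hz
      have k1 : 3 * σ / M ^ 2 = 1 / 12 := by linarith
      rw [div_eq_iff (by positivity)] at k1
      apply h36
      linarith
    · intro ζ η hζ hη
      have hone : ∀ u : ℝ, ((1 - 0 * Real.cos u : ℝ) : ℂ) = 1 := by
        intro u; push_cast; ring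
      have hsq : ((Real.sqrt (1 - (0:ℝ) ^ 2) : ℝ) : ℂ) = 1 := by norm_num
      refine hN 0 (by norm_num) ζ η (fun u => ?_) (fun u => ?_)
      · rw [hone, div_one]
        exact hζ u
      · rw [hone, div_one, hsq, mul_one]
        exact hη u
  refine ⟨{e | e ∈ Set.Ioo (-1 : ℝ) 1 ∧ nd (N e) = 0}, fun E hE =>
    zeros_finite (nd_analytic hNa) hF0 hE, ?_⟩
  intro a ha ha0 ν A hν hA hMν e he0 he1 heD
  obtain ⟨b, κ, h⟩ := exists_LD hm ha ha0 hν hA hMν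
  have hκ : κ = κ0 := by
    have k1 : κ ^ 2 = κ0 ^ 2 := by rw [h.hκ, hκ2]
    exact (pow_left_inj₀ h.hκ0 (Real.sqrt_nonneg _) two_ne_zero).mp k1
  subst hκ
  obtain ⟨P, hP⟩ := h.pkG he1
  have hG := hP e le_rfl
  refine nd_unstable hBU hNT hEIG hPERT hUNI hTAY hZET hANA hCIR hCONE hDICH h he1 he0 hG ?_
  rw [nd_eq hZET h he1 hG hN]
  intro hz
  exact heD ⟨abs_lt.mp he1, hz⟩

end Pool.Agent.D0H95.BF
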