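import Pool.Agent.D0H95.BF.NBif

/-!
Linear algebra in the phase space of three bodies.
-/

set_option autoImplicit false

namespace Pool.Agent.D0H95.BF

open Pool.Agent.W821.TB Pool.Agent.D0H95.NB Finset Filter Topology

/-- Skew-orthogonal complements in dimension eight. -/
theorem la8 {E : Type} [AddCommGroup E] [Module ℝ E] [FiniteDimensional ℝ E]
    (hE : Module.finrank ℝ E = 8) (B : E →ₗ[ℝ] E →ₗ[ℝ] ℝ) (hanti : ∀ x y, B x y = - B y x)
    (hnd : ∀ x, (∀ y, B x y = 0) → x = 0) {u1 u2 p1 r1 p2 r2 : E}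
    (hind : ∀ a b : ℝ, a • u1 + b • u2 = 0 → a = 0 ∧ b = 0) (h12 : B u1 u2 = 0)
    (hup1 : B u1 p1 = 0) (hur1 : B u1 r1 = 0) (hup2 : B u1 p2 = 0) (hur2 : B u1 r2 = 0)
    (hvp1 : B u2 p1 = 0) (hvr1 : B u2 r1 = 0) (hvp2 : B u2 p2 = 0) (hvr2 : B u2 r2 = 0)
    (h1 : B p1 r1 ≠ 0) (h2 : B p2 r2 ≠ 0) (hpp : B p1 p2 = 0) (hpr : B p1 r2 = 0)
    (hrp : B r1 p2 = 0) (hrr : B r1 r2 = 0) {v : E} (hv1 : B u1 v = 0) (hv2 : B u2 v = 0)
    (hv3 : B p1 v = 0) (hv4 : B r1 v = 0) (hv5 : B p2 v = 0) (hv6 : B r2 v = 0) :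
    ∃ a b : ℝ, v = a • u1 + b • u2 := by
  have hself : ∀ x, B x x = 0 := fun x => by have := hanti x x; linarith
  -- six independent vectors
  set f : Fin 6 → E := ![u1, u2, p1, r1, p2, r2] with hf
  have hli : LinearIndependent ℝ f := by
    rw [Fintype.linearIndependent_iff]
    intro g hg
    rw [Fin.sum_univ_six] at hg
    simp only [hf, Matrix.cons_val_zero, Matrix.cons_val_one, Matrix.cons_val] at hg
    have e : ∀ w : E, g 0 * B u1 w + g 1 * B u2 w + g 2 * B p1 w + g 3 * B r1 w + g 4 * B p2 w +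
        g 5 * B r2 w = 0 := by
      intro w
      have := congrArg (fun x => B x w) hg
      simpa using this
    have g2 : g 2 = 0 := by
      have := e r1
      rw [hur1, hvr1, hself r1, hanti p2 r1, hrp, hanti r2 r1, hrr] at this
      have h' : g 2 * B p1 r1 = 0 := by linarith
      exact (mul_eq_zero.mp h').resolve_right h1
    have g3 : g 3 = 0 := by
      have := e p1
      rw [hup1, hvp1, hself p1, hanti p2 p1, hpp, hanti r2 p1, hpr, hanti r1 p1] at this
      have h' : g 3 * B p1 r1 = 0 := by linarith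
      exact (mul_eq_zero.mp h').resolve_right h1
    have g4 : g 4 = 0 := by
      have := e r2
      rw [hur2, hvr2, hpr, hrr, hself r2] at this
      have h' : g 4 * B p2 r2 = 0 := by linarith
      exact (mul_eq_zero.mp h').resolve_right h2
    have g5 : g 5 = 0 := by
      have := e p2
      rw [hup2, hvp2, hpp, hrp, hself p2, hanti r2 p2] at this
      have h' : g 5 * B p2 r2 = 0 := by linarith
      exact (mul_eq_zero.mp h').resolve_right h2
    rw [g2, g3, g4, g5] at hg
    simp only [zero_smul, add_zero] at hg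
    obtain ⟨g0, g1⟩ := hind _ _ hg
    intro i
    fin_cases i
    · exact g0
    · exact g1
    · exact g2
    · exact g3
    · exact g4
    · exact g5
  set U : Submodule ℝ E := Submodule.span ℝ (Set.range f) with hU
  have hUf : Module.finrank ℝ U = 6 := by
    rw [hU, finrank_span_eq_card hli]; simp
  have hB : LinearMap.BilinForm.Nondegenerate B := by
    refine ⟨fun x hx => hnd x hx, fun x hx => hnd x fun y => ?_⟩
    rw [hanti, hx y, neg_zero]
  have hrefl : LinearMap.BilinForm.IsRefl B := by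
    intro x y hxy
    rw [hanti, hxy, neg_zero]
  have hUo := LinearMap.BilinForm.finrank_orthogonal hB U
  rw [hE, hUf] at hUo
  set S : Submodule ℝ E := Submodule.span ℝ (Set.range ![u1, u2]) with hS
  have hliS : LinearIndependent ℝ ![u1, u2] := by
    rw [LinearIndependent.pair_iff]
    exact hind
  have hSf : Module.finrank ℝ S = 2 := by
    rw [hS, finrank_span_eq_card hliS]; simp
  have hmemU : ∀ w : E, B u1 w = 0 → B u2 w = 0 → B p1 w = 0 → B r1 w = 0 → B p2 w = 0 →
      B r2 w = 0 → w ∈ LinearMap.BilinForm.orthogonal B U := by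
    intro w w1 w2 w3 w4 w5 w6
    rw [LinearMap.BilinForm.mem_orthogonal_iff]
    intro x hx
    change B x w = 0
    refine Submodule.span_induction (p := fun x _ => B x w = 0) ?_ ?_ ?_ ?_ hx
    · rintro _ ⟨i, rfl⟩
      fin_cases i
      · exact w1
      · exact w2
      · exact w3
      · exact w4
      · exact w5
      · exact w6
    · simp
    · intro x y _ _ hx hy
      rw [map_add, LinearMap.add_apply, hx, hy, add_zero]
    · intro a x _ hx
      rw [map_smul, LinearMap.smul_apply, hx, smul_zero]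
  have hSU : S ≤ LinearMap.BilinForm.orthogonal B U := by
    rw [hS, Submodule.span_le]
    rintro _ ⟨i, rfl⟩
    fin_cases i
    · refine hmemU u1 (hself u1) ?_ ?_ ?_ ?_ ?_
      · rw [hanti, h12, neg_zero]
      · rw [hanti, hup1, neg_zero]
      · rw [hanti, hur1, neg_zero]
      · rw [hanti, hup2, neg_zero]
      · rw [hanti, hur2, neg_zero]
    · refine hmemU u2 h12 (hself u2) ?_ ?_ ?_ ?_
      · rw [hanti, hvp1, neg_zero]
      · rw [hanti, hvr1, neg_zero]
      · rw [hanti, hvp2, neg_zero]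
      · rw [hanti, hvr2, neg_zero]
  have hEq : S = LinearMap.BilinForm.orthogonal B U :=
    Submodule.eq_of_le_of_finrank_eq hSU (by rw [hSf, hUo])
  have hvS : v ∈ S := by rw [hEq]; exact hmemU v hv1 hv2 hv3 hv4 hv5 hv6
  rw [hS] at hvS
  have h3 : Set.range ![u1, u2] = {u1, u2} := by
    simp [Matrix.range_cons, Set.pair_comm]
  rw [h3, Submodule.mem_span_pair] at hvS
  obtain ⟨a, b, hab⟩ := hvS
  exact ⟨a, b, hab.symm⟩

/-- The phase space of three bodies in the centre of mass frame has dimension eight. -/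
theorem finrank_cm {m : Fin 3 → ℝ} (hm : ∀ a, 0 < m a) : Module.finrank ℝ (cm m) = 8 := by
  set F : Ph 3 →ₗ[ℂ] ℂ × ℂ :=
    { toFun := fun z => (∑ a, (m a : ℂ) * z.1 a, ∑ a, (m a : ℂ) * z.2 a)
      map_add' := by
        intro x y
        simp [Fin.sum_univ_three]
        constructor <;> ring
      map_smul' := by
        intro c x
        simp [Fin.sum_univ_three]
        constructor <;> ring } with hF
  have hker : LinearMap.ker F = cm m := by
    ext z
    rw [LinearMap.mem_ker, mem_cm]
    exact Prod.mk_eq_zero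
  have hm0 : (m 0 : ℂ) ≠ 0 := by exact_mod_cast (hm 0).ne'
  have hsurj : LinearMap.range F = ⊤ := by
    rw [LinearMap.range_eq_top]
    rintro ⟨a, b⟩
    refine ⟨(![a / m 0, 0, 0], ![b / m 0, 0, 0]), ?_⟩
    simp [hF, Fin.sum_univ_three, mul_div_cancel₀ _ hm0]
  have h1 := LinearMap.finrank_range_add_finrank_ker F
  rw [hsurj, hker, finrank_top] at h1
  have h2 : Module.finrank ℂ (ℂ × ℂ) = 2 := by simp
  have h3 : Module.finrank ℂ (Ph 3) = 6 := by simp [Module.finrank_prod]
  rw [h2, h3] at h1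
  have h4 : Module.finrank ℂ (cm m) = 4 := by omega
  have h5 := Module.finrank_mul_finrank ℝ ℂ (cm m)
  rw [Complex.finrank_real_complex, h4] at h5
  omega

end Pool.Agent.D0H95.BF
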