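import Pool.Agent.D0H95.BF.Ker

/-!
Simplicity and nondegeneracy of elliptic pairs of multipliers.
-/

set_option autoImplicit false

namespace Pool.Agent.D0H95.BF

open Pool.Agent.W821.TB Pool.Agent.D0H95.NB Finset Filter Topology

/-- Lagrangian subspaces in dimension eight. -/
theorem lag {E : Type} [AddCommGroup E] [Module ℝ E] [FiniteDimensional ℝ E]
    (hE : Module.finrank ℝ E = 8) (B : E →ₗ[ℝ] E →ₗ[ℝ] ℝ) (hanti : ∀ x y, B x y = - B y x)
    (hnd : ∀ x, (∀ y, B x y = 0) → x = 0) {f : Fin 4 → E} (hf : LinearIndependent ℝ f)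
    (h0 : ∀ i j, B (f i) (f j) = 0) {v : E} (hv : ∀ i, B (f i) v = 0) :
    ∃ g : Fin 4 → ℝ, v = g 0 • f 0 + g 1 • f 1 + g 2 • f 2 + g 3 • f 3 := by
  set U : Submodule ℝ E := Submodule.span ℝ (Set.range f) with hU
  have hUf : Module.finrank ℝ U = 4 := by
    rw [hU, finrank_span_eq_card hf]; simp
  have hB : LinearMap.BilinForm.Nondegenerate B := by
    refine ⟨fun x hx => hnd x hx, fun x hx => hnd x fun y => ?_⟩
    rw [hanti, hx y, neg_zero]
  have hUo := LinearMap.BilinForm.finrank_orthogonal hB U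
  rw [hE, hUf] at hUo
  have hmemU : ∀ w : E, (∀ i, B (f i) w = 0) → w ∈ LinearMap.BilinForm.orthogonal B U := by
    intro w hw
    rw [LinearMap.BilinForm.mem_orthogonal_iff]
    intro x hx
    change B x w = 0
    refine Submodule.span_induction (p := fun x _ => B x w = 0) ?_ ?_ ?_ ?_ hx
    · rintro _ ⟨i, rfl⟩
      exact hw i
    · simp
    · intro x y _ _ hx hy
      rw [map_add, LinearMap.add_apply, hx, hy, add_zero]
    · intro a x _ hx
      rw [map_smul, LinearMap.smul_apply, hx, smul_zero]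
  have hSU : U ≤ LinearMap.BilinForm.orthogonal B U := by
    conv_lhs => rw [hU]
    rw [Submodule.span_le]
    rintro _ ⟨i, rfl⟩
    exact hmemU _ fun j => h0 j i
  have hEq : U = LinearMap.BilinForm.orthogonal B U :=
    Submodule.eq_of_le_of_finrank_eq hSU (by rw [hUf, hUo])
  have hvS : v ∈ U := by rw [hEq]; exact hmemU v hv
  rw [hU, Submodule.mem_span_range_iff_exists_fun] at hvS
  obtain ⟨g, hg⟩ := hvS
  refine ⟨g, ?_⟩
  rw [← hg, Fin.sum_univ_four]

theorem pair_ind {E : Type} [AddCommGroup E] [Module ℝ E] (A : E →ₗ[ℝ] E) {p r : E} {c s : ℝ}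
    (hs : s ≠ 0) (hp : A p = c • p - s • r) (hr : A r = s • p + c • r) (h0 : p ≠ 0) {a b : ℝ}
    (h : a • p + b • r = 0) : a = 0 ∧ b = 0 := by
  have h1 : A (a • p + b • r) = 0 := by rw [h, map_zero]
  rw [map_add, map_smul, map_smul, hp, hr] at h1
  have h2 : (a * s) • r = (b * s) • p := by
    have e : a • (c • p - s • r) + b • (s • p + c • r) =
      c • (a • p + b • r) + ((b * s) • p - (a * s) • r) := by module
    rw [e, h, smul_zero, zero_add, sub_eq_zero] at h1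
    exact h1.symm
  have h3 : a • r = b • p := by
    have h4 : s • (a • r) = s • (b • p) := by
      rw [smul_smul, smul_smul, mul_comm s a, mul_comm s b]; exact h2
    exact smul_right_injective E hs h4
  have h4 : (a ^ 2 + b ^ 2) • p = 0 := by
    have e : (a ^ 2 + b ^ 2) • p = a • (a • p + b • r) - b • (a • r - b • p) := by module
    rw [e, h, h3, sub_self, smul_zero, smul_zero, sub_zero]
  have h5 : a ^ 2 + b ^ 2 = 0 := (smul_eq_zero.mp h4).resolve_right h0
  constructor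
  · nlinarith [sq_nonneg a, sq_nonneg b]
  · nlinarith [sq_nonneg a, sq_nonneg b]

theorem comb3 {E : Type} [AddCommGroup E] [Module ℂ E] [Module ℝ E] [SMulCommClass ℝ ℂ E]
    (C S a b : ℝ) (c : ℂ) (x y p r : E) :
    c • (C • x - S • y) - (a • (c • (C • p - S • r)) - b • (c • (S • p + C • r))) =
      c • (C • (x - (a • p - b • r)) - S • (y - (b • p + a • r))) := by
  rw [smul_comm a c, smul_comm b c, ← smul_sub, ← smul_sub]
  congr 1
  module

theorem comb4 {E : Type} [AddCommGroup E] [Module ℂ E] [Module ℝ E] [SMulCommClass ℝ ℂ E]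
    (C S a b : ℝ) (c : ℂ) (x y p r : E) :
    c • (S • x + C • y) - (b • (c • (C • p - S • r)) + a • (c • (S • p + C • r))) =
      c • (S • (x - (a • p - b • r)) + C • (y - (b • p + a • r))) := by
  rw [smul_comm a c, smul_comm b c, ← smul_add, ← smul_sub]
  congr 1
  module

variable {m : Fin 3 → ℝ}

/-- The data of a relative periodic orbit with two elliptic pairs of multipliers. -/
structure EP0 (P : Pk m) (T : ℝ) (c : ℂ) (z p1 r1 p2 r2 : cm m) (α1 α2 : ℝ) : Prop where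
  hS : ∀ t, ((P.g t z : cm m) : Ph 3) ∈ P.S
  hg : P.g T z = c • z
  hp1 : fderiv ℝ (P.g T) z p1 = c • (Real.cos α1 • p1 - Real.sin α1 • r1)
  hr1 : fderiv ℝ (P.g T) z r1 = c • (Real.sin α1 • p1 + Real.cos α1 • r1)
  hp2 : fderiv ℝ (P.g T) z p2 = c • (Real.cos α2 • p2 - Real.sin α2 • r2)
  hr2 : fderiv ℝ (P.g T) z r2 = c • (Real.sin α2 • p2 + Real.cos α2 • r2)
  hn1 : p1 ≠ 0
  hn2 : p2 ≠ 0
  hs1 : Real.sin α1 ≠ 0
  hs2 : Real.sin α2 ≠ 0
  hcc : Real.cos α1 ≠ Real.cos α2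
  hind : ∀ a b : ℝ, a • vf m (z : Ph 3) + b • (Complex.I • (z : Ph 3)) = 0 → a = 0 ∧ b = 0

theorem EP0.swap {P : Pk m} {T : ℝ} {c : ℂ} {z p1 r1 p2 r2 : cm m} {α1 α2 : ℝ}
    (h : EP0 P T c z p1 r1 p2 r2 α1 α2) : EP0 P T c z p2 r2 p1 r1 α2 α1 :=
  ⟨h.hS, h.hg, h.hp2, h.hr2, h.hp1, h.hr1, h.hn2, h.hn1, h.hs2, h.hs1, h.hcc.symm, h.hind⟩

theorem ne_zero_of_ome {p r : cm m} (h : ome m (p : Ph 3) (r : Ph 3) ≠ 0) : p ≠ 0 := by
  rintro rfl
  apply h
  have h1 := ome_smul_left (m := m) 0 (0 : Ph 3) (r : Ph 3)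
  rw [zero_smul, zero_mul] at h1
  exact h1

theorem EP.toEP0 {P : Pk m} {T : ℝ} {c : ℂ} {z p1 r1 p2 r2 : cm m} {α1 α2 : ℝ}
    (h : EP P T c z p1 r1 p2 r2 α1 α2) : EP0 P T c z p1 r1 p2 r2 α1 α2 :=
  ⟨h.hS, h.hg, h.hp1, h.hr1, h.hp2, h.hr2, ne_zero_of_ome h.hω1, ne_zero_of_ome h.hω2,
    h.hs1, h.hs2, h.hcc, h.hind⟩

theorem cos_ne_one {α : ℝ} (h : Real.sin α ≠ 0) : Real.cos α ≠ 1 := by
  intro h3
  have := Real.sin_sq_add_cos_sq α
  rw [h3] at this
  exact h (by nlinarith [sq_nonneg (Real.sin α)])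

/-- Skew products with a fixed vector (all of them). -/
theorem EP0.orth {P : Pk m} {T : ℝ} {c : ℂ} {z p1 r1 p2 r2 : cm m} {α1 α2 : ℝ}
    (h : EP0 P T c z p1 r1 p2 r2 α1 α2) (hT : 0 < T) (hc : ‖c‖ = 1)
    {ω : cm m →L[ℝ] cm m →L[ℝ] ℝ} (hω : ∀ x y : cm m, ω x y = ome m (x : Ph 3) (y : Ph 3))
    {u : cm m} (hu : fderiv ℝ (P.g T) z u = c • u) :
    ω u p1 = 0 ∧ ω u r1 = 0 ∧ ω u p2 = 0 ∧ ω u r2 = 0 := by
  have hDω : ∀ x y, ω (fderiv ℝ (P.g T) z x) (fderiv ℝ (P.g T) z y) = ω x y := by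
    intro x y
    rw [hω, hω]
    exact D_ome P h.hS hT.le x y
  obtain ⟨a1, a2⟩ := orth_fix (ω := fun x y => ω x y) (D := fderiv ℝ (P.g T) z) hc hω hDω hu
    h.hp1 h.hr1 (cos_ne_one h.hs1)
  obtain ⟨a3, a4⟩ := orth_fix (ω := fun x y => ω x y) (D := fderiv ℝ (P.g T) z) hc hω hDω hu
    h.hp2 h.hr2 (cos_ne_one h.hs2)
  exact ⟨a1, a2, a3, a4⟩

theorem EP0.u1_fix {P : Pk m} {T : ℝ} {c : ℂ} {z p1 r1 p2 r2 : cm m} {α1 α2 : ℝ}
    (h : EP0 P T c z p1 r1 p2 r2 α1 α2) (hc : ‖c‖ = 1) {u1 : cm m}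
    (hu1 : (u1 : Ph 3) = vf m (z : Ph 3)) : fderiv ℝ (P.g T) z u1 = c • u1 := by
  have hz0 : (z : Ph 3) ∈ P.S := by
    have := h.hS 0
    rwa [P.hg.zero] at this
  apply Subtype.ext
  rw [D_vf P hz0 (h.hS T) hu1, h.hg]
  change vf m (c • (z : Ph 3)) = c • (u1 : Ph 3)
  rw [vf_smul hc, hu1]

theorem EP0.u2_fix {P : Pk m} {T : ℝ} {c : ℂ} {z p1 r1 p2 r2 : cm m} {α1 α2 : ℝ}
    (h : EP0 P T c z p1 r1 p2 r2 α1 α2) :
    fderiv ℝ (P.g T) z (Complex.I • z) = c • (Complex.I • z) := by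
  rw [D_I, h.hg, smul_comm]

/-- The form is nondegenerate on the planes of the pairs. -/
theorem EP0.nd {P : Pk m} {T : ℝ} {c : ℂ} {z p1 r1 p2 r2 : cm m} {α1 α2 : ℝ}
    (h : EP0 P T c z p1 r1 p2 r2 α1 α2) (hm : ∀ a, 0 < m a) (hT : 0 < T) (hc : ‖c‖ = 1) :
    ome m (p1 : Ph 3) (r1 : Ph 3) ≠ 0 := by
  intro h0
  obtain ⟨ω, hω⟩ := exists_om m
  have hc0 : c ≠ 0 := by rintro rfl; simp at hc
  set D := fderiv ℝ (P.g T) z with hD
  set A : cm m →ₗ[ℝ] cm m := ((rotL m c⁻¹).comp D).toLinearMap with hA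
  have hAD : ∀ {x y : cm m}, D x = c • y → A x = y := by
    intro x y hxy
    have : A x = c⁻¹ • D x := rfl
    rw [this, hxy, smul_smul, inv_mul_cancel₀ hc0, one_smul]
  obtain ⟨u1, hu1⟩ : ∃ u1 : cm m, (u1 : Ph 3) = vf m (z : Ph 3) := ⟨⟨_, vf_mem z.2⟩, rfl⟩
  have hDu1 := h.u1_fix hc hu1
  have hDu2 := h.u2_fix
  have hanti : ∀ x y, ω x y = - ω y x := by
    intro x y
    rw [hω, hω]
    exact ome_anti _ _
  have hself : ∀ x, ω x x = 0 := fun x => by have := hanti x x; linarith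
  have hDω : ∀ x y, ω (D x) (D y) = ω x y := by
    intro x y
    rw [hω, hω]
    exact D_ome P h.hS hT.le x y
  obtain ⟨a1, a2, a3, a4⟩ := h.orth hT hc hω hDu1
  obtain ⟨b1, b2, b3, b4⟩ := h.orth hT hc hω hDu2
  obtain ⟨g1, g2, g3, g4⟩ := orth_pair (ω := fun x y => ω x y) (D := D) hc hω hDω h.hp1 h.hr1
    h.hp2 h.hr2 h.hcc
  have k1 : ω u1 (Complex.I • z) = 0 := by
    rw [hω, hu1]
    exact dE_zero P h.hS hT hc h.hg hDu2
  have hpr : ω p1 r1 = 0 := by rw [hω]; exact h0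
  have hA4 : ∀ (a b x y : ℝ) (v1 v2 v3 v4 : cm m), A (a • v1 + b • v2 + x • v3 + y • v4) =
      a • A v1 + b • A v2 + x • A v3 + y • A v4 := by
    intro a b x y v1 v2 v3 v4
    rw [map_add, map_add, map_add, map_smul, map_smul, map_smul, map_smul]
  have hAp1 := hAD h.hp1
  have hAr1 := hAD h.hr1
  have hAp2 := hAD h.hp2
  have hAr2 := hAD h.hr2
  have hAu1 := hAD hDu1
  have hAu2 := hAD hDu2
  have hind : ∀ a b : ℝ, a • u1 + b • (Complex.I • z) = 0 → a = 0 ∧ b = 0 := by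
    intro a b hab
    refine h.hind a b ?_
    have this : ((a • u1 + b • (Complex.I • z) : cm m) : Ph 3) = ((0 : cm m) : Ph 3) :=
      congrArg Subtype.val hab
    have e : ((a • u1 + b • (Complex.I • z) : cm m) : Ph 3) =
      a • (u1 : Ph 3) + b • (Complex.I • (z : Ph 3)) := rfl
    rw [e, hu1] at this
    exact this
  -- separation of fixed vectors and vectors of the plane
  have sep : ∀ (a b x y : ℝ), a • u1 + b • (Complex.I • z) + x • p1 + y • r1 = 0 →
      a = 0 ∧ b = 0 ∧ x = 0 ∧ y = 0 := by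
    intro a b x y hab
    have h1 : A (a • u1 + b • (Complex.I • z) + x • p1 + y • r1) = 0 := by rw [hab, map_zero]
    rw [hA4, hAu1, hAu2, hAp1, hAr1] at h1
    have h2 : (x - (x * Real.cos α1 + y * Real.sin α1)) • p1 +
        (y - (-(x * Real.sin α1) + y * Real.cos α1)) • r1 = 0 := by
      have e : (x - (x * Real.cos α1 + y * Real.sin α1)) • p1 +
        (y - (-(x * Real.sin α1) + y * Real.cos α1)) • r1 =
        (a • u1 + b • (Complex.I • z) + x • p1 + y • r1) -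
        (a • u1 + b • (Complex.I • z) + x • (Real.cos α1 • p1 - Real.sin α1 • r1) +
          y • (Real.sin α1 • p1 + Real.cos α1 • r1)) := by module
      rw [e, hab, h1, sub_zero]
    obtain ⟨h3, h4⟩ := pair_ind A h.hs1 hAp1 hAr1 h.hn1 h2
    obtain ⟨h5, h6⟩ := rot0 (X := x) (Y := y) (c := Real.cos α1) (s := Real.sin α1)
      (by linarith) (by linarith) (by have := Real.sin_sq_add_cos_sq α1; linarith)
      (cos_ne_one h.hs1)
    rw [h5, h6, zero_smul, zero_smul, add_zero, add_zero] at hab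
    obtain ⟨h7, h8⟩ := hind a b hab
    exact ⟨h7, h8, h5, h6⟩
  set f : Fin 4 → cm m := ![u1, Complex.I • z, p1, r1] with hf
  have hli : LinearIndependent ℝ f := by
    rw [Fintype.linearIndependent_iff]
    intro g hg
    rw [Fin.sum_univ_four] at hg
    simp only [hf, Matrix.cons_val_zero, Matrix.cons_val_one, Matrix.cons_val] at hg
    obtain ⟨h1, h2, h3, h4⟩ := sep _ _ _ _ hg
    intro i
    fin_cases i
    · exact h1
    · exact h2
    · exact h3
    · exact h4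
  set B : cm m →ₗ[ℝ] cm m →ₗ[ℝ] ℝ := LinearMap.mk₂ ℝ (fun x y : cm m => ω x y)
    (fun x y z => by rw [map_add]; rfl) (fun c x y => by rw [map_smul]; rfl)
    (fun x y z => by rw [map_add]) (fun c x y => by rw [map_smul]) with hB
  have hBω : ∀ x y, B x y = ω x y := fun x y => rfl
  have hlag := lag (finrank_cm hm) B (fun x y => by rw [hBω, hBω]; exact hanti x y)
    (fun x hx => om_nd hm x fun y => by have := hx y; rwa [hBω, hω] at this) hli
    (by
      intro i j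
      rw [hBω]
      fin_cases i <;> fin_cases j
      · exact hself _
      · exact k1
      · exact a1
      · exact a2
      · change ω (Complex.I • z) u1 = 0
        rw [hanti, k1, neg_zero]
      · exact hself _
      · exact b1
      · exact b2
      · change ω p1 u1 = 0
        rw [hanti, a1, neg_zero]
      · change ω p1 (Complex.I • z) = 0
        rw [hanti, b1, neg_zero]
      · exact hself _
      · exact hpr
      · change ω r1 u1 = 0
        rw [hanti, a2, neg_zero]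
      · change ω r1 (Complex.I • z) = 0
        rw [hanti, b2, neg_zero]
      · change ω r1 p1 = 0
        rw [hanti, hpr, neg_zero]
      · exact hself _)
    (v := p2) (by
      intro i
      rw [hBω]
      fin_cases i
      · exact a3
      · exact b3
      · exact g1
      · exact g3)
  obtain ⟨g, hg⟩ := hlag
  have hg' : p2 = g 0 • u1 + g 1 • (Complex.I • z) + g 2 • p1 + g 3 • r1 := hg
  -- `A² - 2 cos α2 A + 1` kills `p2`
  have hkill : A (A p2) - (2 * Real.cos α2) • A p2 + p2 = 0 := by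
    have hs := Real.sin_sq_add_cos_sq α2
    have e0 : A (A p2) = Real.cos α2 • (Real.cos α2 • p2 - Real.sin α2 • r2) -
        Real.sin α2 • (Real.sin α2 • p2 + Real.cos α2 • r2) := by
      rw [hAp2, map_sub, map_smul, map_smul, hAp2, hAr2]
    rw [e0, hAp2]
    have e : Real.cos α2 • (Real.cos α2 • p2 - Real.sin α2 • r2) -
        Real.sin α2 • (Real.sin α2 • p2 + Real.cos α2 • r2) -
        (2 * Real.cos α2) • (Real.cos α2 • p2 - Real.sin α2 • r2) + p2 =
        (1 - (Real.sin α2 ^ 2 + Real.cos α2 ^ 2)) • p2 := by module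
    rw [e, hs, sub_self, zero_smul]
  have hAA : A p2 = g 0 • u1 + g 1 • (Complex.I • z) +
      (g 2 * Real.cos α1 + g 3 * Real.sin α1) • p1 +
      (-(g 2 * Real.sin α1) + g 3 * Real.cos α1) • r1 := by
    rw [hg', hA4, hAu1, hAu2, hAp1, hAr1]
    module
  have hAAA : A (A p2) = g 0 • u1 + g 1 • (Complex.I • z) +
      ((g 2 * Real.cos α1 + g 3 * Real.sin α1) * Real.cos α1 +
        (-(g 2 * Real.sin α1) + g 3 * Real.cos α1) * Real.sin α1) • p1 +
      (-((g 2 * Real.cos α1 + g 3 * Real.sin α1) * Real.sin α1) +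
        (-(g 2 * Real.sin α1) + g 3 * Real.cos α1) * Real.cos α1) • r1 := by
    rw [hAA, hA4, hAu1, hAu2, hAp1, hAr1]
    module
  rw [hAAA, hAA] at hkill
  have hk2 : (g 0 * (2 - 2 * Real.cos α2)) • u1 + (g 1 * (2 - 2 * Real.cos α2)) • (Complex.I • z) +
      (((g 2 * Real.cos α1 + g 3 * Real.sin α1) * Real.cos α1 +
        (-(g 2 * Real.sin α1) + g 3 * Real.cos α1) * Real.sin α1) -
        2 * Real.cos α2 * (g 2 * Real.cos α1 + g 3 * Real.sin α1) + g 2) • p1 +
      ((-((g 2 * Real.cos α1 + g 3 * Real.sin α1) * Real.sin α1) +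
        (-(g 2 * Real.sin α1) + g 3 * Real.cos α1) * Real.cos α1) -
        2 * Real.cos α2 * (-(g 2 * Real.sin α1) + g 3 * Real.cos α1) + g 3) • r1 = 0 := by
    rw [← hkill]
    conv_rhs => rw [hg']
    module
  obtain ⟨q1, q2, q3, q4⟩ := sep _ _ _ _ hk2
  have s1 := Real.sin_sq_add_cos_sq α1
  have hc2 := cos_ne_one h.hs2
  have hc2' : 2 - 2 * Real.cos α2 ≠ 0 := fun hh => hc2 (by linarith)
  have y0 : g 0 = 0 := (mul_eq_zero.mp q1).resolve_right hc2'
  have y1 : g 1 = 0 := (mul_eq_zero.mp q2).resolve_right hc2'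
  have hcc' : 2 * (Real.cos α1 - Real.cos α2) ≠ 0 := by
    intro hh
    exact h.hcc (by linarith)
  have q3' : 2 * (Real.cos α1 - Real.cos α2) * (g 2 * Real.cos α1 + g 3 * Real.sin α1) = 0 := by
    linear_combination q3 + g 2 * s1
  have q4' : 2 * (Real.cos α1 - Real.cos α2) * (-(g 2 * Real.sin α1) + g 3 * Real.cos α1) = 0 := by
    linear_combination q4 + g 3 * s1
  have z1 := (mul_eq_zero.mp q3').resolve_left hcc'
  have z2 := (mul_eq_zero.mp q4').resolve_left hcc'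
  have y2 : g 2 = 0 := by
    linear_combination Real.cos α1 * z1 - Real.sin α1 * z2 - g 2 * s1
  have y3 : g 3 = 0 := by
    linear_combination Real.sin α1 * z1 + Real.cos α1 * z2 - g 3 * s1
  apply h.hn2
  rw [hg', y0, y1, y2, y3]
  simp

theorem EP0.toEP {P : Pk m} {T : ℝ} {c : ℂ} {z p1 r1 p2 r2 : cm m} {α1 α2 : ℝ}
    (h : EP0 P T c z p1 r1 p2 r2 α1 α2) (hm : ∀ a, 0 < m a) (hT : 0 < T) (hc : ‖c‖ = 1) :
    EP P T c z p1 r1 p2 r2 α1 α2 :=
  ⟨h.hS, h.hg, h.hp1, h.hr1, h.hp2, h.hr2, h.nd hm hT hc, h.swap.nd hm hT hc,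
    h.hs1, h.hs2, h.hcc, h.hind⟩

/-- Vectors orthogonal to the six known ones. -/
theorem EP.perp {P : Pk m} {T : ℝ} {c : ℂ} {z p1 r1 p2 r2 : cm m} {α1 α2 : ℝ}
    (h : EP P T c z p1 r1 p2 r2 α1 α2) (hm : ∀ a, 0 < m a) (hT : 0 < T) (hc : ‖c‖ = 1)
    {u1 : cm m} (hu1 : (u1 : Ph 3) = vf m (z : Ph 3)) {v : cm m}
    (h1 : ome m (u1 : Ph 3) (v : Ph 3) = 0) (h2 : ome m (Complex.I • (z : Ph 3)) (v : Ph 3) = 0)
    (h3 : ome m (p1 : Ph 3) (v : Ph 3) = 0) (h4 : ome m (r1 : Ph 3) (v : Ph 3) = 0)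
    (h5 : ome m (p2 : Ph 3) (v : Ph 3) = 0) (h6 : ome m (r2 : Ph 3) (v : Ph 3) = 0) :
    ∃ a b : ℝ, v = a • u1 + b • (Complex.I • z) := by
  obtain ⟨ω, hω⟩ := exists_om m
  set D := fderiv ℝ (P.g T) z with hD
  have hDu1 := h.toEP0.u1_fix hc hu1
  have hDu2 := h.toEP0.u2_fix
  have hanti : ∀ x y, ω x y = - ω y x := by
    intro x y
    rw [hω, hω]
    exact ome_anti _ _
  have hDω : ∀ x y, ω (D x) (D y) = ω x y := by
    intro x y
    rw [hω, hω]
    exact D_ome P h.hS hT.le x y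
  obtain ⟨a1, a2, a3, a4⟩ := h.toEP0.orth hT hc hω hDu1
  obtain ⟨b1, b2, b3, b4⟩ := h.toEP0.orth hT hc hω hDu2
  obtain ⟨g1, g2, g3, g4⟩ := orth_pair (ω := fun x y => ω x y) (D := D) hc hω hDω h.hp1 h.hr1
    h.hp2 h.hr2 h.hcc
  have k1 : ω u1 (Complex.I • z) = 0 := by
    rw [hω, hu1]
    exact dE_zero P h.hS hT hc h.hg hDu2
  have hind : ∀ a b : ℝ, a • u1 + b • (Complex.I • z) = 0 → a = 0 ∧ b = 0 := by
    intro a b hab
    refine h.hind a b ?_
    have this : ((a • u1 + b • (Complex.I • z) : cm m) : Ph 3) = ((0 : cm m) : Ph 3) :=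
      congrArg Subtype.val hab
    have e : ((a • u1 + b • (Complex.I • z) : cm m) : Ph 3) =
      a • (u1 : Ph 3) + b • (Complex.I • (z : Ph 3)) := rfl
    rw [e, hu1] at this
    exact this
  set B : cm m →ₗ[ℝ] cm m →ₗ[ℝ] ℝ := LinearMap.mk₂ ℝ (fun x y : cm m => ω x y)
    (fun x y z => by rw [map_add]; rfl) (fun c x y => by rw [map_smul]; rfl)
    (fun x y z => by rw [map_add]) (fun c x y => by rw [map_smul]) with hB
  have hBω : ∀ x y, B x y = ω x y := fun x y => rfl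
  exact la8 (finrank_cm hm) B (u1 := u1) (u2 := Complex.I • z) (p1 := p1) (r1 := r1)
    (p2 := p2) (r2 := r2) (v := v)
    (fun x y => by rw [hBω, hBω]; exact hanti x y)
    (fun x hx => om_nd hm x fun y => by have := hx y; rwa [hBω, hω] at this)
    hind k1 a1 a2 a3 a4 b1 b2 b3 b4 (by rw [hBω, hω]; exact h.hω1) (by rw [hBω, hω]; exact h.hω2)
    g1 g2 g3 g4 (by rw [hBω, hω]; exact h1) (by rw [hBω, hω]; exact h2)
    (by rw [hBω, hω]; exact h3) (by rw [hBω, hω]; exact h4) (by rw [hBω, hω]; exact h5)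
    (by rw [hBω, hω]; exact h6)

/-- Simplicity. -/
theorem EP.simple {P : Pk m} {T : ℝ} {c : ℂ} {z p1 r1 p2 r2 : cm m} {α1 α2 : ℝ}
    (h : EP P T c z p1 r1 p2 r2 α1 α2) (hm : ∀ a, 0 < m a) (hT : 0 < T) (hc : ‖c‖ = 1)
    {x y : cm m}
    (hx : fderiv ℝ (P.g T) z x = c • (Real.cos α1 • x - Real.sin α1 • y))
    (hy : fderiv ℝ (P.g T) z y = c • (Real.sin α1 • x + Real.cos α1 • y)) :
    ∃ a b : ℝ, x = a • p1 - b • r1 ∧ y = b • p1 + a • r1 := by
  obtain ⟨ω, hω⟩ := exists_om m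
  have hc0 : c ≠ 0 := by rintro rfl; simp at hc
  set D := fderiv ℝ (P.g T) z with hD
  obtain ⟨u1, hu1⟩ : ∃ u1 : cm m, (u1 : Ph 3) = vf m (z : Ph 3) := ⟨⟨_, vf_mem z.2⟩, rfl⟩
  have hDu1 := h.toEP0.u1_fix hc hu1
  have hDu2 := h.toEP0.u2_fix
  have hanti : ∀ x y, ω x y = - ω y x := by
    intro x y
    rw [hω, hω]
    exact ome_anti _ _
  have hself : ∀ x, ω x x = 0 := fun x => by have := hanti x x; linarith
  have hDω : ∀ x y, ω (D x) (D y) = ω x y := by
    intro x y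
    rw [hω, hω]
    exact D_ome P h.hS hT.le x y
  have hcω : ∀ x y : cm m, ω (c • x) (c • y) = ω x y := by
    intro x y
    rw [hω, hω]
    exact ome_smul hc _ _
  set C := Real.cos α1 with hC
  set S := Real.sin α1 with hS
  have hCS : S ^ 2 + C ^ 2 = 1 := Real.sin_sq_add_cos_sq α1
  -- bilinear expansions
  have key : ∀ (a b d e : ℝ) (p r p' r' : cm m), ω (a • p + b • r) (d • p' + e • r') =
      a * d * ω p p' + a * e * ω p r' + b * d * ω r p' + b * e * ω r r' := by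
    intro a b d e p r p' r'
    have e1 : ω (a • p + b • r) (d • p' + e • r') = a * ω p (d • p' + e • r') +
        b * ω r (d • p' + e • r') := by
      rw [map_add ω, map_smul ω, map_smul ω]
      rfl
    rw [e1, map_add, map_add, map_smul, map_smul, map_smul, map_smul, smul_eq_mul, smul_eq_mul,
      smul_eq_mul, smul_eq_mul]
    ring
  have e1 := hDω p1 x
  have e2 := hDω p1 y
  have e3 := hDω r1 x
  have e4 := hDω r1 y
  have sub0 : ∀ (a b : ℝ) (x y : cm m), a • x - b • y = a • x + (-b) • y :=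
    fun a b x y => sub_aux a b x y
  rw [h.hp1, hx, hcω, sub0, sub0, key] at e1
  rw [h.hp1, hy, hcω, sub0, key] at e2
  rw [h.hr1, hx, hcω, sub0, key] at e3
  rw [h.hr1, hy, hcω, key] at e4
  have g3 : ω p1 x - ω r1 y = (C ^ 2 - S ^ 2) * (ω p1 x - ω r1 y) +
      (-(2 * S * C)) * (ω p1 y + ω r1 x) := by
    linear_combination -e1 + e4
  have g4 : ω p1 y + ω r1 x = -(-(2 * S * C)) * (ω p1 x - ω r1 y) +
      (C ^ 2 - S ^ 2) * (ω p1 y + ω r1 x) := by
    linear_combination -e2 - e3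
  have hS0 : S ≠ 0 := h.hs1
  obtain ⟨k1, k2⟩ := rot0 g3 g4 (by linear_combination (S ^ 2 + C ^ 2 + 1) * hCS) (by
    intro hh
    have : S ^ 2 = 0 := by linarith
    exact hS0 (pow_eq_zero_iff two_ne_zero |>.mp this))
  set W := ω p1 r1 with hW
  have hW0 : W ≠ 0 := by rw [hW, hω]; exact h.hω1
  set a := ω p1 y / W with ha
  set b := - ω p1 x / W with hb
  set x' := x - (a • p1 - b • r1) with hx'
  set y' := y - (b • p1 + a • r1) with hy'
  have hDx' : D x' = c • (C • x' - S • y') := by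
    rw [hx', map_sub, map_sub, map_smul, map_smul, hx, h.hp1, h.hr1, hy']
    exact comb3 C S a b c x y p1 r1
  have hDy' : D y' = c • (S • x' + C • y') := by
    rw [hy', map_sub, map_add, map_smul, map_smul, hy, h.hp1, h.hr1, hx']
    exact comb4 C S a b c x y p1 r1
  have hp1x : ω p1 x' = 0 := by
    have : ω p1 x' = ω p1 x - (a * ω p1 p1 - b * ω p1 r1) := by
      rw [hx', map_sub, map_sub, map_smul, map_smul]; rfl
    rw [this, hself, ← hW, hb]
    field_simp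
    ring
  have hr1x : ω r1 x' = 0 := by
    have : ω r1 x' = ω r1 x - (a * ω r1 p1 - b * ω r1 r1) := by
      rw [hx', map_sub, map_sub, map_smul, map_smul]; rfl
    rw [this, hself, hanti r1 p1, ← hW, ha]
    field_simp
    linarith
  have hp1y : ω p1 y' = 0 := by
    have : ω p1 y' = ω p1 y - (b * ω p1 p1 + a * ω p1 r1) := by
      rw [hy', map_sub, map_add, map_smul, map_smul]; rfl
    rw [this, hself, ← hW, ha]
    field_simp
    ring
  have hr1y : ω r1 y' = 0 := by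
    have : ω r1 y' = ω r1 y - (b * ω r1 p1 + a * ω r1 r1) := by
      rw [hy', map_sub, map_add, map_smul, map_smul]; rfl
    rw [this, hself, hanti r1 p1, ← hW, hb]
    field_simp
    linarith
  obtain ⟨g1, g2, g3, g4⟩ := orth_pair (ω := fun x y => ω x y) (D := D) hc hω hDω h.hp2 h.hr2
    hDx' hDy' h.hcc.symm
  obtain ⟨l1, l2⟩ := orth_fix (ω := fun x y => ω x y) (D := D) hc hω hDω hDu1 hDx' hDy'
    (cos_ne_one h.hs1)
  obtain ⟨l3, l4⟩ := orth_fix (ω := fun x y => ω x y) (D := D) hc hω hDω hDu2 hDx' hDy'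
    (cos_ne_one h.hs1)
  have hfix : ∀ {v : cm m}, (∃ s t : ℝ, v = s • u1 + t • (Complex.I • z)) → D v = c • v := by
    rintro v ⟨s, t, rfl⟩
    rw [map_add, map_smul, map_smul, hDu1, hDu2, smul_add, smul_comm s c, smul_comm t c]
  have hfx := hfix (h.perp hm hT hc hu1 (by rw [← hω]; exact l1)
    (by have := l3; simp only [hω] at this; exact this) (by rw [← hω]; exact hp1x)
    (by rw [← hω]; exact hr1x) (by rw [← hω]; exact g1) (by rw [← hω]; exact g3))
  have hfy := hfix (h.perp hm hT hc hu1 (by rw [← hω]; exact l2)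
    (by have := l4; simp only [hω] at this; exact this) (by rw [← hω]; exact hp1y)
    (by rw [← hω]; exact hr1y) (by rw [← hω]; exact g2) (by rw [← hω]; exact g4))
  have hinj : ∀ {v w : cm m}, c • v = c • w → v = w := by
    intro v w hvw
    have := congrArg (fun u => c⁻¹ • u) hvw
    simpa [smul_smul, inv_mul_cancel₀ hc0] using this
  have q1 : x' = C • x' - S • y' := hinj (hfx.symm.trans hDx')
  have q2 : y' = S • x' + C • y' := hinj (hfy.symm.trans hDy')
  have hC1 : C ≠ 1 := cos_ne_one h.hs1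
  have q3 : (2 * (1 - C)) • x' = 0 := by
    have e : (2 * (1 - C)) • x' = (1 - C) • (x' - (C • x' - S • y')) -
        S • (y' - (S • x' + C • y')) + (1 - (S ^ 2 + C ^ 2)) • x' := by module
    rw [e, ← q1, ← q2, sub_self, sub_self, hCS, sub_self]
    simp
  have q4 : (2 * (1 - C)) • y' = 0 := by
    have e : (2 * (1 - C)) • y' = (1 - C) • (y' - (S • x' + C • y')) +
        S • (x' - (C • x' - S • y')) + (1 - (S ^ 2 + C ^ 2)) • y' := by module
    rw [e, ← q1, ← q2, sub_self, sub_self, hCS, sub_self]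
    simp
  have hC2 : 2 * (1 - C) ≠ 0 := fun hh => hC1 (by linarith)
  have q5 := (smul_eq_zero.mp q3).resolve_left hC2
  have q6 := (smul_eq_zero.mp q4).resolve_left hC2
  exact ⟨a, b, sub_eq_zero.mp q5, sub_eq_zero.mp q6⟩

end Pool.Agent.D0H95.BF
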