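import Mathlib

/-!
Statements for the bifurcation package BF (helper95, MP_5027f4_mp slots 3 and 4).

`S_BU` (blow-up lemma): a `C³` potential `f (v, s)`, `v = (a, w) ∈ ℝ × ℂ`, whose quasi-homogeneous
part (weights `a, w : 1`, `s : 2`) is `- s a + a ‖w‖² + C (w) / 6` has critical points `v` near `0`
for small `s > 0`.
`P (v, s)` is the derivative of `f (·, s)` at `v`.
-/

set_option autoImplicit false

open Filter Topology Set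

namespace Pool.Agent.D0H95.BF

/-- Saddle lemma (module SAD).

Proof. For `y, θ` the function `x ↦ F x y θ` has a unique minimum point `X y θ ∈ (-1, 1)` on
`[-1, 1]`, the zero of `Fx`, and `X` is continuous (strict monotonicity of `Fx` in `x` and
continuity of `Fx`: `Fx (X ± η) y θ` have the signs `±` also for nearby `y, θ`). Let
`m y θ = F (X y θ) y θ = min_x F x y θ`, continuous and periodic in `θ`; let `(y₀, θ₀)` be a maximum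
point of `m` on `[-1, 1] × ℝ`, `x₀ = X y₀ θ₀`. If `Fy x₀ y₀ θ₀ > 0` (in particular if `y₀ = -1`),
then `Fy > 0` near this point, and for `y > y₀` near `y₀` and `x = X y θ₀`:
`m y θ₀ = F x y θ₀ > F x y₀ θ₀ ≥ m y₀ θ₀`, a contradiction; in the same way for `< 0` and `y < y₀`,
and for `Fθ` with `θ` instead of `y`. -/
def S_SAD : Prop := ∀ (F Fx Fy Ft : ℝ → ℝ → ℝ → ℝ),
  (∀ x ∈ Icc (-1 : ℝ) 1, ∀ y ∈ Icc (-1 : ℝ) 1, ∀ t, HasDerivAt (fun x => F x y t) (Fx x y t) x) →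
  (∀ x ∈ Icc (-1 : ℝ) 1, ∀ y ∈ Icc (-1 : ℝ) 1, ∀ t, HasDerivAt (fun y => F x y t) (Fy x y t) y) →
  (∀ x ∈ Icc (-1 : ℝ) 1, ∀ y ∈ Icc (-1 : ℝ) 1, ∀ t, HasDerivAt (fun t => F x y t) (Ft x y t) t) →
  ContinuousOn (fun p : ℝ × ℝ × ℝ => F p.1 p.2.1 p.2.2) (Icc (-1) 1 ×ˢ (Icc (-1) 1 ×ˢ univ)) →
  ContinuousOn (fun p : ℝ × ℝ × ℝ => Fx p.1 p.2.1 p.2.2) (Icc (-1) 1 ×ˢ (Icc (-1) 1 ×ˢ univ)) →
  ContinuousOn (fun p : ℝ × ℝ × ℝ => Fy p.1 p.2.1 p.2.2) (Icc (-1) 1 ×ˢ (Icc (-1) 1 ×ˢ univ)) →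
  ContinuousOn (fun p : ℝ × ℝ × ℝ => Ft p.1 p.2.1 p.2.2) (Icc (-1) 1 ×ˢ (Icc (-1) 1 ×ˢ univ)) →
  (∀ y ∈ Icc (-1 : ℝ) 1, ∀ t, StrictMonoOn (fun x => Fx x y t) (Icc (-1) 1)) →
  (∀ y ∈ Icc (-1 : ℝ) 1, ∀ t, Fx (-1) y t < 0 ∧ 0 < Fx 1 y t) →
  (∀ x ∈ Icc (-1 : ℝ) 1, ∀ t, 0 < Fy x (-1) t ∧ Fy x 1 t < 0) →
  (∀ x y t, F x y (t + 2 * Real.pi) = F x y t) →
  ∃ x ∈ Ioo (-1 : ℝ) 1, ∃ y ∈ Ioo (-1 : ℝ) 1, ∃ t, Fx x y t = 0 ∧ Fy x y t = 0 ∧ Ft x y t = 0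

/-- Blow-up lemma (module BU, uses SAD).

Proof. `V = ℝ × ℂ`, `T (v, v', v'') = D²P(0)((v,0),(v',0))(v'')`; it is symmetric (`P` is `C²`, and
`DP(p)(v,0)(v')` is symmetric in `v, v'` for `p` near `0`, as `P p` is the derivative of
`f (·, p.2)`). For `ε > 0` put `F_ε (v) = ε⁻³ f (ε v, ε²)`; on a ball `‖v‖ ≤ R` and for small `ε` its
derivatives are `DF_ε (v) = ε⁻² P (ε v, ε²)`, `D²F_ε (v) = ε⁻¹ DP (ε v, ε²) (·, 0)`, and, uniformly on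
this ball as `ε → 0` (Taylor expansion of `P` at `0` to the second order: the derivative of
`P q - DP(0) q - D²P(0)(q,q)/2` is `o (‖q‖)`; and of `DP` to the first order):
`DF_ε (v) → DF_0 (v) := DP(0)(0,1) + T (v, v, ·) / 2`, `D²F_ε (v) → T (v, ·, ·)`.
Use the coordinates `v = (K (x + y), (1 + (x - y) / K) exp (i t))`, `|x|, |y| ≤ 1`, `K` large. With
`b = 1 + (x - y)/K`, `C = T (e, e, e)`, `e = (0, exp (i t))`: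
`DF_0 (v)(1, 0) = -1 + b²`, `DF_0 (v)(0, exp (i t)) = 2 K (x + y) b + b² C / 2`, hence
`Fx = K DF_0 (v)(1,0) + DF_0 (v)(0, exp (i t)) / K = 4 x + O(1/K)`,
`Fy = K DF_0 (v)(1,0) - DF_0 (v)(0, exp (i t)) / K = - 4 y + O(1/K)`, and `∂Fx/∂x = 4 + O(1/K)`.
Fix `K` so large that the conditions of `S_SAD` hold for `ε = 0` with margin; they hold then for all
small `ε > 0` (`Fx` strictly increasing in `x` because `∂Fx/∂x > 0`). At the point given by `S_SAD`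
the functional `DF_ε (v)` vanishes on `(K, exp (i t) / K)`, `(K, - exp (i t) / K)` and
`(0, b i exp (i t))`, which span `V` over `ℝ`. So `P (ε v, ε²) = 0`, `s = ε²`. -/
def S_BU : Prop := ∀ (f : (ℝ × ℂ) × ℝ → ℝ) (P : (ℝ × ℂ) × ℝ → ((ℝ × ℂ) →L[ℝ] ℝ)),
  ContDiffAt ℝ 2 P 0 →
  (∀ᶠ p in 𝓝 (0 : (ℝ × ℂ) × ℝ), HasFDerivAt (fun v => f (v, p.2)) (P p) p.1) →
  P 0 = 0 →
  (∀ v : ℝ × ℂ, fderiv ℝ P 0 (v, 0) = 0) →
  (∀ (a : ℝ) (w : ℂ), fderiv ℝ P 0 (0, 1) (a, w) = -a) →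
  fderiv ℝ (fderiv ℝ P) 0 ((1, 0), 0) ((1, 0), 0) = 0 →
  (∀ w : ℂ, fderiv ℝ (fderiv ℝ P) 0 ((1, 0), 0) ((0, w), 0) (0, w) = 2 * ‖w‖ ^ 2) →
  ∀ δ : ℝ, 0 < δ → ∃ (v : ℝ × ℂ) (s : ℝ), s ≠ 0 ∧ |s| < δ ∧ ‖v‖ < δ ∧ P (v, s) = 0

end Pool.Agent.D0H95.BF
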