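import Pool.Agent.D0H95.BF.Stm5
import Pool.Agent.GR.Flow

/-!
Analytic dependence of the flow on the initial condition (helper95, MP_5027f4_mp).
-/

set_option autoImplicit false

open Filter Topology Set
open Pool.Agent.W821.TB Pool.Agent.D0H95.NB
open Pool.Agent.GR.Flow (IsFlowOf)

namespace Pool.Agent.D0H95.BF

/-- Module NEM: the composition operator is analytic at constants.

Proof. `X (z + h) = ∑ p n (h, ..., h)` for `‖h‖ < r`. The series `P n (h₁, ..., h_n) (t) =
p n (h₁ t, ..., h_n t)` on `C(unitInterval, E)` has `‖P n‖ ≤ ‖p n‖`, so its radius is at least that of `p`,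
and for `‖h‖ < r` in the supremum norm the sum of `P n (h, ..., h)` converges uniformly, with values
`X (z + h t)`. -/
def S_NEM : Prop := ∀ (E : Type) [NormedAddCommGroup E] [NormedSpace ℝ E] [CompleteSpace E]
  (X : C(E, E)) (z : E), AnalyticAt ℝ X z →
  AnalyticAt ℝ (fun u : C(unitInterval, E) => X.comp u) (ContinuousMap.const unitInterval z)

/-- Module AFL: the flow is analytic in the initial condition.

Proof (with `S_NEM`). `Phi X ((τ, z), u) = u - z - τ ∫ X ∘ u` on `(ℝ × E) × C(unitInterval, E)`
(`Pool.Agent.GR.Flow.Phi`) is analytic at `((0, z₁), const z₁)` for `z₁` with `AnalyticAt ℝ X z₁`, its partial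
derivative in `u` there is the identity, so by the implicit function theorem in the class `C^ω`
(`ContDiffAt ... ω`, as in `Pool.Agent.GR.Flow.contDiffAt_seg`) the segment `u (s) = g (τ s) z` is analytic in
`(τ, z)` at `(0, z₁)`, and so is `g τ z`. Hence there are `τ₁ > 0` and a neighbourhood of `z₁` where `g τ` is
analytic for `|τ| < τ₁`. The orbit segment `{g t z0}` is compact: a common `τ₁`; `g T` is the
composition of `k` maps `g (T / k)`, `T / k < τ₁`. -/
def S_AFL : Prop := ∀ (E : Type) [NormedAddCommGroup E] [NormedSpace ℝ E] [CompleteSpace E]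
  (X : C(E, E)) (K : NNReal) (g : ℝ → E → E), LipschitzWith K X → IsFlowOf X g →
  ∀ (T : ℝ) (z0 : E), 0 ≤ T → (∀ t ∈ Icc 0 T, AnalyticAt ℝ X (g t z0)) → AnalyticAt ℝ (g T) z0

/-- Module XAN: the modified field of the `n`-body problem is analytic in the region (there it is Newton's
field `pr m (vf m z)`, a composition of linear maps, `‖·‖³` away from zero, and inverses). -/
def S_XAN : Prop := ∀ (n : ℕ) (m : Fin n → ℝ) (R δ : ℝ), 0 < R → 0 < δ → ∀ z : cm m,
  (z : Ph n) ∈ (Rg R δ : Set (Ph n)) → AnalyticAt ℝ (XX m R δ) z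

end Pool.Agent.D0H95.BF
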