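import Pool.Agent.D0H95.BF.Stm3
import Pool.Agent.D0H25.BF.KEP

/-!
Change of variables to the eccentric anomaly.
-/

set_option autoImplicit false

namespace Pool.Agent.D0H95.BF

open Pool.Agent.W821.TB Pool.Agent.D0H95.NB Finset Filter Topology

theorem ell_hd (A e : ℝ) (he : |e| < 1) (u : ℝ) : HasDerivAt (ell A e)
    (ell A e u * ((((e * Real.sin u : ℝ) : ℂ) + (Real.sqrt (1 - e ^ 2) : ℂ) * Complex.I) /
      ((1 - e * Real.cos u : ℝ) : ℂ))) u := by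
  have hr : 0 < 1 - e * Real.cos u := by
    have h1 : |e * Real.cos u| ≤ |e| := by
      rw [abs_mul]
      exact mul_le_of_le_one_right (abs_nonneg e) (Real.abs_cos_le_one u)
    have h2 := le_abs_self (e * Real.cos u)
    linarith
  have hrc : ((1 - e * Real.cos u : ℝ) : ℂ) ≠ 0 := by exact_mod_cast hr.ne'
  have h1 : HasDerivAt (fun u : ℝ => ((Real.cos u - e : ℝ) : ℂ)) ((-Real.sin u : ℝ) : ℂ) u :=
    ((Real.hasDerivAt_cos u).sub_const e).ofReal_comp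
  have h2 : HasDerivAt (fun u : ℝ => ((Real.sqrt (1 - e ^ 2) * Real.sin u : ℝ) : ℂ))
      ((Real.sqrt (1 - e ^ 2) * Real.cos u : ℝ) : ℂ) u :=
    ((Real.hasDerivAt_sin u).const_mul _).ofReal_comp
  have h3 := (h1.add (h2.mul_const Complex.I)).const_mul (A : ℂ)
  have h4 : HasDerivAt (ell A e) ((A : ℂ) * (((-Real.sin u : ℝ) : ℂ) +
      ((Real.sqrt (1 - e ^ 2) * Real.cos u : ℝ) : ℂ) * Complex.I)) u := h3
  refine h4.congr_deriv ?_
  have hlt : e ^ 2 < 1 := by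
    rw [← sq_abs]
    nlinarith [abs_nonneg e]
  have hp : ((Real.sqrt (1 - e ^ 2) : ℝ) : ℂ) ^ 2 = 1 - (e : ℂ) ^ 2 := by
    have : (Real.sqrt (1 - e ^ 2)) ^ 2 = 1 - e ^ 2 := Real.sq_sqrt (by linarith)
    exact_mod_cast this
  have hcs : Complex.sin (u : ℂ) ^ 2 + Complex.cos (u : ℂ) ^ 2 = 1 :=
    Complex.sin_sq_add_cos_sq _
  rw [← mul_div_assoc, eq_div_iff hrc]
  unfold ell
  push_cast
  linear_combination ((A : ℂ) * Complex.sin u) * hp -
    ((A : ℂ) * ((Real.sqrt (1 - e ^ 2) : ℝ) : ℂ) ^ 2 * Complex.sin u) * Complex.I_sq -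
    ((A : ℂ) * Complex.I * ((Real.sqrt (1 - e ^ 2) : ℝ) : ℂ) * e) * hcs

theorem t_ZET : S_ZET := by
  intro κ ν A e hν hA he Z V hZ hV u
  have hr : ∀ u, 0 < 1 - e * Real.cos u := by
    intro u
    have h1 : |e * Real.cos u| ≤ |e| := by
      rw [abs_mul]
      exact mul_le_of_le_one_right (abs_nonneg e) (Real.abs_cos_le_one u)
    have h2 := le_abs_self (e * Real.cos u)
    linarith
  have hrc : ∀ u, ((1 - e * Real.cos u : ℝ) : ℂ) ≠ 0 := fun u => by exact_mod_cast (hr u).ne'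
  have hνc : (ν : ℂ) ≠ 0 := by exact_mod_cast hν.ne'
  have hnorm := (Pool.Agent.D0H25.BF.t_KEP ν A e hν hA he).1
  have hρ : ∀ u, ell A e u ≠ 0 := by
    intro u
    rw [← norm_pos_iff, hnorm u]
    exact mul_pos hA (hr u)
  have hlt : e ^ 2 < 1 := by
    rw [← sq_abs]
    nlinarith [abs_nonneg e]
  have hp : ((Real.sqrt (1 - e ^ 2) : ℝ) : ℂ) ^ 2 = 1 - (e : ℂ) ^ 2 := by
    have : (Real.sqrt (1 - e ^ 2)) ^ 2 = 1 - e ^ 2 := Real.sq_sqrt (by linarith)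
    exact_mod_cast this
  have hcs : ((Real.sin u : ℝ) : ℂ) ^ 2 + ((Real.cos u : ℝ) : ℂ) ^ 2 = 1 := by
    exact_mod_cast Real.sin_sq_add_cos_sq u
  have hell := ell_hd A e he u
  -- the first derivative
  have h1 : HasDerivAt (zt A e Z) (zt' ν A e Z V u) u := by
    have k1 := (hZ u).div hell (hρ u)
    have k2 : zt A e Z = fun u => Z u / ell A e u := rfl
    rw [k2]
    refine k1.congr_deriv ?_
    unfold zt' zt
    have := hρ u
    have := hrc u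
    have e1 : (((1 - e * Real.cos u) / ν : ℝ) : ℂ) = ((1 - e * Real.cos u : ℝ) : ℂ) / ν := by
      push_cast; rfl
    rw [e1]
    field_simp
  refine ⟨h1, ?_⟩
  -- the second derivative
  have hfun : (fun u => ((1 - e * Real.cos u : ℝ) : ℂ) * zt' ν A e Z V u) =
      fun u => V u * ((1 - e * Real.cos u : ℝ) : ℂ) ^ 2 / (ν * ell A e u) -
        (((e * Real.sin u : ℝ) : ℂ) + (Real.sqrt (1 - e ^ 2) : ℂ) * Complex.I) * zt A e Z u := by
    funext u
    unfold zt'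
    have := hρ u
    have := hrc u
    field_simp
  rw [hfun]
  have hrd : HasDerivAt (fun u : ℝ => ((1 - e * Real.cos u : ℝ) : ℂ)) ((e * Real.sin u : ℝ) : ℂ) u := by
    have k1 : HasDerivAt (fun u : ℝ => 1 - e * Real.cos u) (e * Real.sin u) u := by
      have := ((Real.hasDerivAt_cos u).const_mul e).const_sub 1
      simpa using this
    exact k1.ofReal_comp
  have hsd : HasDerivAt (fun u : ℝ => ((e * Real.sin u : ℝ) : ℂ) +
      (Real.sqrt (1 - e ^ 2) : ℂ) * Complex.I) ((e * Real.cos u : ℝ) : ℂ) u := by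
    have k1 : HasDerivAt (fun u : ℝ => e * Real.sin u) (e * Real.cos u) u :=
      (Real.hasDerivAt_sin u).const_mul e
    exact k1.ofReal_comp.add_const _
  have k1 := (((hV u).mul (hrd.fun_pow 2)).div (hell.const_mul (ν : ℂ))
    (mul_ne_zero hνc (hρ u))).sub (hsd.mul h1)
  refine k1.congr_deriv ?_
  have hρu := hρ u
  have hru := hrc u
  -- the norm
  have hn2 : ((‖ell A e u‖ : ℝ) : ℂ) ^ 2 = ell A e u * (starRingEnd ℂ) (ell A e u) := by
    rw [Complex.mul_conj, Complex.normSq_eq_norm_sq]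
    push_cast
    rfl
  have hρc : (starRingEnd ℂ) (ell A e u) ≠ 0 := by
    intro hh
    exact hρu ((map_eq_zero (starRingEnd ℂ)).mp hh)
  have hzc : (starRingEnd ℂ) (zt A e Z u) = (starRingEnd ℂ) (Z u) / (starRingEnd ℂ) (ell A e u) := by
    unfold zt
    rw [map_div₀]
  rw [hzc, hn2]
  have e2 : ((ν / (1 - e * Real.cos u) ^ 2 : ℝ) : ℂ) = ν / ((1 - e * Real.cos u : ℝ) : ℂ) ^ 2 := by
    push_cast; rfl
  rw [e2]
  have hr' : ((1 - e * Real.cos u : ℝ) : ℂ) = 1 - e * ((Real.cos u : ℝ) : ℂ) := by push_cast; rfl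
  have hes : ((e * Real.sin u : ℝ) : ℂ) = e * ((Real.sin u : ℝ) : ℂ) := by push_cast; rfl
  have hec : ((e * Real.cos u : ℝ) : ℂ) = e * ((Real.cos u : ℝ) : ℂ) := by push_cast; rfl
  unfold zt' zt
  rw [hes, hec]
  set r : ℂ := ((1 - e * Real.cos u : ℝ) : ℂ) with hrdef
  set p : ℂ := ((Real.sqrt (1 - e ^ 2) : ℝ) : ℂ) with hpdef
  set s : ℂ := ((Real.sin u : ℝ) : ℂ)
  set c : ℂ := ((Real.cos u : ℝ) : ℂ)
  set ρ := ell A e u
  set ρc := (starRingEnd ℂ) ρ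
  set z := Z u
  set zc := (starRingEnd ℂ) z
  set v := V u
  set q : ℂ := e * s + p * Complex.I with hq
  have key : q / r * (q - 2 * p * Complex.I) = 1 + e * c := by
    rw [div_mul_eq_mul_div, div_eq_iff hru, hr', hq]
    linear_combination (-p ^ 2) * Complex.I_sq + hp + (e : ℂ) ^ 2 * hcs
  have t1 : ν / r ^ 2 * (1 / 2 * z + κ * (ρ ^ 2 / (ρ * ρc)) * zc) * r ^ 2 / (ν * ρ) =
      1 / 2 * (z / ρ) + κ * (zc / ρc) := by
    field_simp
  have t2 : ((ν / r ^ 2 * (1 / 2 * z + κ * (ρ ^ 2 / (ρ * ρc)) * zc) * r ^ 2 +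
      v * (2 * r ^ (2 - 1) * (e * s))) * (ν * ρ) - v * r ^ 2 * (ν * (ρ * (q / r)))) / (ν * ρ) ^ 2 =
      ν / r ^ 2 * (1 / 2 * z + κ * (ρ ^ 2 / (ρ * ρc)) * zc) * r ^ 2 / (ν * ρ) +
        v * r / (ν * ρ) * (2 * (e * s) - q) := by
    have : r ^ (2 - 1) = r := by norm_num
    rw [this]
    set X := ν / r ^ 2 * (1 / 2 * z + κ * (ρ ^ 2 / (ρ * ρc)) * zc) * r ^ 2
    field_simp
    ring
  have t3 : ((ν / r ^ 2 * (1 / 2 * z + κ * (ρ ^ 2 / (ρ * ρc)) * zc) * r ^ 2 +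
      v * (((2 : ℕ) : ℂ) * r ^ (2 - 1) * (e * s))) * (ν * ρ) - v * r ^ 2 * (ν * (ρ * (q / r)))) / (ν * ρ) ^ 2 =
      1 / 2 * (z / ρ) + κ * (zc / ρc) + v * r / (ν * ρ) * (2 * (e * s) - q) := by
    rw [← t1, ← t2]
    norm_num
  have hmul : (V * fun i : ℝ => ((1 - e * Real.cos i : ℝ) : ℂ) ^ 2) u = v * r ^ 2 := rfl
  rw [hmul, t3]
  linear_combination (z / ρ) * key

end Pool.Agent.D0H95.BF
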